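import Pool.Agent.H37.PPC.Defs

/-!
PROJECT PPE (MP_e38f6a_co): almost all orders of planar cyclic difference sets are primes.
Definitions.  Integer matrices (r,t;s,q) with r q - s t = 1 are coded by (r,s,t), q = (1+s t)/r.
-/

set_option autoImplicit false

namespace Pool.Agent.H37.PPE

open Finset

/-- the fourth entry of the matrix coded by `(r,s,t)` -/
def qq (x : ℤ × ℤ × ℤ) : ℤ := (1 + x.2.1 * x.2.2) / x.1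

/-- matrices with `R ≤ r < 8R`, `-r ≤ s < r`, `-L r ≤ t < L r` -/
noncomputable def box (R L : ℕ) : Finset (ℤ × ℤ × ℤ) :=
  ((Ico (R : ℤ) (8 * R)) ×ˢ ((Ico (-(8 * R : ℤ)) (8 * R)) ×ˢ
    (Ico (-(8 * R * L : ℤ)) (8 * R * L)))).filter
    (fun x => -x.1 ≤ x.2.1 ∧ x.2.1 < x.1 ∧ -(L * x.1) ≤ x.2.2 ∧ x.2.2 < L * x.1 ∧
      x.1 ∣ 1 + x.2.1 * x.2.2)

/-- residue class mod `M` -/
def InCl (M : ℕ) (r0 s0 t0 q0 : ℤ) (x : ℤ × ℤ × ℤ) : Prop :=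
  (M : ℤ) ∣ x.1 - r0 ∧ (M : ℤ) ∣ x.2.1 - s0 ∧ (M : ℤ) ∣ x.2.2 - t0 ∧ (M : ℤ) ∣ qq x - q0

open Classical in
/-- number of `(r,s,t,q)` mod `p` with `r q - s t = 1` and `S r s t q` -/
noncomputable def slc (p : ℕ) (S : ℤ → ℤ → ℤ → ℤ → Prop) : ℕ :=
  ((range p ×ˢ (range p ×ˢ (range p ×ˢ range p))).filter
    (fun x => (p : ℤ) ∣ (x.1 : ℤ) * (x.2.2.2 : ℤ) - (x.2.1 : ℤ) * (x.2.2.1 : ℤ) - 1 ∧
      S x.1 x.2.1 x.2.2.1 x.2.2.2)).card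

/-- the density -/
noncomputable def dn (p : ℕ) (S : ℤ → ℤ → ℤ → ℤ → Prop) : ℝ :=
  (slc p S : ℝ) / (slc p (fun _ _ _ _ => True) : ℝ)

/-- periodic mod `p` -/
def Per (p : ℕ) (S : ℤ → ℤ → ℤ → ℤ → Prop) : Prop :=
  ∀ r s t q r' s' t' q' : ℤ, (p : ℤ) ∣ r - r' → (p : ℤ) ∣ s - s' → (p : ℤ) ∣ t - t' →
    (p : ℤ) ∣ q - q' → (S r s t q ↔ S r' s' t' q')

/-- the product of the primes `p ∥ r`, `p ∤ M` -/
def mm (M r : ℕ) : ℕ := ∏ p ∈ r.primeFactors.filter (fun p => ¬ p ^ 2 ∣ r ∧ ¬ p ∣ M), p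

/-- the cofactor -/
def kk (M r : ℕ) : ℕ := r / mm M r

/-- `r ∏_{p ∣ r, p ∤ M} (1 - 1/p)` -/
noncomputable def phiM (M r : ℕ) : ℝ :=
  ∑ d ∈ r.divisors.filter (fun d => d.Coprime M), (ArithmeticFunction.moebius d : ℝ) * ((r : ℝ) / d)

/-- local density of the sieve -/
noncomputable def rho (p : ℕ) : ℝ := 2 * (2 * p - 1) / (p * (p + 1))

/-- first sieve polynomial: `(r²+rs+s²)(t²+tq+q²)` -/
def F1 (r s t q : ℤ) : ℤ := (r ^ 2 + r * s + s ^ 2) * (t ^ 2 + t * q + q ^ 2)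

/-- second sieve polynomial -/
def F2 (r s t q : ℤ) : ℤ := (r ^ 2 - 3 * s ^ 2 + (t ^ 2 - 3 * q ^ 2)) ^ 2 + 12

/-- the condition for a small prime `p`: `p ∤ F2`, and if `u+w = 2σ` mod `p` then `A + B ι` is a square -/
def G2 (σ : ℤ) (p : ℕ) (r s t q : ℤ) : Prop :=
  ¬ (p : ℤ) ∣ F2 r s t q ∧
  ¬ ((p : ℤ) ∣ (r ^ 2 - 3 * s ^ 2 + (t ^ 2 - 3 * q ^ 2)) - 2 * σ ∧
    ∃ ι : ZMod p, ι ^ 2 = -1 ∧
      ¬ IsSquare (((t ^ 2 - 3 * q ^ 2 - (r ^ 2 - 3 * s ^ 2) : ℤ) : ZMod p)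
        + 2 * ι * ((r * t - 3 * s * q : ℤ) : ZMod p)))

end Pool.Agent.H37.PPE
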