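import Pool.Agent.H37.PPC.CC
import Pool.Agent.H37.PPE.Defs

/-!
PPE MN: consequence of the Mann test when v = n²+n+1 is a prime ≡ 1 mod 4.
-/

set_option autoImplicit false

namespace Pool.Agent.H37.PPE

open Finset Pool.Agent.H37.PPC

theorem MN {n p : ℕ} (hn : Good n) (hv : (n ^ 2 + n + 1).Prime) (h4 : (n ^ 2 + n + 1) % 4 = 1)
    (hp : p.Prime) (hpn : p ∣ n) :
    ((p : ℕ) : ZMod (n ^ 2 + n + 1)) ^ ((n ^ 2 + n + 1 - 1) / 4) = 1 := by
  obtain ⟨hn2, ⟨D, hcard, hD⟩, hsq⟩ := hn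
  haveI : Fact (n ^ 2 + n + 1).Prime := ⟨hv⟩
  obtain ⟨r0, hr0⟩ := multiplier n D hcard hD p hp hpn
  have hcop : Nat.Coprime p (n ^ 2 + n + 1) := by
    rw [Nat.Prime.coprime_iff_not_dvd hp]
    intro h
    have h1 : p ∣ n * (n + 1) := hpn.mul_right _
    have h2 : n ^ 2 + n + 1 = n * (n + 1) + 1 := by ring
    rw [h2] at h
    exact hp.one_lt.ne' (Nat.dvd_one.mp ((Nat.dvd_add_right h1).mp h))
  have hpu : IsUnit (p : ZMod (n ^ 2 + n + 1)) := (ZMod.isUnit_iff_coprime _ _).mpr hcop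
  have hne : ∀ k : ℕ, (p : ZMod (n ^ 2 + n + 1)) ^ k ≠ -1 := fun k hk =>
    hsq (mann n hn2 D hcard hD p r0 hr0 hpu _ hv dvd_rfl k hk)
  set P : ZMod (n ^ 2 + n + 1) := (p : ZMod (n ^ 2 + n + 1)) with hP
  have hP0 : P ≠ 0 := hpu.ne_zero
  have h1 : P ^ (n ^ 2 + n + 1 - 1) = 1 := ZMod.pow_card_sub_one_eq_one hP0
  have hdvd : orderOf P ∣ n ^ 2 + n + 1 - 1 := orderOf_dvd_of_pow_eq_one h1
  have hpos : 0 < orderOf P := by
    rw [orderOf_pos_iff]
    refine isOfFinOrder_iff_pow_eq_one.2 ⟨n ^ 2 + n + 1 - 1, by rw [Nat.add_sub_cancel]; positivity, h1⟩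
  have hodd : Odd (orderOf P) := by
    rw [← Nat.not_even_iff_odd]
    rintro ⟨j, hj⟩
    have hj0 : 0 < j := by omega
    have h2 : (P ^ j) ^ 2 = 1 := by
      rw [← pow_mul, show j * 2 = orderOf P by omega, pow_orderOf_eq_one]
    rcases sq_eq_one_iff.1 h2 with h3 | h3
    · have := orderOf_dvd_of_pow_eq_one h3
      have := Nat.le_of_dvd hj0 this
      omega
    · exact hne j h3
  have h4' : 4 ∣ n ^ 2 + n + 1 - 1 := by omega
  obtain ⟨m, hm⟩ := h4'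
  rw [hm, Nat.mul_div_cancel_left m (by norm_num)]
  have hc : Nat.Coprime (orderOf P) 4 := by
    have : Nat.Coprime (orderOf P) 2 := by
      rw [Nat.coprime_comm]
      exact (Nat.Prime.coprime_iff_not_dvd Nat.prime_two).2 (fun h =>
        (Nat.not_even_iff_odd.2 hodd) (even_iff_two_dvd.2 h))
    exact Nat.Coprime.mul_right this this
  rw [hm] at hdvd
  exact orderOf_dvd_iff_pow_eq_one.1 (hc.dvd_of_dvd_mul_left hdvd)

end Pool.Agent.H37.PPE
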