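import Pool.Agent.H37.PPE.Defs

/-!
PPE QL: a piece of quartic reciprocity.

v ≡ 1 mod 4 prime.  Fix a quartic character of F_v with values in ℤ[i] (GaussianInt): χ₀ : MulChar (ZMod v) GaussianInt of order 4 (generator ↦ i), J₀ = jacobiSum χ₀ χ₀ = A + B i.
 (1) A² + B² = v: J₀ · conj J₀ = jacobiSum χ₀ χ₀ * jacobiSum χ₀⁻¹ χ₀⁻¹ = v (Mathlib: jacobiSum_mul_jacobiSum_inv; conj J₀ = J(χ₀⁻¹,χ₀⁻¹); χ₀² ≠ 1).
 (2) B even, since J₀ ≡ -1 mod (i-1)² (Mathlib: exists_jacobiSum_eq_neg_one_add), (i-1)² = -2i.  (Or: if B is odd then A is even and iJ₀ has even second component; but the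
     same (A,B) must work for all p, and multiplying by i changes squares mod p when p ≡ 5 mod 8, so this really needs (2).)
 (3) Let p ≡ 1 mod 4 be a prime with p ∣ v - 1 (so v = 1 in characteristic p), ι ∈ ZMod p, ι² = -1.  Let K be a field of characteristic p containing ZMod p and a
     primitive v-th root of unity ζ (algebraic closure of ZMod p; p ≠ v), χ : MulChar (ZMod v) K the composition of χ₀ with i ↦ ι (ring hom ℤ[i] → ZMod p → K),
     g = gaussSum χ ψ, ψ the additive character t ↦ ζ^t.  jacobiSum χ χ = image of J₀ = A + Bι.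
     g² = J · g(χ²) (jacobiSum_mul_nontrivial, χ² ≠ 1), g(χ²)² = χ²(-1) v = 1 (quadratic Gauss sum, χ²(-1) = 1 as v ≡ 1 mod 4, v = 1 in K), so g⁴ = J².
     Frobenius (gaussSum_frob, χ^p = χ as p ≡ 1 mod 4): g^p = χ(p)⁻¹ g, g ≠ 0, so g^(p-1) = χ(p)⁻¹.
     Hence (A+Bι)^((p-1)/2) = J^((p-1)/2) = (g⁴)^((p-1)/4) = χ(p)⁻¹.
     If p^((v-1)/4) = 1 in ZMod v then p is a fourth power mod v, χ(p) = 1 and (A+Bι)^((p-1)/2) = 1: Euler's criterion: A+Bι is a square.
-/

set_option autoImplicit false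

namespace Pool.Agent.H37.PPE

open Finset

private theorem QL_root : IsPrimitiveRoot (⟨0, 1⟩ : GaussianInt) 4 := by
  have h2 : (⟨0, 1⟩ : GaussianInt) ^ 2 = -1 := by decide
  have h4 : (⟨0, 1⟩ : GaussianInt) ^ 4 = 1 := by decide
  refine IsPrimitiveRoot.mk_of_lt _ (by norm_num) h4 ?_
  intro l hl0 hl4 
  interval_cases l <;> decide

private theorem QL_fourth (v : ℕ) (hv : v.Prime) (h4 : v % 4 = 1) (x : ZMod v)
    (hx : x ^ ((v - 1) / 4) = 1) : ∃ q : (ZMod v)ˣ, x = ((q ^ 4 : (ZMod v)ˣ) : ZMod v) := by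
  have : Fact v.Prime := ⟨hv⟩
  have hpos : 0 < (v - 1) / 4 := by
    have := hv.two_le
    omega
  have hx0 : x ≠ 0 := by
    rintro rfl
    rw [zero_pow hpos.ne'] at hx
    exact zero_ne_one hx
  obtain ⟨g, hg⟩ := IsCyclic.exists_generator (α := (ZMod v)ˣ)
  obtain ⟨k, hk⟩ := (mem_powers_iff_mem_zpowers).mpr (hg (Units.mk0 x hx0))
  simp only at hk
  have hord : orderOf g = v - 1 := by
    rw [orderOf_eq_card_of_forall_mem_zpowers hg, Nat.card_eq_fintype_card,
      ZMod.card_units]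
  have h1 : g ^ (k * ((v - 1) / 4)) = 1 := by
    rw [pow_mul, hk]
    apply Units.ext
    simpa using hx
  have h2 := orderOf_dvd_of_pow_eq_one h1
  rw [hord] at h2
  obtain ⟨w, hw⟩ : ∃ w, v - 1 = 4 * w := ⟨(v - 1) / 4, by omega⟩
  have hw2 : (v - 1) / 4 = w := by omega
  rw [hw2] at h2
  rw [hw] at h2
  have hwpos : 0 < w := by omega
  have h3 : 4 ∣ k := Nat.dvd_of_mul_dvd_mul_right hwpos h2
  obtain ⟨m, rfl⟩ := h3
  refine ⟨g ^ m, ?_⟩
  rw [← pow_mul, mul_comm m 4, hk]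
  rfl

theorem QL (v : ℕ) (hv : v.Prime) (h4 : v % 4 = 1) : ∃ A B : ℤ, A ^ 2 + B ^ 2 = v ∧ (2 : ℤ) ∣ B ∧
    ∀ p : ℕ, p.Prime → p % 4 = 1 → p ∣ v - 1 → ((p : ℕ) : ZMod v) ^ ((v - 1) / 4) = 1 →
      ∀ ι : ZMod p, ι ^ 2 = -1 → IsSquare ((A : ZMod p) + (B : ZMod p) * ι) := by
  have : Fact v.Prime := ⟨hv⟩
  have hdiv : 4 ∣ Fintype.card (ZMod v) - 1 := by
    rw [ZMod.card]; omega
  obtain ⟨χ₀, hχ₀⟩ := MulChar.exists_mulChar_orderOf (ZMod v) hdiv QL_root
  have hχ4 : χ₀ ^ 4 = 1 := by rw [← hχ₀]; exact pow_orderOf_eq_one χ₀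
  have hχ2 : χ₀ * χ₀ ≠ 1 := by
    rw [← pow_two]
    intro h
    have := orderOf_dvd_of_pow_eq_one h
    rw [hχ₀] at this
    norm_num at this
  have hχ1 : χ₀ ≠ 1 := by
    rintro rfl
    exact hχ2 (mul_one 1)
  refine ⟨(jacobiSum χ₀ χ₀).re, (jacobiSum χ₀ χ₀).im, ?_, ?_, ?_⟩
  · -- norm
    set φ := χ₀.ringHomComp GaussianInt.toComplex with hφ
    have hinj : Function.Injective GaussianInt.toComplex := GaussianInt.toComplex_injective
    have h1 : φ ≠ 1 := (MulChar.ringHomComp_ne_one_iff hinj).mpr hχ1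
    have h2 : φ * φ ≠ 1 := by
      rw [hφ, ← MulChar.ringHomComp_mul]
      exact (MulChar.ringHomComp_ne_one_iff hinj).mpr hχ2
    have hch : ringChar ℂ ≠ ringChar (ZMod v) := by
      rw [ringChar.eq ℂ 0, ZMod.ringChar_zmod_n]
      exact hv.ne_zero.symm
    have h3 := jacobiSum_mul_jacobiSum_inv hch h1 h1 h2
    have h4' : jacobiSum φ⁻¹ φ⁻¹ = star (jacobiSum φ φ) := by
      unfold jacobiSum
      rw [star_sum]
      refine Finset.sum_congr rfl fun x _ => ?_
      rw [star_mul', MulChar.star_apply', MulChar.star_apply']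
    rw [h4', ZMod.card, hφ, jacobiSum_ringHomComp] at h3
    have h5 : Complex.normSq (GaussianInt.toComplex (jacobiSum χ₀ χ₀)) = v := by
      have h6 : ((Complex.normSq (GaussianInt.toComplex (jacobiSum χ₀ χ₀)) : ℝ) : ℂ)
          = ((v : ℝ) : ℂ) := by
        rw [Complex.normSq_eq_conj_mul_self, mul_comm]
        simpa using h3
      exact_mod_cast h6
    rw [Complex.normSq_apply, ← GaussianInt.intCast_re, ← GaussianInt.intCast_im] at h5
    have h7 : (((jacobiSum χ₀ χ₀).re ^ 2 + (jacobiSum χ₀ χ₀).im ^ 2 : ℤ) : ℝ) = ((v : ℤ) : ℝ) := by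
      push_cast
      nlinarith [h5]
    exact_mod_cast h7
  · obtain ⟨z, _, hz⟩ := exists_jacobiSum_eq_neg_one_add (n := 4) (by norm_num) hχ4 hχ4 hdiv QL_root
    have h1 : ((⟨0, 1⟩ : GaussianInt) - 1) ^ 2 = ⟨0, -2⟩ := by decide
    rw [hz, h1]
    refine ⟨- z.re, ?_⟩
    simp [Zsqrtd.im_add, Zsqrtd.im_mul]
    ring
  · intro p hp hp4 hpv hpow ι hι
    have : Fact p.Prime := ⟨hp⟩
    have hp2 : p ≠ 2 := by
      rintro rfl
      norm_num at hp4
    -- p is a fourth power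
    obtain ⟨q, hq⟩ := QL_fourth v hv h4 _ hpow
    have hpne : p ≠ v := by
      rintro rfl
      have := Nat.le_of_dvd (by have := hv.two_le; omega) hpv
      have := hv.two_le
      omega
    have hch : ringChar (ZMod p) ≠ ringChar (ZMod v) := by
      rw [ZMod.ringChar_zmod_n, ZMod.ringChar_zmod_n]
      exact hpne
    let ψ := AddChar.FiniteField.primitiveChar (ZMod v) (ZMod p) hch
    let K := CyclotomicField ψ.n (ZMod p)
    have hK : CharP K p := charP_of_injective_algebraMap (algebraMap (ZMod p) K).injective p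
    let f : GaussianInt →+* ZMod p := Zsqrtd.lift ⟨ι, by rw [← pow_two, hι]; push_cast; ring⟩
    let F1 : GaussianInt →+* K := (algebraMap (ZMod p) K).comp f
    set χ := χ₀.ringHomComp F1 with hχ
    have hf : f (jacobiSum χ₀ χ₀) = ((jacobiSum χ₀ χ₀).re : ZMod p)
        + ((jacobiSum χ₀ χ₀).im : ZMod p) * ι := rfl
    have hJ : jacobiSum χ χ = algebraMap (ZMod p) K (f (jacobiSum χ₀ χ₀)) := by
      rw [hχ, jacobiSum_ringHomComp]; rfl
    have hneg : (-1 : K) ≠ 1 := by
      intro h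
      have h2 : (2 : K) = 0 := by
        rw [← one_add_one_eq_two]
        nth_rewrite 2 [← h]
        exact add_neg_cancel 1
      have h3 : ((2 : ℕ) : K) = 0 := by exact_mod_cast h2
      rw [CharP.cast_eq_zero_iff K p] at h3
      exact hp2 ((Nat.prime_dvd_prime_iff_eq hp Nat.prime_two).mp h3)
    have hc4 : χ ^ 4 = 1 := by
      rw [hχ, MulChar.ringHomComp_pow, hχ4]
      exact MulChar.ringHomComp_one _
    have hcc : χ * χ ≠ 1 := by
      obtain ⟨a, ha⟩ := MulChar.ne_one_iff.mp hχ2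
      intro h
      have h1 : (χ * χ) a = 1 := by rw [h]; exact MulChar.one_apply_coe a
      have h2 : ((χ₀ * χ₀) a) ^ 2 = 1 := by
        have h3 : (χ₀ ^ 4) a = 1 := by rw [hχ4]; exact MulChar.one_apply_coe a
        rw [MulChar.pow_apply_coe] at h3
        rw [MulChar.mul_apply]
        rw [← h3]; ring
      have h4 : (χ₀ * χ₀) a = -1 := by
        rcases sq_eq_one_iff.mp h2 with h | h
        · exact absurd h ha
        · exact h
      have h5 : (χ * χ) a = F1 ((χ₀ * χ₀) a) := by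
        rw [hχ, ← MulChar.ringHomComp_mul]; rfl
      rw [h5, h4, map_neg, map_one] at h1
      exact hneg h1
    have hc1 : χ ≠ 1 := by
      intro h
      rw [h] at hcc
      exact hcc (mul_one 1)
    have hquad : (χ * χ).IsQuadratic := by
      rw [MulChar.isQuadratic_iff_sq_eq_one, ← pow_two, ← pow_mul]
      exact hc4
    have hv1 : ((v : ℕ) : K) = 1 := by
      obtain ⟨m, hm⟩ := hpv
      have h1 : v = p * m + 1 := by
        have := hv.two_le
        omega
      have h2 : ((v : ℕ) : K) = ((p * m + 1 : ℕ) : K) := congrArg _ h1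
      have h3 : ((p * m : ℕ) : K) = 0 := (CharP.cast_eq_zero_iff K p _).mpr (Dvd.intro m rfl)
      rw [h2, Nat.cast_add, h3, Nat.cast_one, zero_add]
    have hg2 : gaussSum (χ * χ) ψ.char ^ 2 = 1 := by
      rw [gaussSum_sq hcc hquad ψ.prim, ZMod.card, hv1, MulChar.mul_apply, ← map_mul]
      simp
    have hgg := jacobiSum_mul_nontrivial hcc ψ.char
    set g := gaussSum χ ψ.char with hg
    have hg4 : g ^ 4 = (jacobiSum χ χ) ^ 2 := by
      have : g ^ 4 = (g * g) ^ 2 := by ring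
      rw [this, ← hgg, mul_pow, hg2, one_mul]
    have hg0 : g ≠ 0 := by
      apply gaussSum_ne_zero_of_nontrivial _ hc1 ψ.prim
      rw [ZMod.card, hv1]
      exact one_ne_zero
    have hcp : χ ^ p = χ := by
      have h1 : p = 4 * (p / 4) + 1 := by omega
      have h2 : χ ^ p = χ ^ (4 * (p / 4) + 1) := congrArg (fun k => χ ^ k) h1
      rw [h2, pow_add, pow_mul, hc4, one_pow, one_mul, pow_one]
    have hpu : IsUnit ((p : ℕ) : ZMod v) := by
      rw [hq]; exact Units.isUnit _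
    have hχp : χ (p : ZMod v) = 1 := by
      rw [hq, Units.val_pow_eq_pow_val, map_pow, ← MulChar.pow_apply_coe, hc4]
      exact MulChar.one_apply_coe q
    have hfrob : g ^ p = g := by
      have h1 := gaussSum_frob p χ ψ.char
      rw [hcp, AddChar.pow_mulShift] at h1
      have h2 := gaussSum_mulShift χ ψ.char hpu.unit
      rw [hpu.unit_spec, hχp, one_mul] at h2
      rw [hg, h1, h2]
    have hg1 : g ^ (p - 1) = 1 := by
      have h1 : g ^ (p - 1) * g = 1 * g := by
        rw [← pow_succ, Nat.sub_add_cancel hp.one_le, hfrob, one_mul]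
      exact mul_right_cancel₀ hg0 h1
    have hJ1 : (jacobiSum χ χ) ^ (p / 2) = 1 := by
      have h1 : p / 2 = 2 * ((p - 1) / 4) := by omega
      have h2 : p - 1 = 4 * ((p - 1) / 4) := by omega
      rw [h1, pow_mul, ← hg4, ← pow_mul, ← h2, hg1]
    rw [hJ, ← map_pow] at hJ1
    have hJ2 : (f (jacobiSum χ₀ χ₀)) ^ (p / 2) = 1 := by
      apply (algebraMap (ZMod p) K).injective
      rw [hJ1, map_one]
    rw [← hf]
    have hne : f (jacobiSum χ₀ χ₀) ≠ 0 := by
      intro h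
      rw [h, zero_pow] at hJ2
      · exact zero_ne_one hJ2
      · have := hp.two_le
        omega
    exact (ZMod.euler_criterion p hne).mpr hJ2

end Pool.Agent.H37.PPE
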