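import Pool.Agent.H37.PPE.EC

/-!
PPE CR: equidistribution with local conditions at a finite set of primes.

M = ∏ Q.  Let G = {g ∈ {0..M-1}^4 : M ∣ r q - s t - 1}, G_S = {g ∈ G : ∀ p∈Q, S p g}.  By CRT (ZMod.prodEquivPi, or induction on Q)
 |G| = ∏_{p∈Q} slc p ⊤, |G_S| = ∏_{p∈Q} slc p (S p) (periodicity).  slc p ⊤ > 0.
Every x ∈ box lies in exactly one class g ∈ G (r q - s t = 1), and satisfies the local conditions iff g ∈ G_S.
So #{x ∈ box : ∀ p∈Q, S p ..} = |G_S| Z + O(|G_S| err), #box = |G| Z + O(|G| err), err = C L M² R^{2-1/40} (EC), |G_S| ≤ |G| ≤ M^4: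
 the difference #{..} - #box |G_S|/|G| is ≤ 2 |G_S| err ≤ 2 C L M^6 R^{2-1/40}.
-/

set_option autoImplicit false

namespace Pool.Agent.H37.PPE

open Finset

open Classical in
/-- the classes mod `m` with the property `c` -/
private noncomputable def CR_G (m : ℕ) (c : ℤ → ℤ → ℤ → ℤ → Prop) : Finset (ℕ × ℕ × ℕ × ℕ) :=
  (range m ×ˢ (range m ×ˢ (range m ×ˢ range m))).filter
    (fun x => c x.1 x.2.1 x.2.2.1 x.2.2.2)

private theorem CR_mem_G {m : ℕ} {c : ℤ → ℤ → ℤ → ℤ → Prop} {r s t q : ℕ} :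
    (r, s, t, q) ∈ CR_G m c ↔ (r < m ∧ s < m ∧ t < m ∧ q < m) ∧ c r s t q := by
  classical
  simp only [CR_G, mem_filter, mem_product, mem_range]

private theorem CR_uniq {m n x y : ℕ} (h : m.Coprime n) (hx : x < m * n) (hy : y < m * n)
    (h1 : x % m = y % m) (h2 : x % n = y % n) : x = y :=
  Nat.ModEq.eq_of_lt_of_lt ((Nat.modEq_and_modEq_iff_modEq_mul h).1 ⟨h1, h2⟩) hx hy

private theorem CR_crt {m n : ℕ} (hm : 0 < m) (hn : 0 < n) (h : m.Coprime n) (a b : ℕ) (ha : a < m)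
    (hb : b < n) : ∃ x, x < m * n ∧ x % m = a ∧ x % n = b := by
  refine ⟨Nat.chineseRemainder h a b, Nat.chineseRemainder_lt_mul h a b hm.ne' hn.ne', ?_, ?_⟩
  · have := (Nat.chineseRemainder h a b).2.1
    unfold Nat.ModEq at this
    rw [this, Nat.mod_eq_of_lt ha]
  · have := (Nat.chineseRemainder h a b).2.2
    unfold Nat.ModEq at this
    rw [this, Nat.mod_eq_of_lt hb]

private theorem CR_dvd_mod (m x : ℕ) : (m : ℤ) ∣ (x : ℤ) - ((x % m : ℕ) : ℤ) := by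
  have h := Nat.mod_add_div x m
  refine ⟨((x / m : ℕ) : ℤ), ?_⟩
  have h' : ((x % m : ℕ) : ℤ) + (m : ℤ) * ((x / m : ℕ) : ℤ) = (x : ℤ) := by exact_mod_cast h
  linarith

private theorem CR_per_mod {m : ℕ} {c : ℤ → ℤ → ℤ → ℤ → Prop} (hc : Per m c) (r s t q : ℕ) :
    c r s t q ↔ c ((r % m : ℕ) : ℤ) ((s % m : ℕ) : ℤ) ((t % m : ℕ) : ℤ) ((q % m : ℕ) : ℤ) :=
  hc _ _ _ _ _ _ _ _ (CR_dvd_mod m r) (CR_dvd_mod m s) (CR_dvd_mod m t) (CR_dvd_mod m q)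

private theorem CR_mul {m n : ℕ} (hm : 0 < m) (hn : 0 < n) (h : m.Coprime n)
    {c d : ℤ → ℤ → ℤ → ℤ → Prop} (hc : Per m c) (hd : Per n d) :
    (CR_G (m * n) (fun r s t q => c r s t q ∧ d r s t q)).card =
      (CR_G m c).card * (CR_G n d).card := by
  rw [← Finset.card_product]
  apply Finset.card_bij (fun x _ => ((x.1 % m, x.2.1 % m, x.2.2.1 % m, x.2.2.2 % m),
    (x.1 % n, x.2.1 % n, x.2.2.1 % n, x.2.2.2 % n)))
  · rintro ⟨r, s, t, q⟩ hx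
    obtain ⟨-, h1, h2⟩ := CR_mem_G.1 hx
    rw [Finset.mem_product]
    refine ⟨CR_mem_G.2 ⟨⟨Nat.mod_lt _ hm, Nat.mod_lt _ hm, Nat.mod_lt _ hm, Nat.mod_lt _ hm⟩, ?_⟩,
      CR_mem_G.2 ⟨⟨Nat.mod_lt _ hn, Nat.mod_lt _ hn, Nat.mod_lt _ hn, Nat.mod_lt _ hn⟩, ?_⟩⟩
    · exact (CR_per_mod hc r s t q).1 h1
    · exact (CR_per_mod hd r s t q).1 h2
  · rintro ⟨r, s, t, q⟩ hx ⟨r', s', t', q'⟩ hx' heq
    obtain ⟨⟨h1, h2, h3, h4⟩, -⟩ := CR_mem_G.1 hx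
    obtain ⟨⟨h1', h2', h3', h4'⟩, -⟩ := CR_mem_G.1 hx'
    simp only [Prod.mk.injEq] at heq
    obtain ⟨⟨e1, e2, e3, e4⟩, f1, f2, f3, f4⟩ := heq
    rw [CR_uniq h h1 h1' e1 f1, CR_uniq h h2 h2' e2 f2, CR_uniq h h3 h3' e3 f3,
      CR_uniq h h4 h4' e4 f4]
  · rintro ⟨⟨a1, a2, a3, a4⟩, ⟨b1, b2, b3, b4⟩⟩ hx
    rw [Finset.mem_product] at hx
    obtain ⟨⟨h1, h2, h3, h4⟩, hc'⟩ := CR_mem_G.1 hx.1
    obtain ⟨⟨k1, k2, k3, k4⟩, hd'⟩ := CR_mem_G.1 hx.2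
    obtain ⟨x1, y1, z1, w1⟩ := CR_crt hm hn h a1 b1 h1 k1
    obtain ⟨x2, y2, z2, w2⟩ := CR_crt hm hn h a2 b2 h2 k2
    obtain ⟨x3, y3, z3, w3⟩ := CR_crt hm hn h a3 b3 h3 k3
    obtain ⟨x4, y4, z4, w4⟩ := CR_crt hm hn h a4 b4 h4 k4
    refine ⟨(x1, x2, x3, x4), CR_mem_G.2 ⟨⟨y1, y2, y3, y4⟩, ?_, ?_⟩, ?_⟩
    · rw [CR_per_mod hc, z1, z2, z3, z4]
      exact hc'
    · rw [CR_per_mod hd, w1, w2, w3, w4]
      exact hd'
    · simp only [z1, z2, z3, z4, w1, w2, w3, w4]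

private theorem CR_Per_prod {Q : Finset ℕ} {c : ℕ → ℤ → ℤ → ℤ → ℤ → Prop}
    (hc : ∀ p ∈ Q, Per p (c p)) : Per (∏ p ∈ Q, p) (fun r s t q => ∀ p ∈ Q, c p r s t q) := by
  intro r s t q r' s' t' q' h1 h2 h3 h4
  have hd : ∀ p ∈ Q, (p : ℤ) ∣ ((∏ p ∈ Q, p : ℕ) : ℤ) := fun p hp =>
    Int.natCast_dvd_natCast.2 (Finset.dvd_prod_of_mem (fun p => p) hp)
  constructor
  · intro h p hp
    exact (hc p hp _ _ _ _ _ _ _ _ ((hd p hp).trans h1) ((hd p hp).trans h2)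
      ((hd p hp).trans h3) ((hd p hp).trans h4)).1 (h p hp)
  · intro h p hp
    exact (hc p hp _ _ _ _ _ _ _ _ ((hd p hp).trans h1) ((hd p hp).trans h2)
      ((hd p hp).trans h3) ((hd p hp).trans h4)).2 (h p hp)

private theorem CR_prod (Q : Finset ℕ) (hQ : ∀ p ∈ Q, p.Prime)
    (c : ℕ → ℤ → ℤ → ℤ → ℤ → Prop) (hc : ∀ p ∈ Q, Per p (c p)) :
    (CR_G (∏ p ∈ Q, p) (fun r s t q => ∀ p ∈ Q, c p r s t q)).card =
      ∏ p ∈ Q, (CR_G p (c p)).card := by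
  classical
  induction Q using Finset.induction_on with
  | empty =>
    rw [Finset.prod_empty, Finset.prod_empty, Finset.card_eq_one]
    refine ⟨(0, 0, 0, 0), ?_⟩
    ext ⟨r, s, t, q⟩
    rw [CR_mem_G, Finset.mem_singleton]
    simp only [Finset.notMem_empty, false_imp_iff, implies_true, and_true, Prod.mk.injEq,
      Nat.lt_one_iff]
  | insert p Q hp ih =>
    have hQ' : ∀ p ∈ Q, p.Prime := fun r hr => hQ r (Finset.mem_insert_of_mem hr)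
    have hc' : ∀ p ∈ Q, Per p (c p) := fun r hr => hc r (Finset.mem_insert_of_mem hr)
    have hpp : p.Prime := hQ p (Finset.mem_insert_self p Q)
    rw [Finset.prod_insert hp, Finset.prod_insert hp, ← ih hQ' hc']
    have hcop : p.Coprime (∏ r ∈ Q, r) := by
      apply Nat.Coprime.prod_right
      intro r hr
      rw [Nat.coprime_primes hpp (hQ' r hr)]
      rintro rfl
      exact hp hr
    rw [← CR_mul hpp.pos (Finset.prod_pos fun r hr => (hQ' r hr).pos) hcop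
      (hc p (Finset.mem_insert_self p Q)) (CR_Per_prod hc')]
    congr 2
    funext r s t q
    rw [Finset.forall_mem_insert]

private theorem CR_Per_and {p : ℕ} {S : ℤ → ℤ → ℤ → ℤ → Prop} (hS : Per p S) :
    Per p (fun r s t q => (p : ℤ) ∣ r * q - s * t - 1 ∧ S r s t q) := by
  intro r s t q r' s' t' q' h1 h2 h3 h4
  have e : (p : ℤ) ∣ (r * q - s * t - 1) - (r' * q' - s' * t' - 1) := by
    have : (r * q - s * t - 1) - (r' * q' - s' * t' - 1) =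
        (r - r') * q + r' * (q - q') - ((s - s') * t + s' * (t - t')) := by ring
    rw [this]
    exact dvd_sub (dvd_add (h1.mul_right _) (h4.mul_left _))
      (dvd_add (h2.mul_right _) (h3.mul_left _))
  constructor
  · rintro ⟨h5, h6⟩
    exact ⟨(dvd_sub_right h5).1 e, (hS _ _ _ _ _ _ _ _ h1 h2 h3 h4).1 h6⟩
  · rintro ⟨h5, h6⟩
    exact ⟨(dvd_sub_left h5).1 e, (hS _ _ _ _ _ _ _ _ h1 h2 h3 h4).2 h6⟩

private theorem CR_slc (p : ℕ) (S : ℤ → ℤ → ℤ → ℤ → Prop) :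
    slc p S = (CR_G p (fun r s t q => (p : ℤ) ∣ r * q - s * t - 1 ∧ S r s t q)).card := by
  classical
  unfold slc CR_G
  congr!

private theorem CR_toNat {M : ℕ} (hM : 0 < M) (x : ℤ) (g : ℕ) (hg : g < M) :
    (x % (M : ℤ)).toNat = g ↔ (M : ℤ) ∣ x - g := by
  have hM' : (0 : ℤ) < M := by exact_mod_cast hM
  have h0 := Int.emod_nonneg x hM'.ne'
  constructor
  · intro h
    have h1 : x % (M : ℤ) = g := by rw [← h, Int.toNat_of_nonneg h0]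
    rw [← h1]
    exact Int.dvd_self_sub_emod
  · intro h
    have h1 : (g : ℤ) % (M : ℤ) = x % (M : ℤ) := Int.modEq_iff_dvd.2 h
    rw [← h1, Int.emod_eq_of_lt (by positivity) (by exact_mod_cast hg), Int.toNat_natCast]

open Classical in
/-- the box is the disjoint union of the classes -/
private theorem CR_fiber (R L : ℕ) (Q : Finset ℕ) (hQ : ∀ p ∈ Q, p.Prime)
    (S : ℕ → ℤ → ℤ → ℤ → ℤ → Prop) (hS : ∀ p ∈ Q, Per p (S p)) :
    ((box R L).filter (fun x => ∀ p ∈ Q, S p x.1 x.2.1 x.2.2 (qq x))).card =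
      ∑ g ∈ CR_G (∏ p ∈ Q, p) (fun r s t q => ∀ p ∈ Q, (p : ℤ) ∣ r * q - s * t - 1 ∧ S p r s t q),
        ((box R L).filter (fun x =>
          InCl (∏ p ∈ Q, p) (g.1 : ℤ) (g.2.1 : ℤ) (g.2.2.1 : ℤ) (g.2.2.2 : ℤ) x)).card := by
  set M := ∏ p ∈ Q, p with hM
  have hM0 : 0 < M := Finset.prod_pos fun p hp => (hQ p hp).pos
  have hM' : (0 : ℤ) < M := by exact_mod_cast hM0
  have hd : ∀ p ∈ Q, (p : ℤ) ∣ (M : ℤ) := fun p hp =>
    Int.natCast_dvd_natCast.2 (Finset.dvd_prod_of_mem (fun p => p) hp)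
  have hlt : ∀ x : ℤ, (x % (M : ℤ)).toNat < M := fun x => by
    have := Int.emod_lt_of_pos x hM'
    have := Int.emod_nonneg x hM'.ne'
    omega
  have hdv : ∀ x : ℤ, (M : ℤ) ∣ x - ((x % (M : ℤ)).toNat : ℤ) := fun x =>
    (CR_toNat hM0 x _ (hlt x)).1 rfl
  rw [Finset.card_eq_sum_card_fiberwise (f := fun x : ℤ × ℤ × ℤ =>
    ((x.1 % (M : ℤ)).toNat, (x.2.1 % (M : ℤ)).toNat, (x.2.2 % (M : ℤ)).toNat,
      (qq x % (M : ℤ)).toNat)) (t := CR_G M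
        (fun r s t q => ∀ p ∈ Q, (p : ℤ) ∣ r * q - s * t - 1 ∧ S p r s t q))]
  · apply Finset.sum_congr rfl
    rintro ⟨r, s, t, q⟩ hg
    obtain ⟨⟨h1, h2, h3, h4⟩, h5⟩ := CR_mem_G.1 hg
    congr 1
    ext x
    rw [Finset.mem_filter, Finset.mem_filter, Finset.mem_filter]
    simp only [Prod.mk.injEq, CR_toNat hM0 _ _ h1, CR_toNat hM0 _ _ h2, CR_toNat hM0 _ _ h3,
      CR_toNat hM0 _ _ h4]
    constructor
    · rintro ⟨⟨hx, -⟩, e1, e2, e3, e4⟩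
      exact ⟨hx, e1, e2, e3, e4⟩
    · rintro ⟨hx, e1, e2, e3, e4⟩
      refine ⟨⟨hx, fun p hp => ?_⟩, e1, e2, e3, e4⟩
      exact (hS p hp _ _ _ _ _ _ _ _ ((hd p hp).trans e1) ((hd p hp).trans e2)
        ((hd p hp).trans e3) ((hd p hp).trans e4)).2 (h5 p hp).2
  · intro x hx
    rw [Finset.mem_coe, Finset.mem_filter] at hx
    obtain ⟨hx1, hx2⟩ := hx
    rw [Finset.mem_coe, CR_mem_G]
    refine ⟨⟨hlt _, hlt _, hlt _, hlt _⟩, fun p hp => ?_⟩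
    have hbox : x.1 ∣ 1 + x.2.1 * x.2.2 := by
      unfold box at hx1
      rw [Finset.mem_filter] at hx1
      exact hx1.2.2.2.2.2
    have hq : x.1 * qq x = 1 + x.2.1 * x.2.2 := Int.mul_ediv_cancel' hbox
    exact (CR_Per_and (hS p hp) _ _ _ _ _ _ _ _ ((hd p hp).trans (hdv x.1))
      ((hd p hp).trans (hdv x.2.1)) ((hd p hp).trans (hdv x.2.2))
      ((hd p hp).trans (hdv (qq x)))).1 ⟨by
        rw [hq]
        have : 1 + x.2.1 * x.2.2 - x.2.1 * x.2.2 - 1 = 0 := by ring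
        rw [this]
        exact dvd_zero _, hx2 p hp⟩

open Classical in
theorem eqd : ∃ C : ℝ, 0 < C ∧ ∀ R L : ℕ, 1 ≤ R → 1 ≤ L → ∀ Q : Finset ℕ, (∀ p ∈ Q, p.Prime) →
    ∀ S : ℕ → ℤ → ℤ → ℤ → ℤ → Prop, (∀ p ∈ Q, Per p (S p)) →
    |(((box R L).filter (fun x => ∀ p ∈ Q, S p x.1 x.2.1 x.2.2 (qq x))).card : ℝ)
        - (box R L).card * ∏ p ∈ Q, dn p (S p)|
      ≤ C * L * (((∏ p ∈ Q, p : ℕ) : ℝ)) ^ 6 * (R : ℝ) ^ (2 - 1 / 40 : ℝ) := by
  obtain ⟨C, hC, hEC⟩ := EC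
  refine ⟨2 * C, by positivity, ?_⟩
  intro R L hR hL Q hQ S hS
  set M := ∏ p ∈ Q, p with hM
  have hM0 : 0 < M := Finset.prod_pos fun p hp => (hQ p hp).pos
  have hsq : Squarefree M := by
    rw [hM]
    exact Finset.squarefree_prod_of_pairwise_isCoprime (fun a ha b hb hab =>
      Nat.coprime_iff_isRelPrime.1 ((Nat.coprime_primes (hQ a ha) (hQ b hb)).2 hab))
      (fun p hp => (hQ p hp).squarefree)
  obtain ⟨Z, hZ⟩ := hEC R L M hR hL hsq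
  set err : ℝ := C * L * (M : ℝ) ^ 2 * (R : ℝ) ^ (2 - 1 / 40 : ℝ) with herr
  have herr0 : 0 ≤ err := by positivity
  -- the general estimate
  have gen : ∀ S : ℕ → ℤ → ℤ → ℤ → ℤ → Prop, (∀ p ∈ Q, Per p (S p)) →
      |(((box R L).filter (fun x => ∀ p ∈ Q, S p x.1 x.2.1 x.2.2 (qq x))).card : ℝ) -
        ((∏ p ∈ Q, slc p (S p) : ℕ) : ℝ) * Z| ≤ ((∏ p ∈ Q, slc p (S p) : ℕ) : ℝ) * err ∧
      ((∏ p ∈ Q, slc p (S p) : ℕ) : ℝ) ≤ (M : ℝ) ^ 4 := by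
    intro S hS
    have hcard : (CR_G M (fun r s t q => ∀ p ∈ Q, (p : ℤ) ∣ r * q - s * t - 1 ∧
        S p r s t q)).card = ∏ p ∈ Q, slc p (S p) := by
      rw [hM, CR_prod Q hQ (fun p r s t q => (p : ℤ) ∣ r * q - s * t - 1 ∧ S p r s t q)
        (fun p hp => CR_Per_and (hS p hp))]
      exact Finset.prod_congr rfl fun p _ => (CR_slc p (S p)).symm
    constructor
    · rw [CR_fiber R L Q hQ S hS, ← hcard, Nat.cast_sum, ← nsmul_eq_mul, ← nsmul_eq_mul,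
        ← Finset.sum_const, ← Finset.sum_const, ← Finset.sum_sub_distrib]
      refine le_trans (Finset.abs_sum_le_sum_abs _ _) ?_
      apply Finset.sum_le_sum
      rintro ⟨r, s, t, q⟩ hg
      obtain ⟨-, h5⟩ := CR_mem_G.1 hg
      apply hZ
      have h6 : ∀ p ∈ Q, (p : ℤ) ∣ (r : ℤ) * q - s * t - 1 := fun p hp => (h5 p hp).1
      rw [hM, Nat.cast_prod]
      apply Finset.prod_dvd_of_coprime
      · intro a ha b hb hab
        exact Nat.isCoprime_iff_coprime.2 ((Nat.coprime_primes (hQ a ha) (hQ b hb)).2 hab)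
      · exact h6
    · rw [← hcard]
      have h1 : (CR_G M (fun r s t q => ∀ p ∈ Q, (p : ℤ) ∣ r * q - s * t - 1 ∧
          S p r s t q)).card ≤ M ^ 4 := by
        refine le_trans (Finset.card_le_card
          (t := range M ×ˢ (range M ×ˢ (range M ×ˢ range M))) ?_) ?_
        · rintro ⟨r, s, t, q⟩ hx
          obtain ⟨⟨h1, h2, h3, h4⟩, -⟩ := CR_mem_G.1 hx
          simp only [Finset.mem_product, Finset.mem_range]
          exact ⟨h1, h2, h3, h4⟩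
        rw [Finset.card_product, Finset.card_product, Finset.card_product, Finset.card_range]
        exact le_of_eq (by ring)
      exact_mod_cast h1
  obtain ⟨g1, g2⟩ := gen S hS
  obtain ⟨g3, -⟩ := gen (fun _ _ _ _ _ => True) (fun p _ _ _ _ _ _ _ _ _ _ _ _ _ => Iff.rfl)
  have hpos : ∀ p ∈ Q, 0 < slc p (fun _ _ _ _ => True) := by
    intro p hp
    rw [CR_slc, Finset.card_pos]
    refine ⟨(1, 0, 0, 1), CR_mem_G.2 ?_⟩
    have := (hQ p hp).two_le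
    refine ⟨⟨by omega, by omega, by omega, by omega⟩, ?_, trivial⟩
    simp
  have hT0 : (0 : ℝ) < ((∏ p ∈ Q, slc p (fun _ _ _ _ => True) : ℕ) : ℝ) := by
    exact_mod_cast Finset.prod_pos hpos
  have hdn : ∏ p ∈ Q, dn p (S p) = ((∏ p ∈ Q, slc p (S p) : ℕ) : ℝ) /
      ((∏ p ∈ Q, slc p (fun _ _ _ _ => True) : ℕ) : ℝ) := by
    rw [Nat.cast_prod, Nat.cast_prod, ← Finset.prod_div_distrib]
    rfl
  have hbox : ((box R L).filter (fun x => ∀ p ∈ Q,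
      (fun _ _ _ _ _ => True : ℕ → ℤ → ℤ → ℤ → ℤ → Prop) p x.1 x.2.1 x.2.2 (qq x))).card =
      (box R L).card := by
    congr 1
    ext x
    simp only [Finset.mem_filter]
    exact ⟨fun h => h.1, fun h => ⟨h, fun _ _ => trivial⟩⟩
  rw [hbox] at g3
  rw [hdn]
  set A : ℝ := ((∏ p ∈ Q, slc p (S p) : ℕ) : ℝ) with hA
  set T : ℝ := ((∏ p ∈ Q, slc p (fun _ _ _ _ => True) : ℕ) : ℝ) with hT
  have hA0 : 0 ≤ A := Nat.cast_nonneg _
  have e1 : (((box R L).filter (fun x => ∀ p ∈ Q, S p x.1 x.2.1 x.2.2 (qq x))).card : ℝ) -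
      (box R L).card * (A / T) =
      ((((box R L).filter (fun x => ∀ p ∈ Q, S p x.1 x.2.1 x.2.2 (qq x))).card : ℝ) - A * Z) -
        (A / T) * (((box R L).card : ℝ) - T * Z) := by
    field_simp
    ring
  rw [e1]
  have e2 : |(A / T) * (((box R L).card : ℝ) - T * Z)| ≤ A * err := by
    rw [abs_mul, abs_of_nonneg (div_nonneg hA0 hT0.le)]
    calc A / T * |((box R L).card : ℝ) - T * Z| ≤ A / T * (T * err) :=
          mul_le_mul_of_nonneg_left g3 (div_nonneg hA0 hT0.le)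
      _ = A * err := by field_simp
  calc |((((box R L).filter (fun x => ∀ p ∈ Q, S p x.1 x.2.1 x.2.2 (qq x))).card : ℝ) - A * Z) -
        (A / T) * (((box R L).card : ℝ) - T * Z)|
      ≤ |(((box R L).filter (fun x => ∀ p ∈ Q, S p x.1 x.2.1 x.2.2 (qq x))).card : ℝ) - A * Z| +
        |(A / T) * (((box R L).card : ℝ) - T * Z)| := abs_sub _ _
    _ ≤ A * err + A * err := add_le_add g1 e2
    _ ≤ (M : ℝ) ^ 4 * err + (M : ℝ) ^ 4 * err := by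
        have := mul_le_mul_of_nonneg_right g2 herr0
        linarith
    _ = 2 * C * L * (M : ℝ) ^ 6 * (R : ℝ) ^ (2 - 1 / 40 : ℝ) := by
        rw [herr]; ring

end Pool.Agent.H37.PPE
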