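import Pool.Agent.H37.PPD.RS
import Pool.Agent.H37.PPC.TS
import Pool.Agent.H37.PPE.Defs

/-!
PPE DS: density sums for the sieve.

`sum_mod12`: for p > 3: 1[p ≡ 1 mod 12] = (1 + chi3 p + chi4 p + chi12 p)/4 with chi4, chi12 the characters mod 4 and 12 (chi12(n) = 1 for n ≡ ±1, -1 for n ≡ ±5 mod 12).
 Needed: ∑_{z≤q<w} χ(q)/q ≥ -C for χ = chi3 (chi3_sum), chi4, chi12.  As for chi3 (Pool/Agent/H37/PPC/FG.lean `FF_chi3`, TS.lean `chi3_sum`; copy and generalise):
 TW chi4 4, TW chi12 12; FF_compare with D = 100·M, y₁ = D and L = ∑_{d≤D} χ(d)/d ≥ 1/2 (chi4: 1 - 1/3 + ...; chi12: 1 - 1/5 - 1/7 + 1/11 + ...: group by periods,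
 each later block 1/(12k+1) - 1/(12k+5) - 1/(12k+7) + 1/(12k+11) is > 0) gives FF χ y ≥ c log y; FF_upper gives ∑_{q≤y}(1+χ(q))/q ≥ ll y - C; TW_sum gives the upper bound.
`rho_sum3`: rho p = 4/p - O(1/p²); sum_mod3.   `rho_sum12`: sum_mod12.   `rho_bd`: 0 < rho p < 1 for p ≥ 5, rho p · p ≤ 4.
-/

set_option autoImplicit false

namespace Pool.Agent.H37.PPE

open Finset Pool.Agent.H37.PPC Pool.Agent.H37.PPD

/-! ### the characters mod 4 and mod 12 -/

/-- the character mod 4 on residues -/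
def DS_g4 (n : ℕ) : ℤ := if n = 1 then 1 else if n = 3 then -1 else 0

/-- the character mod 12 on residues -/
def DS_g12 (n : ℕ) : ℤ := if n = 1 ∨ n = 11 then 1 else if n = 5 ∨ n = 7 then -1 else 0

/-- the character mod 4 -/
noncomputable def DS_chi4 (n : ℕ) : ℝ := (DS_g4 (n % 4) : ℝ)

/-- the real even character mod 12 -/
noncomputable def DS_chi12 (n : ℕ) : ℝ := (DS_g12 (n % 12) : ℝ)

/-- partial sums mod 4 -/
def DS_h4 (n : ℕ) : ℤ := if n = 1 ∨ n = 2 then 1 else 0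

/-- partial sums mod 12 -/
def DS_h12 (n : ℕ) : ℤ :=
  if n = 1 ∨ n = 2 ∨ n = 3 ∨ n = 4 then 1 else if n = 7 ∨ n = 8 ∨ n = 9 ∨ n = 10 then -1 else 0

theorem DS_mul4 : ∀ x < 4, ∀ y < 4, DS_g4 (x * y % 4) = DS_g4 x * DS_g4 y := by decide

theorem DS_mul12 : ∀ x < 12, ∀ y < 12, DS_g12 (x * y % 12) = DS_g12 x * DS_g12 y := by decide

theorem DS_add4 : ∀ x < 4, DS_h4 ((x + 1) % 4) = DS_h4 x + DS_g4 ((x + 1) % 4) := by decide

theorem DS_add12 : ∀ x < 12, DS_h12 ((x + 1) % 12) = DS_h12 x + DS_g12 ((x + 1) % 12) := by decide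

theorem DS_val4 : ∀ x < 4, DS_g4 x = 1 ∨ DS_g4 x = 0 ∨ DS_g4 x = -1 := by decide

theorem DS_val12 : ∀ x < 12, DS_g12 x = 1 ∨ DS_g12 x = 0 ∨ DS_g12 x = -1 := by decide

theorem DS_TW4 : TW DS_chi4 3 where
  one := by
    unfold DS_chi4
    norm_num [DS_g4]
  mul := by
    intro a b
    unfold DS_chi4
    rw [Nat.mul_mod, DS_mul4 _ (Nat.mod_lt _ (by norm_num)) _ (Nat.mod_lt _ (by norm_num))]
    push_cast
    rfl
  val := by
    intro n
    unfold DS_chi4
    rcases DS_val4 (n % 4) (Nat.mod_lt _ (by norm_num)) with h | h | h <;> rw [h] <;> norm_num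
  bd := by
    intro N
    have h : ∑ n ∈ Icc 1 N, DS_chi4 n = (DS_h4 (N % 4) : ℝ) := by
      induction N with
      | zero => simp [DS_h4]
      | succ k ih =>
        rw [Finset.sum_Icc_succ_top (by omega), ih]
        unfold DS_chi4
        have h1 : (k + 1) % 4 = (k % 4 + 1) % 4 := by omega
        rw [h1, DS_add4 _ (Nat.mod_lt _ (by norm_num))]
        push_cast
        rfl
    rw [h]
    unfold DS_h4
    split_ifs <;> norm_num

theorem DS_TW12 : TW DS_chi12 3 where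
  one := by
    unfold DS_chi12
    norm_num [DS_g12]
  mul := by
    intro a b
    unfold DS_chi12
    rw [Nat.mul_mod, DS_mul12 _ (Nat.mod_lt _ (by norm_num)) _ (Nat.mod_lt _ (by norm_num))]
    push_cast
    rfl
  val := by
    intro n
    unfold DS_chi12
    rcases DS_val12 (n % 12) (Nat.mod_lt _ (by norm_num)) with h | h | h <;> rw [h] <;> norm_num
  bd := by
    intro N
    have h : ∑ n ∈ Icc 1 N, DS_chi12 n = (DS_h12 (N % 12) : ℝ) := by
      induction N with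
      | zero => simp [DS_h12]
      | succ k ih =>
        rw [Finset.sum_Icc_succ_top (by omega), ih]
        unfold DS_chi12
        have h1 : (k + 1) % 12 = (k % 12 + 1) % 12 := by omega
        rw [h1, DS_add12 _ (Nat.mod_lt _ (by norm_num))]
        push_cast
        rfl
    rw [h]
    unfold DS_h12
    split_ifs <;> norm_num

theorem DS_L4 : (1 : ℝ) / 2 ≤ ∑ d ∈ Icc 1 30, DS_chi4 d / d := by
  norm_num [Finset.sum_Icc_succ_top, DS_chi4, DS_g4]

theorem DS_L12 : (1 : ℝ) / 2 ≤ ∑ d ∈ Icc 1 30, DS_chi12 d / d := by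
  norm_num [Finset.sum_Icc_succ_top, DS_chi12, DS_g12]

/-! ### lower bound for the sum over primes -/

theorem DS_FF (ψ : ℕ → ℝ) (hψ : TW ψ 3) (hL : (1 : ℝ) / 2 ≤ ∑ d ∈ Icc 1 30, ψ d / d) :
    ∃ c : ℝ, 0 < c ∧ ∀ y : ℕ, 2 ≤ y → c * Real.log y ≤ FF ψ y := by
  refine ⟨1 / 100, by norm_num, ?_⟩
  intro y hy
  have hF1 : 1 ≤ FF ψ y := FF_one_le ψ 3 hψ y (by omega)
  have hyR : (0 : ℝ) < y := by
    have : 0 < y := by omega
    exact_mod_cast this
  by_cases hl : Real.log y ≤ 100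
  · linarith
  · push Not at hl
    have hy30 : 30 ≤ y := by
      by_contra hcon
      push Not at hcon
      have h1 : (y : ℝ) < 30 := by exact_mod_cast hcon
      have h2 := Real.log_le_sub_one_of_pos hyR
      linarith
    have hc := FF_compare ψ 3 hψ 30 30 y (by norm_num) (by norm_num) hy30
    rw [abs_le] at hc
    have hF30 : 1 ≤ FF ψ 30 := FF_one_le ψ 3 hψ 30 (by norm_num)
    have hlog : Real.log ((y : ℝ) / ((30 : ℕ) : ℝ)) = Real.log y - Real.log 30 := by
      rw [Real.log_div hyR.ne' (by norm_num)]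
      norm_num
    have hl30 : Real.log 30 ≤ 4 := by
      have h2 : (30 : ℝ) ≤ Real.exp 4 := by
        have h3 : Real.exp 4 = Real.exp 1 ^ 4 := by
          rw [← Real.exp_nat_mul]
          norm_num
        rw [h3]
        have h4 : (2.7 : ℝ) ≤ Real.exp 1 := by
          have := Real.exp_one_gt_d9
          linarith
        calc (30 : ℝ) ≤ 2.7 ^ 4 := by norm_num
          _ ≤ Real.exp 1 ^ 4 := pow_le_pow_left₀ (by norm_num) h4 4
      have h5 := Real.log_le_log (show (0 : ℝ) < 30 by norm_num) h2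
      rwa [Real.log_exp] at h5
    have hpos : 0 ≤ Real.log ((y : ℝ) / ((30 : ℕ) : ℝ)) := by
      rw [hlog]
      linarith
    have hL := mul_le_mul_of_nonneg_right hL hpos
    have h1 := hc.1
    have e1 : 4 * (((30 : ℕ) : ℝ)) / ((30 : ℕ) : ℝ) + 4 * ((3 : ℕ) : ℝ) * (1 + Real.log y) / ((30 : ℕ) : ℝ) =
        4 + 0.4 * (1 + Real.log y) := by
      push_cast
      ring
    rw [e1] at h1
    rw [hlog] at h1 hL
    norm_num at h1
    linarith

theorem DS_split (f : ℕ → ℝ) (a b c : ℕ) (h1 : a ≤ b) (h2 : b ≤ c) :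
    ∑ q ∈ pr a c, f q = ∑ q ∈ pr a b, f q + ∑ q ∈ pr b c, f q := by
  have hd : Disjoint (pr a b) (pr b c) := by
    rw [Finset.disjoint_left]
    intro x hx hx'
    rw [mem_pr] at hx hx'
    omega
  rw [← Finset.sum_union hd]
  apply Finset.sum_congr _ (fun _ _ => rfl)
  ext x
  rw [Finset.mem_union, mem_pr, mem_pr, mem_pr]
  constructor
  · rintro ⟨⟨h3, h4⟩, h5⟩
    by_cases hx : x < b
    · exact Or.inl ⟨⟨h3, hx⟩, h5⟩
    · exact Or.inr ⟨⟨by omega, h4⟩, h5⟩
  · rintro (⟨⟨h3, h4⟩, h5⟩ | ⟨⟨h3, h4⟩, h5⟩)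
    · exact ⟨⟨h3, by omega⟩, h5⟩
    · exact ⟨⟨by omega, h4⟩, h5⟩

theorem DS_triv (ψ : ℕ → ℝ) (hψ : TW ψ 3) (a b : ℕ) : ∑ q ∈ pr a b, ψ q / q ≤ b := by
  calc ∑ q ∈ pr a b, ψ q / q ≤ ∑ q ∈ pr a b, (1 : ℝ) := by
        apply Finset.sum_le_sum
        intro q hq
        rw [mem_pr] at hq
        have hq2 : (2 : ℝ) ≤ q := by exact_mod_cast hq.2.two_le
        rw [div_le_one (by linarith)]
        rcases hψ.val q with h | h | h <;> rw [h] <;> linarith
    _ = ((pr a b).card : ℝ) := by rw [Finset.sum_const, nsmul_eq_mul, mul_one]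
    _ ≤ (b : ℝ) := by
        have : (pr a b).card ≤ b := by
          refine (Finset.card_filter_le _ _).trans ?_
          rw [Nat.card_Ico]; omega
        exact_mod_cast this

theorem DS_sum (ψ : ℕ → ℝ) (hψ : TW ψ 3) (hL : (1 : ℝ) / 2 ≤ ∑ d ∈ Icc 1 30, ψ d / d) :
    ∃ C : ℝ, 0 < C ∧ ∀ z w : ℕ, 2 ≤ z → z ≤ w → -C ≤ ∑ q ∈ pr z w, ψ q / q := by
  obtain ⟨c, hc, hF⟩ := DS_FF ψ hψ hL
  obtain ⟨C₃, hU⟩ := FF_upper
  obtain ⟨C₄, hC₄, hM⟩ := mertens_two
  obtain ⟨C₅, hC₅, hT⟩ := TW_sum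
  -- lower bound for the sum over primes `< w`
  have hlow : ∃ A : ℝ, 0 < A ∧ ∀ w : ℕ, 2 ≤ w → -A ≤ ∑ q ∈ pr 2 w, ψ q / q := by
    refine ⟨max 1 (-(Real.log c) + C₃ + C₄ - Real.log (Real.log 2) + Real.log 2),
      lt_max_of_lt_left one_pos, ?_⟩
    intro w hw
    rcases Nat.lt_or_ge w 3 with hw3 | hw3
    · have : w = 2 := by omega
      subst this
      have he : pr 2 2 = ∅ := by
        rw [Finset.eq_empty_iff_forall_notMem]
        intro x hx
        rw [mem_pr] at hx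
        omega
      rw [he, Finset.sum_empty]
      have h0 : (0 : ℝ) < max 1 (-(Real.log c) + C₃ + C₄ - Real.log (Real.log 2) + Real.log 2) :=
        lt_max_of_lt_left one_pos
      linarith
    · obtain ⟨y, rfl⟩ : ∃ y, w = y + 1 := ⟨w - 1, by omega⟩
      have hy : 2 ≤ y := by omega
      have hyR : (2 : ℝ) ≤ y := by exact_mod_cast hy
      have hly : 0 < Real.log y := Real.log_pos (by linarith)
      have hl2 : 0 < Real.log 2 := Real.log_pos (by norm_num)
      have h1 := hF y hy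
      have h2 := hU ψ 3 hψ y (by omega)
      have h3 := Real.log_le_log (by positivity) (h1.trans h2)
      rw [Real.log_mul hc.ne' hly.ne', Real.log_exp] at h3
      have h4 : ∑ q ∈ pr 2 (y + 1), (1 + ψ q) / q
          = ∑ q ∈ pr 2 (y + 1), (1 : ℝ) / q + ∑ q ∈ pr 2 (y + 1), ψ q / q := by
        rw [← Finset.sum_add_distrib]
        exact Finset.sum_congr rfl (fun q _ => add_div _ _ _)
      have h5 := (abs_le.1 (hM 2 (y + 1) le_rfl (by omega))).2
      have h6 : Real.log (Real.log ((y + 1 : ℕ) : ℝ)) ≤ Real.log 2 + Real.log (Real.log y) := by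
        rw [← Real.log_mul (by norm_num) hly.ne']
        apply Real.log_le_log
        · apply Real.log_pos
          push_cast
          linarith
        · have : (2 : ℝ) * Real.log y = Real.log ((y : ℝ) ^ 2) := by
            rw [Real.log_pow]; norm_num
          rw [this]
          apply Real.log_le_log
          · push_cast; linarith
          · push_cast; nlinarith
      have h7 : -(-(Real.log c) + C₃ + C₄ - Real.log (Real.log 2) + Real.log 2)
          ≤ ∑ q ∈ pr 2 (y + 1), ψ q / q := by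
        have h8 : Real.log (Real.log ((2 : ℕ) : ℝ)) = Real.log (Real.log 2) := by norm_num
        rw [h8] at h5
        linarith
      exact (neg_le_neg (le_max_right _ _)).trans h7
  obtain ⟨A, hA, hlow⟩ := hlow
  -- upper bound
  have hup : ∀ z : ℕ, 2 ≤ z → ∑ q ∈ pr 2 z, ψ q / q ≤ 6561 + C₅ := by
    intro z hz
    rcases Nat.lt_or_ge z 6561 with h | h
    · have h1 := DS_triv ψ hψ 2 z
      have h2 : (z : ℝ) ≤ 6561 := by exact_mod_cast h.le
      linarith
    · rw [DS_split _ 2 6561 z (by norm_num) h]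
      have h1 := DS_triv ψ hψ 2 6561
      have h2 := hT ψ 3 (by norm_num) hψ 6561 z (by norm_num) h
      have h3 : ((6561 : ℕ) : ℝ) = 6561 := by norm_num
      rw [h3] at h1
      linarith
  refine ⟨A + 6561 + C₅, by positivity, ?_⟩
  intro z w hz hzw
  have h1 := DS_split (fun q => ψ q / q) 2 z w hz hzw
  have h2 := hlow w (hz.trans hzw)
  have h3 := hup z hz
  linarith

theorem DS_ind (l : ℕ) (hl : l.Prime) :
    4 * (if l % 12 = 1 then (1 : ℝ) / l else 0) =
      (1 : ℝ) / l + chi3 l / l + DS_chi4 l / l + DS_chi12 l / l := by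
  have key : l % 12 = 1 ∨ l % 12 = 5 ∨ l % 12 = 7 ∨ l % 12 = 11 ∨ l % 12 = 2 ∨ l % 12 = 3 := by
    by_cases h2 : l = 2
    · subst h2; norm_num
    · by_cases h3 : l = 3
      · subst h3; norm_num
      · have h4 : ¬ 2 ∣ l := fun h => h2 ((Nat.prime_dvd_prime_iff_eq Nat.prime_two hl).1 h).symm
        have h5 : ¬ 3 ∣ l := fun h => h3 ((Nat.prime_dvd_prime_iff_eq Nat.prime_three hl).1 h).symm
        omega
  unfold chi3 DS_chi4 DS_chi12
  rcases key with h | h | h | h | h | h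
  · have h3 : l % 3 = 1 := by omega
    have h4 : l % 4 = 1 := by omega
    rw [h, h3, h4]
    norm_num [DS_g4, DS_g12]
    ring
  · have h3 : l % 3 = 2 := by omega
    have h4 : l % 4 = 1 := by omega
    rw [h, h3, h4]
    norm_num [DS_g4, DS_g12]
    ring
  · have h3 : l % 3 = 1 := by omega
    have h4 : l % 4 = 3 := by omega
    rw [h, h3, h4]
    norm_num [DS_g4, DS_g12]
    ring
  · have h3 : l % 3 = 2 := by omega
    have h4 : l % 4 = 3 := by omega
    rw [h, h3, h4]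
    norm_num [DS_g4, DS_g12]
    ring
  · have h3 : l % 3 = 2 := by omega
    have h4 : l % 4 = 2 := by omega
    rw [h, h3, h4]
    norm_num [DS_g4, DS_g12]
    ring
  · have h3 : l % 3 = 0 := by omega
    have h4 : l % 4 = 3 := by omega
    rw [h, h3, h4]
    norm_num [DS_g4, DS_g12]
    ring

theorem sum_mod12 : ∃ C : ℝ, 0 < C ∧ ∀ z w : ℕ, 2 ≤ z → z ≤ w →
    (1 / 4) * (ll w - ll z) - C ≤ rs ((pr z w).filter (fun l => l % 12 = 1)) := by
  obtain ⟨C1, hC1, h1⟩ := chi3_sum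
  obtain ⟨C2, hC2, h2⟩ := DS_sum DS_chi4 DS_TW4 DS_L4
  obtain ⟨C3, hC3, h3⟩ := DS_sum DS_chi12 DS_TW12 DS_L12
  obtain ⟨C4, hC4, h4⟩ := mertens_two
  refine ⟨(C1 + C2 + C3 + C4) / 4, by positivity, ?_⟩
  intro z w hz hzw
  have m1 := h1 z w hz hzw
  have m2 := h2 z w hz hzw
  have m3 := h3 z w hz hzw
  have m4 := (abs_le.1 (h4 z w hz hzw)).1
  have h5 : 4 * rs ((pr z w).filter (fun l => l % 12 = 1)) =
      ∑ q ∈ pr z w, (1 : ℝ) / q + ∑ q ∈ pr z w, chi3 q / q + ∑ q ∈ pr z w, DS_chi4 q / q +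
        ∑ q ∈ pr z w, DS_chi12 q / q := by
    unfold rs
    rw [Finset.sum_filter, Finset.mul_sum, ← Finset.sum_add_distrib, ← Finset.sum_add_distrib,
      ← Finset.sum_add_distrib]
    refine Finset.sum_congr rfl fun l hl => ?_
    rw [mem_pr] at hl
    exact DS_ind l hl.2
  unfold ll
  linarith

theorem rho_bd (p : ℕ) (hp : 5 ≤ p) : 0 < rho p ∧ rho p < 1 ∧ rho p * p ≤ 4 := by
  have h5 : (5 : ℝ) ≤ p := by exact_mod_cast hp
  have hpos : (0 : ℝ) < (p : ℝ) * (p + 1) := by positivity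
  unfold rho
  refine ⟨div_pos (by linarith) hpos, ?_, ?_⟩
  · rw [div_lt_one hpos]
    nlinarith
  · rw [div_mul_eq_mul_div, div_le_iff₀ hpos]
    nlinarith

theorem DS_rho (p : ℕ) (hp : 5 ≤ p) :
    4 * ((1 : ℝ) / p) - 6 * ((1 : ℝ) / p - 1 / (p + 1)) ≤ rho p := by
  have h5 : (5 : ℝ) ≤ p := by exact_mod_cast hp
  have e : 4 * ((1 : ℝ) / p) - 6 * ((1 : ℝ) / p - 1 / (p + 1)) = rho p := by
    unfold rho
    field_simp
    ring
  exact e.le

theorem DS_tel (b : ℕ) : ∀ a : ℕ, 1 ≤ a → ∑ p ∈ Ico a b, ((1 : ℝ) / p - 1 / (p + 1)) ≤ 1 := by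
  intro a ha
  rcases Nat.le_or_le a b with h | h
  · have h1 : ∀ n : ℕ, ∑ p ∈ Ico a (a + n), ((1 : ℝ) / p - 1 / (p + 1)) =
        1 / (a : ℝ) - 1 / ((a + n : ℕ) : ℝ) := by
      intro n
      induction n with
      | zero => simp
      | succ n ih =>
        rw [← add_assoc, Finset.sum_Ico_succ_top (by omega), ih]
        push_cast
        ring
    obtain ⟨n, rfl⟩ : ∃ n, b = a + n := ⟨b - a, by omega⟩
    rw [h1 n]
    have h2 : (1 : ℝ) ≤ a := by exact_mod_cast ha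
    have h3 : (1 : ℝ) / a ≤ 1 := by
      rw [div_le_one (by linarith)]
      exact h2
    have h4 : (0 : ℝ) ≤ 1 / ((a + n : ℕ) : ℝ) := by positivity
    linarith
  · rw [Finset.Ico_eq_empty_of_le h, Finset.sum_empty]
    norm_num

theorem DS_rho_sum (a b : ℕ) (ha : 5 ≤ a) (P : ℕ → Prop) [DecidablePred P] :
    4 * rs ((pr a b).filter P) - 6 ≤ ∑ p ∈ (pr a b).filter P, rho p := by
  have h1 : ∑ p ∈ (pr a b).filter P, (4 * ((1 : ℝ) / p) - 6 * ((1 : ℝ) / p - 1 / (p + 1))) ≤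
      ∑ p ∈ (pr a b).filter P, rho p := by
    refine Finset.sum_le_sum fun p hp => ?_
    rw [Finset.mem_filter, mem_pr] at hp
    exact DS_rho p (by omega)
  rw [Finset.sum_sub_distrib, ← Finset.mul_sum, ← Finset.mul_sum] at h1
  have h2 : ∑ p ∈ (pr a b).filter P, ((1 : ℝ) / p - 1 / (p + 1)) ≤
      ∑ p ∈ Ico a b, ((1 : ℝ) / p - 1 / (p + 1)) := by
    apply Finset.sum_le_sum_of_subset_of_nonneg
    · intro p hp
      rw [Finset.mem_filter, mem_pr] at hp
      rw [Finset.mem_Ico]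
      exact hp.1.1
    · intro p hp _
      rw [Finset.mem_Ico] at hp
      have h3 : (0 : ℝ) < p := by
        have : 0 < p := by omega
        exact_mod_cast this
      have h4 : (1 : ℝ) / (p + 1) ≤ 1 / p := one_div_le_one_div_of_le h3 (by linarith)
      linarith
  have h3 := DS_tel b a (by omega)
  unfold rs
  linarith

theorem DS_ll {a b : ℕ} (ha : 2 ≤ a) (hab : a ≤ b) : ll a ≤ ll b := by
  unfold ll
  have h1 : (2 : ℝ) ≤ a := by exact_mod_cast ha
  have h2 : (a : ℝ) ≤ b := by exact_mod_cast hab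
  exact Real.log_le_log (Real.log_pos (by linarith)) (Real.log_le_log (by linarith) h2)

theorem rho_sum3 : ∃ C : ℝ, 0 < C ∧ ∀ z : ℕ, 2 ≤ z →
    2 * ll z - C ≤ ∑ p ∈ (pr 5 (z + 1)).filter (fun p => p % 3 = 1), rho p := by
  obtain ⟨C1, hC1, h1⟩ := sum_mod3
  refine ⟨2 * |ll 5| + 2 * C1 + 6, by positivity, ?_⟩
  intro z hz
  have h5 := le_abs_self (ll 5)
  have h5' := neg_abs_le (ll 5)
  rcases Nat.lt_or_ge z 4 with h | h
  · have he : (pr 5 (z + 1)).filter (fun p => p % 3 = 1) = ∅ := by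
      rw [Finset.eq_empty_iff_forall_notMem]
      intro x hx
      rw [Finset.mem_filter, mem_pr] at hx
      omega
    rw [he, Finset.sum_empty]
    have h6 := DS_ll hz (show z ≤ 5 by omega)
    linarith
  · have h2 := DS_rho_sum 5 (z + 1) le_rfl (fun p => p % 3 = 1)
    have h3 := h1 5 (z + 1) (by norm_num) (by omega)
    have h4 := DS_ll hz (Nat.le_succ z)
    have h7 : ll (z + 1) = ll z.succ := rfl
    rw [← h7] at h4
    linarith

theorem rho_sum12 : ∃ C : ℝ, 0 < C ∧ ∀ z : ℕ, 2 ≤ z →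
    ll z - C ≤ ∑ p ∈ (pr 13 (z + 1)).filter (fun p => p % 12 = 1), rho p := by
  obtain ⟨C1, hC1, h1⟩ := sum_mod12
  refine ⟨|ll 13| + 4 * C1 + 6, by positivity, ?_⟩
  intro z hz
  have h5 := le_abs_self (ll 13)
  have h5' := neg_abs_le (ll 13)
  rcases Nat.lt_or_ge z 12 with h | h
  · have he : (pr 13 (z + 1)).filter (fun p => p % 12 = 1) = ∅ := by
      rw [Finset.eq_empty_iff_forall_notMem]
      intro x hx
      rw [Finset.mem_filter, mem_pr] at hx
      omega
    rw [he, Finset.sum_empty]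
    have h6 := DS_ll hz (show z ≤ 13 by omega)
    linarith
  · have h2 := DS_rho_sum 13 (z + 1) (by norm_num) (fun p => p % 12 = 1)
    have h3 := h1 13 (z + 1) (by norm_num) (by omega)
    have h4 := DS_ll hz (Nat.le_succ z)
    have h7 : ll (z + 1) = ll z.succ := rfl
    rw [← h7] at h4
    linarith

end Pool.Agent.H37.PPE
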