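import Pool.Agent.H37.PPE.Defs

/-!
PPE MT: elementary sums: main term, number of r with a large kk, divisor square sum, size of the box.

`MT`: ∑_{R≤r<8R, r≡r0(M)} phiM M r = ∑_{d<8R,(d,M)=1} μ(d) ∑_{j : R ≤ dj < 8R, dj ≡ r0 (M)} j; for (d,M)=1 the inner condition is j ≡ a mod M, and
  ∑_{j≡a(M), X₁≤j<X₂} j = (X₂²-X₁²)/(2M) + O(X₂) with X₂ = 8R/d, X₁ = R/d (O(X₂) uniformly in M ≥ 1; for M > X₂ both sides are O(X₂)).
  Z = ∑_{d<8R,(d,M)=1} μ(d) 63 R²/(2 M d²); error ∑_{d<8R} C R/d ≤ C R (1+log R).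
`BR`: r = b² a with a squarefree (Nat.sq_mul_squarefree).  Every prime p | a with p ∤ b M satisfies p ∥ r, p ∤ M, so mm M r ≥ a/(bM) and
  kk M r ≤ b³ M.  So K < kk M r implies b > (K/M)^{1/3} and b² ∣ r: at most ∑_{b > (K/M)^{1/3}} 8R/b² ≤ 32 R (M/K)^{1/3} such r
  (if K ≤ M the trivial bound 8R is enough).
`TD`: ∑_{r<N} τ(r)² ≤ C N (1+log N)^3: τ(r)² ≤ ∑_{d|r} τ(d)·(…) or τ(r)² ≤ τ_4-type: τ(r)^2 = ∑_{a,b | r} 1 ≤ ∑_{a,b≤N} N/lcm(a,b) ≤ N ∑_{g} g ∑_{a',b'} 1/(g² a' b')·…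
`BX`: #box ≤ ∑_{R≤r<8R} 4 L r (for every s coprime to r exactly 2L values of t, none otherwise) ≤ 300 L R².
-/

set_option autoImplicit false

namespace Pool.Agent.H37.PPE

open Finset

theorem MT_harm (N : ℕ) : ∑ g ∈ Ico 1 N, (g : ℝ)⁻¹ ≤ 1 + Real.log N := by
  have h1 := harmonic_le_one_add_log N
  rw [harmonic_eq_sum_Icc] at h1
  push_cast at h1
  refine le_trans ?_ h1
  apply Finset.sum_le_sum_of_subset_of_nonneg
  · intro x hx
    rw [Finset.mem_Ico] at hx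
    rw [Finset.mem_Icc]
    omega
  · intro i _ _
    positivity

theorem TD : ∃ C : ℝ, 0 < C ∧ ∀ N : ℕ, 1 ≤ N →
    ∑ r ∈ Ico 1 N, ((r.divisors.card : ℝ)) ^ 2 ≤ C * N * (1 + Real.log N) ^ 3 := by
  refine ⟨1, one_pos, fun N hN => ?_⟩
  -- step 1: number of pairs
  have h1 : ∀ r ∈ Ico 1 N, ((r.divisors.card : ℝ)) ^ 2 =
      ∑ x ∈ (Ico 1 N) ×ˢ (Ico 1 N), (if x.1.lcm x.2 ∣ r then (1 : ℝ) else 0) := by
    intro r hr
    rw [Finset.mem_Ico] at hr
    rw [Finset.sum_ite, Finset.sum_const_zero, add_zero, Finset.sum_const, nsmul_eq_mul, mul_one]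
    have : ((Ico 1 N) ×ˢ (Ico 1 N)).filter (fun x => x.1.lcm x.2 ∣ r) =
        r.divisors ×ˢ r.divisors := by
      ext ⟨a, b⟩
      simp only [Finset.mem_filter, Finset.mem_product, Finset.mem_Ico, Nat.mem_divisors]
      constructor
      · rintro ⟨_, h⟩
        exact ⟨⟨(Nat.dvd_lcm_left a b).trans h, by omega⟩, ⟨(Nat.dvd_lcm_right a b).trans h, by omega⟩⟩
      · rintro ⟨⟨ha, _⟩, ⟨hb, _⟩⟩
        have ha1 := Nat.le_of_dvd (by omega) ha
        have hb1 := Nat.le_of_dvd (by omega) hb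
        have ha2 := Nat.pos_of_dvd_of_pos ha (by omega)
        have hb2 := Nat.pos_of_dvd_of_pos hb (by omega)
        exact ⟨⟨⟨ha2, by omega⟩, ⟨hb2, by omega⟩⟩, Nat.lcm_dvd ha hb⟩
    rw [this, Finset.card_product]
    push_cast
    ring
  rw [Finset.sum_congr rfl h1, Finset.sum_comm]
  -- step 2
  have h2 : ∀ x ∈ (Ico 1 N) ×ˢ (Ico 1 N),
      ∑ r ∈ Ico 1 N, (if x.1.lcm x.2 ∣ r then (1 : ℝ) else 0) ≤
        N * (((x.1.gcd x.2 : ℕ) : ℝ)⁻¹ * ((x.1 / x.1.gcd x.2 : ℕ) : ℝ)⁻¹ *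
          ((x.2 / x.1.gcd x.2 : ℕ) : ℝ)⁻¹) := by
    rintro ⟨a, b⟩ hx
    simp only [Finset.mem_product, Finset.mem_Ico] at hx
    rw [Finset.sum_ite, Finset.sum_const_zero, add_zero, Finset.sum_const, nsmul_eq_mul, mul_one]
    have hc : ((Ico 1 N).filter (fun r => a.lcm b ∣ r)).card ≤ N / a.lcm b := by
      rw [← Nat.Ioc_filter_dvd_card_eq_div]
      apply Finset.card_le_card
      apply Finset.filter_subset_filter
      intro x hx
      rw [Finset.mem_Ico] at hx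
      rw [Finset.mem_Ioc]
      omega
    have hg : 0 < a.gcd b := Nat.gcd_pos_of_pos_left b (by omega)
    have hl : a.lcm b = a.gcd b * (a / a.gcd b) * (b / a.gcd b) := by
      have e1 : a.gcd b * (a / a.gcd b) = a := Nat.mul_div_cancel' (Nat.gcd_dvd_left a b)
      rw [e1, Nat.lcm, Nat.mul_div_assoc _ (Nat.gcd_dvd_right a b)]
    calc (((Ico 1 N).filter (fun r => a.lcm b ∣ r)).card : ℝ) ≤ ((N / a.lcm b : ℕ) : ℝ) := by
          exact_mod_cast hc
      _ ≤ (N : ℝ) / (a.lcm b : ℕ) := Nat.cast_div_le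
      _ = _ := by
          rw [hl]
          push_cast
          rw [div_eq_mul_inv, mul_inv, mul_inv]
  refine (Finset.sum_le_sum h2).trans ?_
  rw [← Finset.mul_sum]
  -- step 3: injection into triples
  set f : ℕ × ℕ → ℕ × ℕ × ℕ := fun x => (x.1.gcd x.2, x.1 / x.1.gcd x.2, x.2 / x.1.gcd x.2) with hf
  set g : ℕ × ℕ × ℕ → ℝ := fun y => (y.1 : ℝ)⁻¹ * (y.2.1 : ℝ)⁻¹ * (y.2.2 : ℝ)⁻¹ with hg
  have hinj : Set.InjOn f (((Ico 1 N) ×ˢ (Ico 1 N) : Finset (ℕ × ℕ)) : Set (ℕ × ℕ)) := by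
    rintro ⟨a, b⟩ _ ⟨c, d⟩ _ he
    simp only [hf, Prod.mk.injEq] at he
    obtain ⟨e1, e2, e3⟩ := he
    have k1 := Nat.mul_div_cancel' (Nat.gcd_dvd_left a b)
    have k2 := Nat.mul_div_cancel' (Nat.gcd_dvd_right a b)
    have k3 := Nat.mul_div_cancel' (Nat.gcd_dvd_left c d)
    have k4 := Nat.mul_div_cancel' (Nat.gcd_dvd_right c d)
    have : a = c := by rw [← k1, ← k3, e2, e1]
    have : b = d := by rw [← k2, ← k4, e3, e1]
    simp_all
  have h3 : ∑ x ∈ (Ico 1 N) ×ˢ (Ico 1 N), (((x.1.gcd x.2 : ℕ) : ℝ)⁻¹ * ((x.1 / x.1.gcd x.2 : ℕ) : ℝ)⁻¹ *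
          ((x.2 / x.1.gcd x.2 : ℕ) : ℝ)⁻¹) = ∑ y ∈ ((Ico 1 N) ×ˢ (Ico 1 N)).image f, g y := by
    rw [Finset.sum_image hinj]
  rw [h3]
  have hsub : ((Ico 1 N) ×ˢ (Ico 1 N)).image f ⊆ (Ico 1 N) ×ˢ ((Ico 1 N) ×ˢ (Ico 1 N)) := by
    intro y hy
    obtain ⟨⟨a, b⟩, hx, rfl⟩ := Finset.mem_image.mp hy
    simp only [Finset.mem_product, Finset.mem_Ico] at hx
    have hg : 0 < a.gcd b := Nat.gcd_pos_of_pos_left b (by omega)
    have k1 := Nat.le_of_dvd (by omega) (Nat.gcd_dvd_left a b)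
    have k2 := Nat.le_of_dvd (by omega) (Nat.gcd_dvd_right a b)
    have k3 := Nat.div_le_self a (a.gcd b)
    have k4 := Nat.div_le_self b (a.gcd b)
    have k5 := Nat.div_pos k1 hg
    have k6 := Nat.div_pos k2 hg
    simp only [hf, Finset.mem_product, Finset.mem_Ico]
    omega
  have h4 : ∑ y ∈ ((Ico 1 N) ×ˢ (Ico 1 N)).image f, g y ≤
      ∑ y ∈ (Ico 1 N) ×ˢ ((Ico 1 N) ×ˢ (Ico 1 N)), g y := by
    apply Finset.sum_le_sum_of_subset_of_nonneg hsub
    intro i _ _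
    simp only [hg]
    positivity
  have h5 : ∑ y ∈ (Ico 1 N) ×ˢ ((Ico 1 N) ×ˢ (Ico 1 N)), g y = (∑ a ∈ Ico 1 N, (a : ℝ)⁻¹) ^ 3 := by
    rw [Finset.sum_product]
    simp_rw [Finset.sum_product]
    simp only [hg]
    rw [pow_succ, pow_two, Finset.sum_mul_sum, Finset.sum_mul]
    refine Finset.sum_congr rfl fun a _ => ?_
    rw [Finset.sum_mul]
    refine Finset.sum_congr rfl fun b _ => ?_
    rw [Finset.mul_sum]
  have h0 : 0 ≤ ∑ a ∈ Ico 1 N, (a : ℝ)⁻¹ := Finset.sum_nonneg fun i _ => by positivity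
  have h6 := pow_le_pow_left₀ h0 (MT_harm N) 3
  rw [one_mul]
  apply mul_le_mul_of_nonneg_left _ (Nat.cast_nonneg N)
  linarith

theorem MT_tcount (L : ℕ) (r s : ℤ) (hr : 0 < r) :
    ((Ico (-(L * r) : ℤ) (L * r)).filter (fun t => r ∣ 1 + s * t)).card ≤ 2 * L := by
  by_cases hne : ((Ico (-(L * r) : ℤ) (L * r)).filter (fun t => r ∣ 1 + s * t)).Nonempty
  · obtain ⟨t0, ht0⟩ := hne
    have h0 := (Finset.mem_filter.mp ht0).2
    have hco : IsCoprime r s := by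
      obtain ⟨k, hk⟩ := h0
      exact ⟨k, -t0, by linear_combination -hk⟩
    have hsub : (Ico (-(L * r) : ℤ) (L * r)).filter (fun t => r ∣ 1 + s * t) ⊆
        (Ico (-(L * r) : ℤ) (L * r)).filter (fun t => t ≡ t0 [ZMOD r]) := by
      intro t ht
      obtain ⟨ht1, ht2⟩ := Finset.mem_filter.mp ht
      refine Finset.mem_filter.mpr ⟨ht1, ?_⟩
      have h1 : r ∣ s * (t0 - t) := by
        have := dvd_sub h0 ht2
        have e : 1 + s * t0 - (1 + s * t) = s * (t0 - t) := by ring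
        rwa [e] at this
      exact (Int.modEq_iff_dvd).mpr (hco.dvd_of_dvd_mul_left h1)
    refine (Finset.card_le_card hsub).trans ?_
    have h2 := Int.Ico_filter_modEq_card (-(L * r) : ℤ) (L * r) hr t0
    have hr' : (r : ℚ) ≠ 0 := by exact_mod_cast hr.ne'
    have e1 : (((L * r : ℤ) : ℚ) - (t0 : ℚ)) / (r : ℚ) = -(t0 : ℚ) / r + ((L : ℤ) : ℚ) := by
      push_cast; field_simp; ring
    have e2 : (((-(L * r) : ℤ) : ℚ) - (t0 : ℚ)) / (r : ℚ) = -(t0 : ℚ) / r - ((L : ℤ) : ℚ) := by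
      push_cast; field_simp; ring
    rw [e1, e2, Int.ceil_add_intCast, Int.ceil_sub_intCast] at h2
    omega
  · rw [Finset.not_nonempty_iff_eq_empty] at hne
    rw [hne]; simp

theorem BX (R L : ℕ) : ((box R L).card : ℝ) ≤ 300 * L * (R : ℝ) ^ 2 := by
  have h1 : box R L ⊆ (Ico (R : ℤ) (8 * R)).biUnion (fun r =>
      (Ico (-r) r).biUnion (fun s => ((Ico (-(L * r) : ℤ) (L * r)).filter
        (fun t => r ∣ 1 + s * t)).image (fun t => (r, s, t)))) := by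
    rintro ⟨r, s, t⟩ hx
    obtain ⟨h1, h2⟩ := Finset.mem_filter.mp hx
    simp only [Finset.mem_product] at h1
    refine Finset.mem_biUnion.mpr ⟨r, h1.1, Finset.mem_biUnion.mpr ⟨s, ?_, ?_⟩⟩
    · exact Finset.mem_Ico.mpr ⟨h2.1, h2.2.1⟩
    · exact Finset.mem_image.mpr ⟨t, Finset.mem_filter.mpr
        ⟨Finset.mem_Ico.mpr ⟨h2.2.2.1, h2.2.2.2.1⟩, h2.2.2.2.2⟩, rfl⟩
  have h2 : (box R L).card ≤ ∑ r ∈ Ico (R : ℤ) (8 * R), 32 * R * L := by
    refine (Finset.card_le_card h1).trans (Finset.card_biUnion_le.trans (Finset.sum_le_sum ?_))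
    intro r hr
    rw [Finset.mem_Ico] at hr
    rcases Nat.eq_zero_or_pos R with hR | hR
    · subst hR; simp at hr; omega
    have hr0 : 0 < r := by omega
    refine Finset.card_biUnion_le.trans ?_
    have h3 : ∀ s ∈ Ico (-r) r, (((Ico (-(L * r) : ℤ) (L * r)).filter
        (fun t => r ∣ 1 + s * t)).image (fun t => (r, s, t))).card ≤ 2 * L := by
      intro s _
      exact Finset.card_image_le.trans (MT_tcount L r s hr0)
    refine (Finset.sum_le_card_nsmul _ _ _ h3).trans ?_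
    rw [Int.card_Ico, smul_eq_mul]
    have h4 : (r - -r).toNat ≤ 16 * R := by omega
    calc (r - -r).toNat * (2 * L) ≤ (16 * R) * (2 * L) := Nat.mul_le_mul_right _ h4
      _ = 32 * R * L := by ring
  rw [Finset.sum_const, Int.card_Ico, smul_eq_mul] at h2
  have h5 : (8 * (R : ℤ) - R).toNat = 7 * R := by omega
  rw [h5] at h2
  have h6 : ((box R L).card : ℝ) ≤ ((7 * R * (32 * R * L) : ℕ) : ℝ) := by exact_mod_cast h2
  push_cast at h6
  have h7 : (0 : ℝ) ≤ L * (R : ℝ) ^ 2 := by positivity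
  nlinarith

theorem MT_count (M : ℕ) (hM : 0 < M) (a : ℤ) (n : ℕ) :
    |(∑ j ∈ range n, (if (M : ℤ) ∣ (j : ℤ) - a then (1 : ℝ) else 0)) - n / M| ≤ 1 := by
  have h1 := Int.Ico_filter_modEq_card (0 : ℤ) (n : ℤ) (r := (M : ℤ)) (by exact_mod_cast hM) a
  have h2 : ((range n).filter (fun j : ℕ => (M : ℤ) ∣ (j : ℤ) - a)).card =
      ((Ico (0 : ℤ) (n : ℤ)).filter (fun x => x ≡ a [ZMOD M])).card := by
    apply Finset.card_bij (fun (j : ℕ) _ => (j : ℤ))
    · intro j hj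
      obtain ⟨hj1, hj2⟩ := Finset.mem_filter.mp hj
      rw [Finset.mem_range] at hj1
      refine Finset.mem_filter.mpr ⟨Finset.mem_Ico.mpr ⟨by omega, by omega⟩, ?_⟩
      exact (Int.modEq_iff_dvd.mpr hj2).symm
    · intro j _ k _ h
      exact_mod_cast h
    · intro x hx
      obtain ⟨hx1, hx2⟩ := Finset.mem_filter.mp hx
      rw [Finset.mem_Ico] at hx1
      refine ⟨x.toNat, Finset.mem_filter.mpr ⟨Finset.mem_range.mpr (by omega), ?_⟩, by omega⟩
      rw [Int.toNat_of_nonneg hx1.1]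
      exact Int.modEq_iff_dvd.mp hx2.symm
  rw [Finset.sum_ite, Finset.sum_const_zero, add_zero, Finset.sum_const, nsmul_eq_mul, mul_one, h2]
  have hMq : (0 : ℚ) < (M : ℚ) := by exact_mod_cast hM
  set u : ℚ := ((n : ℤ) - (a : ℤ) : ℚ) / ((M : ℤ) : ℚ) with hu
  set v : ℚ := ((0 : ℤ) - (a : ℤ) : ℚ) / ((M : ℤ) : ℚ) with hv
  have huv : u - v = (n : ℚ) / M := by
    rw [hu, hv]; push_cast; field_simp; ring
  have hn0 : (0 : ℚ) ≤ (n : ℚ) / M := by positivity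
  have hle : ⌈v⌉ ≤ ⌈u⌉ := Int.ceil_mono (by linarith)
  rw [max_eq_left (by omega)] at h1
  have hu1 := Int.le_ceil u
  have hu2 := Int.ceil_lt_add_one u
  have hv1 := Int.le_ceil v
  have hv2 := Int.ceil_lt_add_one v
  have h3 : |((((Ico (0 : ℤ) (n : ℤ)).filter (fun x => x ≡ a [ZMOD M])).card : ℤ) : ℚ) - (n : ℚ) / M| ≤ 1 := by
    rw [h1, abs_le]
    push_cast
    constructor <;> linarith
  have h4 : (((|((((Ico (0 : ℤ) (n : ℤ)).filter (fun x => x ≡ a [ZMOD M])).card : ℤ) : ℚ) - (n : ℚ) / M|) : ℚ) : ℝ) ≤ ((1 : ℚ) : ℝ) := by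
    exact_mod_cast h3
  push_cast at h4
  exact h4

theorem MT_abel (c : ℕ → ℝ) (N : ℕ) :
    ∑ j ∈ range N, (j : ℝ) * c j =
      ∑ i ∈ range N, (∑ j ∈ range N, c j - ∑ j ∈ range (i + 1), c j) := by
  induction N with
  | zero => simp
  | succ N ih =>
    rw [Finset.sum_range_succ, ih]
    conv_rhs => rw [Finset.sum_range_succ]
    rw [sub_self, add_zero]
    have : ∑ i ∈ range N, (∑ j ∈ range (N + 1), c j - ∑ j ∈ range (i + 1), c j) =
        ∑ i ∈ range N, ((∑ j ∈ range N, c j - ∑ j ∈ range (i + 1), c j) + c N) := by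
      refine Finset.sum_congr rfl fun i _ => ?_
      rw [Finset.sum_range_succ c N]; ring
    rw [this, Finset.sum_add_distrib, Finset.sum_const, Finset.card_range, nsmul_eq_mul]

theorem MT_S (M : ℕ) (hM : 0 < M) (a b : ℤ) (N : ℕ) :
    |(∑ j ∈ range N, (if (M : ℤ) ∣ (j : ℤ) - a then (j : ℝ) else 0)) -
      ∑ j ∈ range N, (if (M : ℤ) ∣ (j : ℤ) - b then (j : ℝ) else 0)| ≤ 4 * N := by
  have e : ∀ a : ℤ, ∑ j ∈ range N, (if (M : ℤ) ∣ (j : ℤ) - a then (j : ℝ) else 0) =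
      ∑ j ∈ range N, (j : ℝ) * (if (M : ℤ) ∣ (j : ℤ) - a then (1 : ℝ) else 0) := by
    intro a
    refine Finset.sum_congr rfl fun j _ => ?_
    split_ifs <;> ring
  rw [e a, e b, MT_abel, MT_abel, ← Finset.sum_sub_distrib]
  refine (Finset.abs_sum_le_sum_abs _ _).trans ?_
  have h : ∀ i ∈ range N, |(∑ j ∈ range N, (if (M : ℤ) ∣ (j : ℤ) - a then (1 : ℝ) else 0) -
        ∑ j ∈ range (i + 1), (if (M : ℤ) ∣ (j : ℤ) - a then (1 : ℝ) else 0)) -
      (∑ j ∈ range N, (if (M : ℤ) ∣ (j : ℤ) - b then (1 : ℝ) else 0) -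
        ∑ j ∈ range (i + 1), (if (M : ℤ) ∣ (j : ℤ) - b then (1 : ℝ) else 0))| ≤ 4 := by
    intro i _
    have h1 := abs_le.mp (MT_count M hM a N)
    have h2 := abs_le.mp (MT_count M hM a (i + 1))
    have h3 := abs_le.mp (MT_count M hM b N)
    have h4 := abs_le.mp (MT_count M hM b (i + 1))
    rw [abs_le]
    constructor <;> linarith [h1.1, h1.2, h2.1, h2.2, h3.1, h3.2, h4.1, h4.2]
  refine (Finset.sum_le_sum h).trans ?_
  rw [Finset.sum_const, Finset.card_range, nsmul_eq_mul]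
  linarith

open Classical in
theorem MT_W (R M d : ℕ) (hd : 1 ≤ d) (hco : d.Coprime M) :
    ∃ u : ℤ, ∀ r0 : ℤ,
    ∑ r ∈ Ico R (8 * R), (if (M : ℤ) ∣ (r : ℤ) - r0 ∧ d ∣ r then (r : ℝ) / d else 0) =
      (∑ j ∈ range ((8 * R + d - 1) / d), (if (M : ℤ) ∣ (j : ℤ) - u * r0 then (j : ℝ) else 0)) -
      ∑ j ∈ range ((R + d - 1) / d), (if (M : ℤ) ∣ (j : ℤ) - u * r0 then (j : ℝ) else 0) := by
  obtain ⟨u, v, huv⟩ := (Nat.isCoprime_iff_coprime.mpr hco : IsCoprime (d : ℤ) (M : ℤ))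
  refine ⟨u, fun r0 => ?_⟩
  have hAB : (R + d - 1) / d ≤ (8 * R + d - 1) / d := Nat.div_le_div_right (by omega)
  rw [← Finset.sum_Ico_eq_sub _ hAB, ← Finset.sum_filter, ← Finset.sum_filter]
  symm
  have hceil : ∀ n j : ℕ, (n + d - 1) / d ≤ j ↔ n ≤ d * j := by
    intro n j
    rw [Nat.div_le_iff_le_mul_add_pred (by omega)]
    constructor
    · intro h; omega
    · intro h; omega
  apply Finset.sum_nbij (fun j => d * j)
  · intro j hj
    obtain ⟨hj1, hj2⟩ := Finset.mem_filter.mp hj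
    rw [Finset.mem_Ico] at hj1
    refine Finset.mem_filter.mpr ⟨Finset.mem_Ico.mpr ⟨(hceil R j).mp hj1.1, ?_⟩, ?_, Dvd.intro _ rfl⟩
    · by_contra hcon
      have := (hceil (8 * R) j).mpr (by omega)
      omega
    · have e : ((d * j : ℕ) : ℤ) - r0 = d * ((j : ℤ) - u * r0) - (M * (v * r0)) := by
        push_cast; linear_combination r0 * huv
      rw [e]
      exact dvd_sub (hj2.mul_left _) (Dvd.intro _ rfl)
  · intro i _ j _ h
    exact Nat.eq_of_mul_eq_mul_left (by omega) h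
  · intro r hr
    obtain ⟨hr1, hr2, j, rfl⟩ := Finset.mem_filter.mp (Finset.mem_coe.mp hr)
    rw [Finset.mem_Ico] at hr1
    refine ⟨j, Finset.mem_coe.mpr (Finset.mem_filter.mpr ⟨Finset.mem_Ico.mpr ⟨(hceil R j).mpr hr1.1, ?_⟩, ?_⟩), rfl⟩
    · by_contra hcon
      have := (hceil (8 * R) j).mp (by omega)
      omega
    · have e : (j : ℤ) - u * r0 = u * (((d * j : ℕ) : ℤ) - r0) + (M * (v * j)) := by
        push_cast; linear_combination -(j : ℤ) * huv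
      rw [e]
      exact dvd_add (hr2.mul_left _) (Dvd.intro _ rfl)
  · intro j _
    have : (d : ℝ) ≠ 0 := by
      have : (1 : ℝ) ≤ d := by exact_mod_cast hd
      linarith
    push_cast
    field_simp

open Classical in
theorem MT : ∃ C : ℝ, 0 < C ∧ ∀ R M : ℕ, 1 ≤ R → Squarefree M → ∃ Z : ℝ, ∀ r0 : ℤ,
    |∑ r ∈ (Ico R (8 * R)).filter (fun r : ℕ => (M : ℤ) ∣ (r : ℤ) - r0), phiM M r - Z|
      ≤ C * R * (1 + Real.log R) := by
  refine ⟨1024, by norm_num, fun R M hR hM => ?_⟩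
  have hMpos : 0 < M := Nat.pos_of_ne_zero hM.ne_zero
  set D := (Ico 1 (8 * R)).filter (fun d : ℕ => d.Coprime M) with hD
  set W : ℕ → ℤ → ℝ := fun d r0 =>
    ∑ r ∈ Ico R (8 * R), (if (M : ℤ) ∣ (r : ℤ) - r0 ∧ d ∣ r then (r : ℝ) / d else 0) with hW
  have key : ∀ r0 : ℤ, ∑ r ∈ (Ico R (8 * R)).filter (fun r : ℕ => (M : ℤ) ∣ (r : ℤ) - r0), phiM M r =
      ∑ d ∈ D, (ArithmeticFunction.moebius d : ℝ) * W d r0 := by
    intro r0
    rw [Finset.sum_filter]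
    have h1 : ∀ r ∈ Ico R (8 * R), (if (M : ℤ) ∣ (r : ℤ) - r0 then phiM M r else 0) =
        ∑ d ∈ D, (ArithmeticFunction.moebius d : ℝ) *
          (if (M : ℤ) ∣ (r : ℤ) - r0 ∧ d ∣ r then (r : ℝ) / d else 0) := by
      intro r hr
      rw [Finset.mem_Ico] at hr
      by_cases hr0 : (M : ℤ) ∣ (r : ℤ) - r0
      · rw [if_pos hr0]
        have h2 : ∀ d ∈ D, (ArithmeticFunction.moebius d : ℝ) *
          (if (M : ℤ) ∣ (r : ℤ) - r0 ∧ d ∣ r then (r : ℝ) / d else 0) =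
            (if d ∣ r then (ArithmeticFunction.moebius d : ℝ) * ((r : ℝ) / d) else 0) := by
          intro d _
          by_cases hdr : d ∣ r
          · rw [if_pos ⟨hr0, hdr⟩, if_pos hdr]
          · rw [if_neg (fun h => hdr h.2), if_neg hdr, mul_zero]
        rw [Finset.sum_congr rfl h2, ← Finset.sum_filter]
        unfold phiM
        refine Finset.sum_congr ?_ fun _ _ => rfl
        ext d
        simp only [hD, Finset.mem_filter, Nat.mem_divisors, Finset.mem_Ico]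
        constructor
        · rintro ⟨⟨h3, h4⟩, h5⟩
          have := Nat.le_of_dvd (by omega) h3
          have := Nat.pos_of_dvd_of_pos h3 (by omega)
          exact ⟨⟨⟨by omega, by omega⟩, h5⟩, h3⟩
        · rintro ⟨⟨_, h5⟩, h3⟩
          exact ⟨⟨h3, by omega⟩, h5⟩
      · rw [if_neg hr0]
        symm
        apply Finset.sum_eq_zero
        intro d _
        rw [if_neg (fun h => hr0 h.1), mul_zero]
    rw [Finset.sum_congr rfl h1, Finset.sum_comm]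
    refine Finset.sum_congr rfl fun d _ => ?_
    rw [hW, Finset.mul_sum]
  refine ⟨∑ d ∈ D, (ArithmeticFunction.moebius d : ℝ) * W d 0, fun r0 => ?_⟩
  rw [key r0, ← Finset.sum_sub_distrib]
  have hRr : (1 : ℝ) ≤ R := by exact_mod_cast hR
  have hterm : ∀ d ∈ D, |(ArithmeticFunction.moebius d : ℝ) * W d r0 -
      (ArithmeticFunction.moebius d : ℝ) * W d 0| ≤ 128 * R * (d : ℝ)⁻¹ := by
    intro d hd
    obtain ⟨hd1, hd2⟩ := Finset.mem_filter.mp hd
    rw [Finset.mem_Ico] at hd1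
    obtain ⟨u, hu⟩ := MT_W R M d hd1.1 hd2
    have hdr : (1 : ℝ) ≤ d := by exact_mod_cast hd1.1
    rw [← mul_sub, abs_mul]
    have hmu : |(ArithmeticFunction.moebius d : ℝ)| ≤ 1 := by
      have := ArithmeticFunction.abs_moebius_le_one (n := d)
      exact_mod_cast this
    have hB : (((8 * R + d - 1) / d : ℕ) : ℝ) ≤ 16 * R * (d : ℝ)⁻¹ := by
      have h1 : (8 * R + d - 1) / d ≤ (16 * R) / d := Nat.div_le_div_right (by omega)
      calc (((8 * R + d - 1) / d : ℕ) : ℝ) ≤ (((16 * R) / d : ℕ) : ℝ) := by exact_mod_cast h1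
        _ ≤ ((16 * R : ℕ) : ℝ) / d := Nat.cast_div_le
        _ = 16 * R * (d : ℝ)⁻¹ := by push_cast; rw [div_eq_mul_inv]
    have hA : (((R + d - 1) / d : ℕ) : ℝ) ≤ (((8 * R + d - 1) / d : ℕ) : ℝ) := by
      exact_mod_cast Nat.div_le_div_right (by omega)
    have hdiff : |W d r0 - W d 0| ≤ 128 * R * (d : ℝ)⁻¹ := by
      have e0 := hu r0
      have e1 := hu 0
      simp only [hW]
      rw [e0, e1]
      have h1 := abs_le.mp (MT_S M hMpos (u * r0) (u * 0) ((8 * R + d - 1) / d))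
      have h2 := abs_le.mp (MT_S M hMpos (u * r0) (u * 0) ((R + d - 1) / d))
      rw [abs_le]
      constructor <;> linarith [h1.1, h1.2, h2.1, h2.2]
    calc |(ArithmeticFunction.moebius d : ℝ)| * |W d r0 - W d 0|
        ≤ 1 * (128 * R * (d : ℝ)⁻¹) :=
          mul_le_mul hmu hdiff (abs_nonneg _) (by norm_num)
      _ = _ := one_mul _
  refine (Finset.abs_sum_le_sum_abs _ _).trans ((Finset.sum_le_sum hterm).trans ?_)
  have h5 : ∑ d ∈ D, 128 * R * (d : ℝ)⁻¹ ≤ ∑ d ∈ Ico 1 (8 * R), 128 * R * (d : ℝ)⁻¹ := by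
    apply Finset.sum_le_sum_of_subset_of_nonneg (Finset.filter_subset _ _)
    intro i _ _
    positivity
  refine h5.trans ?_
  rw [← Finset.mul_sum]
  have h6 := MT_harm (8 * R)
  have h7 : Real.log ((8 * R : ℕ) : ℝ) ≤ 3 + Real.log R := by
    push_cast
    rw [Real.log_mul (by norm_num) (by linarith)]
    have : Real.log 8 ≤ 3 := by
      have e : (8 : ℝ) = 2 ^ 3 := by norm_num
      rw [e, Real.log_pow]
      have := Real.log_two_lt_d9
      push_cast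
      linarith
    linarith
  have h8 : 0 ≤ Real.log R := Real.log_nonneg hRr
  have h9 : ∑ g ∈ Ico 1 (8 * R), (g : ℝ)⁻¹ ≤ 8 * (1 + Real.log R) := by linarith
  calc (128 * R : ℝ) * ∑ g ∈ Ico 1 (8 * R), (g : ℝ)⁻¹ ≤ 128 * R * (8 * (1 + Real.log R)) :=
        mul_le_mul_of_nonneg_left h9 (by positivity)
    _ = 1024 * R * (1 + Real.log R) := by ring

theorem MT_mm_dvd (M r : ℕ) : mm M r ∣ r := by
  have h1 : mm M r ∣ ∏ p ∈ r.primeFactors, p :=
    Finset.prod_dvd_prod_of_subset _ _ _ (Finset.filter_subset _ _)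
  exact h1.trans (Nat.prod_primeFactors_dvd r)

theorem mm_mul_kk (M r : ℕ) (hr : 1 ≤ r) : mm M r * kk M r = r := by
  have _ := hr
  exact Nat.mul_div_cancel' (MT_mm_dvd M r)

theorem MT_mm_pos (M r : ℕ) : 0 < mm M r := by
  unfold mm
  apply Finset.prod_pos
  intro p hp
  exact (Nat.prime_of_mem_primeFactors (Finset.mem_filter.mp hp).1).pos

theorem MT_kk_le (M r a b : ℕ) (hM : M ≠ 0) (hr : 1 ≤ r) (hab : b ^ 2 * a = r) (ha : Squarefree a) :
    kk M r ≤ b ^ 3 * M := by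
  have hb : b ≠ 0 := by
    rintro rfl
    simp at hab; omega
  have ha0 : a ≠ 0 := ha.ne_zero
  have h1 : a ∣ mm M r * (b * M) := by
    rw [← Nat.prod_primeFactors_of_squarefree ha]
    rw [← Finset.prod_filter_mul_prod_filter_not a.primeFactors (fun p => p ∣ b * M)]
    rw [mul_comm]
    apply Nat.mul_dvd_mul
    · unfold mm
      apply Finset.prod_dvd_prod_of_subset
      intro p hp
      obtain ⟨hp1, hp2⟩ := Finset.mem_filter.mp hp
      have hpp := Nat.prime_of_mem_primeFactors hp1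
      have hpa := Nat.dvd_of_mem_primeFactors hp1
      have hpb : ¬ p ∣ b := fun h => hp2 (h.mul_right M)
      have hpM : ¬ p ∣ M := fun h => hp2 (h.mul_left b)
      refine Finset.mem_filter.mpr ⟨Nat.mem_primeFactors.mpr ⟨hpp, ?_, by omega⟩, ?_, hpM⟩
      · rw [← hab]; exact hpa.mul_left _
      · intro h
        rw [← hab] at h
        have hco : Nat.Coprime (p ^ 2) (b ^ 2) :=
          Nat.Coprime.pow 2 2 ((Nat.Prime.coprime_iff_not_dvd hpp).mpr hpb)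
        have h2 : p ^ 2 ∣ a := hco.dvd_of_dvd_mul_left h
        have h3 : p * p ∣ a := by rwa [pow_two] at h2
        have := ha p h3
        exact hpp.one_lt.ne' (Nat.isUnit_iff.mp this)
    · refine dvd_trans ?_ (Nat.prod_primeFactors_dvd (b * M))
      apply Finset.prod_dvd_prod_of_subset
      intro p hp
      obtain ⟨hp1, hp2⟩ := Finset.mem_filter.mp hp
      exact Nat.mem_primeFactors.mpr ⟨Nat.prime_of_mem_primeFactors hp1, hp2,
        mul_ne_zero hb hM⟩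
  have h2 : a ≤ mm M r * (b * M) :=
    Nat.le_of_dvd (Nat.mul_pos (MT_mm_pos M r) (Nat.pos_of_ne_zero (mul_ne_zero hb hM))) h1
  have h3 := mm_mul_kk M r hr
  have h4 : mm M r * kk M r ≤ mm M r * (b ^ 3 * M) := by
    rw [h3]
    calc r = b ^ 2 * a := hab.symm
      _ ≤ b ^ 2 * (mm M r * (b * M)) := Nat.mul_le_mul_left _ h2
      _ = mm M r * (b ^ 3 * M) := by ring
  exact Nat.le_of_mul_le_mul_left h4 (MT_mm_pos M r)

theorem BR (R M : ℕ) (K : ℝ) (hR : 1 ≤ R) (hM : Squarefree M) (hK : 1 ≤ K) :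
    (((Ico R (8 * R)).filter (fun r : ℕ => K < (kk M r : ℝ))).card : ℝ)
      ≤ 32 * R * ((M : ℝ) / K) ^ (1 / 3 : ℝ) := by
  have hM0 : M ≠ 0 := hM.ne_zero
  have hMpos : (0 : ℝ) < M := by exact_mod_cast Nat.pos_of_ne_zero hM0
  have hK0 : (0 : ℝ) < K := by linarith
  set B0 : ℝ := (K / M) ^ (1 / 3 : ℝ) with hB0
  have hB0pos : 0 < B0 := Real.rpow_pos_of_pos (div_pos hK0 hMpos) _
  have hB3 : B0 ^ 3 = K / M := by
    rw [hB0, ← Real.rpow_natCast, ← Real.rpow_mul (div_pos hK0 hMpos).le]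
    norm_num
  have hinv : ((M : ℝ) / K) ^ (1 / 3 : ℝ) = 1 / B0 := by
    rw [hB0, ← inv_div, Real.inv_rpow (div_pos hK0 hMpos).le, one_div (_ ^ _)]
  set k := ⌊B0⌋₊ with hk
  have hsub : (Ico R (8 * R)).filter (fun r : ℕ => K < (kk M r : ℝ)) ⊆
      (Ioo k (8 * R)).biUnion (fun b => (Ioc 0 (8 * R)).filter (fun r => b ^ 2 ∣ r)) := by
    intro r hr
    obtain ⟨hr1, hr2⟩ := Finset.mem_filter.mp hr
    rw [Finset.mem_Ico] at hr1
    have hr0 : 1 ≤ r := le_trans hR hr1.1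
    obtain ⟨a, b, hab, ha⟩ := Nat.sq_mul_squarefree r
    have h1 := MT_kk_le M r a b hM0 hr0 hab ha
    have h2 : K < (b : ℝ) ^ 3 * M := by
      refine lt_of_lt_of_le hr2 ?_
      exact_mod_cast h1
    have h3 : B0 ^ 3 < (b : ℝ) ^ 3 := by
      rw [hB3, div_lt_iff₀ hMpos]; exact h2
    have h4 : B0 < b := lt_of_pow_lt_pow_left₀ 3 (Nat.cast_nonneg b) h3
    have h5 : k < b := (Nat.floor_lt hB0pos.le).mpr h4
    have hbr : b ^ 2 ≤ r := Nat.le_of_dvd hr0 ⟨a, hab.symm⟩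
    have hb1 : 1 ≤ b := by omega
    have h6 : b < 8 * R := by nlinarith
    refine Finset.mem_biUnion.mpr ⟨b, Finset.mem_Ioo.mpr ⟨h5, h6⟩, ?_⟩
    refine Finset.mem_filter.mpr ⟨Finset.mem_Ioc.mpr ⟨hr0, hr1.2.le⟩, ⟨a, hab.symm⟩⟩
  have h1 : (((Ico R (8 * R)).filter (fun r : ℕ => K < (kk M r : ℝ))).card : ℝ) ≤
      ∑ b ∈ Ioo k (8 * R), (8 * R : ℝ) * ((b : ℝ) ^ 2)⁻¹ := by
    have h2 := (Finset.card_le_card hsub).trans Finset.card_biUnion_le
    have h3 : ∀ b ∈ Ioo k (8 * R), (((Ioc 0 (8 * R)).filter (fun r => b ^ 2 ∣ r)).card : ℝ) ≤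
        (8 * R : ℝ) * ((b : ℝ) ^ 2)⁻¹ := by
      intro b _
      rw [Nat.Ioc_filter_dvd_card_eq_div]
      have := @Nat.cast_div_le ℝ _ _ _ (8 * R) (b ^ 2)
      push_cast at this
      rw [← div_eq_mul_inv]
      exact this
    calc (((Ico R (8 * R)).filter (fun r : ℕ => K < (kk M r : ℝ))).card : ℝ)
        ≤ ((∑ b ∈ Ioo k (8 * R), ((Ioc 0 (8 * R)).filter (fun r => b ^ 2 ∣ r)).card : ℕ) : ℝ) := by
          exact_mod_cast h2
      _ = ∑ b ∈ Ioo k (8 * R), (((Ioc 0 (8 * R)).filter (fun r => b ^ 2 ∣ r)).card : ℝ) := by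
          push_cast; rfl
      _ ≤ _ := Finset.sum_le_sum h3
  rw [← Finset.mul_sum] at h1
  have h4 := sum_Ioo_inv_sq_le (α := ℝ) k (8 * R)
  have h5 : (2 : ℝ) / (k + 1) ≤ 2 / B0 := by
    apply div_le_div_of_nonneg_left (by norm_num) hB0pos
    exact (Nat.lt_floor_add_one B0).le
  have hRr : (0 : ℝ) ≤ R := Nat.cast_nonneg R
  rw [hinv]
  calc (((Ico R (8 * R)).filter (fun r : ℕ => K < (kk M r : ℝ))).card : ℝ)
      ≤ (8 * R) * (2 / B0) := h1.trans (mul_le_mul_of_nonneg_left (h4.trans h5) (by positivity))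
    _ ≤ 32 * R * (1 / B0) := by
      have : 0 ≤ R * (1 / B0) := by positivity
      have e : (8 * R : ℝ) * (2 / B0) = 16 * (R * (1 / B0)) := by ring
      rw [e]; nlinarith

end Pool.Agent.H37.PPE
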