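import Pool.Agent.H37.PPE.PR
import Pool.Agent.H37.PPE.MT

/-!
PPE EC: equidistribution of the box in residue classes mod M.

count = ∑_{R≤r<8R, r≡r0(M)} count_r, count_r as in PR (for x = (r,s,t) ∈ box: qq x = (1+st)/r).
 Good r: kk M r ≤ K := R^{1/8}: |count_r - (4L/M²) phiM M r| ≤ C K L τ(r)² r^{3/4}(1+log r)², total by TD ≤ C L R^{1/8+3/4+1} (1+log R)^5 ≤ C L R^{2-1/40}.
 Bad r: count_r ≤ 4 L r ≤ 32 L R (for every s with gcd(s,r)=1 exactly 2L values t in [-Lr,Lr)), 0 ≤ (4L/M²) phiM M r ≤ 4 L r (phiM M r ∈ [0,r]):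
   by BR ≤ 32·32·2 L R² (M/K)^{1/3} ≤ C L M R^{2-1/24}.
 Main term: (4L/M²) times MT.
-/

set_option autoImplicit false

namespace Pool.Agent.H37.PPE

open Finset

open Classical in
/-- the count for a fixed `r` -/
private noncomputable def EC_cnt (M L : ℕ) (s0 t0 q0 : ℤ) (r : ℕ) : ℕ :=
  (((Ico (-(r : ℤ)) r) ×ˢ (Ico (-((L : ℤ) * r)) (L * r))).filter (fun x =>
        (r : ℤ) ∣ 1 + x.1 * x.2 ∧ (M : ℤ) ∣ x.1 - s0 ∧ (M : ℤ) ∣ x.2 - t0 ∧
        (M : ℤ) ∣ (1 + x.1 * x.2) / r - q0)).card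

open Classical in
private theorem EC_split (R L M : ℕ) (r0 s0 t0 q0 : ℤ) :
    ((box R L).filter (fun x => InCl M r0 s0 t0 q0 x)).card =
      ∑ r ∈ (Ico R (8 * R)).filter (fun r : ℕ => (M : ℤ) ∣ (r : ℤ) - r0),
        EC_cnt M L s0 t0 q0 r := by
  have hmaps : ∀ x ∈ (box R L).filter (fun x => InCl M r0 s0 t0 q0 x),
      x.1.toNat ∈ (Ico R (8 * R)).filter (fun r : ℕ => (M : ℤ) ∣ (r : ℤ) - r0) := by
    intro x hx
    rw [mem_filter, box, mem_filter, mem_product, mem_product] at hx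
    obtain ⟨⟨⟨h1, h2, h3⟩, h4⟩, h5⟩ := hx
    rw [mem_Ico] at h1
    have h0 : (0 : ℤ) ≤ x.1 := by omega
    rw [mem_filter, mem_Ico, Int.toNat_of_nonneg h0]
    refine ⟨⟨by omega, by omega⟩, h5.1⟩
  rw [card_eq_sum_card_fiberwise (f := fun x : ℤ × ℤ × ℤ => x.1.toNat) (by
    intro x hx
    exact mem_coe.2 (hmaps x (mem_coe.1 hx)))]
  refine sum_congr rfl fun r hr => ?_
  rw [mem_filter, mem_Ico] at hr
  unfold EC_cnt
  refine card_nbij' (fun x => x.2) (fun y => ((r : ℤ), y.1, y.2)) ?_ ?_ ?_ ?_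
  · intro x hx
    rw [mem_coe, mem_filter, mem_filter, box, mem_filter, mem_product, mem_product] at hx
    obtain ⟨⟨⟨⟨h1, h2, h3⟩, h4, h5, h6, h7, h8⟩, h9, h10, h11, h12⟩, h13⟩ := hx
    rw [mem_Ico] at h1
    have h0 : (0 : ℤ) ≤ x.1 := by omega
    have h14 : x.1 = (r : ℤ) := by
      rw [← h13]
      exact (Int.toNat_of_nonneg h0).symm
    rw [mem_coe, mem_filter, mem_product, mem_Ico, mem_Ico]
    unfold qq at h12
    rw [h14] at h4 h5 h6 h7 h8 h12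
    exact ⟨⟨⟨h4, h5⟩, h6, h7⟩, h8, h10, h11, h12⟩
  · intro y hy
    rw [mem_coe, mem_filter, mem_product, mem_Ico, mem_Ico] at hy
    obtain ⟨⟨⟨h4, h5⟩, h6, h7⟩, h8, h10, h11, h12⟩ := hy
    rw [mem_coe, mem_filter, mem_filter, box, mem_filter, mem_product, mem_product]
    have hrR : (R : ℤ) ≤ r := by exact_mod_cast hr.1.1
    have hrR2 : (r : ℤ) < 8 * R := by exact_mod_cast hr.1.2
    have hL0 : (0 : ℤ) ≤ L := Int.natCast_nonneg L
    have hLr : (L : ℤ) * r ≤ 8 * R * L := by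
      have := mul_le_mul_of_nonneg_left hrR2.le hL0
      linarith
    refine ⟨⟨⟨⟨?_, ?_, ?_⟩, h4, h5, h6, h7, h8⟩, hr.2, h10, h11, h12⟩, ?_⟩
    · rw [mem_Ico]; exact ⟨hrR, hrR2⟩
    · rw [mem_Ico]; constructor <;> simp only <;> omega
    · rw [mem_Ico]; constructor <;> simp only <;> linarith
    · simp
  · intro x hx
    rw [mem_coe, mem_filter, mem_filter, box, mem_filter, mem_product, mem_product] at hx
    obtain ⟨⟨⟨⟨h1, h2, h3⟩, h4⟩, h9⟩, h13⟩ := hx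
    rw [mem_Ico] at h1
    have h0 : (0 : ℤ) ≤ x.1 := by omega
    have h14 : x.1 = (r : ℤ) := by
      rw [← h13]
      exact (Int.toNat_of_nonneg h0).symm
    ext <;> simp [h14]
  · intro y _
    rfl

/-- for fixed `s` there are at most `2L` values of `t` -/
private theorem EC_t (L r : ℕ) (hr : 1 ≤ r) (s : ℤ) :
    ((Ico (-((L : ℤ) * r)) (L * r)).filter (fun t => (r : ℤ) ∣ 1 + s * t)).card ≤ 2 * L := by
  have hr0 : (0 : ℤ) < r := by exact_mod_cast hr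
  have h1 : ((Ico (-((L : ℤ) * r)) (L * r)).filter (fun t => (r : ℤ) ∣ 1 + s * t)).card ≤
      (Ico (-(L : ℤ)) L).card := by
    refine card_le_card_of_injOn (fun t => t / r) ?_ ?_
    · intro t ht
      rw [mem_coe, mem_filter, mem_Ico] at ht
      rw [mem_coe, mem_Ico]
      constructor
      · show -(L : ℤ) ≤ t / r
        rw [Int.le_ediv_iff_mul_le hr0]
        linarith [ht.1.1]
      · show t / r < (L : ℤ)
        rw [Int.ediv_lt_iff_lt_mul hr0]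
        exact ht.1.2
    · intro t ht t' ht' h
      rw [mem_coe, mem_filter, mem_Ico] at ht ht'
      have h : t / (r : ℤ) = t' / r := h
      have hd : (r : ℤ) ∣ t - t' := by
        have h2 : (r : ℤ) ∣ s * (t - t') := by
          have := dvd_sub ht.2 ht'.2
          have e : (1 + s * t) - (1 + s * t') = s * (t - t') := by ring
          rwa [e] at this
        have hcop : IsCoprime (r : ℤ) s := by
          obtain ⟨c, hc⟩ := ht.2
          exact ⟨c, -t, by linarith⟩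
        exact hcop.dvd_of_dvd_mul_left h2
      have e1 := Int.mul_ediv_add_emod t r
      have e2 := Int.mul_ediv_add_emod t' r
      have e3 : t % r = t' % r :=
        Int.emod_eq_emod_iff_emod_sub_eq_zero.2 (Int.emod_eq_zero_of_dvd hd)
      rw [← e1, ← e2, h, e3]
  refine h1.trans (le_of_eq ?_)
  rw [Int.card_Ico]
  omega

open Classical in
private theorem EC_cnt_le (M L : ℕ) (s0 t0 q0 : ℤ) (r : ℕ) (hr : 1 ≤ r) :
    (EC_cnt M L s0 t0 q0 r : ℝ) ≤ 4 * L * r := by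
  have h1 : EC_cnt M L s0 t0 q0 r ≤ ∑ s ∈ Ico (-(r : ℤ)) r, 2 * L := by
    unfold EC_cnt
    calc (((Ico (-(r : ℤ)) r) ×ˢ (Ico (-((L : ℤ) * r)) (L * r))).filter (fun x =>
        (r : ℤ) ∣ 1 + x.1 * x.2 ∧ (M : ℤ) ∣ x.1 - s0 ∧ (M : ℤ) ∣ x.2 - t0 ∧
        (M : ℤ) ∣ (1 + x.1 * x.2) / r - q0)).card
        = ∑ s ∈ Ico (-(r : ℤ)) r, ((((Ico (-(r : ℤ)) r) ×ˢ (Ico (-((L : ℤ) * r)) (L * r))).filter
          (fun x => (r : ℤ) ∣ 1 + x.1 * x.2 ∧ (M : ℤ) ∣ x.1 - s0 ∧ (M : ℤ) ∣ x.2 - t0 ∧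
          (M : ℤ) ∣ (1 + x.1 * x.2) / r - q0)).filter (fun x => x.1 = s)).card := by
          refine card_eq_sum_card_fiberwise ?_
          intro x hx
          exact mem_coe.2 (mem_product.1 (mem_filter.1 (mem_coe.1 hx)).1).1
      _ ≤ ∑ s ∈ Ico (-(r : ℤ)) r, 2 * L := by
          refine sum_le_sum fun s _ => ?_
          refine le_trans ?_ (EC_t L r hr s)
          refine card_le_card_of_injOn (fun x => x.2) ?_ ?_
          · intro x hx
            rw [mem_coe, mem_filter, mem_filter, mem_product] at hx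
            rw [mem_coe, mem_filter]
            refine ⟨hx.1.1.2, ?_⟩
            have := hx.1.2.1
            rw [hx.2] at this
            exact this
          · intro x hx y hy h
            rw [mem_coe, mem_filter] at hx hy
            exact Prod.ext (hx.2.trans hy.2.symm) h
  have h2 : ∑ s ∈ Ico (-(r : ℤ)) r, 2 * L = 4 * L * r := by
    rw [sum_const, Int.card_Ico, smul_eq_mul]
    have : (((r : ℤ) - -(r : ℤ))).toNat = 2 * r := by omega
    rw [this]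
    ring
  rw [h2] at h1
  exact_mod_cast h1

private theorem EC_harm (M : ℕ) : ∑ d ∈ Icc 1 M, 1 / (d : ℝ) ≤ 1 + Real.log M := by
  have h := harmonic_le_one_add_log M
  rw [harmonic_eq_sum_Icc] at h
  push_cast at h
  simpa only [one_div] using h

private theorem EC_phiM_abs (M r : ℕ) (hr : 1 ≤ r) : |phiM M r| ≤ r * (1 + Real.log r) := by
  unfold phiM
  calc |∑ d ∈ r.divisors.filter (fun d => d.Coprime M), (ArithmeticFunction.moebius d : ℝ) * ((r : ℝ) / d)|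
      ≤ ∑ d ∈ r.divisors.filter (fun d => d.Coprime M),
          |(ArithmeticFunction.moebius d : ℝ) * ((r : ℝ) / d)| := abs_sum_le_sum_abs _ _
    _ ≤ ∑ d ∈ r.divisors.filter (fun d => d.Coprime M), r * (1 / (d : ℝ)) := by
        refine sum_le_sum fun d _ => ?_
        rw [abs_mul]
        have h1 : |(ArithmeticFunction.moebius d : ℝ)| ≤ 1 := by
          have := ArithmeticFunction.abs_moebius_le_one (n := d)
          exact_mod_cast this
        have h2 : |(r : ℝ) / d| = r * (1 / (d : ℝ)) := by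
          rw [abs_of_nonneg (by positivity)]
          ring
        rw [h2]
        exact mul_le_of_le_one_left (by positivity) h1
    _ ≤ ∑ d ∈ Icc 1 r, r * (1 / (d : ℝ)) := by
        refine sum_le_sum_of_subset_of_nonneg ?_ (fun _ _ _ => by positivity)
        intro d hd
        rw [mem_filter, Nat.mem_divisors] at hd
        rw [mem_Icc]
        exact ⟨Nat.pos_of_dvd_of_pos hd.1.1 hr, Nat.le_of_dvd hr hd.1.1⟩
    _ = r * ∑ d ∈ Icc 1 r, 1 / (d : ℝ) := by rw [mul_sum]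
    _ ≤ _ := mul_le_mul_of_nonneg_left (EC_harm r) (Nat.cast_nonneg _)

private theorem EC_log (x e : ℝ) (hx : 1 ≤ x) (he : 0 < e) (he1 : e ≤ 1) :
    1 + Real.log x ≤ (2 / e) * x ^ e := by
  have h1 : Real.log x ≤ x ^ e / e := Real.log_le_rpow_div (by linarith) he
  have h2 : 1 ≤ x ^ e := Real.one_le_rpow hx he.le
  have h3 : 1 ≤ (1 / e) * x ^ e := by
    have h4 : 1 ≤ 1 / e := by rw [le_div_iff₀ he]; linarith
    calc (1 : ℝ) = 1 * 1 := by ring
      _ ≤ (1 / e) * x ^ e := mul_le_mul h4 h2 zero_le_one (by positivity)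
  have h5 : (2 / e) * x ^ e = (1 / e) * x ^ e + x ^ e / e := by ring
  rw [h5]
  linarith

open Classical in
theorem EC : ∃ C : ℝ, 0 < C ∧ ∀ R L M : ℕ, 1 ≤ R → 1 ≤ L → Squarefree M → ∃ Z : ℝ,
    ∀ r0 s0 t0 q0 : ℤ, (M : ℤ) ∣ r0 * q0 - s0 * t0 - 1 →
    |(((box R L).filter (fun x => InCl M r0 s0 t0 q0 x)).card : ℝ) - Z|
      ≤ C * L * (M : ℝ) ^ 2 * (R : ℝ) ^ (2 - 1 / 40 : ℝ) := by
  obtain ⟨C1, hC1, hPR⟩ := PR
  obtain ⟨C2, hC2, hMT⟩ := MT
  obtain ⟨C3, hC3, hTD⟩ := TD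
  refine ⟨64 * (C1 * C3 * 100 ^ 5 + 32 * 8 * 8 * 120 + 4 * C2 * 100), by positivity, ?_⟩
  intro R L M hR hL hM
  obtain ⟨Z, hZ⟩ := hMT R M hR hM
  refine ⟨4 * L / (M : ℝ) ^ 2 * Z, ?_⟩
  intro r0 s0 t0 q0 hdet
  have hM1 : 1 ≤ M := Nat.pos_of_ne_zero hM.ne_zero
  have hMR : (1 : ℝ) ≤ M := by exact_mod_cast hM1
  have hRR : (1 : ℝ) ≤ R := by exact_mod_cast hR
  have hLR : (1 : ℝ) ≤ L := by exact_mod_cast hL
  obtain ⟨X, hX⟩ : ∃ X : ℝ, X = ((8 * R : ℕ) : ℝ) := ⟨_, rfl⟩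
  have hX8 : X = 8 * R := by rw [hX]; push_cast; ring
  have hX1 : 1 ≤ X := by rw [hX8]; linarith
  have hX0 : 0 < X := by linarith
  have hlogX : 0 ≤ Real.log X := Real.log_nonneg hX1
  obtain ⟨S, hS⟩ : ∃ S : Finset ℕ, S = (Ico R (8 * R)).filter (fun r : ℕ => (M : ℤ) ∣ (r : ℤ) - r0) :=
    ⟨_, rfl⟩
  obtain ⟨K, hK⟩ : ∃ K : ℝ, K = (R : ℝ) ^ (1 / 8 : ℝ) := ⟨_, rfl⟩
  have hK1 : 1 ≤ K := by rw [hK]; exact Real.one_le_rpow hRR (by norm_num)
  have hKX : K ≤ X ^ (1 / 8 : ℝ) := by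
    rw [hK]
    exact Real.rpow_le_rpow (by linarith) (by linarith) (by norm_num)
  have hrS : ∀ r ∈ S, R ≤ r ∧ r < 8 * R ∧ (M : ℤ) ∣ (r : ℤ) - r0 := by
    intro r hr
    rw [hS, mem_filter, mem_Ico] at hr
    exact ⟨hr.1.1, hr.1.2, hr.2⟩
  have hrX : ∀ r ∈ S, (r : ℝ) ≤ X := by
    intro r hr
    rw [hX]
    exact_mod_cast (hrS r hr).2.1.le
  have hr1 : ∀ r ∈ S, 1 ≤ r := fun r hr => hR.trans (hrS r hr).1
  -- the error for fixed r
  obtain ⟨E, hE⟩ : ∃ E : ℕ → ℝ, ∀ r, E r =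
      (EC_cnt M L s0 t0 q0 r : ℝ) - 4 * L / (M : ℝ) ^ 2 * phiM M r := ⟨_, fun _ => rfl⟩
  have hgood : ∀ r ∈ S, (kk M r : ℝ) ≤ K →
      |E r| ≤ C1 * X ^ (1 / 8 : ℝ) * L * X ^ (3 / 4 : ℝ) * (1 + Real.log X) ^ 2 *
        (r.divisors.card : ℝ) ^ 2 := by
    intro r hr hk
    have h1 := hPR r M L r0 s0 t0 q0 (hr1 r hr) hL hM (hrS r hr).2.2 hdet
    have h1' : |E r| ≤ C1 * kk M r * L * (r.divisors.card : ℝ) ^ 2 * (r : ℝ) ^ (3 / 4 : ℝ) *
        (1 + Real.log r) ^ 2 := by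
      rw [hE]
      exact h1
    have hrp : (0 : ℝ) < r := by exact_mod_cast hr1 r hr
    have hr1' : (1 : ℝ) ≤ r := by exact_mod_cast hr1 r hr
    have h2 : (r : ℝ) ^ (3 / 4 : ℝ) ≤ X ^ (3 / 4 : ℝ) :=
      Real.rpow_le_rpow hrp.le (hrX r hr) (by norm_num)
    have h3 : (1 + Real.log r) ^ 2 ≤ (1 + Real.log X) ^ 2 := by
      have h4 := Real.log_le_log hrp (hrX r hr)
      have h5 := Real.log_nonneg hr1'
      exact pow_le_pow_left₀ (by linarith) (by linarith) 2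
    have h6 : (kk M r : ℝ) ≤ X ^ (1 / 8 : ℝ) := hk.trans hKX
    have hd0 : (0 : ℝ) ≤ (r.divisors.card : ℝ) ^ 2 := by positivity
    calc |E r| ≤ C1 * kk M r * L * (r.divisors.card : ℝ) ^ 2 * (r : ℝ) ^ (3 / 4 : ℝ) *
        (1 + Real.log r) ^ 2 := h1'
      _ ≤ C1 * X ^ (1 / 8 : ℝ) * L * (r.divisors.card : ℝ) ^ 2 * X ^ (3 / 4 : ℝ) *
        (1 + Real.log X) ^ 2 := by gcongr
      _ = _ := by ring
  have hbad : ∀ r ∈ S, |E r| ≤ 8 * L * X * (1 + Real.log X) := by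
    intro r hr
    have hr1' : (1 : ℝ) ≤ r := by exact_mod_cast hr1 r hr
    have hrp : (0 : ℝ) < r := by linarith
    have h1 := EC_cnt_le M L s0 t0 q0 r (hr1 r hr)
    have h2 := EC_phiM_abs M r (hr1 r hr)
    have h3 : (r : ℝ) * (1 + Real.log r) ≤ X * (1 + Real.log X) := by
      have h4 := Real.log_le_log hrp (hrX r hr)
      have h5 := Real.log_nonneg hr1'
      exact mul_le_mul (hrX r hr) (by linarith) (by linarith) hX0.le
    have h4 : |4 * L / (M : ℝ) ^ 2 * phiM M r| ≤ 4 * L * (X * (1 + Real.log X)) := by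
      rw [abs_mul]
      have h5 : |4 * (L : ℝ) / (M : ℝ) ^ 2| ≤ 4 * (L : ℝ) := by
        rw [abs_of_nonneg (by positivity)]
        apply div_le_self (by positivity)
        exact one_le_pow₀ hMR
      exact mul_le_mul h5 (h2.trans h3) (abs_nonneg _) (by positivity)
    have h5 : |(EC_cnt M L s0 t0 q0 r : ℝ)| ≤ 4 * L * (X * (1 + Real.log X)) := by
      rw [abs_of_nonneg (Nat.cast_nonneg _)]
      refine h1.trans ?_
      have h6 : (r : ℝ) ≤ X * (1 + Real.log X) := by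
        refine (hrX r hr).trans ?_
        have : 0 ≤ X * Real.log X := mul_nonneg hX0.le hlogX
        linarith
      exact mul_le_mul_of_nonneg_left h6 (by positivity)
    rw [hE]
    calc |(EC_cnt M L s0 t0 q0 r : ℝ) - 4 * L / (M : ℝ) ^ 2 * phiM M r|
        ≤ |(EC_cnt M L s0 t0 q0 r : ℝ)| + |4 * L / (M : ℝ) ^ 2 * phiM M r| := abs_sub _ _
      _ ≤ 4 * L * (X * (1 + Real.log X)) + 4 * L * (X * (1 + Real.log X)) := add_le_add h5 h4
      _ = _ := by ring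
  -- the sum of the errors
  have hsumgood : ∑ r ∈ S.filter (fun r => (kk M r : ℝ) ≤ K), |E r| ≤
      C1 * C3 * 100 ^ 5 * L * X ^ (2 - 1 / 40 : ℝ) := by
    calc ∑ r ∈ S.filter (fun r => (kk M r : ℝ) ≤ K), |E r|
        ≤ ∑ r ∈ S.filter (fun r => (kk M r : ℝ) ≤ K),
          C1 * X ^ (1 / 8 : ℝ) * L * X ^ (3 / 4 : ℝ) * (1 + Real.log X) ^ 2 *
          (r.divisors.card : ℝ) ^ 2 := by
          refine sum_le_sum fun r hr => ?_
          rw [mem_filter] at hr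
          exact hgood r hr.1 hr.2
      _ = C1 * X ^ (1 / 8 : ℝ) * L * X ^ (3 / 4 : ℝ) * (1 + Real.log X) ^ 2 *
          ∑ r ∈ S.filter (fun r => (kk M r : ℝ) ≤ K), (r.divisors.card : ℝ) ^ 2 := by
          rw [mul_sum]
      _ ≤ C1 * X ^ (1 / 8 : ℝ) * L * X ^ (3 / 4 : ℝ) * (1 + Real.log X) ^ 2 *
          (C3 * X * (1 + Real.log X) ^ 3) := by
          refine mul_le_mul_of_nonneg_left ?_ (by positivity)
          have h1 := hTD (8 * R) (by omega)
          rw [← hX] at h1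
          refine le_trans ?_ h1
          refine sum_le_sum_of_subset_of_nonneg ?_ (fun _ _ _ => by positivity)
          intro r hr
          rw [mem_filter] at hr
          rw [mem_Ico]
          exact ⟨hr1 r hr.1, (hrS r hr.1).2.1⟩
      _ = C1 * C3 * L * (X ^ (1 / 8 : ℝ) * X ^ (3 / 4 : ℝ) * X) * (1 + Real.log X) ^ 5 := by ring
      _ ≤ C1 * C3 * L * (X ^ (1 / 8 : ℝ) * X ^ (3 / 4 : ℝ) * X) *
          (2 / (1 / 50) * X ^ (1 / 50 : ℝ)) ^ 5 := by
          have h1 := EC_log X (1 / 50) hX1 (by norm_num) (by norm_num)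
          gcongr
      _ = C1 * C3 * 100 ^ 5 * L * (X ^ (1 / 8 : ℝ) * X ^ (3 / 4 : ℝ) * X *
          (X ^ (1 / 50 : ℝ)) ^ 5) := by
          rw [mul_pow]; norm_num; ring
      _ = C1 * C3 * 100 ^ 5 * L * X ^ (2 - 1 / 40 : ℝ) := by
          congr 1
          rw [← Real.rpow_natCast (X ^ (1 / 50 : ℝ)) 5, ← Real.rpow_mul hX0.le]
          nth_rewrite 3 [← Real.rpow_one X]
          rw [← Real.rpow_add hX0, ← Real.rpow_add hX0, ← Real.rpow_add hX0]
          norm_num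
  have hsumbad : ∑ r ∈ S.filter (fun r => ¬ (kk M r : ℝ) ≤ K), |E r| ≤
      32 * 8 * 8 * 120 * L * (M : ℝ) ^ 2 * X ^ (2 - 1 / 40 : ℝ) := by
    have hcard : ((S.filter (fun r => ¬ (kk M r : ℝ) ≤ K)).card : ℝ) ≤
        32 * R * ((M : ℝ) / K) ^ (1 / 3 : ℝ) := by
      refine le_trans ?_ (BR R M K hR hM hK1)
      have h1 : S.filter (fun r => ¬ (kk M r : ℝ) ≤ K) ⊆
          (Ico R (8 * R)).filter (fun r : ℕ => K < (kk M r : ℝ)) := by
        intro r hr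
        rw [mem_filter, not_le] at hr
        rw [mem_filter, mem_Ico]
        exact ⟨⟨(hrS r hr.1).1, (hrS r hr.1).2.1⟩, hr.2⟩
      exact_mod_cast card_le_card h1
    have hMK : ((M : ℝ) / K) ^ (1 / 3 : ℝ) ≤ (M : ℝ) ^ 2 * (8 * X ^ (-(1 / 24) : ℝ)) := by
      rw [Real.div_rpow (by linarith) (by linarith), div_eq_mul_inv]
      have h1 : (M : ℝ) ^ (1 / 3 : ℝ) ≤ (M : ℝ) ^ 2 := by
        rw [← Real.rpow_natCast (M : ℝ) 2]
        exact Real.rpow_le_rpow_of_exponent_le hMR (by norm_num)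
      have h2 : (K ^ (1 / 3 : ℝ))⁻¹ ≤ 8 * X ^ (-(1 / 24) : ℝ) := by
        rw [hK, ← Real.rpow_mul (by linarith), ← Real.rpow_neg (by linarith), hX8,
          Real.mul_rpow (by norm_num) (by linarith), ← mul_assoc]
        have h3 : (1 : ℝ) ≤ 8 * 8 ^ (-(1 / 24) : ℝ) := by
          have h4 : (8 : ℝ) ^ (-(1 : ℝ)) ≤ 8 ^ (-(1 / 24) : ℝ) :=
            Real.rpow_le_rpow_of_exponent_le (by norm_num) (by norm_num)
          rw [Real.rpow_neg_one] at h4
          linarith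
        have h5 : (-(1 / 8 * (1 / 3)) : ℝ) = -(1 / 24) := by norm_num
        rw [h5]
        exact le_mul_of_one_le_left (by positivity) h3
      exact mul_le_mul h1 h2 (by positivity) (by positivity)
    calc ∑ r ∈ S.filter (fun r => ¬ (kk M r : ℝ) ≤ K), |E r|
        ≤ ∑ r ∈ S.filter (fun r => ¬ (kk M r : ℝ) ≤ K), 8 * L * X * (1 + Real.log X) := by
          refine sum_le_sum fun r hr => ?_
          rw [mem_filter] at hr
          exact hbad r hr.1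
      _ = ((S.filter (fun r => ¬ (kk M r : ℝ) ≤ K)).card : ℝ) * (8 * L * X * (1 + Real.log X)) := by
          rw [sum_const, nsmul_eq_mul]
      _ ≤ (32 * R * ((M : ℝ) ^ 2 * (8 * X ^ (-(1 / 24) : ℝ)))) * (8 * L * X * (1 + Real.log X)) := by
          refine mul_le_mul_of_nonneg_right (hcard.trans ?_) (by positivity)
          exact mul_le_mul_of_nonneg_left hMK (by positivity)
      _ ≤ (32 * X * ((M : ℝ) ^ 2 * (8 * X ^ (-(1 / 24) : ℝ)))) *
          (8 * L * X * (2 / (1 / 60) * X ^ (1 / 60 : ℝ))) := by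
          have h1 := EC_log X (1 / 60) hX1 (by norm_num) (by norm_num)
          have h2 : (R : ℝ) ≤ X := by rw [hX8]; linarith
          gcongr
      _ = 32 * 8 * 8 * 120 * L * (M : ℝ) ^ 2 * (X * X ^ (-(1 / 24) : ℝ) * X * X ^ (1 / 60 : ℝ)) := by
          ring
      _ = 32 * 8 * 8 * 120 * L * (M : ℝ) ^ 2 * X ^ (2 - 1 / 40 : ℝ) := by
          congr 1
          nth_rewrite 1 [← Real.rpow_one X]
          nth_rewrite 3 [← Real.rpow_one X]
          rw [← Real.rpow_add hX0, ← Real.rpow_add hX0, ← Real.rpow_add hX0]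
          norm_num
  have hsum : |∑ r ∈ S, E r| ≤ C1 * C3 * 100 ^ 5 * L * X ^ (2 - 1 / 40 : ℝ) +
      32 * 8 * 8 * 120 * L * (M : ℝ) ^ 2 * X ^ (2 - 1 / 40 : ℝ) := by
    refine (abs_sum_le_sum_abs _ _).trans ?_
    rw [← sum_filter_add_sum_filter_not S (fun r => (kk M r : ℝ) ≤ K)]
    exact add_le_add hsumgood hsumbad
  -- the main term
  have hmain : |4 * L / (M : ℝ) ^ 2 * (∑ r ∈ S, phiM M r) - 4 * L / (M : ℝ) ^ 2 * Z| ≤
      4 * C2 * 100 * L * X ^ (2 - 1 / 40 : ℝ) := by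
    rw [← mul_sub, abs_mul]
    have h1 := hZ r0
    rw [← hS] at h1
    have h5 : |4 * (L : ℝ) / (M : ℝ) ^ 2| ≤ 4 * (L : ℝ) := by
      rw [abs_of_nonneg (by positivity)]
      apply div_le_self (by positivity)
      exact one_le_pow₀ hMR
    have h6 : C2 * R * (1 + Real.log R) ≤ C2 * 100 * X ^ (2 - 1 / 40 : ℝ) := by
      have h7 : (R : ℝ) ≤ X := by rw [hX8]; linarith
      have h8 : 1 + Real.log R ≤ 2 / (1 / 50) * X ^ (1 / 50 : ℝ) := by
        have h9 := Real.log_le_log (by linarith) h7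
        have h10 := EC_log X (1 / 50) hX1 (by norm_num) (by norm_num)
        linarith
      have hlR : 0 ≤ Real.log R := Real.log_nonneg hRR
      calc C2 * R * (1 + Real.log R) ≤ C2 * X * (2 / (1 / 50) * X ^ (1 / 50 : ℝ)) := by gcongr
        _ = C2 * 100 * (X * X ^ (1 / 50 : ℝ)) := by ring
        _ ≤ C2 * 100 * X ^ (2 - 1 / 40 : ℝ) := by
            refine mul_le_mul_of_nonneg_left ?_ (by positivity)
            nth_rewrite 1 [← Real.rpow_one X]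
            rw [← Real.rpow_add hX0]
            exact Real.rpow_le_rpow_of_exponent_le hX1 (by norm_num)
    calc |4 * (L : ℝ) / (M : ℝ) ^ 2| * |(∑ r ∈ S, phiM M r) - Z|
        ≤ (4 * L) * (C2 * 100 * X ^ (2 - 1 / 40 : ℝ)) :=
          mul_le_mul h5 (h1.trans h6) (abs_nonneg _) (by positivity)
      _ = _ := by ring
  -- conclusion
  have hsplit := EC_split R L M r0 s0 t0 q0
  rw [← hS] at hsplit
  have hid : (((box R L).filter (fun x => InCl M r0 s0 t0 q0 x)).card : ℝ) - 4 * L / (M : ℝ) ^ 2 * Z =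
      (∑ r ∈ S, E r) + (4 * L / (M : ℝ) ^ 2 * (∑ r ∈ S, phiM M r) - 4 * L / (M : ℝ) ^ 2 * Z) := by
    rw [hsplit]
    push_cast
    simp only [hE]
    rw [sum_sub_distrib, ← mul_sum]
    ring
  have hXR : X ^ (2 - 1 / 40 : ℝ) ≤ 64 * (R : ℝ) ^ (2 - 1 / 40 : ℝ) := by
    rw [hX8, Real.mul_rpow (by norm_num) (by linarith)]
    refine mul_le_mul_of_nonneg_right ?_ (by positivity)
    calc (8 : ℝ) ^ (2 - 1 / 40 : ℝ) ≤ 8 ^ (2 : ℝ) :=
          Real.rpow_le_rpow_of_exponent_le (by norm_num) (by norm_num)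
      _ = 64 := by norm_num
  have hM2 : (1 : ℝ) ≤ (M : ℝ) ^ 2 := one_le_pow₀ hMR
  rw [hid]
  calc |(∑ r ∈ S, E r) + (4 * L / (M : ℝ) ^ 2 * (∑ r ∈ S, phiM M r) - 4 * L / (M : ℝ) ^ 2 * Z)|
      ≤ |∑ r ∈ S, E r| + |4 * L / (M : ℝ) ^ 2 * (∑ r ∈ S, phiM M r) - 4 * L / (M : ℝ) ^ 2 * Z| :=
        abs_add_le _ _
    _ ≤ (C1 * C3 * 100 ^ 5 * L * X ^ (2 - 1 / 40 : ℝ) +
        32 * 8 * 8 * 120 * L * (M : ℝ) ^ 2 * X ^ (2 - 1 / 40 : ℝ)) +
        4 * C2 * 100 * L * X ^ (2 - 1 / 40 : ℝ) := add_le_add hsum hmain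
    _ ≤ (C1 * C3 * 100 ^ 5 * L * (M : ℝ) ^ 2 * X ^ (2 - 1 / 40 : ℝ) +
        32 * 8 * 8 * 120 * L * (M : ℝ) ^ 2 * X ^ (2 - 1 / 40 : ℝ)) +
        4 * C2 * 100 * L * (M : ℝ) ^ 2 * X ^ (2 - 1 / 40 : ℝ) := by
        have h1 : C1 * C3 * 100 ^ 5 * L ≤ C1 * C3 * 100 ^ 5 * L * (M : ℝ) ^ 2 :=
          le_mul_of_one_le_right (by positivity) hM2
        have h2 : 4 * C2 * 100 * L ≤ 4 * C2 * 100 * L * (M : ℝ) ^ 2 :=
          le_mul_of_one_le_right (by positivity) hM2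
        have h3 : (0 : ℝ) ≤ X ^ (2 - 1 / 40 : ℝ) := by positivity
        have h4 := mul_le_mul_of_nonneg_right h1 h3
        have h5 := mul_le_mul_of_nonneg_right h2 h3
        linarith
    _ = (C1 * C3 * 100 ^ 5 + 32 * 8 * 8 * 120 + 4 * C2 * 100) * L * (M : ℝ) ^ 2 *
        X ^ (2 - 1 / 40 : ℝ) := by ring
    _ ≤ (C1 * C3 * 100 ^ 5 + 32 * 8 * 8 * 120 + 4 * C2 * 100) * L * (M : ℝ) ^ 2 *
        (64 * (R : ℝ) ^ (2 - 1 / 40 : ℝ)) :=
        mul_le_mul_of_nonneg_left hXR (by positivity)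
    _ = _ := by ring

end Pool.Agent.H37.PPE
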