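import Pool.Agent.H37.PPE.LA

/-!
PPE LB: local counts in SL2(F_p), second part, p ≡ 1 mod 12.

In ZMod p let c² = 3, ι² = -1.  Put a = r+cs, b = r-cs, a' = t+cq, b' = t-cq (x = (a,a'), y = (b,b')): ab = r²-3s², a'b' = t²-3q²,
 ab'-a'b = -2c(rq-st) = -2c, ab'+a'b = 2(rt-3sq).  Then X = a'+ιa, X' = a'-ιa, Y = b'+ιb, Y' = b'-ιb (a linear bijection (r,s,t,q) ↔ (X,X',Y,Y')) satisfy
 XY' = (ab+a'b') + ι(ab'-a'b) = N' - 2cι,  X'Y = N' + 2cι  with N' = (r²-3s²)+(t²-3q²),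
 XY = (a'b'-ab) + ι(ab'+a'b) = (t²-3q²-(r²-3s²)) + 2ι(rt-3sq).
`slc_F2`: F2 = N'²+12 = (N'-2cι)(N'+2cι): N' = 2cι: XY' = 0, X'Y = 4cι ≠ 0: (p-1)(2p-1) solutions; N' = -2cι the same (N' values differ).
`slc_forb`: N' = 2σ (σ = ±1): XY' = 2σ-2cι =: α, X'Y = 2σ+2cι =: β, αβ = 4+12 = 16 ≠ 0: X, Y ∈ units arbitrary, XY nonsquare for exactly (p-1)²/2 pairs.
`dn_G2`: dn (G2) = 1 - rho p - f with f = #forbidden/(p(p-1)(p+1)) ≥ (p-1)/(2p(p+1)) ≥ 1/(4p) (the two conditions are disjoint: N' = ±2 and N'² = -12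
 would give p | 16), and 1 - rho - f ≤ (1-rho)(1-f) ≤ (1-rho)(1-1/(4p)).
-/

set_option autoImplicit false

namespace Pool.Agent.H37.PPE

open Finset

open Classical in
/-- matrices of determinant one over `ZMod p` with a condition -/
noncomputable def LB_set (p : ℕ) [NeZero p] (S' : ZMod p → ZMod p → ZMod p → ZMod p → Prop) :
    Finset (ZMod p × ZMod p × ZMod p × ZMod p) :=
  univ.filter (fun x => x.1 * x.2.2.2 - x.2.1 * x.2.2.1 = 1 ∧ S' x.1 x.2.1 x.2.2.1 x.2.2.2)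

open Classical in
/-- the same in the coordinates `X, X', Y, Y'` -/
noncomputable def LB_setX (p : ℕ) [NeZero p] (κ : ZMod p)
    (T : ZMod p → ZMod p → ZMod p → ZMod p → Prop) :
    Finset (ZMod p × ZMod p × ZMod p × ZMod p) :=
  univ.filter (fun z => z.1 * z.2.2.2 - z.2.1 * z.2.2.1 = κ ∧ T z.1 z.2.1 z.2.2.1 z.2.2.2)

theorem LB_mem_set (p : ℕ) [NeZero p] (S' : ZMod p → ZMod p → ZMod p → ZMod p → Prop)
    (x : ZMod p × ZMod p × ZMod p × ZMod p) : x ∈ LB_set p S' ↔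
    x.1 * x.2.2.2 - x.2.1 * x.2.2.1 = 1 ∧ S' x.1 x.2.1 x.2.2.1 x.2.2.2 := by
  simp [LB_set]

theorem LB_mem_setX (p : ℕ) [NeZero p] (κ : ZMod p)
    (T : ZMod p → ZMod p → ZMod p → ZMod p → Prop)
    (z : ZMod p × ZMod p × ZMod p × ZMod p) : z ∈ LB_setX p κ T ↔
    z.1 * z.2.2.2 - z.2.1 * z.2.2.1 = κ ∧ T z.1 z.2.1 z.2.2.1 z.2.2.2 := by
  simp [LB_setX]

theorem LB_transfer (p : ℕ) [NeZero p] (S : ℤ → ℤ → ℤ → ℤ → Prop)
    (S' : ZMod p → ZMod p → ZMod p → ZMod p → Prop)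
    (hS : ∀ r s t q : ℤ, S r s t q ↔ S' r s t q) : slc p S = (LB_set p S').card := by
  classical
  unfold slc
  refine Finset.card_nbij' (fun x : ℕ × ℕ × ℕ × ℕ =>
      (((x.1 : ZMod p), (x.2.1 : ZMod p), (x.2.2.1 : ZMod p), (x.2.2.2 : ZMod p)) :
        ZMod p × ZMod p × ZMod p × ZMod p))
    (fun y => (y.1.val, y.2.1.val, y.2.2.1.val, y.2.2.2.val)) ?_ ?_ ?_ ?_
  · intro x hx
    have hx' := (Finset.mem_filter.mp hx).2
    refine (LB_mem_set p S' _).mpr ⟨?_, ?_⟩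
    · have h1 := (ZMod.intCast_zmod_eq_zero_iff_dvd _ p).mpr hx'.1
      push_cast at h1
      exact sub_eq_zero.mp h1
    · have h2 := (hS _ _ _ _).mp hx'.2
      push_cast at h2
      exact h2
  · intro y hy
    have hy' := (LB_mem_set p S' _).mp hy
    refine Finset.mem_filter.mpr ⟨?_, ?_, ?_⟩
    · simp only [Finset.mem_product, Finset.mem_range]
      exact ⟨ZMod.val_lt _, ZMod.val_lt _, ZMod.val_lt _, ZMod.val_lt _⟩
    · rw [← ZMod.intCast_zmod_eq_zero_iff_dvd]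
      push_cast
      simp only [ZMod.natCast_val, ZMod.cast_id', id_eq]
      rw [sub_eq_zero]
      exact hy'.1
    · rw [hS]
      push_cast
      simp only [ZMod.natCast_val, ZMod.cast_id', id_eq]
      exact hy'.2
  · intro x hx
    have hx' := (Finset.mem_filter.mp hx).1
    simp only [Finset.mem_product, Finset.mem_range] at hx'
    obtain ⟨h1, h2, h3, h4⟩ := hx'
    simp only [ZMod.val_cast_of_lt h1, ZMod.val_cast_of_lt h2, ZMod.val_cast_of_lt h3,
      ZMod.val_cast_of_lt h4]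
  · intro y _
    simp only [ZMod.natCast_val, ZMod.cast_id', id_eq]

/-- change of coordinates -/
theorem LB_coord (p : ℕ) [Fact p.Prime] (c ι : ZMod p) (hc : c ≠ 0) (hι : ι ≠ 0)
    (h2 : (2 : ZMod p) ≠ 0) (S' T : ZMod p → ZMod p → ZMod p → ZMod p → Prop)
    (h : ∀ r s t q : ZMod p, r * q - s * t = 1 →
      (S' r s t q ↔ T ((t + c * q) + ι * (r + c * s)) ((t + c * q) - ι * (r + c * s))
        ((t - c * q) + ι * (r - c * s)) ((t - c * q) - ι * (r - c * s)))) :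
    (LB_set p S').card = (LB_setX p (-4 * c * ι) T).card := by
  have h4 : (4 : ZMod p) ≠ 0 := by
    have : (4 : ZMod p) = 2 * 2 := by norm_num
    rw [this]; exact mul_ne_zero h2 h2
  have hji : ∀ X X' Y Y' : ZMod p,
      (((X + X' + Y + Y') / 4 + c * ((X + X' - Y - Y') / (4 * c))) +
        ι * ((X - X' + Y - Y') / (4 * ι) + c * ((X - X' - Y + Y') / (4 * c * ι))) = X) ∧
      (((X + X' + Y + Y') / 4 + c * ((X + X' - Y - Y') / (4 * c))) -
        ι * ((X - X' + Y - Y') / (4 * ι) + c * ((X - X' - Y + Y') / (4 * c * ι))) = X') ∧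
      (((X + X' + Y + Y') / 4 - c * ((X + X' - Y - Y') / (4 * c))) +
        ι * ((X - X' + Y - Y') / (4 * ι) - c * ((X - X' - Y + Y') / (4 * c * ι))) = Y) ∧
      (((X + X' + Y + Y') / 4 - c * ((X + X' - Y - Y') / (4 * c))) -
        ι * ((X - X' + Y - Y') / (4 * ι) - c * ((X - X' - Y + Y') / (4 * c * ι))) = Y') := by
    intro X X' Y Y'
    refine ⟨?_, ?_, ?_, ?_⟩ <;> (field_simp; ring)
  have hdet : ∀ r s t q : ZMod p, ((t + c * q) + ι * (r + c * s)) * ((t - c * q) - ι * (r - c * s)) -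
      ((t + c * q) - ι * (r + c * s)) * ((t - c * q) + ι * (r - c * s)) =
      -4 * c * ι * (r * q - s * t) := by
    intro r s t q; ring
  refine Finset.card_nbij' (fun x : ZMod p × ZMod p × ZMod p × ZMod p =>
      (((x.2.2.1 + c * x.2.2.2) + ι * (x.1 + c * x.2.1),
        (x.2.2.1 + c * x.2.2.2) - ι * (x.1 + c * x.2.1),
        (x.2.2.1 - c * x.2.2.2) + ι * (x.1 - c * x.2.1),
        (x.2.2.1 - c * x.2.2.2) - ι * (x.1 - c * x.2.1)) : ZMod p × ZMod p × ZMod p × ZMod p))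
    (fun z => ((z.1 - z.2.1 + z.2.2.1 - z.2.2.2) / (4 * ι),
      (z.1 - z.2.1 - z.2.2.1 + z.2.2.2) / (4 * c * ι),
      (z.1 + z.2.1 + z.2.2.1 + z.2.2.2) / 4,
      (z.1 + z.2.1 - z.2.2.1 - z.2.2.2) / (4 * c))) ?_ ?_ ?_ ?_
  · intro x hx
    have hx' := (LB_mem_set p S' _).mp hx
    refine (LB_mem_setX p _ T _).mpr ⟨?_, ?_⟩
    · simp only
      rw [hdet, hx'.1, mul_one]
    · exact (h _ _ _ _ hx'.1).mp hx'.2
  · intro z hz
    have hz' := (LB_mem_setX p _ T _).mp hz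
    obtain ⟨X, X', Y, Y'⟩ := z
    obtain ⟨e1, e2, e3, e4⟩ := hji X X' Y Y'
    have hd := hdet ((X - X' + Y - Y') / (4 * ι)) ((X - X' - Y + Y') / (4 * c * ι))
      ((X + X' + Y + Y') / 4) ((X + X' - Y - Y') / (4 * c))
    rw [e1, e2, e3, e4] at hd
    simp only at hz'
    have hκ : (-4 * c * ι : ZMod p) ≠ 0 := by
      refine mul_ne_zero (mul_ne_zero ?_ hc) hι
      exact neg_ne_zero.mpr h4
    have hD : (X - X' + Y - Y') / (4 * ι) * ((X + X' - Y - Y') / (4 * c)) -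
        (X - X' - Y + Y') / (4 * c * ι) * ((X + X' + Y + Y') / 4) = 1 := by
      rw [hz'.1] at hd
      exact mul_left_cancel₀ hκ (by rw [mul_one]; exact hd.symm)
    refine (LB_mem_set p S' _).mpr ⟨hD, ?_⟩
    refine (h _ _ _ _ hD).mpr ?_
    rw [e1, e2, e3, e4]
    exact hz'.2
  · intro x _
    obtain ⟨r, s, t, q⟩ := x
    simp only [Prod.mk.injEq]
    refine ⟨?_, ?_, ?_, ?_⟩ <;> (field_simp; ring)
  · intro z _
    obtain ⟨X, X', Y, Y'⟩ := z
    obtain ⟨e1, e2, e3, e4⟩ := hji X X' Y Y'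
    simp only [Prod.mk.injEq]
    exact ⟨e1, e2, e3, e4⟩

open Classical in
theorem LB_card_mul_zero (p : ℕ) [Fact p.Prime] :
    (univ.filter (fun z : ZMod p × ZMod p => z.1 * z.2 = 0)).card = 2 * p - 1 := by
  have hp : 0 < p := (Fact.out : p.Prime).pos
  have h1 : (univ.filter (fun z : ZMod p × ZMod p => ¬ z.1 * z.2 = 0)) =
      (univ.filter (fun x : ZMod p => x ≠ 0)) ×ˢ (univ.filter (fun x : ZMod p => x ≠ 0)) := by
    ext z
    simp [mul_eq_zero, not_or]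
  have h2 : (univ.filter (fun x : ZMod p => x ≠ 0)).card = p - 1 := by
    rw [Finset.filter_ne', Finset.card_erase_of_mem (Finset.mem_univ _), Finset.card_univ, ZMod.card]
  have h3 := Finset.card_filter_add_card_filter_not (s := (univ : Finset (ZMod p × ZMod p)))
    (fun z : ZMod p × ZMod p => z.1 * z.2 = 0)
  rw [h1, Finset.card_product, h2, Finset.card_univ, Fintype.card_prod, ZMod.card] at h3
  obtain ⟨n, rfl⟩ : ∃ n, p = n + 1 := ⟨p - 1, by omega⟩
  simp only [Nat.add_sub_cancel] at h3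
  have h4 : (n + 1) * (n + 1) = n * n + (2 * n + 1) := by ring
  omega

open Classical in
theorem LB_card_mul (p : ℕ) [Fact p.Prime] (k : ZMod p) (hk : k ≠ 0) :
    (univ.filter (fun z : ZMod p × ZMod p => z.1 * z.2 = k)).card = p - 1 := by
  have h2 : (univ.filter (fun x : ZMod p => x ≠ 0)).card = p - 1 := by
    rw [Finset.filter_ne', Finset.card_erase_of_mem (Finset.mem_univ _), Finset.card_univ, ZMod.card]
  rw [← h2]
  refine Finset.card_nbij' (fun z => z.1) (fun x => (x, k / x)) ?_ ?_ ?_ ?_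
  · intro z hz
    have hz' := (Finset.mem_filter.mp hz).2
    refine Finset.mem_filter.mpr ⟨Finset.mem_univ _, ?_⟩
    intro h0
    have h0' : z.1 = 0 := h0
    rw [h0', zero_mul] at hz'
    exact hk hz'.symm
  · intro x hx
    have hx' := (Finset.mem_filter.mp hx).2
    refine Finset.mem_filter.mpr ⟨Finset.mem_univ _, ?_⟩
    simp only
    exact mul_div_cancel₀ k hx'
  · intro z hz
    have hz' := (Finset.mem_filter.mp hz).2
    have h0 : z.1 ≠ 0 := by
      rintro h0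
      rw [h0, zero_mul] at hz'
      exact hk hz'.symm
    refine Prod.ext rfl ?_
    simp only
    rw [← hz']
    field_simp
  · intro x _
    rfl

open Classical in
theorem LB_count1 (p : ℕ) [Fact p.Prime] (κ : ZMod p) (hκ : κ ≠ 0) :
    (LB_setX p κ (fun X X' Y Y' => X * Y' * (X' * Y) = 0)).card = 2 * (p - 1) * (2 * p - 1) := by
  have hA : (LB_setX p κ (fun X X' Y Y' => X * Y' = 0)).card = (2 * p - 1) * (p - 1) := by
    rw [← LB_card_mul_zero p, ← LB_card_mul p (-κ) (neg_ne_zero.mpr hκ), ← Finset.card_product]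
    refine Finset.card_nbij' (fun z : ZMod p × ZMod p × ZMod p × ZMod p =>
      (((z.1, z.2.2.2), (z.2.1, z.2.2.1)) : (ZMod p × ZMod p) × (ZMod p × ZMod p)))
      (fun w => (w.1.1, w.2.1, w.2.2, w.1.2)) ?_ ?_ ?_ ?_
    · intro z hz
      have hz' := (LB_mem_setX p _ _ _).mp hz
      rw [Finset.coe_product]
      refine ⟨Finset.mem_filter.mpr ⟨Finset.mem_univ _, hz'.2⟩,
        Finset.mem_filter.mpr ⟨Finset.mem_univ _, ?_⟩⟩
      have h1 := hz'.1
      have h2 : z.1 * z.2.2.2 = 0 := hz'.2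
      rw [h2] at h1
      simp only
      rw [← h1]; ring
    · intro w hw
      rw [Finset.coe_product] at hw
      have h1 : w.1.1 * w.1.2 = 0 := (Finset.mem_filter.mp hw.1).2
      have h2 : w.2.1 * w.2.2 = -κ := (Finset.mem_filter.mp hw.2).2
      refine (LB_mem_setX p _ _ _).mpr ⟨?_, h1⟩
      simp only
      rw [h1, h2]; ring
    · intro z _; rfl
    · intro w _; rfl
  have hB : (LB_setX p κ (fun X X' Y Y' => X' * Y = 0)).card = (2 * p - 1) * (p - 1) := by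
    rw [← LB_card_mul_zero p, ← LB_card_mul p κ hκ, ← Finset.card_product]
    refine Finset.card_nbij' (fun z : ZMod p × ZMod p × ZMod p × ZMod p =>
      (((z.2.1, z.2.2.1), (z.1, z.2.2.2)) : (ZMod p × ZMod p) × (ZMod p × ZMod p)))
      (fun w => (w.2.1, w.1.1, w.1.2, w.2.2)) ?_ ?_ ?_ ?_
    · intro z hz
      have hz' := (LB_mem_setX p _ _ _).mp hz
      rw [Finset.coe_product]
      refine ⟨Finset.mem_filter.mpr ⟨Finset.mem_univ _, hz'.2⟩,
        Finset.mem_filter.mpr ⟨Finset.mem_univ _, ?_⟩⟩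
      have h1 := hz'.1
      have h2 : z.2.1 * z.2.2.1 = 0 := hz'.2
      rw [h2] at h1
      simp only
      rw [← h1]; ring
    · intro w hw
      rw [Finset.coe_product] at hw
      have h1 : w.1.1 * w.1.2 = 0 := (Finset.mem_filter.mp hw.1).2
      have h2 : w.2.1 * w.2.2 = κ := (Finset.mem_filter.mp hw.2).2
      refine (LB_mem_setX p _ _ _).mpr ⟨?_, h1⟩
      simp only
      rw [h1, h2]; ring
    · intro z _; rfl
    · intro w _; rfl
  have hU : LB_setX p κ (fun X X' Y Y' => X * Y' * (X' * Y) = 0) =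
      LB_setX p κ (fun X X' Y Y' => X * Y' = 0) ∪ LB_setX p κ (fun X X' Y Y' => X' * Y = 0) := by
    ext z
    rw [Finset.mem_union, LB_mem_setX, LB_mem_setX, LB_mem_setX, mul_eq_zero (a := z.1 * z.2.2.2)]
    tauto
  have hdis : Disjoint (LB_setX p κ (fun X X' Y Y' => X * Y' = 0))
      (LB_setX p κ (fun X X' Y Y' => X' * Y = 0)) := by
    rw [Finset.disjoint_left]
    intro z h1 h2
    have h1' := (LB_mem_setX p _ _ _).mp h1
    have h2' := (LB_mem_setX p _ _ _).mp h2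
    have h3 := h1'.1
    have h4 : z.1 * z.2.2.2 = 0 := h1'.2
    have h5 : z.2.1 * z.2.2.1 = 0 := h2'.2
    rw [h4, h5, sub_zero] at h3
    exact hκ h3.symm
  rw [hU, Finset.card_union_of_disjoint hdis, hA, hB]
  ring

open Classical in
theorem LB_nonsq (p : ℕ) [Fact p.Prime] (h2 : p ≠ 2) :
    2 * (univ.filter (fun z : ZMod p => ¬ IsSquare z)).card = p - 1 := by
  have hchar : ringChar (ZMod p) ≠ 2 := by
    rw [ZMod.ringChar_zmod_n]; exact h2
  have hs := quadraticChar_sum_zero (F := ZMod p) hchar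
  have h1 : ∀ a : ZMod p, quadraticChar (ZMod p) a =
      (if (a ≠ 0 ∧ IsSquare a) then 1 else 0) - (if ¬ IsSquare a then (1 : ℤ) else 0) := by
    intro a
    rw [quadraticChar_apply, quadraticCharFun]
    by_cases ha : a = 0
    · subst ha
      simp
    · by_cases hq : IsSquare a
      · simp [ha, hq]
      · simp [ha, hq]
  simp only [h1] at hs
  rw [Finset.sum_sub_distrib, Finset.sum_boole, Finset.sum_boole, sub_eq_zero] at hs
  have hs' : (univ.filter (fun a : ZMod p => a ≠ 0 ∧ IsSquare a)).card =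
      (univ.filter (fun z : ZMod p => ¬ IsSquare z)).card := by exact_mod_cast hs
  have hne : (univ.filter (fun x : ZMod p => x ≠ 0)).card = p - 1 := by
    rw [Finset.filter_ne', Finset.card_erase_of_mem (Finset.mem_univ _), Finset.card_univ, ZMod.card]
  have hsp : (univ.filter (fun x : ZMod p => x ≠ 0)) =
      (univ.filter (fun a : ZMod p => a ≠ 0 ∧ IsSquare a)) ∪
        (univ.filter (fun z : ZMod p => ¬ IsSquare z)) := by
    ext a
    simp only [Finset.mem_filter, Finset.mem_univ, true_and, Finset.mem_union]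
    constructor
    · intro ha
      by_cases hq : IsSquare a
      · exact Or.inl ⟨ha, hq⟩
      · exact Or.inr hq
    · rintro (h | h)
      · exact h.1
      · rintro rfl
        exact h (IsSquare.zero)
  have hdis : Disjoint (univ.filter (fun a : ZMod p => a ≠ 0 ∧ IsSquare a))
        (univ.filter (fun z : ZMod p => ¬ IsSquare z)) := by
    rw [Finset.disjoint_left]
    intro a h1 h2
    exact (Finset.mem_filter.mp h2).2 (Finset.mem_filter.mp h1).2.2
  rw [hsp, Finset.card_union_of_disjoint hdis, hs'] at hne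
  omega

open Classical in
theorem LB_count2 (p : ℕ) [Fact p.Prime] (hp2 : p ≠ 2) (α β κ μ : ZMod p) (h1 : α - β = κ)
    (h2 : α + β = μ) : (p - 1) * (p - 1) ≤
    2 * (LB_setX p κ (fun X X' Y Y' => X * Y' + X' * Y = μ ∧ ¬ IsSquare (X * Y))).card := by
  have hns := LB_nonsq p hp2
  have hne : (univ.filter (fun x : ZMod p => x ≠ 0)).card = p - 1 := by
    rw [Finset.filter_ne', Finset.card_erase_of_mem (Finset.mem_univ _), Finset.card_univ, ZMod.card]
  have hle : ((univ.filter (fun x : ZMod p => x ≠ 0)) ×ˢ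
      (univ.filter (fun z : ZMod p => ¬ IsSquare z))).card ≤
      (LB_setX p κ (fun X X' Y Y' => X * Y' + X' * Y = μ ∧ ¬ IsSquare (X * Y))).card := by
    refine Finset.card_le_card_of_injOn (fun w : ZMod p × ZMod p =>
      ((w.1, β * w.1 / w.2, w.2 / w.1, α / w.1) : ZMod p × ZMod p × ZMod p × ZMod p)) ?_ ?_
    · intro w hw
      rw [Finset.coe_product] at hw
      have hw1 : w.1 ≠ 0 := (Finset.mem_filter.mp hw.1).2
      have hw2 : ¬ IsSquare w.2 := (Finset.mem_filter.mp hw.2).2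
      have hw3 : w.2 ≠ 0 := by
        intro h0
        rw [h0] at hw2
        exact hw2 IsSquare.zero
      have e1 : w.1 * (α / w.1) = α := mul_div_cancel₀ α hw1
      have e2 : β * w.1 / w.2 * (w.2 / w.1) = β := by field_simp
      have e3 : w.1 * (w.2 / w.1) = w.2 := mul_div_cancel₀ w.2 hw1
      refine (LB_mem_setX p _ _ _).mpr ⟨?_, ?_, ?_⟩
      · simp only
        rw [e1, e2, h1]
      · simp only
        rw [e1, e2, h2]
      · simp only
        rw [e3]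
        exact hw2
    · intro w hw w' hw' hww
      rw [Finset.coe_product] at hw hw'
      have hw1 : w.1 ≠ 0 := (Finset.mem_filter.mp hw.1).2
      simp only [Prod.mk.injEq] at hww
      obtain ⟨e1, _, e3, _⟩ := hww
      refine Prod.ext e1 ?_
      rw [← e1] at e3
      have := congrArg (fun x => w.1 * x) e3
      simp only [mul_div_cancel₀ _ hw1] at this
      exact this
  rw [Finset.card_product, hne] at hle
  calc (p - 1) * (p - 1) = (p - 1) * (2 * (univ.filter (fun z : ZMod p => ¬ IsSquare z)).card) := by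
        rw [hns]
    _ = 2 * ((p - 1) * (univ.filter (fun z : ZMod p => ¬ IsSquare z)).card) := by ring
    _ ≤ _ := Nat.mul_le_mul_left 2 hle

/-- the constants -/
theorem LB_consts (p : ℕ) [Fact p.Prime] (h12 : p % 12 = 1) :
    (2 : ZMod p) ≠ 0 ∧ (3 : ZMod p) ≠ 0 ∧ (∃ c : ZMod p, c ≠ 0 ∧ c ^ 2 = 3) ∧
      ∃ ι : ZMod p, ι ≠ 0 ∧ ι ^ 2 = -1 := by
  have hp : p.Prime := Fact.out
  have h2 : (2 : ZMod p) ≠ 0 := by
    intro h
    have : ((2 : ℕ) : ZMod p) = 0 := by exact_mod_cast h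
    rw [ZMod.natCast_eq_zero_iff] at this
    have := Nat.le_of_dvd (by norm_num) this
    have := hp.two_le
    omega
  have h3 : (3 : ZMod p) ≠ 0 := by
    intro h
    have : ((3 : ℕ) : ZMod p) = 0 := by exact_mod_cast h
    rw [ZMod.natCast_eq_zero_iff] at this
    have := Nat.le_of_dvd (by norm_num) this
    have := hp.two_le
    omega
  refine ⟨h2, h3, ?_, ?_⟩
  · have : Fact (Nat.Prime 3) := ⟨Nat.prime_three⟩
    have h4 : IsSquare ((3 : ℕ) : ZMod p) := by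
      rw [ZMod.exists_sq_eq_prime_iff_of_mod_four_eq_one (p := p) (q := 3) (by omega) (by norm_num)]
      have : ((p : ℕ) : ZMod 3) = 1 := by
        have h5 : ((p : ℕ) : ZMod 3) = ((1 : ℕ) : ZMod 3) := by
          rw [ZMod.natCast_eq_natCast_iff']
          omega
        rw [h5]; norm_num
      rw [this]
      exact IsSquare.one
    obtain ⟨c, hc⟩ := h4
    push_cast at hc
    refine ⟨c, ?_, ?_⟩
    · rintro rfl
      rw [mul_zero] at hc
      exact h3 hc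
    · rw [sq]; exact hc.symm
  · have h4 : IsSquare (-1 : ZMod p) := by
      rw [ZMod.exists_sq_eq_neg_one_iff]
      omega
    obtain ⟨c, hc⟩ := h4
    refine ⟨c, ?_, ?_⟩
    · rintro rfl
      rw [mul_zero] at hc
      exact neg_ne_zero.mpr one_ne_zero hc
    · rw [sq]; exact hc.symm

theorem LB_id1 {p : ℕ} (c ι r s t q : ZMod p) (hc : c ^ 2 = 3) (hι : ι ^ 2 = -1)
    (hD : r * q - s * t = 1) :
    ((t + c * q) + ι * (r + c * s)) * ((t - c * q) - ι * (r - c * s)) =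
      (r ^ 2 - 3 * s ^ 2 + (t ^ 2 - 3 * q ^ 2)) - 2 * c * ι := by
  linear_combination (-(q ^ 2) - s ^ 2) * hc - (r ^ 2 - c ^ 2 * s ^ 2) * hι - 2 * c * ι * hD

theorem LB_id2 {p : ℕ} (c ι r s t q : ZMod p) (hc : c ^ 2 = 3) (hι : ι ^ 2 = -1)
    (hD : r * q - s * t = 1) :
    ((t + c * q) - ι * (r + c * s)) * ((t - c * q) + ι * (r - c * s)) =
      (r ^ 2 - 3 * s ^ 2 + (t ^ 2 - 3 * q ^ 2)) + 2 * c * ι := by
  linear_combination (-(q ^ 2) - s ^ 2) * hc - (r ^ 2 - c ^ 2 * s ^ 2) * hι + 2 * c * ι * hD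

theorem LB_id3 {p : ℕ} (c ι r s t q : ZMod p) (hc : c ^ 2 = 3) (hι : ι ^ 2 = -1) :
    ((t + c * q) + ι * (r + c * s)) * ((t - c * q) + ι * (r - c * s)) =
      (t ^ 2 - 3 * q ^ 2 - (r ^ 2 - 3 * s ^ 2)) + 2 * ι * (r * t - 3 * s * q) := by
  linear_combination (-(q ^ 2) + s ^ 2 - 2 * ι * s * q) * hc + (r ^ 2 - c ^ 2 * s ^ 2) * hι

theorem slc_F2 (p : ℕ) (hp : p.Prime) (h12 : p % 12 = 1) :
    slc p (fun r s t q => (p : ℤ) ∣ F2 r s t q) = 2 * (p - 1) * (2 * p - 1) := by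
  have : Fact p.Prime := ⟨hp⟩
  obtain ⟨h2, h3, ⟨c, hc0, hc⟩, ⟨ι, hι0, hι⟩⟩ := LB_consts p h12
  have h4 : (4 : ZMod p) ≠ 0 := by
    have : (4 : ZMod p) = 2 * 2 := by norm_num
    rw [this]; exact mul_ne_zero h2 h2
  have hκ : (-4 * c * ι : ZMod p) ≠ 0 := by
    refine mul_ne_zero (mul_ne_zero ?_ hc0) hι0
    exact neg_ne_zero.mpr h4
  rw [LB_transfer p _ (fun r s t q : ZMod p =>
      (r ^ 2 - 3 * s ^ 2 + (t ^ 2 - 3 * q ^ 2)) ^ 2 + 12 = 0),
    LB_coord p c ι hc0 hι0 h2 _ (fun X X' Y Y' => X * Y' * (X' * Y) = 0), LB_count1 p _ hκ]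
  · intro r s t q hD
    rw [LB_id1 c ι r s t q hc hι hD, LB_id2 c ι r s t q hc hι hD]
    have : (r ^ 2 - 3 * s ^ 2 + (t ^ 2 - 3 * q ^ 2) - 2 * c * ι) *
        (r ^ 2 - 3 * s ^ 2 + (t ^ 2 - 3 * q ^ 2) + 2 * c * ι) =
        (r ^ 2 - 3 * s ^ 2 + (t ^ 2 - 3 * q ^ 2)) ^ 2 + 12 := by
      linear_combination (-4 * ι ^ 2) * hc - 12 * hι
    rw [this]
  · intro r s t q
    rw [← ZMod.intCast_zmod_eq_zero_iff_dvd, F2]
    push_cast
    rfl

theorem LB_cast_top (p : ℕ) (hp : p.Prime) :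
    (slc p (fun _ _ _ _ => True) : ℝ) = (p : ℝ) * ((p : ℝ) - 1) * ((p : ℝ) + 1) := by
  rw [slc_top p hp]
  push_cast [Nat.cast_sub hp.one_le]
  ring

theorem LB_cast_two (p : ℕ) (hp : p.Prime) : ((2 * (p - 1) * (2 * p - 1) : ℕ) : ℝ) =
    2 * ((p : ℝ) - 1) * (2 * (p : ℝ) - 1) := by
  have h1 := hp.one_le
  have h2 : 1 ≤ 2 * p := by omega
  push_cast [Nat.cast_sub h1, Nat.cast_sub h2]
  ring

theorem LB_rho (p : ℕ) (hp : p.Prime) :
    2 * ((p : ℝ) - 1) * (2 * (p : ℝ) - 1) / ((p : ℝ) * ((p : ℝ) - 1) * ((p : ℝ) + 1)) = rho p := by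
  have h2 : (2 : ℝ) ≤ p := by exact_mod_cast hp.two_le
  have h3 : (p : ℝ) - 1 ≠ 0 := by linarith
  have h4 : (p : ℝ) ≠ 0 := by linarith
  have h5 : (p : ℝ) + 1 ≠ 0 := by linarith
  unfold rho
  field_simp

theorem dn_F1 (p : ℕ) (hp : p.Prime) (h3 : p % 3 = 1) :
    dn p (fun r s t q => (p : ℤ) ∣ F1 r s t q) = rho p := by
  unfold dn
  rw [slc_F1 p hp h3, LB_cast_top p hp, LB_cast_two p hp, LB_rho p hp]

theorem dn_F2 (p : ℕ) (hp : p.Prime) (h12 : p % 12 = 1) :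
    dn p (fun r s t q => (p : ℤ) ∣ F2 r s t q) = rho p := by
  unfold dn
  rw [slc_F2 p hp h12, LB_cast_top p hp, LB_cast_two p hp, LB_rho p hp]

theorem LB_incl (p : ℕ) (S1 S2 S3 S4 : ℤ → ℤ → ℤ → ℤ → Prop)
    (h1 : ∀ r s t q, S1 r s t q → S4 r s t q) (h2 : ∀ r s t q, S2 r s t q → S4 r s t q)
    (h3 : ∀ r s t q, S3 r s t q → S4 r s t q)
    (h12 : ∀ r s t q, S1 r s t q → ¬ S2 r s t q) (h13 : ∀ r s t q, S1 r s t q → ¬ S3 r s t q)
    (h23 : ∀ r s t q, S2 r s t q → ¬ S3 r s t q) :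
    slc p S1 + slc p S2 + slc p S3 ≤ slc p S4 := by
  classical
  unfold slc
  rw [← Finset.card_union_of_disjoint, ← Finset.card_union_of_disjoint]
  · refine Finset.card_le_card ?_
    intro x hx
    rw [Finset.mem_union, Finset.mem_union, Finset.mem_filter, Finset.mem_filter,
      Finset.mem_filter] at hx
    rw [Finset.mem_filter]
    rcases hx with (h | h) | h
    · exact ⟨h.1, h.2.1, h1 _ _ _ _ h.2.2⟩
    · exact ⟨h.1, h.2.1, h2 _ _ _ _ h.2.2⟩
    · exact ⟨h.1, h.2.1, h3 _ _ _ _ h.2.2⟩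
  · rw [Finset.disjoint_left]
    intro x h5 h6
    rw [Finset.mem_union, Finset.mem_filter, Finset.mem_filter] at h5
    rw [Finset.mem_filter] at h6
    rcases h5 with h5 | h5
    · exact h13 _ _ _ _ h5.2.2 h6.2.2
    · exact h23 _ _ _ _ h5.2.2 h6.2.2
  · rw [Finset.disjoint_left]
    intro x h5 h6
    rw [Finset.mem_filter] at h5 h6
    exact h12 _ _ _ _ h5.2.2 h6.2.2

/-- the three disjoint sets -/
theorem LB_three (p : ℕ) (hp : p.Prime) (h12 : p % 12 = 1) (σ : ℤ) (hσ : σ = 1 ∨ σ = -1) :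
    2 * slc p (G2 σ p) + 2 * slc p (fun r s t q => (p : ℤ) ∣ F2 r s t q) + (p - 1) * (p - 1) ≤
      2 * slc p (fun _ _ _ _ => True) := by
  classical
  have : Fact p.Prime := ⟨hp⟩
  obtain ⟨h2, h3, ⟨c, hc0, hc⟩, ⟨ι, hι0, hι⟩⟩ := LB_consts p h12
  have h4 : (4 : ZMod p) ≠ 0 := by
    have : (4 : ZMod p) = 2 * 2 := by norm_num
    rw [this]; exact mul_ne_zero h2 h2
  have hσ2 : (σ : ZMod p) ^ 2 = 1 := by
    rcases hσ with rfl | rfl <;> simp
  -- the forbidden set, as a set of integers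
  set Fb : ℤ → ℤ → ℤ → ℤ → Prop := fun r s t q =>
    ((((r ^ 2 - 3 * s ^ 2 + (t ^ 2 - 3 * q ^ 2) : ℤ)) : ZMod p) = 2 * (σ : ZMod p)) ∧
      ¬ IsSquare (((t ^ 2 - 3 * q ^ 2 - (r ^ 2 - 3 * s ^ 2) : ℤ) : ZMod p)
        + 2 * ι * ((r * t - 3 * s * q : ℤ) : ZMod p)) with hFb
  have hfb : (p - 1) * (p - 1) ≤ 2 * slc p Fb := by
    rw [LB_transfer p Fb (fun r s t q : ZMod p =>
      r ^ 2 - 3 * s ^ 2 + (t ^ 2 - 3 * q ^ 2) = 2 * (σ : ZMod p) ∧
      ¬ IsSquare ((t ^ 2 - 3 * q ^ 2 - (r ^ 2 - 3 * s ^ 2)) + 2 * ι * (r * t - 3 * s * q))),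
      LB_coord p c ι hc0 hι0 h2 _ (fun X X' Y Y' => X * Y' + X' * Y = 4 * (σ : ZMod p) ∧
        ¬ IsSquare (X * Y))]
    · refine LB_count2 p ?_ (2 * (σ : ZMod p) - 2 * c * ι) (2 * (σ : ZMod p) + 2 * c * ι) _ _
        (by ring) (by ring)
      rintro rfl
      omega
    · intro r s t q hD
      rw [LB_id1 c ι r s t q hc hι hD, LB_id2 c ι r s t q hc hι hD, LB_id3 c ι r s t q hc hι]
      refine and_congr_left (fun _ => ⟨fun h => ?_, fun h => ?_⟩)
      · rw [h]; ring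
      · have h5 : (2 : ZMod p) * (r ^ 2 - 3 * s ^ 2 + (t ^ 2 - 3 * q ^ 2)) =
            2 * (2 * (σ : ZMod p)) := by linear_combination h
        exact mul_left_cancel₀ h2 h5
    · intro r s t q
      simp only [hFb]
      push_cast
      rfl
  -- inclusion-exclusion
  have hkey : slc p (G2 σ p) + slc p (fun r s t q => (p : ℤ) ∣ F2 r s t q) + slc p Fb ≤
      slc p (fun _ _ _ _ => True) := by
    refine LB_incl p _ _ _ _ (fun _ _ _ _ _ => trivial) (fun _ _ _ _ _ => trivial)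
      (fun _ _ _ _ _ => trivial) ?_ ?_ ?_
    · intro r s t q h1 h5
      exact h1.1 h5
    · intro r s t q h1 h5
      obtain ⟨h6, h7⟩ := h5
      apply h1.2
      refine ⟨?_, ι, hι, h7⟩
      rw [← ZMod.intCast_zmod_eq_zero_iff_dvd]
      push_cast
      push_cast at h6
      rw [h6]; ring
    · intro r s t q h8 h5
      obtain ⟨h6, _⟩ := h5
      have h9 := (ZMod.intCast_zmod_eq_zero_iff_dvd _ p).mpr h8
      rw [F2] at h9
      push_cast at h9 h6
      rw [h6] at h9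
      have h10 : (4 : ZMod p) * 4 = 0 := by linear_combination h9 - 4 * hσ2
      exact mul_ne_zero h4 h4 h10
  omega

theorem dn_G2 (p : ℕ) (hp : p.Prime) (h12 : p % 12 = 1) (σ : ℤ) (hσ : σ = 1 ∨ σ = -1) :
    dn p (G2 σ p) ≤ (1 - rho p) * (1 - 1 / (4 * p)) := by
  have h := LB_three p hp h12 σ hσ
  have h13 : 13 ≤ p := by
    have := hp.two_le
    omega
  have hP : (13 : ℝ) ≤ p := by exact_mod_cast h13
  have hR : 2 * (slc p (G2 σ p) : ℝ) + 2 * (2 * ((p : ℝ) - 1) * (2 * (p : ℝ) - 1)) +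
      ((p : ℝ) - 1) * ((p : ℝ) - 1) ≤ 2 * ((p : ℝ) * ((p : ℝ) - 1) * ((p : ℝ) + 1)) := by
    rw [← LB_cast_top p hp, ← LB_cast_two p hp, ← slc_F2 p hp h12]
    have h1 : ((p - 1 : ℕ) : ℝ) = (p : ℝ) - 1 := by
      rw [Nat.cast_sub hp.one_le, Nat.cast_one]
    rw [← h1]
    exact_mod_cast h
  unfold dn
  rw [LB_cast_top p hp]
  have hT : 0 < (p : ℝ) * ((p : ℝ) - 1) * ((p : ℝ) + 1) := by
    have : 0 < (p : ℝ) - 1 := by linarith
    positivity
  rw [div_le_iff₀ hT]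
  have hp0 : (p : ℝ) ≠ 0 := by linarith
  have hp1 : (p : ℝ) + 1 ≠ 0 := by linarith
  have hexp : (1 - rho p) * (1 - 1 / (4 * (p : ℝ))) * ((p : ℝ) * ((p : ℝ) - 1) * ((p : ℝ) + 1)) =
      ((p : ℝ) * ((p : ℝ) + 1) - 2 * (2 * (p : ℝ) - 1)) * ((p : ℝ) - 1) -
        ((p : ℝ) * ((p : ℝ) + 1) - 2 * (2 * (p : ℝ) - 1)) * ((p : ℝ) - 1) / (4 * (p : ℝ)) := by
    unfold rho
    field_simp
  rw [hexp]
  have hq : ((p : ℝ) * ((p : ℝ) + 1) - 2 * (2 * (p : ℝ) - 1)) * ((p : ℝ) - 1) / (4 * (p : ℝ)) ≤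
      ((p : ℝ) - 1) * ((p : ℝ) - 1) / 2 := by
    rw [div_le_div_iff₀ (by positivity) (by norm_num)]
    nlinarith [mul_nonneg (sub_nonneg.mpr (by linarith : (1 : ℝ) ≤ p)) (sub_nonneg.mpr (by linarith : (1 : ℝ) ≤ p))]
  linarith

end Pool.Agent.H37.PPE
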