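import Pool.Agent.H37.PPE.Defs

/-!
PPE RD: reduction theory of binary quadratic forms of discriminants -3 and 12.

`RD1`: forms [u, 2n+1, w], u w = n²+n+1, u > 0.  Existence of (r,s,t,q), rq-st = 1, u = r²+rs+s², n = rt+st+sq, w = t²+tq+q²: strong induction on u:
  u = 1: w = n²+n+1: (1,0,n,1)?  r=1,s=0,q=1,t=n: u=1, n = rt+st+sq = n, w = n²+n+1 ✓.
  u > 1: replace n by n' = n + k u with -u ≤ 2n'+1 ≤ u, w' = (n'²+n'+1)/u < u; apply the induction hypothesis to (w', -n'-1, u) (form with u and w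
  exchanged: w' u = (-n'-1)²+(-n'-1)+1), and transform back ((r,s,t,q) → (t,q,-r,-s) type moves, then add k times the first column to the second).
  Units: (r,s) → (-s, r+s), (t,q) → (-q, t+q) preserves the determinant and the three identities; it is the rotation by 60°, so after at most 5 steps
  -r ≤ 2s, s < r (the sector [-30°, 30°)), r > 0; then 3r² ≤ 4u, u < 3r², and t u = n r - s gives |t| u ≤ (|n|+1) r.
`RD2`: forms [u,2b,w], b²-uw = 3.  Existence of (r,s,t,q,σ) with u = σ(r²-3s²), b = σ(rt-3sq), w = σ(t²-3q²), rq-st = 1: descent on |u| for all u ≠ 0: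
  |u| = 1: shift b to 0: [σ,0,-3σ]: identity matrix up to the shift.  |u| ≥ 2: shift b so that |b| ≤ |u|/2, then |w| = |b²-3|/|u| < |u|, w ≠ 0
  (b² = 3 impossible), exchange.
  Automorphs: (r,s) → (2r+3s, r+2s), (t,q) → (2t+3q, t+2q), the inverse (2r-3s, -r+2s), and -1 (negate all four).
  σ = 1: choose |r| minimal in the orbit, r > 0; minimality gives 3|s| ≤ r.  σ = -1: choose |s| minimal, s > 0: |r| ≤ s; if r = -s apply the automorph once (get r = s)
  ; then apply it once more: new (r',s') = (2r+3s, r+2s) has s' < r', 3r' ≤ 5s'.  In both cases u ≤ 2r², 2r² ≤ 25u, -r ≤ s < r, and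
  t u = b r + 3σ s gives |t| u ≤ (|b|+3) r.
-/

set_option autoImplicit false

namespace Pool.Agent.H37.PPE

open Finset

/-- representation of the form `[u,2n+1,w]` -/
def RDP (u n w : ℤ) : Prop :=
  ∃ r s t q : ℤ, r * q - s * t = 1 ∧ u = r ^ 2 + r * s + s ^ 2 ∧ n = r * t + s * t + s * q ∧
    w = t ^ 2 + t * q + q ^ 2

theorem RDP_shift {u n w : ℤ} (k : ℤ) (h : RDP u n w) :
    RDP u (n + k * u) (w + k * (2 * n + 1) + k ^ 2 * u) := by
  obtain ⟨r, s, t, q, h1, h2, h3, h4⟩ := h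
  refine ⟨r, s, t + k * r, q + k * s, ?_, h2, ?_, ?_⟩
  · linear_combination h1
  · rw [h3, h2]; ring
  · rw [h4, h3, h2]
    linear_combination (-k) * h1

theorem RDP_swap {u n w : ℤ} (h : RDP u n w) : RDP w (-n - 1) u := by
  obtain ⟨r, s, t, q, h1, h2, h3, h4⟩ := h
  refine ⟨t, q, -r, -s, ?_, h4, ?_, ?_⟩
  · linear_combination h1
  · rw [h3]; linear_combination h1
  · rw [h2]; ring

theorem RDP_all (m : ℕ) : ∀ u n w : ℤ, u.toNat ≤ m → 0 < u → u * w = n ^ 2 + n + 1 →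
    RDP u n w := by
  induction m with
  | zero =>
    intro u n w hm hu
    omega
  | succ m ih =>
    intro u n w hm hu h
    by_cases h1 : u = 1
    · subst h1
      refine ⟨1, 0, n, 1, by ring, by ring, by ring, ?_⟩
      linarith
    · have hu2 : 2 ≤ u := by omega
      set k : ℤ := (2 * n + 1 + u) / (2 * u) with hk
      have hk1 : 2 * u * k ≤ 2 * n + 1 + u := Int.mul_ediv_self_le (by omega)
      have hk2 : 2 * n + 1 + u < 2 * u * k + 2 * u := by
        have := Int.lt_mul_ediv_self_add (x := 2 * n + 1 + u) (k := 2 * u) (by omega)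
        linarith
      set n' : ℤ := n - k * u with hn'
      set w' : ℤ := w - k * (2 * n + 1) + k ^ 2 * u with hw'
      have huw : u * w' = n' ^ 2 + n' + 1 := by
        rw [hw', hn']; linear_combination h
      have hb1 : -u ≤ 2 * n' + 1 := by rw [hn']; linarith
      have hb2 : 2 * n' + 1 ≤ u := by rw [hn']; linarith
      have hsq : (2 * n' + 1) ^ 2 ≤ u ^ 2 := by
        have := abs_le.mpr ⟨hb1, hb2⟩
        have h5 := sq_le_sq' hb1 hb2
        exact h5
      have hw1 : 0 < w' := by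
        have : 0 < u * w' := by rw [huw]; nlinarith [sq_nonneg (2 * n' + 1)]
        exact (pos_iff_pos_of_mul_pos this).mp hu
      have hw2 : w' < u := by
        have h6 : u * w' < u * u := by rw [huw]; nlinarith
        exact lt_of_mul_lt_mul_left h6 hu.le
      have h7 : RDP w' (-n' - 1) u := by
        apply ih w' (-n' - 1) u (by omega) hw1
        linear_combination huw
      have h8 := RDP_swap h7
      have h9 := RDP_shift k h8
      have e1 : -(-n' - 1) - 1 + k * u = n := by rw [hn']; ring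
      have e2 : w' + k * (2 * (-(-n' - 1) - 1) + 1) + k ^ 2 * u = w := by
        rw [hw', hn']; ring
      rw [e1, e2] at h9
      exact h9

theorem RD1 (u w n : ℤ) (hu : 0 < u) (h : u * w = n ^ 2 + n + 1) :
    ∃ r s t q : ℤ, r * q - s * t = 1 ∧ u = r ^ 2 + r * s + s ^ 2 ∧ n = r * t + s * t + s * q ∧
      w = t ^ 2 + t * q + q ^ 2 ∧ 0 < r ∧ -r ≤ 2 * s ∧ s < r ∧ 3 * r ^ 2 ≤ 4 * u ∧ u < 3 * r ^ 2 ∧
      |t| * u ≤ (|n| + 1) * r := by
  obtain ⟨r0, s0, t0, q0, g1, g2, g3, g4⟩ := RDP_all u.toNat u n w le_rfl hu h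
  have hne : r0 ≠ 0 ∨ s0 ≠ 0 := by
    by_contra hc; push Not at hc
    rw [hc.1, hc.2] at g2; norm_num at g2; omega
  -- rotate into the sector
  have key : ∃ r s t q : ℤ, r * q - s * t = 1 ∧ u = r ^ 2 + r * s + s ^ 2 ∧
      n = r * t + s * t + s * q ∧ w = t ^ 2 + t * q + q ^ 2 ∧ 0 < r ∧ -r ≤ 2 * s ∧ s < r := by
    have hcases : (0 < r0 ∧ -r0 ≤ 2 * s0 ∧ s0 < r0) ∨
        (0 < -s0 ∧ -(-s0) ≤ 2 * (r0 + s0) ∧ r0 + s0 < -s0) ∨
        (0 < -r0 - s0 ∧ -(-r0 - s0) ≤ 2 * r0 ∧ r0 < -r0 - s0) ∨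
        (0 < -r0 ∧ -(-r0) ≤ 2 * (-s0) ∧ -s0 < -r0) ∨
        (0 < s0 ∧ -s0 ≤ 2 * (-r0 - s0) ∧ -r0 - s0 < s0) ∨
        (0 < r0 + s0 ∧ -(r0 + s0) ≤ 2 * (-r0) ∧ -r0 < r0 + s0) := by omega
    rcases hcases with ⟨a, b, c⟩ | ⟨a, b, c⟩ | ⟨a, b, c⟩ | ⟨a, b, c⟩ | ⟨a, b, c⟩ | ⟨a, b, c⟩
    · exact ⟨r0, s0, t0, q0, g1, g2, g3, g4, a, b, c⟩
    · refine ⟨-s0, r0 + s0, -q0, t0 + q0, ?_, ?_, ?_, ?_, a, b, c⟩
      · linear_combination g1
      · rw [g2]; ring
      · rw [g3]; ring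
      · rw [g4]; ring
    · refine ⟨-r0 - s0, r0, -t0 - q0, t0, ?_, ?_, ?_, ?_, a, b, c⟩
      · linear_combination g1
      · rw [g2]; ring
      · rw [g3]; ring
      · rw [g4]; ring
    · refine ⟨-r0, -s0, -t0, -q0, ?_, ?_, ?_, ?_, a, b, c⟩
      · linear_combination g1
      · rw [g2]; ring
      · rw [g3]; ring
      · rw [g4]; ring
    · refine ⟨s0, -r0 - s0, q0, -t0 - q0, ?_, ?_, ?_, ?_, a, b, c⟩
      · linear_combination g1
      · rw [g2]; ring
      · rw [g3]; ring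
      · rw [g4]; ring
    · refine ⟨r0 + s0, -r0, t0 + q0, -t0, ?_, ?_, ?_, ?_, a, b, c⟩
      · linear_combination g1
      · rw [g2]; ring
      · rw [g3]; ring
      · rw [g4]; ring
  obtain ⟨r, s, t, q, h1, h2, h3, h4, h5, h6, h7⟩ := key
  refine ⟨r, s, t, q, h1, h2, h3, h4, h5, h6, h7, ?_, ?_, ?_⟩
  · rw [h2]; nlinarith [sq_nonneg (r + 2 * s)]
  · rw [h2]
    rcases le_or_gt 0 s with hs | hs
    · nlinarith
    · nlinarith
  · have hid : t * u = n * r - s := by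
      rw [h2, h3]; linear_combination (-s) * h1
    have hsr : |s| ≤ r := abs_le.mpr ⟨by linarith, by linarith⟩
    have e1 : |t| * u = |t * u| := by rw [abs_mul, abs_of_pos hu]
    rw [e1, hid]
    calc |n * r - s| ≤ |n * r| + |s| := abs_sub _ _
      _ = |n| * r + |s| := by rw [abs_mul, abs_of_pos h5]
      _ ≤ (|n| + 1) * r := by nlinarith

/-- representation of the form `[u,2b,w]` of discriminant 12 with sign `σ` -/
def RDQ (σ u b w r s t q : ℤ) : Prop :=
  r * q - s * t = 1 ∧ u = σ * (r ^ 2 - 3 * s ^ 2) ∧ b = σ * (r * t - 3 * s * q) ∧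
    w = σ * (t ^ 2 - 3 * q ^ 2)

theorem RDQ_shift {σ u b w r s t q : ℤ} (k : ℤ) (h : RDQ σ u b w r s t q) :
    RDQ σ u (b + k * u) (w + 2 * k * b + k ^ 2 * u) r s (t + k * r) (q + k * s) := by
  obtain ⟨h1, h2, h3, h4⟩ := h
  refine ⟨?_, h2, ?_, ?_⟩
  · linear_combination h1
  · rw [h3, h2]; ring
  · rw [h4, h3, h2]; ring

theorem RDQ_swap {σ u b w r s t q : ℤ} (h : RDQ σ u b w r s t q) :
    RDQ σ w (-b) u t q (-r) (-s) := by
  obtain ⟨h1, h2, h3, h4⟩ := h
  refine ⟨?_, h4, ?_, ?_⟩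
  · linear_combination h1
  · rw [h3]; ring
  · rw [h2]; ring

theorem RDQ_neg {σ u b w r s t q : ℤ} (h : RDQ σ u b w r s t q) :
    RDQ σ u b w (-r) (-s) (-t) (-q) := by
  obtain ⟨h1, h2, h3, h4⟩ := h
  refine ⟨?_, ?_, ?_, ?_⟩
  · linear_combination h1
  · rw [h2]; ring
  · rw [h3]; ring
  · rw [h4]; ring

theorem RDQ_up {σ u b w r s t q : ℤ} (h : RDQ σ u b w r s t q) :
    RDQ σ u b w (2 * r + 3 * s) (r + 2 * s) (2 * t + 3 * q) (t + 2 * q) := by
  obtain ⟨h1, h2, h3, h4⟩ := h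
  refine ⟨?_, ?_, ?_, ?_⟩
  · linear_combination h1
  · rw [h2]; ring
  · rw [h3]; ring
  · rw [h4]; ring

theorem RDQ_down {σ u b w r s t q : ℤ} (h : RDQ σ u b w r s t q) :
    RDQ σ u b w (2 * r - 3 * s) (-r + 2 * s) (2 * t - 3 * q) (-t + 2 * q) := by
  obtain ⟨h1, h2, h3, h4⟩ := h
  refine ⟨?_, ?_, ?_, ?_⟩
  · linear_combination h1
  · rw [h2]; ring
  · rw [h3]; ring
  · rw [h4]; ring

theorem RD_sq_ne_three (b : ℤ) : b ^ 2 ≠ 3 := by
  intro h
  have h1 : |b| ≤ 1 ∨ 2 ≤ |b| := by omega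
  have h2 : b ^ 2 = |b| ^ 2 := (sq_abs b).symm
  rcases h1 with h1 | h1
  · have := abs_nonneg b
    nlinarith
  · nlinarith

theorem RDQ_all (m : ℕ) : ∀ u b w : ℤ, u.natAbs ≤ m → u ≠ 0 → b ^ 2 - u * w = 3 →
    ∃ σ r s t q : ℤ, (σ = 1 ∨ σ = -1) ∧ RDQ σ u b w r s t q := by
  induction m with
  | zero =>
    intro u b w hm hu
    omega
  | succ m ih =>
    intro u b w hm hu h
    by_cases h1 : u.natAbs = 1
    · have hu1 : u = 1 ∨ u = -1 := by omega
      have huu : u * u = 1 := by rcases hu1 with h | h <;> rw [h] <;> norm_num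
      have h0 : RDQ u u 0 (-3 * u) 1 0 0 1 := by
        refine ⟨by ring, by ring, by ring, by ring⟩
      have h2 := RDQ_shift (b * u) h0
      have e1 : (0 : ℤ) + b * u * u = b := by linear_combination b * huu
      have e2 : -3 * u + 2 * (b * u) * 0 + (b * u) ^ 2 * u = w := by
        have h3 : u * w = b ^ 2 - 3 := by linarith
        have h4 : w = u * (b ^ 2 - 3) := by
          have : u * (u * w) = u * (b ^ 2 - 3) := by rw [h3]
          linear_combination this - w * huu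
        rw [h4]
        linear_combination (b ^ 2 * u) * huu
      rw [e1, e2] at h2
      exact ⟨u, 1, 0, 0 + b * u * 1, 1 + b * u * 0, hu1, h2⟩
    · have hu2 : 2 ≤ |u| := by
        have : (u.natAbs : ℤ) = |u| := Int.natCast_natAbs u
        omega
      have hupos : 0 < |u| := by omega
      -- shift modulo |u|
      set k0 : ℤ := (2 * b + |u|) / (2 * |u|) with hk0
      have hk1 : 2 * |u| * k0 ≤ 2 * b + |u| := Int.mul_ediv_self_le (by omega)
      have hk2 : 2 * b + |u| < 2 * |u| * k0 + 2 * |u| := by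
        have := Int.lt_mul_ediv_self_add (x := 2 * b + |u|) (k := 2 * |u|) (by omega)
        linarith
      obtain ⟨k, hk⟩ : ∃ k : ℤ, k * u = |u| * k0 := by
        rcases abs_choice u with h | h
        · exact ⟨k0, by rw [h]; ring⟩
        · exact ⟨-k0, by rw [h]; ring⟩
      set b' : ℤ := b - k * u with hb'
      set w' : ℤ := w - 2 * k * b + k ^ 2 * u with hw'
      have huw : b' ^ 2 - u * w' = 3 := by
        rw [hw', hb']; linear_combination h
      have hb1 : -|u| ≤ 2 * b' := by rw [hb', hk]; linarith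
      have hb2 : 2 * b' ≤ |u| := by rw [hb', hk]; linarith
      have hsq : (2 * b') ^ 2 ≤ |u| ^ 2 := sq_le_sq' hb1 hb2
      have hw0 : w' ≠ 0 := by
        intro hc
        rw [hc] at huw
        exact RD_sq_ne_three b' (by linarith)
      have hw2 : |w'| < |u| := by
        have h5 : |u| * |w'| = |b' ^ 2 - 3| := by
          rw [← abs_mul]; congr 1; linarith
        have h6 : |b' ^ 2 - 3| < |u| * |u| := by
          rw [abs_lt]
          constructor
          · nlinarith [sq_nonneg b']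
          · nlinarith
        rw [← h5] at h6
        exact lt_of_mul_lt_mul_left h6 hupos.le
      have hw3 : w'.natAbs ≤ m := by
        have e1 : (w'.natAbs : ℤ) = |w'| := Int.natCast_natAbs w'
        have e2 : (u.natAbs : ℤ) = |u| := Int.natCast_natAbs u
        omega
      obtain ⟨σ, r, s, t, q, hσ, h7⟩ := ih w' (-b') u hw3 hw0 (by linear_combination huw)
      have h8 := RDQ_swap h7
      have h9 := RDQ_shift k h8
      have e1 : - -b' + k * u = b := by rw [hb']; ring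
      have e2 : w' + 2 * k * (- -b') + k ^ 2 * u = w := by
        rw [hw', hb']; ring
      rw [e1, e2] at h9
      exact ⟨σ, _, _, _, _, hσ, h9⟩

theorem RDQ_bound {σ u b w r s t q : ℤ} (hσ : σ = 1 ∨ σ = -1) (hu : 0 < u)
    (h : RDQ σ u b w r s t q) (hr : 0 < r) (hs1 : -r ≤ s) (hs2 : s ≤ r) :
    |t| * u ≤ (|b| + 3) * r := by
  obtain ⟨h1, h2, h3, h4⟩ := h
  have hid : t * u = b * r + 3 * σ * s := by
    rw [h2, h3]; linear_combination (3 * σ * s) * h1
  have hsr : |s| ≤ r := abs_le.mpr ⟨hs1, hs2⟩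
  have e1 : |t| * u = |t * u| := by rw [abs_mul, abs_of_pos hu]
  have hσa : |σ| = 1 := by rcases hσ with h | h <;> rw [h] <;> norm_num
  rw [e1, hid]
  calc |b * r + 3 * σ * s| ≤ |b * r| + |3 * σ * s| := abs_add_le _ _
    _ = |b| * r + 3 * |s| := by
        rw [abs_mul, abs_of_pos hr, abs_mul, abs_mul, hσa]; norm_num
    _ ≤ (|b| + 3) * r := by nlinarith

theorem RD2 (u w b : ℤ) (hu : 0 < u) (h : b ^ 2 - u * w = 3) :
    ∃ r s t q σ : ℤ, (σ = 1 ∨ σ = -1) ∧ r * q - s * t = 1 ∧ u = σ * (r ^ 2 - 3 * s ^ 2) ∧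
      b = σ * (r * t - 3 * s * q) ∧ w = σ * (t ^ 2 - 3 * q ^ 2) ∧ 0 < r ∧ -r ≤ s ∧ s < r ∧
      u ≤ 2 * r ^ 2 ∧ 2 * r ^ 2 ≤ 25 * u ∧ |t| * u ≤ (|b| + 3) * r := by
  classical
  obtain ⟨σ, r0, s0, t0, q0, hσ, h0⟩ := RDQ_all u.natAbs u b w le_rfl hu.ne' h
  rcases hσ with hσ | hσ
  · -- sign +1 : minimal |r|
    subst hσ
    have hex : ∃ m : ℕ, ∃ r s t q : ℤ, r.natAbs = m ∧ RDQ 1 u b w r s t q :=
      ⟨_, r0, s0, t0, q0, rfl, h0⟩
    obtain ⟨r1, s1, t1, q1, hm, h1⟩ := Nat.find_spec hex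
    have hmin : ∀ r s t q : ℤ, RDQ 1 u b w r s t q → r1.natAbs ≤ r.natAbs := by
      intro r s t q hh
      rw [hm]
      exact Nat.find_min' hex ⟨r, s, t, q, rfl, hh⟩
    -- make r positive
    obtain ⟨r, s, t, q, hr0, h2, hrr⟩ : ∃ r s t q : ℤ, 0 ≤ r ∧ RDQ 1 u b w r s t q ∧
        r.natAbs = r1.natAbs := by
      rcases le_total 0 r1 with h | h
      · exact ⟨r1, s1, t1, q1, h, h1, rfl⟩
      · exact ⟨-r1, -s1, -t1, -q1, by omega, RDQ_neg h1, by simp⟩
    have hmin2 : ∀ r' s' t' q' : ℤ, RDQ 1 u b w r' s' t' q' → r ≤ |r'| := by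
      intro r' s' t' q' hh
      have e1 := hmin r' s' t' q' hh
      have e2 : (r'.natAbs : ℤ) = |r'| := Int.natCast_natAbs r'
      omega
    have hu2 : u = r ^ 2 - 3 * s ^ 2 := by have := h2.2.1; linarith
    have hrpos : 0 < r := by
      rcases hr0.lt_or_eq with h | h
      · exact h
      · exfalso; rw [← h] at hu2; nlinarith [sq_nonneg s]
    have hup := hmin2 _ _ _ _ (RDQ_up h2)
    have hdn := hmin2 _ _ _ _ (RDQ_down h2)
    have hs2 : 3 * s < 2 * r := by nlinarith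
    have hs3 : -(3 * s) < 2 * r := by nlinarith
    have hup' : r ≤ 2 * r + 3 * s := by rwa [abs_of_pos (by linarith)] at hup
    have hdn' : r ≤ 2 * r - 3 * s := by rwa [abs_of_pos (by linarith)] at hdn
    have ha : 3 * s ≤ r := by linarith
    have hb : -r ≤ 3 * s := by linarith
    have hsq : (3 * s) ^ 2 ≤ r ^ 2 := sq_le_sq' hb ha
    refine ⟨r, s, t, q, 1, Or.inl rfl, h2.1, h2.2.1, h2.2.2.1, h2.2.2.2, hrpos, by omega,
      by omega, ?_, ?_, RDQ_bound (Or.inl rfl) hu h2 hrpos (by omega) (by omega)⟩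
    · rw [hu2]; nlinarith [sq_nonneg s]
    · rw [hu2]; nlinarith
  · -- sign -1 : minimal |s|
    subst hσ
    have hex : ∃ m : ℕ, ∃ r s t q : ℤ, s.natAbs = m ∧ RDQ (-1) u b w r s t q :=
      ⟨_, r0, s0, t0, q0, rfl, h0⟩
    obtain ⟨r1, s1, t1, q1, hm, h1⟩ := Nat.find_spec hex
    have hmin : ∀ r s t q : ℤ, RDQ (-1) u b w r s t q → s1.natAbs ≤ s.natAbs := by
      intro r s t q hh
      rw [hm]
      exact Nat.find_min' hex ⟨r, s, t, q, rfl, hh⟩
    obtain ⟨r, s, t, q, hs0, h2, hrr⟩ : ∃ r s t q : ℤ, 0 ≤ s ∧ RDQ (-1) u b w r s t q ∧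
        s.natAbs = s1.natAbs := by
      rcases le_total 0 s1 with h | h
      · exact ⟨r1, s1, t1, q1, h, h1, rfl⟩
      · exact ⟨-r1, -s1, -t1, -q1, by omega, RDQ_neg h1, by simp⟩
    have hmin2 : ∀ r' s' t' q' : ℤ, RDQ (-1) u b w r' s' t' q' → s ≤ |s'| := by
      intro r' s' t' q' hh
      have e1 := hmin r' s' t' q' hh
      have e2 : (s'.natAbs : ℤ) = |s'| := Int.natCast_natAbs s'
      omega
    have hu2 : u = 3 * s ^ 2 - r ^ 2 := by have := h2.2.1; linarith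
    have hspos : 0 < s := by
      rcases hs0.lt_or_eq with h | h
      · exact h
      · exfalso; rw [← h] at hu2; nlinarith [sq_nonneg r]
    have hup := hmin2 _ _ _ _ (RDQ_up h2)
    have hdn := hmin2 _ _ _ _ (RDQ_down h2)
    have hr2 : r < 2 * s := by nlinarith
    have hr3 : -r < 2 * s := by nlinarith
    have hup' : s ≤ r + 2 * s := by rwa [abs_of_pos (by linarith)] at hup
    have hdn' : s ≤ -r + 2 * s := by rwa [abs_of_pos (by linarith)] at hdn
    have ha : r ≤ s := by linarith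
    have hb : -s ≤ r := by linarith
    -- make -s < r ≤ s
    obtain ⟨r2, s2, t2, q2, h3, hp, hl, hle⟩ : ∃ r2 s2 t2 q2 : ℤ,
        RDQ (-1) u b w r2 s2 t2 q2 ∧ 0 < s2 ∧ -s2 < r2 ∧ r2 ≤ s2 := by
      rcases hb.lt_or_eq with h | h
      · exact ⟨r, s, t, q, h2, hspos, h, ha⟩
      · refine ⟨_, _, _, _, RDQ_up h2, by linarith, by linarith, by linarith⟩
    have h4 := RDQ_up h3
    have hpr : 0 < 2 * r2 + 3 * s2 := by linarith
    have hps : 0 < r2 + 2 * s2 := by linarith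
    have hlt : r2 + 2 * s2 < 2 * r2 + 3 * s2 := by linarith
    have h53 : 3 * (2 * r2 + 3 * s2) ≤ 5 * (r2 + 2 * s2) := by linarith
    have hu3 : u = 3 * (r2 + 2 * s2) ^ 2 - (2 * r2 + 3 * s2) ^ 2 := by
      have := h4.2.1; linarith
    refine ⟨_, _, _, _, -1, Or.inr rfl, h4.1, h4.2.1, h4.2.2.1, h4.2.2.2, hpr, by linarith,
      hlt, ?_, ?_, RDQ_bound (Or.inr rfl) hu h4 hpr (by linarith) hlt.le⟩
    · rw [hu3]
      have : (r2 + 2 * s2) ^ 2 ≤ (2 * r2 + 3 * s2) ^ 2 := pow_le_pow_left₀ hps.le hlt.le 2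
      linarith
    · rw [hu3]
      have : (3 * (2 * r2 + 3 * s2)) ^ 2 ≤ (5 * (r2 + 2 * s2)) ^ 2 :=
        pow_le_pow_left₀ (by linarith) h53 2
      nlinarith

end Pool.Agent.H37.PPE
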