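import Pool.Agent.H37.PPC.Rk
import Pool.Agent.H37.PPE.Defs

/-!
PPE SE: Selberg's upper bound sieve, abstract form.

`SEL`.  h p = ρ p/(1-ρ p); for T ⊆ P write ρ(T), h(T) for the products, ∏T for the product of the primes.
 G = ∑_{T⊆P, ∏T≤D} h(T) ≥ 1.  λ_T = (-1)^|T| ρ(T)^{-1} h(T) G_T/G for ∏T ≤ D (0 otherwise), G_T = ∑_{T'⊆P, T'∩T=∅, ∏T·∏T' ≤ D} h(T').
 λ_∅ = 1, |λ_T| ≤ 1 (group the sum G by T'∩T... : G ≥ ∑_{V⊆T} h(V) ∑_{T' : T'∩T=V} ... ≥ (∑_{V⊆T} h(V)) G_T = h(T)/ρ(T) G_T since 1+h = h/ρ).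
 #{a : ∀p∈P, p ∤ F a} ≤ ∑_a (∑_{T : p | F a ∀ p∈T} λ_T)² = ∑_{T1,T2} λ λ #{a : p | F a ∀ p ∈ T1∪T2} = X ∑ λ λ ρ(T1∪T2) + error,
 |error| ≤ E (#{T : ∏T≤D})² ≤ E D², ∏(T1∪T2) ≤ D²; and ∑ λ_{T1} λ_{T2} ρ(T1∪T2) = ∑_V h(V)^{-1}(∑_{T⊇V} λ_T ρ(T))² = 1/G
 (ρ(T1∩T2)^{-1} = ∑_{V⊆T1∩T2} h(V)^{-1}, and ∑_{T⊇V} λ_T ρ(T) = (-1)^|V| h(V)/G for ∏V ≤ D).
 (Mathlib/NumberTheory/SelbergSieve.lean has related material: mainSum_lambdaSquared_eq_sum_mul_sum_sq.)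
`SEL2`: D = z^{s1} with s1 from `rankin κ`, s = 2 s1: h l = ρ/(1-ρ) for l ∈ P, 0 otherwise; G ≥ (1/2) ∏_{l∈P} 1/(1-ρ l) ≥ (1/2) exp(∑ρ).
-/

set_option autoImplicit false

namespace Pool.Agent.H37.PPE

open Finset Pool.Agent.H37.PPC

/-- the Euler product over the complement of `V` inside `W` -/
theorem SE_alt (V W : Finset ℕ) :
    ∑ T ∈ W.powerset.filter (fun T => V ⊆ T), (-1 : ℝ) ^ T.card =
      if W ⊆ V ∧ V ⊆ W then (-1 : ℝ) ^ V.card else 0 := by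
  classical
  by_cases hVW : V ⊆ W
  · have h1 := Finset.prod_add (fun _ : ℕ => (-1 : ℝ)) (fun p => if p ∈ V then (0 : ℝ) else 1) W
    have h2 : ∀ T ∈ W.powerset, (∏ _p ∈ T, (-1 : ℝ)) * ∏ p ∈ W \ T, (if p ∈ V then (0 : ℝ) else 1) =
        if V ⊆ T then (-1 : ℝ) ^ T.card else 0 := by
      intro T hT
      rw [Finset.prod_const]
      by_cases hVT : V ⊆ T
      · rw [if_pos hVT, Finset.prod_eq_one, mul_one]
        intro p hp
        rw [Finset.mem_sdiff] at hp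
        rw [if_neg fun h => hp.2 (hVT h)]
      · rw [if_neg hVT]
        obtain ⟨p, hp1, hp2⟩ := Finset.not_subset.1 hVT
        rw [Finset.prod_eq_zero (i := p), mul_zero]
        · exact Finset.mem_sdiff.2 ⟨hVW hp1, hp2⟩
        · rw [if_pos hp1]
    rw [Finset.sum_congr rfl h2, ← Finset.sum_filter] at h1
    rw [← h1]
    by_cases hWV : W ⊆ V
    · rw [if_pos ⟨hWV, hVW⟩]
      have h3 : ∀ p ∈ W, (-1 : ℝ) + (if p ∈ V then (0 : ℝ) else 1) = -1 := by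
        intro p hp
        rw [if_pos (hWV hp)]
        ring
      rw [Finset.prod_congr rfl h3, Finset.prod_const, Finset.Subset.antisymm hWV hVW]
    · rw [if_neg fun h => hWV h.1]
      obtain ⟨p, hp1, hp2⟩ := Finset.not_subset.1 hWV
      rw [Finset.prod_eq_zero hp1]
      rw [if_neg hp2]
      ring
  · rw [if_neg fun h => hVW h.2]
    refine Finset.sum_eq_zero fun T hT => ?_
    rw [Finset.mem_filter, Finset.mem_powerset] at hT
    exact absurd (hT.2.trans hT.1) hVW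

theorem SE_inv (W : Finset ℕ) (ρ : ℕ → ℝ) (hρ : ∀ p ∈ W, 0 < ρ p ∧ ρ p < 1) :
    ∑ V ∈ W.powerset, 1 / (∏ p ∈ V, ρ p / (1 - ρ p)) = 1 / ∏ p ∈ W, ρ p := by
  have h1 := Finset.prod_one_add W (f := fun p => 1 / (ρ p / (1 - ρ p)))
  have h2 : ∏ p ∈ W, (1 + 1 / (ρ p / (1 - ρ p))) = 1 / ∏ p ∈ W, ρ p := by
    rw [← Finset.prod_const_one (s := W), ← Finset.prod_div_distrib]
    refine Finset.prod_congr rfl fun p hp => ?_
    obtain ⟨h3, h4⟩ := hρ p hp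
    have h5 : (1 : ℝ) - ρ p ≠ 0 := by linarith
    rw [Finset.prod_const_one]
    field_simp
    ring
  rw [← h2, h1]
  refine Finset.sum_congr rfl fun V _ => ?_
  rw [one_div, ← Finset.prod_inv_distrib]
  exact Finset.prod_congr rfl fun p _ => (one_div _).symm

theorem SE_weights (P : Finset ℕ) (S : Finset (Finset ℕ)) (hS : S ⊆ P.powerset) (h0 : ∅ ∈ S)
    (hd : ∀ T ∈ S, ∀ T' ⊆ T, T' ∈ S) (ρ : ℕ → ℝ) (hρ : ∀ p ∈ P, 0 < ρ p ∧ ρ p < 1) :
    ∃ lam : Finset ℕ → ℝ, lam ∅ = 1 ∧ (∀ T ∈ S, |lam T| ≤ 1) ∧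
      ∑ T₁ ∈ S, ∑ T₂ ∈ S, lam T₁ * lam T₂ * ∏ p ∈ T₁ ∪ T₂, ρ p =
        1 / ∑ T ∈ S, ∏ p ∈ T, ρ p / (1 - ρ p) := by
  classical
  obtain ⟨g, hg⟩ : ∃ g : Finset ℕ → ℝ, ∀ V, g V = ∏ p ∈ V, ρ p / (1 - ρ p) := ⟨_, fun _ => rfl⟩
  obtain ⟨r, hr⟩ : ∃ r : Finset ℕ → ℝ, ∀ V, r V = ∏ p ∈ V, ρ p := ⟨_, fun _ => rfl⟩
  obtain ⟨G, hG⟩ : ∃ G : ℝ, G = ∑ T ∈ S, g T := ⟨_, rfl⟩
  obtain ⟨M, hM⟩ : ∃ M : Finset ℕ → ℝ, ∀ T, M T = ∑ V ∈ S.filter (fun V => T ⊆ V), g V :=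
    ⟨_, fun _ => rfl⟩
  have hSP : ∀ T ∈ S, ∀ p ∈ T, 0 < ρ p ∧ ρ p < 1 := fun T hT p hp =>
    hρ p (Finset.mem_powerset.1 (hS hT) hp)
  have hgpos : ∀ T ∈ S, 0 < g T := by
    intro T hT
    rw [hg]
    refine Finset.prod_pos fun p hp => ?_
    obtain ⟨h1, h2⟩ := hSP T hT p hp
    exact div_pos h1 (by linarith)
  have hrpos : ∀ T ∈ S, 0 < r T := by
    intro T hT
    rw [hr]
    exact Finset.prod_pos fun p hp => (hSP T hT p hp).1
  have hGpos : 0 < G := by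
    rw [hG]
    exact Finset.sum_pos hgpos ⟨∅, h0⟩
  have hM0 : ∀ T, 0 ≤ M T := by
    intro T
    rw [hM]
    exact Finset.sum_nonneg fun V hV => (hgpos V (Finset.mem_filter.1 hV).1).le
  have hinv : ∀ W ∈ S, 1 / r W = ∑ V ∈ S.filter (fun V => V ⊆ W), 1 / g V := by
    intro W hW
    rw [hr, ← SE_inv W ρ (hSP W hW)]
    have h1 : S.filter (fun V => V ⊆ W) = W.powerset := by
      ext V
      rw [Finset.mem_filter, Finset.mem_powerset]
      exact ⟨fun h => h.2, fun h => ⟨hd W hW V h, h⟩⟩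
    rw [h1]
    exact Finset.sum_congr rfl fun V _ => by rw [hg]
  -- the bound
  have hbd : ∀ T ∈ S, M T ≤ r T * G := by
    intro T hT
    have h1 : M T * (1 / r T) ≤ G := by
      have h2 : M T * (1 / r T) = ∑ x ∈ (S.filter (fun V => T ⊆ V)) ×ˢ T.powerset,
          g (x.1 \ x.2) := by
        rw [Finset.sum_product, hM, Finset.sum_mul]
        refine Finset.sum_congr rfl fun V hV => ?_
        rw [Finset.mem_filter] at hV
        rw [hr, ← SE_inv T ρ (hSP T hT), Finset.mul_sum]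
        refine Finset.sum_congr rfl fun U hU => ?_
        rw [Finset.mem_powerset] at hU
        have hUV : U ⊆ V := hU.trans hV.2
        have h3 : g (V \ U) * g U = g V := by
          rw [hg, hg, hg]
          exact Finset.prod_sdiff hUV
        have h4 : 0 < g U := hgpos U (hd T hT U hU)
        rw [← hg, ← h3]
        field_simp
      rw [h2, hG]
      have hinj : Set.InjOn (fun x : Finset ℕ × Finset ℕ => x.1 \ x.2)
          ((S.filter (fun V => T ⊆ V)) ×ˢ T.powerset : Finset (Finset ℕ × Finset ℕ)) := by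
        rintro ⟨V, U⟩ hx ⟨V', U'⟩ hx' hxx
        rw [Finset.mem_coe, Finset.mem_product, Finset.mem_filter, Finset.mem_powerset] at hx hx'
        simp only at hx hx' hxx
        have hmem : ∀ a, (a ∈ V ∧ a ∉ U) ↔ (a ∈ V' ∧ a ∉ U') := by
          intro a
          rw [← Finset.mem_sdiff, ← Finset.mem_sdiff, hxx]
        refine Prod.ext ?_ ?_
        · ext a
          have h5 := hmem a
          by_cases ha : a ∈ T
          · exact ⟨fun _ => hx'.1.2 ha, fun _ => hx.1.2 ha⟩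
          · have h6 : a ∉ U := fun h => ha (hx.2 h)
            have h7 : a ∉ U' := fun h => ha (hx'.2 h)
            simp only
            tauto
        · ext a
          have h5 := hmem a
          simp only
          by_cases ha : a ∈ T
          · have h6 := hx.1.2 ha
            have h7 := hx'.1.2 ha
            tauto
          · have h6 : a ∉ U := fun h => ha (hx.2 h)
            have h7 : a ∉ U' := fun h => ha (hx'.2 h)
            tauto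
      rw [← Finset.sum_image (f := g) hinj]
      refine Finset.sum_le_sum_of_subset_of_nonneg ?_ fun V hV _ => (hgpos V hV).le
      intro W hW
      obtain ⟨⟨V, U⟩, hx, rfl⟩ := Finset.mem_image.1 hW
      rw [Finset.mem_product, Finset.mem_filter] at hx
      exact hd V hx.1.1 _ Finset.sdiff_subset
    have h3 := hrpos T hT
    have h4 := mul_le_mul_of_nonneg_left h1 h3.le
    have h5 : r T * (M T * (1 / r T)) = M T := by
      field_simp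
    rwa [h5] at h4
  obtain ⟨lam, hlam⟩ : ∃ lam : Finset ℕ → ℝ, ∀ T, lam T = (-1 : ℝ) ^ T.card * (M T / (r T * G)) :=
    ⟨_, fun _ => rfl⟩
  -- the inversion
  have hB : ∀ V ∈ S, ∑ T ∈ S.filter (fun T => V ⊆ T), lam T * r T = (-1 : ℝ) ^ V.card * (g V / G) := by
    intro V hV
    have h1 : ∑ T ∈ S.filter (fun T => V ⊆ T), lam T * r T =
        ∑ T ∈ S.filter (fun T => V ⊆ T), ∑ W ∈ S.filter (fun W => T ⊆ W),
          (-1 : ℝ) ^ T.card * (g W / G) := by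
      refine Finset.sum_congr rfl fun T hT => ?_
      have h2 := hrpos T (Finset.mem_filter.1 hT).1
      rw [← Finset.mul_sum, ← Finset.sum_div, ← hM, hlam]
      field_simp
    rw [h1]
    have h2 : ∑ T ∈ S.filter (fun T => V ⊆ T), ∑ W ∈ S.filter (fun W => T ⊆ W),
          (-1 : ℝ) ^ T.card * (g W / G) =
        ∑ W ∈ S, ∑ T ∈ W.powerset.filter (fun T => V ⊆ T), (-1 : ℝ) ^ T.card * (g W / G) := by
      refine Finset.sum_comm' ?_
      intro T W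
      rw [Finset.mem_filter, Finset.mem_filter, Finset.mem_filter, Finset.mem_powerset]
      constructor
      · rintro ⟨⟨h3, h4⟩, h5, h6⟩
        exact ⟨⟨h6, h4⟩, h5⟩
      · rintro ⟨⟨h3, h4⟩, h5⟩
        exact ⟨⟨hd W h5 T h3, h4⟩, h5, h3⟩
    rw [h2]
    have h3 : ∀ W ∈ S, ∑ T ∈ W.powerset.filter (fun T => V ⊆ T), (-1 : ℝ) ^ T.card * (g W / G) =
        if W = V then (-1 : ℝ) ^ V.card * (g V / G) else 0 := by
      intro W _
      rw [← Finset.sum_mul, SE_alt]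
      by_cases h : W = V
      · rw [if_pos h, if_pos ⟨h.le, h.ge⟩, h]
      · rw [if_neg h, if_neg fun h' => h (Finset.Subset.antisymm h'.1 h'.2), zero_mul]
    rw [Finset.sum_congr rfl h3, Finset.sum_ite_eq' S V, if_pos hV]
  refine ⟨lam, ?_, ?_, ?_⟩
  · have h1 : M ∅ = G := by
      rw [hM, hG, Finset.filter_true_of_mem fun V _ => Finset.empty_subset V]
    rw [hlam, h1, hr, Finset.card_empty, Finset.prod_empty]
    field_simp
  · intro T hT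
    have h1 := hrpos T hT
    rw [hlam, abs_mul, abs_pow, abs_neg, abs_one, one_pow, one_mul,
      abs_of_nonneg (div_nonneg (hM0 T) (mul_pos h1 hGpos).le), div_le_one (mul_pos h1 hGpos)]
    exact hbd T hT
  · have h1 : ∀ T₁ ∈ S, ∀ T₂ ∈ S, lam T₁ * lam T₂ * ∏ p ∈ T₁ ∪ T₂, ρ p =
        ∑ V ∈ S, (1 / g V) * ((if V ⊆ T₁ then lam T₁ * r T₁ else 0) *
          (if V ⊆ T₂ then lam T₂ * r T₂ else 0)) := by
      intro T₁ hT₁ T₂ hT₂
      have hI : T₁ ∩ T₂ ∈ S := hd T₁ hT₁ _ Finset.inter_subset_left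
      have h2 : (∏ p ∈ T₁ ∪ T₂, ρ p) * r (T₁ ∩ T₂) = r T₁ * r T₂ := by
        rw [hr, hr, hr]
        exact Finset.prod_union_inter
      have h3 := hrpos _ hI
      have h4 : (∏ p ∈ T₁ ∪ T₂, ρ p) = r T₁ * r T₂ * (1 / r (T₁ ∩ T₂)) := by
        rw [← h2]
        field_simp
      rw [h4, hinv _ hI, Finset.sum_filter, Finset.mul_sum, Finset.mul_sum]
      refine Finset.sum_congr rfl fun V _ => ?_
      by_cases h5 : V ⊆ T₁
      · by_cases h6 : V ⊆ T₂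
        · rw [if_pos (Finset.subset_inter h5 h6), if_pos h5, if_pos h6]
          ring
        · rw [if_neg fun h => h6 (h.trans Finset.inter_subset_right), if_neg h6]
          ring
      · rw [if_neg fun h => h5 (h.trans Finset.inter_subset_left), if_neg h5]
        ring
    rw [Finset.sum_congr rfl fun T₁ hT₁ => Finset.sum_congr rfl fun T₂ hT₂ => h1 T₁ hT₁ T₂ hT₂]
    have h2 : ∑ T₁ ∈ S, ∑ T₂ ∈ S, ∑ V ∈ S, (1 / g V) * ((if V ⊆ T₁ then lam T₁ * r T₁ else 0) *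
          (if V ⊆ T₂ then lam T₂ * r T₂ else 0)) =
        ∑ V ∈ S, (1 / g V) * ((∑ T ∈ S.filter (fun T => V ⊆ T), lam T * r T) *
          (∑ T ∈ S.filter (fun T => V ⊆ T), lam T * r T)) := by
      rw [Finset.sum_congr rfl fun T₁ _ => Finset.sum_comm, Finset.sum_comm]
      refine Finset.sum_congr rfl fun V _ => ?_
      rw [Finset.sum_filter, Finset.sum_mul_sum, Finset.mul_sum]
      refine Finset.sum_congr rfl fun T₁ _ => ?_
      rw [Finset.mul_sum]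
    rw [h2]
    have h3 : ∀ V ∈ S, (1 / g V) * ((∑ T ∈ S.filter (fun T => V ⊆ T), lam T * r T) *
          (∑ T ∈ S.filter (fun T => V ⊆ T), lam T * r T)) = g V / G ^ 2 := by
      intro V hV
      have h4 := hgpos V hV
      rw [hB V hV]
      have h5 : ((-1 : ℝ) ^ V.card) * (-1 : ℝ) ^ V.card = 1 := by
        rw [← mul_pow]
        norm_num
      calc 1 / g V * ((-1 : ℝ) ^ V.card * (g V / G) * ((-1 : ℝ) ^ V.card * (g V / G)))
          = ((-1 : ℝ) ^ V.card * (-1 : ℝ) ^ V.card) * (1 / g V * (g V / G) * (g V / G)) := by ring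
        _ = g V / G ^ 2 := by
            rw [h5]
            field_simp
    rw [Finset.sum_congr rfl h3, ← Finset.sum_div, ← hG]
    have h4 : ∑ T ∈ S, ∏ p ∈ T, ρ p / (1 - ρ p) = G := by
      rw [hG]
      exact Finset.sum_congr rfl fun T _ => (hg T).symm
    rw [h4]
    field_simp

theorem SE_prod_inj (P : Finset ℕ) (hP : ∀ p ∈ P, p.Prime) (S : Finset (Finset ℕ))
    (hS : S ⊆ P.powerset) : Set.InjOn (fun T : Finset ℕ => ∏ l ∈ T, l) (S : Set (Finset ℕ)) := by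
  intro T hT T' hT' hTT'
  have h1 := Nat.primeFactors_prod (fun p hp => hP p (Finset.mem_powerset.1 (hS hT) hp))
  have h2 := Nat.primeFactors_prod (fun p hp => hP p (Finset.mem_powerset.1 (hS hT') hp))
  rw [← h1, ← h2]
  exact congrArg Nat.primeFactors hTT'

theorem SEL {α : Type} (A : Finset α) (F : α → ℤ) (P : Finset ℕ) (hP : ∀ p ∈ P, p.Prime)
    (ρ : ℕ → ℝ) (hρ : ∀ p ∈ P, 0 < ρ p ∧ ρ p < 1) (X E : ℝ) (hX : 0 ≤ X) (hE : 0 ≤ E) (D : ℕ)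
    (hD : 1 ≤ D)
    (h : ∀ T ⊆ P, ∏ p ∈ T, p ≤ D ^ 2 →
      |((A.filter (fun a => ∀ p ∈ T, (p : ℤ) ∣ F a)).card : ℝ) - X * ∏ p ∈ T, ρ p| ≤ E) :
    ((A.filter (fun a => ∀ p ∈ P, ¬ (p : ℤ) ∣ F a)).card : ℝ)
      ≤ X / (∑ T ∈ P.powerset.filter (fun T => ∏ p ∈ T, p ≤ D), ∏ p ∈ T, ρ p / (1 - ρ p))
        + (D : ℝ) ^ 2 * E := by
  classical
  obtain ⟨S, hSdef⟩ : ∃ S, S = P.powerset.filter (fun T => ∏ p ∈ T, p ≤ D) := ⟨_, rfl⟩
  have hmem : ∀ T, T ∈ S ↔ T ⊆ P ∧ ∏ p ∈ T, p ≤ D := by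
    intro T
    rw [hSdef, Finset.mem_filter, Finset.mem_powerset]
  have hS : S ⊆ P.powerset := by
    rw [hSdef]
    exact Finset.filter_subset _ _
  have h0 : ∅ ∈ S := by
    rw [hmem, Finset.prod_empty]
    exact ⟨Finset.empty_subset _, hD⟩
  have hpos : ∀ T ⊆ P, 0 < ∏ p ∈ T, p := fun T hT => Finset.prod_pos fun p hp => (hP p (hT hp)).pos
  have hd : ∀ T ∈ S, ∀ T' ⊆ T, T' ∈ S := by
    intro T hT T' hT'
    rw [hmem] at hT ⊢
    refine ⟨hT'.trans hT.1, le_trans ?_ hT.2⟩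
    exact Finset.prod_le_prod_of_subset_of_one_le' hT' fun p hp _ => (hP p (hT.1 hp)).one_lt.le
  obtain ⟨lam, hl0, hl1, hlG⟩ := SE_weights P S hS h0 hd ρ hρ
  rw [← hSdef]
  -- the indicator of divisibility
  obtain ⟨c, hc⟩ : ∃ c : α → Finset ℕ → ℝ, ∀ a T, c a T = if ∀ p ∈ T, (p : ℤ) ∣ F a then 1 else 0 :=
    ⟨_, fun _ _ => rfl⟩
  have hcc : ∀ a T₁ T₂, c a T₁ * c a T₂ = c a (T₁ ∪ T₂) := by
    intro a T₁ T₂
    rw [hc, hc, hc]
    by_cases h1 : ∀ p ∈ T₁, (p : ℤ) ∣ F a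
    · by_cases h2 : ∀ p ∈ T₂, (p : ℤ) ∣ F a
      · rw [if_pos h1, if_pos h2, if_pos, one_mul]
        intro p hp
        rcases Finset.mem_union.1 hp with h3 | h3
        · exact h1 p h3
        · exact h2 p h3
      · rw [if_neg h2, mul_zero, if_neg]
        exact fun h3 => h2 fun p hp => h3 p (Finset.mem_union_right _ hp)
    · rw [if_neg h1, zero_mul, if_neg]
      exact fun h3 => h1 fun p hp => h3 p (Finset.mem_union_left _ hp)
  have hcard : ∀ T, ∑ a ∈ A, c a T = ((A.filter (fun a => ∀ p ∈ T, (p : ℤ) ∣ F a)).card : ℝ) := by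
    intro T
    rw [Finset.card_filter, Nat.cast_sum]
    refine Finset.sum_congr rfl fun a _ => ?_
    rw [hc]
    split_ifs <;> simp
  have step1 : ((A.filter (fun a => ∀ p ∈ P, ¬ (p : ℤ) ∣ F a)).card : ℝ) ≤
      ∑ a ∈ A, (∑ T ∈ S, lam T * c a T) ^ 2 := by
    rw [Finset.card_filter, Nat.cast_sum]
    refine Finset.sum_le_sum fun a _ => ?_
    by_cases h1 : ∀ p ∈ P, ¬ (p : ℤ) ∣ F a
    · rw [if_pos h1]
      have h2 : ∑ T ∈ S, lam T * c a T = 1 := by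
        rw [Finset.sum_eq_single_of_mem ∅ h0]
        · rw [hl0, hc, if_pos, mul_one]
          intro p hp
          exact absurd hp (Finset.notMem_empty p)
        · intro T hT hT0
          obtain ⟨p, hp⟩ := Finset.nonempty_iff_ne_empty.2 hT0
          rw [hc, if_neg, mul_zero]
          intro h3
          exact h1 p (((hmem T).1 hT).1 hp) (h3 p hp)
      rw [h2]
      norm_num
    · rw [if_neg h1]
      push_cast
      positivity
  have step2 : ∑ a ∈ A, (∑ T ∈ S, lam T * c a T) ^ 2 = ∑ T₁ ∈ S, ∑ T₂ ∈ S,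
      lam T₁ * lam T₂ * ((A.filter (fun a => ∀ p ∈ T₁ ∪ T₂, (p : ℤ) ∣ F a)).card : ℝ) := by
    have h1 : ∀ a ∈ A, (∑ T ∈ S, lam T * c a T) ^ 2 =
        ∑ T₁ ∈ S, ∑ T₂ ∈ S, lam T₁ * lam T₂ * c a (T₁ ∪ T₂) := by
      intro a _
      rw [sq, Finset.sum_mul_sum]
      refine Finset.sum_congr rfl fun T₁ _ => Finset.sum_congr rfl fun T₂ _ => ?_
      rw [← hcc]
      ring
    rw [Finset.sum_congr rfl h1, Finset.sum_comm]
    refine Finset.sum_congr rfl fun T₁ _ => ?_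
    rw [Finset.sum_comm]
    refine Finset.sum_congr rfl fun T₂ _ => ?_
    rw [← Finset.mul_sum, hcard]
  have step3 : ∀ T₁ ∈ S, ∀ T₂ ∈ S,
      lam T₁ * lam T₂ * ((A.filter (fun a => ∀ p ∈ T₁ ∪ T₂, (p : ℤ) ∣ F a)).card : ℝ) ≤
        X * (lam T₁ * lam T₂ * ∏ p ∈ T₁ ∪ T₂, ρ p) + E := by
    intro T₁ hT₁ T₂ hT₂
    obtain ⟨h1, h2⟩ := (hmem T₁).1 hT₁
    obtain ⟨h3, h4⟩ := (hmem T₂).1 hT₂
    have h5 : ∏ p ∈ T₁ ∪ T₂, p ≤ D ^ 2 := by
      have h6 : (∏ p ∈ T₁ ∪ T₂, p) * ∏ p ∈ T₁ ∩ T₂, p = (∏ p ∈ T₁, p) * ∏ p ∈ T₂, p :=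
        Finset.prod_union_inter
      have h7 : 0 < ∏ p ∈ T₁ ∩ T₂, p := hpos _ (Finset.inter_subset_left.trans h1)
      calc ∏ p ∈ T₁ ∪ T₂, p ≤ (∏ p ∈ T₁ ∪ T₂, p) * ∏ p ∈ T₁ ∩ T₂, p := Nat.le_mul_of_pos_right _ h7
        _ = (∏ p ∈ T₁, p) * ∏ p ∈ T₂, p := h6
        _ ≤ D * D := Nat.mul_le_mul h2 h4
        _ = D ^ 2 := by ring
    have h6 := h (T₁ ∪ T₂) (Finset.union_subset h1 h3) h5
    have h7 : |lam T₁ * lam T₂| ≤ 1 := by
      rw [abs_mul]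
      exact mul_le_one₀ (hl1 T₁ hT₁) (abs_nonneg _) (hl1 T₂ hT₂)
    have h8 : lam T₁ * lam T₂ * (((A.filter (fun a => ∀ p ∈ T₁ ∪ T₂, (p : ℤ) ∣ F a)).card : ℝ)
        - X * ∏ p ∈ T₁ ∪ T₂, ρ p) ≤ E := by
      refine (le_abs_self _).trans ?_
      rw [abs_mul]
      calc |lam T₁ * lam T₂| * |((A.filter (fun a => ∀ p ∈ T₁ ∪ T₂, (p : ℤ) ∣ F a)).card : ℝ)
            - X * ∏ p ∈ T₁ ∪ T₂, ρ p| ≤ 1 * E :=
            mul_le_mul h7 h6 (abs_nonneg _) (by norm_num)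
        _ = E := one_mul E
    linarith
  have step4 : (S.card : ℝ) ≤ D := by
    have h1 : S.card ≤ (Finset.Icc 1 D).card := by
      refine Finset.card_le_card_of_injOn (fun T : Finset ℕ => ∏ l ∈ T, l) ?_
        (SE_prod_inj P hP S hS)
      intro T hT
      obtain ⟨h2, h3⟩ := (hmem T).1 hT
      exact Finset.mem_coe.2 (Finset.mem_Icc.2 ⟨hpos T h2, h3⟩)
    rw [Nat.card_Icc, Nat.add_sub_cancel] at h1
    exact_mod_cast h1
  calc ((A.filter (fun a => ∀ p ∈ P, ¬ (p : ℤ) ∣ F a)).card : ℝ)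
      ≤ ∑ T₁ ∈ S, ∑ T₂ ∈ S, lam T₁ * lam T₂ *
          ((A.filter (fun a => ∀ p ∈ T₁ ∪ T₂, (p : ℤ) ∣ F a)).card : ℝ) := step1.trans step2.le
    _ ≤ ∑ T₁ ∈ S, ∑ T₂ ∈ S, (X * (lam T₁ * lam T₂ * ∏ p ∈ T₁ ∪ T₂, ρ p) + E) :=
        Finset.sum_le_sum fun T₁ hT₁ => Finset.sum_le_sum fun T₂ hT₂ => step3 T₁ hT₁ T₂ hT₂
    _ = X * ∑ T₁ ∈ S, ∑ T₂ ∈ S, lam T₁ * lam T₂ * ∏ p ∈ T₁ ∪ T₂, ρ p +
          (S.card : ℝ) * ((S.card : ℝ) * E) := by
        simp only [Finset.sum_add_distrib, Finset.sum_const, nsmul_eq_mul, Finset.mul_sum]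
    _ ≤ X / (∑ T ∈ S, ∏ p ∈ T, ρ p / (1 - ρ p)) + (D : ℝ) ^ 2 * E := by
        rw [hlG, mul_one_div]
        have h1 : (0 : ℝ) ≤ S.card := Nat.cast_nonneg _
        have h2 : (S.card : ℝ) * ((S.card : ℝ) * E) ≤ D * (D * E) := by
          refine mul_le_mul step4 (mul_le_mul_of_nonneg_right step4 hE) (mul_nonneg h1 hE)
            (Nat.cast_nonneg _)
        have h3 : (D : ℝ) * (D * E) = (D : ℝ) ^ 2 * E := by ring
        linarith

theorem SEL2 (κ : ℕ) : ∃ s : ℕ, 0 < s ∧ ∀ (A : Finset (ℤ × ℤ × ℤ)) (F : ℤ × ℤ × ℤ → ℤ) (z : ℕ)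
    (P : Finset ℕ) (ρ : ℕ → ℝ) (X E : ℝ), 2 ≤ z → P ⊆ pr 2 (z + 1) →
    (∀ p ∈ P, 0 < ρ p ∧ ρ p < 1 ∧ ρ p * p ≤ κ) → 0 ≤ X → 0 ≤ E →
    (∀ T ⊆ P, ∏ p ∈ T, p ≤ z ^ s →
      |((A.filter (fun a => ∀ p ∈ T, (p : ℤ) ∣ F a)).card : ℝ) - X * ∏ p ∈ T, ρ p| ≤ E) →
    ((A.filter (fun a => ∀ p ∈ P, ¬ (p : ℤ) ∣ F a)).card : ℝ)
      ≤ 2 * X * Real.exp (-∑ p ∈ P, ρ p) + (z : ℝ) ^ s * E := by
  classical
  obtain ⟨s₁, hs₁, hrk⟩ := rankin κ
  refine ⟨2 * s₁, by omega, ?_⟩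
  intro A F z P ρ X E hz hPz hρ hX hE h
  have hPp : ∀ p ∈ P, p.Prime := fun p hp => (mem_pr.1 (hPz hp)).2
  have hD : 1 ≤ z ^ s₁ := Nat.one_le_pow _ _ (by omega)
  have h1 := SEL A F P hPp ρ (fun p hp => ⟨(hρ p hp).1, (hρ p hp).2.1⟩) X E hX hE (z ^ s₁) hD
    (by
      intro T hT hTD
      refine h T hT ?_
      rw [← pow_mul, Nat.mul_comm s₁ 2] at hTD
      exact hTD)
  refine h1.trans ?_
  have hpw : (((z ^ s₁ : ℕ) : ℝ)) ^ 2 = (z : ℝ) ^ (2 * s₁) := by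
    push_cast
    rw [← pow_mul, Nat.mul_comm s₁ 2]
  rw [hpw]
  -- the lower bound for G
  obtain ⟨hh, hhdef⟩ : ∃ hh : ℕ → ℝ, ∀ l, hh l = if l ∈ P then ρ l / (1 - ρ l) else 0 :=
    ⟨_, fun _ => rfl⟩
  have hhp : ∀ l ∈ P, hh l = ρ l / (1 - ρ l) := fun l hl => by rw [hhdef, if_pos hl]
  have hhn : ∀ l, l ∉ P → hh l = 0 := fun l hl => by rw [hhdef, if_neg hl]
  have hh0 : ∀ l, 0 ≤ hh l := by
    intro l
    by_cases hl : l ∈ P
    · rw [hhp l hl]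
      obtain ⟨h2, h3, _⟩ := hρ l hl
      exact div_nonneg h2.le (by linarith)
    · rw [hhn l hl]
  have h2 := hrk z hz hh (by
    intro l _
    refine ⟨hh0 l, ?_⟩
    by_cases hl : l ∈ P
    · obtain ⟨h3, h4, h5⟩ := hρ l hl
      have h6 : (0 : ℝ) < 1 - ρ l := by linarith
      rw [hhp l hl]
      have h7 : 1 + ρ l / (1 - ρ l) = 1 / (1 - ρ l) := by
        field_simp
        ring
      rw [h7, div_mul_eq_mul_div, mul_one_div]
      exact div_le_div_of_nonneg_right h5 h6.le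
    · rw [hhn l hl, zero_mul]
      positivity)
  obtain ⟨G, hG⟩ : ∃ G, G = ∑ T ∈ P.powerset.filter (fun T => ∏ p ∈ T, p ≤ z ^ s₁),
      ∏ p ∈ T, ρ p / (1 - ρ p) := ⟨_, rfl⟩
  rw [← hG]
  have h3 : Real.exp (∑ p ∈ P, ρ p) ≤ ∏ l ∈ pr 2 (z + 1), (1 + hh l) := by
    have h4 : ∏ l ∈ P, (1 + hh l) = ∏ l ∈ pr 2 (z + 1), (1 + hh l) := by
      refine Finset.prod_subset hPz fun l _ hl => ?_
      rw [hhn l hl, add_zero]
    rw [← h4, Real.exp_sum]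
    refine Finset.prod_le_prod (fun l _ => (Real.exp_pos _).le) fun l hl => ?_
    obtain ⟨h5, h6, _⟩ := hρ l hl
    have h7 : (0 : ℝ) < 1 - ρ l := by linarith
    rw [hhp l hl]
    have h8 : 1 + ρ l / (1 - ρ l) = 1 / (1 - ρ l) := by
      field_simp
      ring
    rw [h8, le_div_iff₀ h7]
    have h9 := Real.add_one_le_exp (-ρ l)
    have h10 : Real.exp (ρ l) * Real.exp (-ρ l) = 1 := by
      rw [← Real.exp_add, add_neg_cancel, Real.exp_zero]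
    rw [← h10]
    exact mul_le_mul_of_nonneg_left (by linarith) (Real.exp_pos _).le
  have h4 : ∑ d ∈ (Icc 1 (z ^ s₁)).filter Squarefree, ∏ l ∈ d.primeFactors, hh l ≤ G := by
    have h5 : ∑ d ∈ (Icc 1 (z ^ s₁)).filter Squarefree, ∏ l ∈ d.primeFactors, hh l =
        ∑ d ∈ ((Icc 1 (z ^ s₁)).filter Squarefree).filter (fun d => d.primeFactors ⊆ P),
          ∏ l ∈ d.primeFactors, hh l := by
      symm
      refine Finset.sum_subset (Finset.filter_subset _ _) ?_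
      intro d hd hd'
      have h6 : ¬ d.primeFactors ⊆ P := fun h7 => hd' (Finset.mem_filter.2 ⟨hd, h7⟩)
      obtain ⟨p, hp1, hp2⟩ := Finset.not_subset.1 h6
      exact Finset.prod_eq_zero hp1 (hhn p hp2)
    rw [h5, hG]
    have h6 : ∀ T ∈ P.powerset.filter (fun T => ∏ p ∈ T, p ≤ z ^ s₁),
        ∏ p ∈ T, ρ p / (1 - ρ p) = ∏ p ∈ T, hh p := by
      intro T hT
      refine Finset.prod_congr rfl fun p hp => ?_
      rw [hhp p (Finset.mem_powerset.1 (Finset.mem_filter.1 hT).1 hp)]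
    rw [Finset.sum_congr rfl h6]
    have hinj : Set.InjOn Nat.primeFactors
        ((((Icc 1 (z ^ s₁)).filter Squarefree).filter (fun d => d.primeFactors ⊆ P) : Finset ℕ) :
          Set ℕ) := by
      intro a ha b hb hab
      have ha' := (Finset.mem_filter.1 (Finset.mem_filter.1 (Finset.mem_coe.1 ha)).1).2
      have hb' := (Finset.mem_filter.1 (Finset.mem_filter.1 (Finset.mem_coe.1 hb)).1).2
      rw [← Nat.prod_primeFactors_of_squarefree ha', ← Nat.prod_primeFactors_of_squarefree hb', hab]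
    rw [← Finset.sum_image (f := fun T => ∏ p ∈ T, hh p) hinj]
    refine Finset.sum_le_sum_of_subset_of_nonneg ?_ fun T _ _ => Finset.prod_nonneg fun p _ => hh0 p
    intro T hT
    obtain ⟨d, hd, rfl⟩ := Finset.mem_image.1 hT
    obtain ⟨hd1, hd2⟩ := Finset.mem_filter.1 hd
    obtain ⟨hd3, hd4⟩ := Finset.mem_filter.1 hd1
    rw [Finset.mem_filter, Finset.mem_powerset, Nat.prod_primeFactors_of_squarefree hd4]
    exact ⟨hd2, (Finset.mem_Icc.1 hd3).2⟩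
  have h5 : (1 / 2) * Real.exp (∑ p ∈ P, ρ p) ≤ G := by
    have h6 := mul_le_mul_of_nonneg_left h3 (by norm_num : (0 : ℝ) ≤ 1 / 2)
    linarith
  have h6 : 0 < (1 / 2) * Real.exp (∑ p ∈ P, ρ p) := by positivity
  have h7 : X / G ≤ 2 * X * Real.exp (-∑ p ∈ P, ρ p) := by
    refine (div_le_div_of_nonneg_left hX h6 h5).trans (le_of_eq ?_)
    rw [Real.exp_neg]
    field_simp
  linarith

end Pool.Agent.H37.PPE
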