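import Pool.Agent.H37.PPE.CR
import Pool.Agent.H37.PPE.SE
import Pool.Agent.H37.PPE.LB
import Pool.Agent.H37.PPE.RD
import Pool.Agent.H37.PPE.DS

/-!
PPE IA: integers n ≤ x such that n²+n+1 = u w, U < u ≤ 2U, has no prime factor p ≡ 1 mod 3 with 5 ≤ p ≤ z.

R = Nat.sqrt (U/3), L = (x+1)/U + 1, A = box R L.  RD1 gives for every n ∈ S some (r,s,t,q), and (r,s,t) ∈ box R L:
 U/3 < u/3 < r² (so R < r), r² ≤ 4u/3 ≤ 8U/3 < (8R)² for U large, -r ≤ 2s < 2r, |t| ≤ (n+1) r/u < L r, r ∣ 1+st, qq (r,s,t) = q.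
 n = rt+st+sq is determined by (r,s,t): |S| ≤ #{x ∈ box : p ∤ F1 x ∀ p ∈ P}, P = (pr 5 (z+1)).filter (p % 3 = 1); F1(r,s,t,q) = u w.
SEL2 4 with ρ = rho, X = #box, E = C L z^{6s} R^{2-1/40}: hypothesis from `eqd` with Q = T, S p = (p ∣ F1) (Per_F1), dn_F1; ∏T ≤ z^s.
 Main term: 2 · 300 L R² exp(-∑ρ) ≤ C x exp(-2 ll z) (rho_sum3; L R² ≤ (x/U + 3) U/3 ≤ C x as U ≤ x).
 Error: z^s C L z^{6s} R^{2-1/40} ≤ C L R² z^{7s} R^{-1/40}; R ≥ z^{40(7s+3)} when T0 = 80 (7s+4)+10 say, so it is ≤ C x z^{-3} ≤ C x exp(-2 ll z)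
 (exp(2 ll z) = (log z)² ≤ z²).
-/

set_option autoImplicit false

namespace Pool.Agent.H37.PPE

open Finset Pool.Agent.H37.PPC Pool.Agent.H37.PPD

private theorem IA_inj {r s t t' : ℤ} (hr : 0 < r) (h1 : r ∣ 1 + s * t) (h2 : r ∣ 1 + s * t')
    (h3 : t / r = t' / r) : t = t' := by
  have h4 : r ∣ s * (t - t') := by
    have h5 : s * (t - t') = (1 + s * t) - (1 + s * t') := by ring
    rw [h5]
    exact dvd_sub h1 h2
  have hcop : IsCoprime r s := by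
    obtain ⟨k, hk⟩ := h1
    exact ⟨k, -t, by linarith [hk, mul_comm r k, mul_comm s t]⟩
  have h6 : r ∣ t - t' := hcop.dvd_of_dvd_mul_left h4
  have h7 : t % r = t' % r :=
    Int.emod_eq_emod_iff_emod_sub_eq_zero.2 (Int.emod_eq_zero_of_dvd h6)
  rw [← Int.mul_ediv_add_emod t r, ← Int.mul_ediv_add_emod t' r, h3, h7]

private theorem IA_box_card (R L : ℕ) : ((box R L).card : ℝ) ≤ 224 * (L * (R : ℝ) ^ 2) := by
  have h : (box R L).card ≤ (Ico (R : ℤ) (8 * R) ×ˢ (Ico (-(8 * R : ℤ)) (8 * R) ×ˢ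
      Ico (-(L : ℤ)) L)).card := by
    apply Finset.card_le_card_of_injOn (fun x => (x.1, x.2.1, x.2.2 / x.1))
    · rintro ⟨r, s, t⟩ hx
      simp only [box, Finset.coe_filter, Set.mem_ofPred_eq, mem_product, mem_Ico] at hx
      obtain ⟨⟨⟨h1, h2⟩, ⟨h3, h4⟩, h5, h6⟩, h7, h8, h9, h10, h11⟩ := hx
      have hr : 0 < r := by omega
      simp only [Finset.coe_product, Set.mem_prod, Finset.coe_Ico, Set.mem_Ico]
      refine ⟨⟨h1, h2⟩, ⟨h3, h4⟩, ?_, ?_⟩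
      · rw [Int.le_ediv_iff_mul_le hr]
        linarith
      · exact Int.ediv_lt_of_lt_mul hr h10
    · rintro ⟨r, s, t⟩ hx ⟨r', s', t'⟩ hx' heq
      simp only [box, Finset.coe_filter, Set.mem_ofPred_eq, mem_product, mem_Ico] at hx hx'
      obtain ⟨⟨⟨h1, h2⟩, ⟨h3, h4⟩, h5, h6⟩, h7, h8, h9, h10, h11⟩ := hx
      obtain ⟨⟨⟨h1', h2'⟩, ⟨h3', h4'⟩, h5', h6'⟩, h7', h8', h9', h10', h11'⟩ := hx'
      simp only [Prod.mk.injEq] at heq
      obtain ⟨e1, e2, e3⟩ := heq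
      subst e1 e2
      rw [IA_inj (by omega) h11 h11' e3]
  have h2 : (Ico (R : ℤ) (8 * R) ×ˢ (Ico (-(8 * R : ℤ)) (8 * R) ×ˢ Ico (-(L : ℤ)) L)).card =
      (7 * R) * ((16 * R) * (2 * L)) := by
    rw [card_product, card_product, Int.card_Ico, Int.card_Ico, Int.card_Ico]
    have e1 : (8 * (R : ℤ) - R).toNat = 7 * R := by omega
    have e2 : (8 * (R : ℤ) - -(8 * R)).toNat = 16 * R := by omega
    have e3 : ((L : ℤ) - -L).toNat = 2 * L := by omega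
    rw [e1, e2, e3]
  rw [h2] at h
  have h3 : ((box R L).card : ℝ) ≤ (((7 * R) * ((16 * R) * (2 * L)) : ℕ) : ℝ) := by exact_mod_cast h
  refine h3.trans (le_of_eq ?_)
  push_cast
  ring

private theorem IA_card_eq {α : Type} (A : Finset α) (p : α → Prop) (i1 i2 : DecidablePred p) :
    (@Finset.filter α p i1 A).card = (@Finset.filter α p i2 A).card := by
  have h : i1 = i2 := Subsingleton.elim _ _
  rw [h]

private theorem IA_per (p : ℕ) : Per p (fun r s t q => (p : ℤ) ∣ F1 r s t q) := by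
  intro r s t q r' s' t' q' h1 h2 h3 h4
  have m1 : r ≡ r' [ZMOD p] := (Int.modEq_iff_dvd.2 (by rw [← neg_sub]; exact (dvd_neg.2 h1)))
  have m2 : s ≡ s' [ZMOD p] := (Int.modEq_iff_dvd.2 (by rw [← neg_sub]; exact (dvd_neg.2 h2)))
  have m3 : t ≡ t' [ZMOD p] := (Int.modEq_iff_dvd.2 (by rw [← neg_sub]; exact (dvd_neg.2 h3)))
  have m4 : q ≡ q' [ZMOD p] := (Int.modEq_iff_dvd.2 (by rw [← neg_sub]; exact (dvd_neg.2 h4)))
  have m5 : F1 r s t q ≡ F1 r' s' t' q' [ZMOD p] := by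
    unfold F1
    exact (((m1.pow 2).add (m1.mul m2)).add (m2.pow 2)).mul
      (((m3.pow 2).add (m3.mul m4)).add (m4.pow 2))
  show (p : ℤ) ∣ F1 r s t q ↔ (p : ℤ) ∣ F1 r' s' t' q'
  rw [← Int.modEq_zero_iff_dvd, ← Int.modEq_zero_iff_dvd]
  exact ⟨fun h => m5.symm.trans h, fun h => m5.trans h⟩

private theorem IA_point {x U n u w R L : ℕ} (hR1 : 1 ≤ R) (hR2 : 3 * (R * R) ≤ U)
    (hR3 : U < 3 * ((R + 1) * (R + 1))) (hL : x + 1 < L * U) (hn : n ≤ x)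
    (huw : u * w = n ^ 2 + n + 1) (hU : U < u) (hU2 : u ≤ 2 * U) :
    ∃ y ∈ box R L, (y.1 * y.2.2 + y.2.1 * y.2.2 + y.2.1 * qq y).toNat = n ∧
      F1 y.1 y.2.1 y.2.2 (qq y) = ((u * w : ℕ) : ℤ) := by
  obtain ⟨r, s, t, q, hdet, hu, hnn, hw, hr, hs1, hs2, hr1, hr2, ht⟩ := RD1 u w n
    (by exact_mod_cast (by omega : 0 < u)) (by exact_mod_cast huw)
  have hUu : (U : ℤ) < u := by exact_mod_cast hU
  have hUu2 : (u : ℤ) ≤ 2 * U := by exact_mod_cast hU2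
  have hR2' : 3 * ((R : ℤ) * R) ≤ U := by exact_mod_cast hR2
  have hR3' : (U : ℤ) < 3 * (((R : ℤ) + 1) * (R + 1)) := by exact_mod_cast hR3
  have hR1' : (1 : ℤ) ≤ R := by exact_mod_cast hR1
  have hrR : (R : ℤ) < r := by
    by_contra hcon
    push Not at hcon
    nlinarith
  have hr8 : r < 8 * (R : ℤ) := by
    by_contra hcon
    push Not at hcon
    nlinarith
  have hL' : (x : ℤ) + 1 < L * U := by exact_mod_cast hL
  have hn' : (n : ℤ) ≤ x := by exact_mod_cast hn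
  have hn0 : (0 : ℤ) ≤ n := Int.natCast_nonneg n
  have hL0 : (0 : ℤ) ≤ L := Int.natCast_nonneg L
  have htL : |t| < L * r := by
    by_contra hcon
    push Not at hcon
    rw [abs_of_nonneg hn0] at ht
    have h1 : (L : ℤ) * r * u ≤ |t| * u := mul_le_mul_of_nonneg_right hcon (by omega)
    have h2 : (L * u : ℤ) * r ≤ (n + 1) * r := by
      calc (L * u : ℤ) * r = L * r * u := by ring
        _ ≤ |t| * u := h1
        _ ≤ _ := ht
    have h3 : (L * u : ℤ) ≤ n + 1 := le_of_mul_le_mul_right h2 hr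
    have h4 : (L * U : ℤ) ≤ L * u := mul_le_mul_of_nonneg_left hUu.le hL0
    linarith
  obtain ⟨ht1, ht2⟩ := abs_lt.1 htL
  have hLr : (L : ℤ) * r ≤ 8 * R * L := by nlinarith
  have hrq : r * q = 1 + s * t := by linarith
  have hqq : qq (r, s, t) = q := by
    show (1 + s * t) / r = q
    rw [← hrq, Int.mul_ediv_cancel_left _ hr.ne']
  refine ⟨(r, s, t), ?_, ?_, ?_⟩
  · simp only [box, mem_filter, mem_product, mem_Ico]
    refine ⟨⟨⟨hrR.le, hr8⟩, ⟨by omega, by omega⟩, ?_, ?_⟩, by omega, hs2, by linarith, ht2,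
      ⟨q, hrq.symm⟩⟩
    · linarith
    · linarith
  · rw [hqq]
    show (r * t + s * t + s * q).toNat = n
    rw [← hnn, Int.toNat_natCast]
  · rw [hqq]
    show (r ^ 2 + r * s + s ^ 2) * (t ^ 2 + t * q + q ^ 2) = _
    rw [← hu, ← hw]
    push_cast
    ring

private theorem IA_sieve (Ce : ℝ) (hCe : 0 < Ce)
    (heqd : ∀ R L : ℕ, 1 ≤ R → 1 ≤ L → ∀ Q : Finset ℕ, (∀ p ∈ Q, p.Prime) →
      |(((box R L).filter (fun x : ℤ × ℤ × ℤ => ∀ p ∈ Q, (p : ℤ) ∣ F1 x.1 x.2.1 x.2.2 (qq x))).card : ℝ)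
        - (box R L).card * ∏ p ∈ Q, dn p (fun r s t q => (p : ℤ) ∣ F1 r s t q)|
      ≤ Ce * L * (((∏ p ∈ Q, p : ℕ) : ℝ)) ^ 6 * (R : ℝ) ^ (2 - 1 / 40 : ℝ)) (s : ℕ)
    (hs : ∀ (A : Finset (ℤ × ℤ × ℤ)) (F : ℤ × ℤ × ℤ → ℤ) (z : ℕ)
      (P : Finset ℕ) (ρ : ℕ → ℝ) (X E : ℝ), 2 ≤ z → P ⊆ pr 2 (z + 1) →
      (∀ p ∈ P, 0 < ρ p ∧ ρ p < 1 ∧ ρ p * p ≤ (4 : ℕ)) → 0 ≤ X → 0 ≤ E →
      (∀ T ⊆ P, ∏ p ∈ T, p ≤ z ^ s →
        |((A.filter (fun a => ∀ p ∈ T, (p : ℤ) ∣ F a)).card : ℝ) - X * ∏ p ∈ T, ρ p| ≤ E) →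
      ((A.filter (fun a => ∀ p ∈ P, ¬ (p : ℤ) ∣ F a)).card : ℝ)
        ≤ 2 * X * Real.exp (-∑ p ∈ P, ρ p) + (z : ℝ) ^ s * E)
    (R L z : ℕ) (hR : 1 ≤ R) (hL : 1 ≤ L) (hz : 2 ≤ z) (P : Finset ℕ)
    (hP : P = (pr 5 (z + 1)).filter (fun p => p % 3 = 1)) :
    (((box R L).filter (fun a : ℤ × ℤ × ℤ => ∀ p ∈ P,
      ¬ (p : ℤ) ∣ F1 a.1 a.2.1 a.2.2 (qq a))).card : ℝ) ≤
      2 * (box R L).card * Real.exp (-∑ p ∈ P, rho p) +
        (z : ℝ) ^ s * (Ce * L * ((z : ℝ) ^ s) ^ 6 * (R : ℝ) ^ (2 - 1 / 40 : ℝ)) := by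
  have hz0 : (0 : ℝ) ≤ z := Nat.cast_nonneg z
  refine hs (box R L) (fun a : ℤ × ℤ × ℤ => F1 a.1 a.2.1 a.2.2 (qq a)) z P rho (box R L).card _ hz ?_ ?_
    (Nat.cast_nonneg _) (by positivity) ?_
  · intro p hp
    rw [hP, mem_filter, mem_pr] at hp
    rw [mem_pr]
    exact ⟨⟨by omega, hp.1.1.2⟩, hp.1.2⟩
  · intro p hp
    rw [hP, mem_filter, mem_pr] at hp
    have := rho_bd p hp.1.1.1
    exact_mod_cast this
  · intro T hT hTz
    have hTp : ∀ p ∈ T, p.Prime ∧ p % 3 = 1 := by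
      intro p hp
      have h1 := hT hp
      rw [hP, mem_filter, mem_pr] at h1
      exact ⟨h1.1.2, h1.2⟩
    have h1 := heqd R L hR hL T (fun p hp => (hTp p hp).1)
    have h2 : ∏ p ∈ T, dn p (fun r s t q => (p : ℤ) ∣ F1 r s t q) = ∏ p ∈ T, rho p :=
      Finset.prod_congr rfl fun p hp => dn_F1 p (hTp p hp).1 (hTp p hp).2
    rw [h2] at h1
    refine h1.trans ?_
    have h3 : (((∏ p ∈ T, p : ℕ) : ℝ)) ≤ (z : ℝ) ^ s := by exact_mod_cast hTz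
    have h4 : (((∏ p ∈ T, p : ℕ) : ℝ)) ^ 6 ≤ ((z : ℝ) ^ s) ^ 6 :=
      pow_le_pow_left₀ (Nat.cast_nonneg _) h3 6
    have h5 : (0 : ℝ) ≤ (R : ℝ) ^ (2 - 1 / 40 : ℝ) := Real.rpow_nonneg (Nat.cast_nonneg _) _
    exact mul_le_mul_of_nonneg_right (mul_le_mul_of_nonneg_left h4 (by positivity)) h5

theorem I1U : ∃ T0 : ℕ, 1 ≤ T0 ∧ ∃ C : ℝ, 0 < C ∧ ∀ x U z : ℕ, 2 ≤ z → z ^ T0 ≤ U → U ≤ x →
    ∀ S : Finset ℕ, (∀ n ∈ S, 1 ≤ n ∧ n ≤ x ∧ ∃ u w : ℕ, u * w = n ^ 2 + n + 1 ∧ U < u ∧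
      u ≤ 2 * U ∧ ∀ p ∈ pr 5 (z + 1), p % 3 = 1 → ¬ p ∣ u * w) →
    (S.card : ℝ) ≤ C * x * Real.exp (-(2 * ll z)) := by
  obtain ⟨Ce, hCe, heqd⟩ := eqd
  obtain ⟨s, hs0, hs⟩ := SEL2 4
  obtain ⟨Cr, hCr, hrho⟩ := rho_sum3
  obtain ⟨K, hK⟩ : ∃ K : ℕ, K = 40 * (7 * s + 2) := ⟨_, rfl⟩
  refine ⟨2 * K + 2, by omega, 448 * Real.exp Cr + Ce, by positivity, ?_⟩
  intro x U z hz hzU hUx S hS
  obtain ⟨R, hRdef⟩ : ∃ R : ℕ, R = Nat.sqrt (U / 3) := ⟨_, rfl⟩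
  obtain ⟨L, hLdef⟩ : ∃ L : ℕ, L = (x + 1) / U + 1 := ⟨_, rfl⟩
  have hU0 : 0 < U := lt_of_lt_of_le (Nat.pow_pos (by omega)) hzU
  have hzK : z ^ K ≤ R := by
    rw [hRdef, Nat.le_sqrt, Nat.le_div_iff_mul_le (by norm_num)]
    calc z ^ K * z ^ K * 3 ≤ z ^ K * z ^ K * z ^ 2 := by
          apply Nat.mul_le_mul_left
          nlinarith
      _ = z ^ (2 * K + 2) := by rw [← pow_add, ← pow_add]; congr 1; omega
      _ ≤ U := hzU
  have hzK1 : 1 ≤ z ^ K := Nat.one_le_pow _ _ (by omega)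
  have hR1 : 1 ≤ R := hzK1.trans hzK
  have hR2 : 3 * (R * R) ≤ U := by
    have h1 : R * R ≤ U / 3 := by rw [hRdef]; exact Nat.sqrt_le _
    omega
  have hR3 : U < 3 * ((R + 1) * (R + 1)) := by
    have h1 : U / 3 < (R + 1) * (R + 1) := by rw [hRdef]; exact Nat.lt_succ_sqrt _
    omega
  have hL1 : 1 ≤ L := by rw [hLdef]; exact Nat.le_add_left 1 _
  have hLU : x + 1 < L * U := by
    rw [hLdef]
    have h1 := Nat.div_add_mod (x + 1) U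
    have h2 := Nat.mod_lt (x + 1) hU0
    calc x + 1 = U * ((x + 1) / U) + (x + 1) % U := h1.symm
      _ < U * ((x + 1) / U) + U := by omega
      _ = ((x + 1) / U + 1) * U := by ring
  -- the injection
  obtain ⟨P, hP⟩ : ∃ P : Finset ℕ, P = (pr 5 (z + 1)).filter (fun p => p % 3 = 1) := ⟨_, rfl⟩
  have hcard : (S.card : ℝ) ≤ (((box R L).filter (fun a : ℤ × ℤ × ℤ => ∀ p ∈ P,
      ¬ (p : ℤ) ∣ F1 a.1 a.2.1 a.2.2 (qq a))).card : ℝ) := by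
    have hsub : S ⊆ ((box R L).filter (fun a : ℤ × ℤ × ℤ => ∀ p ∈ P,
        ¬ (p : ℤ) ∣ F1 a.1 a.2.1 a.2.2 (qq a))).image
        (fun y : ℤ × ℤ × ℤ => (y.1 * y.2.2 + y.2.1 * y.2.2 + y.2.1 * qq y).toNat) := by
      intro n hn
      obtain ⟨hn1, hnx, u, w, huw, hUu, hu2, hp⟩ := hS n hn
      obtain ⟨y, hy, hyn, hyF⟩ := IA_point hR1 hR2 hR3 hLU hnx huw hUu hu2
      rw [mem_image]
      refine ⟨y, ?_, hyn⟩
      rw [mem_filter]
      refine ⟨hy, ?_⟩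
      intro p hpP hdvd
      rw [hP, mem_filter] at hpP
      rw [hyF] at hdvd
      exact hp p hpP.1 hpP.2 (by exact_mod_cast hdvd)
    exact_mod_cast (Finset.card_le_card hsub).trans Finset.card_image_le
  have hsieve := IA_sieve Ce hCe (by
    intro R L hR hL Q hQ
    have h1 := heqd R L hR hL Q hQ (fun p r s t q => (p : ℤ) ∣ F1 r s t q) (fun p _ => IA_per p)
    rw [IA_card_eq (box R L)
      (fun x : ℤ × ℤ × ℤ => ∀ p ∈ Q, (p : ℤ) ∣ F1 x.1 x.2.1 x.2.2 (qq x)) _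
      (fun a => inferInstance)] at h1
    exact h1) s (by exact_mod_cast hs) R L z hR1 hL1 hz P hP
  -- analytic part
  have hz1 : (1 : ℝ) < z := by exact_mod_cast (by omega : 1 < z)
  have hz0 : (0 : ℝ) < z := by linarith
  have hlog : 0 < Real.log z := Real.log_pos hz1
  have hexp : Real.exp (-(2 * ll z)) = (Real.log z ^ 2)⁻¹ := by
    rw [ll, Real.exp_neg, two_mul, Real.exp_add, Real.exp_log hlog, pow_two]
  have hx1 : (1 : ℝ) ≤ x := by exact_mod_cast (by omega : 1 ≤ x)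
  have hU0' : (0 : ℝ) < U := by exact_mod_cast hU0
  have hR0 : (0 : ℝ) < R := by exact_mod_cast hR1
  have hLR : (L : ℝ) * (R : ℝ) ^ 2 ≤ x := by
    have h1 : (L : ℝ) ≤ ((x : ℝ) + 1) / U + 1 := by
      rw [hLdef]
      push_cast
      have := Nat.cast_div_le (m := x + 1) (n := U) (α := ℝ)
      push_cast at this
      linarith
    have h2 : (R : ℝ) ^ 2 ≤ U / 3 := by
      have : (3 * (R * R) : ℝ) ≤ U := by exact_mod_cast hR2
      rw [le_div_iff₀ (by norm_num)]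
      nlinarith
    have h3 : (U : ℝ) ≤ x := by exact_mod_cast hUx
    calc (L : ℝ) * (R : ℝ) ^ 2 ≤ (((x : ℝ) + 1) / U + 1) * (U / 3) :=
          mul_le_mul h1 h2 (by positivity) (by positivity)
      _ = ((x : ℝ) + 1 + U) / 3 := by field_simp
      _ ≤ x := by linarith
  have hmain : 2 * ((box R L).card : ℝ) *
      Real.exp (-∑ p ∈ P, rho p) ≤
      448 * Real.exp Cr * x * Real.exp (-(2 * ll z)) := by
    have h1 : Real.exp (-∑ p ∈ P, rho p) ≤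
        Real.exp Cr * Real.exp (-(2 * ll z)) := by
      rw [← Real.exp_add]
      apply Real.exp_le_exp.2
      have := hrho z hz
      rw [hP]
      linarith
    have h2 : 2 * ((box R L).card : ℝ) ≤ 448 * x := by
      have := IA_box_card R L
      nlinarith
    calc 2 * ((box R L).card : ℝ) * Real.exp (-∑ p ∈ P, rho p)
        ≤ (448 * x) * (Real.exp Cr * Real.exp (-(2 * ll z))) :=
          mul_le_mul h2 h1 (Real.exp_pos _).le (by positivity)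
      _ = _ := by ring
  have herr : (z : ℝ) ^ s * (Ce * L * ((z : ℝ) ^ s) ^ 6 * (R : ℝ) ^ (2 - 1 / 40 : ℝ)) ≤
      Ce * x * Real.exp (-(2 * ll z)) := by
    have h1 : (R : ℝ) ^ (2 - 1 / 40 : ℝ) = (R : ℝ) ^ 2 * ((R : ℝ) ^ (1 / 40 : ℝ))⁻¹ := by
      rw [Real.rpow_sub hR0, div_eq_mul_inv]
      norm_num
    have h2 : (z : ℝ) ^ (7 * s + 2) ≤ (R : ℝ) ^ (1 / 40 : ℝ) := by
      have h3 : ((z : ℝ) ^ (7 * s + 2)) ^ 40 ≤ R := by
        rw [← pow_mul]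
        have h4 : z ^ ((7 * s + 2) * 40) ≤ R := by
          rw [mul_comm (7 * s + 2) 40, ← hK]
          exact hzK
        exact_mod_cast h4
      have h5 : (((z : ℝ) ^ (7 * s + 2)) ^ 40) ^ (1 / 40 : ℝ) = (z : ℝ) ^ (7 * s + 2) := by
        rw [← Real.rpow_natCast, ← Real.rpow_mul (by positivity)]
        norm_num
      rw [← h5]
      exact Real.rpow_le_rpow (by positivity) h3 (by norm_num)
    have h6 : ((R : ℝ) ^ (1 / 40 : ℝ))⁻¹ ≤ ((z : ℝ) ^ (7 * s + 2))⁻¹ :=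
      inv_anti₀ (by positivity) h2
    have h7 : (z : ℝ) ^ s * ((z : ℝ) ^ s) ^ 6 * ((z : ℝ) ^ (7 * s + 2))⁻¹ ≤ (Real.log z ^ 2)⁻¹ := by
      have h8 : (z : ℝ) ^ s * ((z : ℝ) ^ s) ^ 6 * ((z : ℝ) ^ (7 * s + 2))⁻¹ = ((z : ℝ) ^ 2)⁻¹ := by
        have h9 : (z : ℝ) ^ s * ((z : ℝ) ^ s) ^ 6 = (z : ℝ) ^ (7 * s) := by
          rw [← pow_mul, ← pow_add]; congr 1; ring
        rw [h9, pow_add, mul_inv, ← mul_assoc, mul_inv_cancel₀ (by positivity), one_mul]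
      rw [h8]
      apply inv_anti₀ (by positivity)
      apply pow_le_pow_left₀ hlog.le
      have := Real.log_le_sub_one_of_pos hz0
      linarith
    rw [hexp, h1]
    calc (z : ℝ) ^ s * (Ce * L * ((z : ℝ) ^ s) ^ 6 * ((R : ℝ) ^ 2 * ((R : ℝ) ^ (1 / 40 : ℝ))⁻¹))
        = Ce * (L * (R : ℝ) ^ 2) * ((z : ℝ) ^ s * ((z : ℝ) ^ s) ^ 6 *
            ((R : ℝ) ^ (1 / 40 : ℝ))⁻¹) := by ring
      _ ≤ Ce * x * (Real.log z ^ 2)⁻¹ := by
          apply mul_le_mul (mul_le_mul_of_nonneg_left hLR hCe.le) _ (by positivity) (by positivity)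
          exact (mul_le_mul_of_nonneg_left h6 (by positivity)).trans h7
  calc (S.card : ℝ) ≤ _ := hcard
    _ ≤ _ := hsieve
    _ ≤ 448 * Real.exp Cr * x * Real.exp (-(2 * ll z)) + Ce * x * Real.exp (-(2 * ll z)) :=
        add_le_add hmain herr
    _ = (448 * Real.exp Cr + Ce) * x * Real.exp (-(2 * ll z)) := by ring

end Pool.Agent.H37.PPE
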