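import Pool.Agent.H37.PPE.CR
import Pool.Agent.H37.PPE.SE
import Pool.Agent.H37.PPE.LB
import Pool.Agent.H37.PPE.RD
import Pool.Agent.H37.PPE.DS

/-!
PPE IB: integers n ≤ x with n²+n+1 = A²+B² (B even, A > 0, U < 2n+1-2A ≤ 2U), no small prime factor p ≡ 1 mod 12, and A + B ι a square mod p
for p ∈ Q0, p ∣ n.

u = 2n+1-2A > 0, w = 2n+1+2A, b = 2B: b² - u w = 3.  RD2 gives (r,s,t,q,σ).  Split S = S₁ ∪ S₋₁ by σ.  R = Nat.sqrt (U/2), L = 3 Nat.sqrt (x/U) + 8.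
 (r,s,t) ∈ box R L: U/2 < u/2 ≤ r² (R < r or R ≤ r), 2r² ≤ 25 u ≤ 50 U, so r < 8R for U large ((R+1)² > U/2, 64 R² > 25 U for R ≥ 9 or so);
 |t| ≤ (|b|+3) r/u, b² = uw+3 ≤ u(4x+2)+3, so (|b|+3)/u ≤ sqrt((4x+2)/u+3/u²)+3/u < L; r ∣ 1+st, qq = q.
 n is determined by (r,s,t) and σ: σ(4n+2) = (r²-3s²)+(t²-3q²).
 F2(r,s,t,q) = (4n+2)²+12 = 16 (n²+n+1).  For p ∈ P := (pr 13 (z+1)).filter (p % 12 = 1) \ Q0: p ∤ F2.  For p ∈ Q0 (p ≤ z): G2 σ p holds:
  p ∤ F2, and if p ∣ N' - 2σ = 4σn then p ∣ n and (t²-3q²-(r²-3s²)) + 2ι(rt-3sq) = σ(4A+4Bι), a square since A+Bι is, and 4, σ are squares (p ≡ 1 mod 4).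
 A := (box R L).filter (∀ p ∈ Q0, G2 σ p ..), F = F2.  For T ⊆ P: eqd with Q = Q0 ∪ T, S p = (if p ∈ Q0 then G2 σ p else p ∣ F2):
  #{x ∈ A : p ∣ F2 ∀ p ∈ T} = #box ∏_{Q0} dn p (G2 σ p) ∏_T rho p + O(C L (∏Q0 ∏T)^6 R^{2-1/40}), X = #box ∏_{Q0} dn p (G2 σ p)
  ≤ 300 L R² ∏_{Q0} (1 - rho p)(1 - 1/(4p)).
 SEL2 4: 2X exp(-∑_P rho) ≤ 600 L R² ∏_{Q0}(1-1/(4p)) ∏_{Q0}(1-rho p) exp(∑_{Q0} rho) exp(-∑_{all} rho) ≤ C L R² ∏_{Q0}(1-1/(4p)) exp(-ll z).
  (1 - rho p ≤ exp(-rho p), rho_sum12.)   L R² ≤ C sqrt(x U) (U ≤ 2x+1).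
 Error: z0 ≥ max(2, ∏Q0): z^s · C L z^{6s+6} R^{2-1/40} and ∏_{Q0}(1-1/(4p)) ≥ 1/∏Q0 ≥ 1/z, exp(-ll z) ≥ 1/z: T0 = 80(7s+9)+10 or so.
-/

set_option autoImplicit false

namespace Pool.Agent.H37.PPE

open Finset Pool.Agent.H37.PPC Pool.Agent.H37.PPD

private theorem IB_box (R L : ℕ) (hR : 1 ≤ R) :
    (box R L).card ≤ 224 * L * R ^ 2 := by
  have h1 : (box R L).card ≤ ((Ico (R : ℤ) (8 * R)) ×ˢ ((Ico (-(8 * R : ℤ)) (8 * R)) ×ˢ
      (Ico (0 : ℤ) (2 * L)))).card := by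
    apply card_le_card_of_injOn (fun x : ℤ × ℤ × ℤ => (x.1, x.2.1, (x.2.2 + L * x.1) / x.1))
    · rintro ⟨r, s, t⟩ hx
      rw [Finset.mem_coe] at hx ⊢
      simp only [box, mem_filter, mem_product, mem_Ico] at hx ⊢
      obtain ⟨⟨⟨h1, h2⟩, ⟨h3, h4⟩, h5, h6⟩, h7, h8, h9, h10, h11⟩ := hx
      have hr : 0 < r := by omega
      refine ⟨⟨h1, h2⟩, ⟨h3, h4⟩, ?_, ?_⟩
      · exact Int.ediv_nonneg (by linarith) hr.le
      · apply Int.ediv_lt_of_lt_mul hr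
        nlinarith only [h10]
    · rintro ⟨r, s, t⟩ hx ⟨r', s', t'⟩ hy h
      rw [Finset.mem_coe] at hx hy
      simp only [box, mem_filter, mem_product, mem_Ico] at hx hy
      simp only [Prod.mk.injEq] at h
      obtain ⟨e1, e2, e3⟩ := h
      subst e1 e2
      obtain ⟨⟨⟨h1, h2⟩, ⟨h3, h4⟩, h5, h6⟩, h7, h8, h9, h10, h11⟩ := hx
      obtain ⟨_, _, _, _, _, h12⟩ := hy
      have hr : 0 < r := by omega
      have hc : IsCoprime r s := by
        obtain ⟨k, hk⟩ := h11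
        exact ⟨k, -t, by linarith only [hk]⟩
      have hd : r ∣ s * (t - t') := by
        have := dvd_sub h11 h12
        have e : 1 + s * t - (1 + s * t') = s * (t - t') := by ring
        rwa [e] at this
      have hd2 : r ∣ t - t' := hc.dvd_of_dvd_mul_left hd
      obtain ⟨k, hk⟩ := hd2
      have e : t + (L : ℤ) * r = (t' + L * r) + r * k := by linarith only [hk]
      rw [e, Int.add_mul_ediv_left _ _ hr.ne'] at e3
      have hk0 : k = 0 := by linarith only [e3]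
      rw [hk0] at hk
      have : t = t' := by linarith
      rw [this]
  refine h1.trans ?_
  rw [card_product, card_product, Int.card_Ico, Int.card_Ico, Int.card_Ico]
  have a1 : ((8 : ℤ) * R - R).toNat = 7 * R := by omega
  have a2 : ((8 : ℤ) * R - -(8 * R)).toNat = 16 * R := by omega
  have a3 : ((2 : ℤ) * L - 0).toNat = 2 * L := by omega
  rw [a1, a2, a3]
  apply le_of_eq
  ring

private theorem IB_mem (x U : ℕ) (hU : 128 ≤ U) (n : ℕ) (hn : n ≤ x) (A B : ℤ)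
    (hAB : A ^ 2 + B ^ 2 = (n : ℤ) ^ 2 + n + 1) (h1 : (U : ℤ) < 2 * n + 1 - 2 * A)
    (h2 : 2 * n + 1 - 2 * A ≤ 2 * (U : ℤ)) :
    ∃ σ : ℤ, (σ = 1 ∨ σ = -1) ∧ ∃ y ∈ box (Nat.sqrt (U / 2)) (3 * Nat.sqrt (x / U) + 8),
      σ * (y.1 ^ 2 - 3 * y.2.1 ^ 2 + (y.2.2 ^ 2 - 3 * (qq y) ^ 2)) = 4 * n + 2 ∧
      σ * (y.2.2 ^ 2 - 3 * (qq y) ^ 2 - (y.1 ^ 2 - 3 * y.2.1 ^ 2)) = 4 * A ∧
      σ * (y.1 * y.2.2 - 3 * y.2.1 * qq y) = 2 * B := by
  set R := Nat.sqrt (U / 2) with hR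
  set m := Nat.sqrt (x / U) with hm
  obtain ⟨r, s, t, q, σ, hσ, hdet, hu, hb, hw, hr, hs1, hs2, hr1, hr2, ht⟩ :=
    RD2 (2 * n + 1 - 2 * A) (2 * n + 1 + 2 * A) (2 * B) (by linarith only [h1])
      (by linarith only [hAB])
  have hU0 : (128 : ℤ) ≤ U := by exact_mod_cast hU
  -- R bounds
  have hRl : R * R ≤ U / 2 := Nat.sqrt_le (U / 2)
  have hRu : U / 2 < (R + 1) * (R + 1) := Nat.lt_succ_sqrt (U / 2)
  have hR8 : 8 ≤ R := by
    rw [hR]
    apply Nat.le_sqrt.2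
    omega
  have hRl' : 2 * ((R : ℤ) * R) ≤ U := by
    have : 2 * (R * R) ≤ U := by omega
    exact_mod_cast this
  have hRu' : (U : ℤ) < 2 * ((R + 1) * (R + 1)) := by
    have : U < 2 * ((R + 1) * (R + 1)) := by omega
    exact_mod_cast this
  have hR8' : (8 : ℤ) ≤ R := by exact_mod_cast hR8
  have hrR : (R : ℤ) ≤ r := by
    by_contra hcon
    push Not at hcon
    have h5 : r * r ≤ R * R := mul_self_le_mul_self hr.le hcon.le
    have h6 : r ^ 2 = r * r := sq r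
    linarith only [h1, hr1, hRl', h5]
  have hrR2 : r < 8 * R := by
    by_contra hcon
    push Not at hcon
    have h5 : (8 * (R : ℤ)) * (8 * R) ≤ r * r := mul_self_le_mul_self (by positivity) hcon
    have h6 : r ^ 2 = r * r := sq r
    have h7 : 100 * ((R : ℤ) + 1) * (R + 1) ≤ 128 * (R * R) := by nlinarith only [hR8]
    linarith only [h2, hr2, hRu', h5, h7]
  -- m bound
  have hml : x / U < (m + 1) * (m + 1) := Nat.lt_succ_sqrt (x / U)
  have hml' : x < U * ((m + 1) * (m + 1)) := by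
    have := (Nat.div_lt_iff_lt_mul (by omega : 0 < U)).1 hml
    linarith only [this]
  have hml2 : (x : ℤ) + 1 ≤ U * ((m + 1) * (m + 1)) := by exact_mod_cast hml'
  have hnx : (n : ℤ) ≤ x := by exact_mod_cast hn
  have hm0 : (0 : ℤ) ≤ m := Int.natCast_nonneg m
  set u : ℤ := 2 * n + 1 - 2 * A with hudef
  have hu0 : (128 : ℤ) < u := by linarith only [hU, h1]
  have hbsq : (2 * B) ^ 2 < (2 * u * (m + 1)) ^ 2 := by
    have e1 : (2 * B) ^ 2 = u * (4 * n + 2 - u) + 3 := by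
      rw [hudef]
      linarith only [hAB]
    rw [e1]
    have e2 : u * (4 * n + 2 - u) + 3 < u * (4 * n + 2) := by
      have : 3 < u * u := by nlinarith only [hU, h1]
      linarith only [this]
    have e3 : u * (4 * (n : ℤ) + 2) ≤ u * (4 * (u * ((m + 1) * (m + 1)))) := by
      apply mul_le_mul_of_nonneg_left _ (by linarith only [h1])
      have : (U : ℤ) * ((m + 1) * (m + 1)) ≤ u * ((m + 1) * (m + 1)) := by
        apply mul_le_mul_of_nonneg_right h1.le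
        positivity
      linarith only [hn, hml', this]
    calc u * (4 * n + 2 - u) + 3 < u * (4 * n + 2) := e2
      _ ≤ u * (4 * (u * ((m + 1) * (m + 1)))) := e3
      _ = (2 * u * (m + 1)) ^ 2 := by ring
  have hbabs : |2 * B| < 2 * u * (m + 1) := by
    have h0 : 0 ≤ 2 * u * (m + 1) := by positivity
    exact abs_lt_of_sq_lt_sq hbsq h0
  have hbL : |2 * B| + 3 < (3 * m + 8) * u := by
    have : 0 ≤ (m : ℤ) * u := mul_nonneg hm0 (by linarith only [h1])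
    linarith only [h1, hbabs, this]
  have htL : |t| < (3 * m + 8) * r := by
    have h3 : |t| * u < ((3 * m + 8) * r) * u := by
      calc |t| * u ≤ (|2 * B| + 3) * r := ht
        _ < ((3 * m + 8) * u) * r := by
          apply mul_lt_mul_of_pos_right hbL hr
        _ = ((3 * m + 8) * r) * u := by ring
    exact lt_of_mul_lt_mul_right h3 (by linarith only [h1])
  have htL' := abs_lt.1 htL
  have hqq : qq (r, s, t) = q := by
    unfold qq
    simp only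
    have : 1 + s * t = r * q := by linarith only [hdet]
    rw [this]
    exact Int.mul_ediv_cancel_left _ hr.ne'
  refine ⟨σ, hσ, (r, s, t), ?_, ?_, ?_, ?_⟩
  · simp only [box, mem_filter, mem_product, mem_Ico]
    have hLr : ((3 * m + 8 : ℕ) : ℤ) * r ≤ 8 * R * ((3 * m + 8 : ℕ) : ℤ) := by
      rw [mul_comm]
      apply mul_le_mul_of_nonneg_right hrR2.le (Int.natCast_nonneg _)
    push_cast at hLr ⊢
    refine ⟨⟨⟨hrR, hrR2⟩, ⟨by linarith only [hs1, hrR2], by linarith only [hs2, hrR2]⟩, by linarith only [hLr, htL'.1], by linarith only [hLr, htL'.2]⟩,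
      hs1, hs2, by linarith only [htL'.1], htL'.2, ⟨q, by linarith only [hdet]⟩⟩
  · simp only [hqq]
    linarith only [hw, hu]
  · simp only [hqq]
    have := hudef
    linarith only [hw, hu]
  · simp only [hqq]
    linarith only [hb]

private theorem IB_F2 (σ : ℤ) (hσ : σ = 1 ∨ σ = -1) (r s t q : ℤ) (n : ℕ)
    (h1 : σ * (r ^ 2 - 3 * s ^ 2 + (t ^ 2 - 3 * q ^ 2)) = 4 * n + 2) :
    F2 r s t q = 16 * ((n ^ 2 + n + 1 : ℕ) : ℤ) := by
  unfold F2
  have h2 : (r ^ 2 - 3 * s ^ 2 + (t ^ 2 - 3 * q ^ 2)) ^ 2 = (4 * (n : ℤ) + 2) ^ 2 := by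
    rw [← h1]
    rcases hσ with rfl | rfl <;> ring
  rw [h2]
  push_cast
  ring

private theorem IB_nd (p : ℕ) (hp : p.Prime) (h13 : 13 ≤ p) (σ : ℤ) (hσ : σ = 1 ∨ σ = -1)
    (r s t q : ℤ) (n : ℕ)
    (h1 : σ * (r ^ 2 - 3 * s ^ 2 + (t ^ 2 - 3 * q ^ 2)) = 4 * n + 2)
    (hnd : ¬ p ∣ n ^ 2 + n + 1) : ¬ (p : ℤ) ∣ F2 r s t q := by
  rw [IB_F2 σ hσ r s t q n h1]
  intro h
  have h2 : p ∣ 16 * (n ^ 2 + n + 1) := by exact_mod_cast h
  rcases (Nat.Prime.dvd_mul hp).1 h2 with h3 | h3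
  · have : p ∣ 2 ^ 4 := by simpa using h3
    have := hp.dvd_of_dvd_pow this
    have := Nat.le_of_dvd (by norm_num) this
    omega
  · exact hnd h3

private theorem IB_G2 (p : ℕ) (hp : p.Prime) (h13 : 13 ≤ p) (σ : ℤ) (hσ : σ = 1 ∨ σ = -1)
    (r s t q : ℤ) (n : ℕ) (A B : ℤ)
    (h1 : σ * (r ^ 2 - 3 * s ^ 2 + (t ^ 2 - 3 * q ^ 2)) = 4 * n + 2)
    (h2 : σ * (t ^ 2 - 3 * q ^ 2 - (r ^ 2 - 3 * s ^ 2)) = 4 * A)
    (h3 : σ * (r * t - 3 * s * q) = 2 * B)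
    (hnd : ¬ p ∣ n ^ 2 + n + 1)
    (hsq : p ∣ n → ∀ ι : ZMod p, ι ^ 2 = -1 → IsSquare ((A : ZMod p) + (B : ZMod p) * ι)) :
    G2 σ p r s t q := by
  refine ⟨IB_nd p hp h13 σ hσ r s t q n h1 hnd, ?_⟩
  rintro ⟨hd, ι, hι, hns⟩
  have hpn : p ∣ n := by
    have e : (r ^ 2 - 3 * s ^ 2 + (t ^ 2 - 3 * q ^ 2)) - 2 * σ = σ * (4 * n) := by
      rcases hσ with rfl | rfl <;> linarith only [h1]
    rw [e] at hd
    have hd2 : (p : ℤ) ∣ 4 * n := by
      rcases hσ with rfl | rfl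
      · simpa using hd
      · have : (-1 : ℤ) * (4 * n) = -(4 * n) := by ring
        rw [this] at hd
        exact (dvd_neg.1 hd)
    have hd3 : p ∣ 4 * n := by exact_mod_cast hd2
    rcases (Nat.Prime.dvd_mul hp).1 hd3 with h4 | h4
    · have := Nat.le_of_dvd (by norm_num) h4
      omega
    · exact h4
  apply hns
  have hAB := hsq hpn ι hι
  have e1 : (t ^ 2 - 3 * q ^ 2 - (r ^ 2 - 3 * s ^ 2)) = σ * (4 * A) := by
    rcases hσ with rfl | rfl <;> linarith only [h2]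
  have e2 : r * t - 3 * s * q = σ * (2 * B) := by
    rcases hσ with rfl | rfl <;> linarith
  rw [e1, e2]
  obtain ⟨y, hy⟩ := hAB
  rcases hσ with rfl | rfl
  · refine ⟨2 * y, ?_⟩
    push_cast
    have : (2 * y) * (2 * y) = 4 * ((A : ZMod p) + (B : ZMod p) * ι) := by
      rw [hy]; ring
    rw [this]
    ring
  · refine ⟨2 * ι * y, ?_⟩
    push_cast
    have : (2 * ι * y) * (2 * ι * y) = 4 * ι ^ 2 * ((A : ZMod p) + (B : ZMod p) * ι) := by
      rw [hy]; ring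
    rw [this, hι]
    ring


open Classical in
private theorem IB_sieve : ∃ s : ℕ, 0 < s ∧ ∃ Ce Cr : ℝ, 0 < Ce ∧ 0 < Cr ∧ ∀ (Q0 : Finset ℕ),
    (∀ p ∈ Q0, p.Prime ∧ p % 12 = 1) → ∀ z : ℕ, 2 ≤ z → ∏ p ∈ Q0, p ≤ z → ∀ R L : ℕ, 1 ≤ R →
    1 ≤ L → ∀ σ : ℤ, σ = 1 ∨ σ = -1 →
    ((((box R L).filter (fun x => ∀ p ∈ Q0, G2 σ p x.1 x.2.1 x.2.2 (qq x))).filter
      (fun x => ∀ p ∈ ((pr 13 (z + 1)).filter (fun p => p % 12 = 1)) \ Q0,
        ¬ (p : ℤ) ∣ F2 x.1 x.2.1 x.2.2 (qq x))).card : ℝ) ≤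
    448 * (L * (R : ℝ) ^ 2) * (∏ p ∈ Q0, (1 - 1 / (4 * (p : ℝ)))) * Real.exp Cr *
      Real.exp (-(ll z)) +
      (z : ℝ) ^ s * (Ce * L * ((z : ℝ) * (z : ℝ) ^ s) ^ 6 * (R : ℝ) ^ (2 - 1 / 40 : ℝ)) := by
  obtain ⟨s, hs, hsel⟩ := SEL2 4
  obtain ⟨Ce, hCe, heq⟩ := eqd
  obtain ⟨Cr, hCr, hrho⟩ := rho_sum12
  refine ⟨s, hs, Ce, Cr, hCe, hCr, ?_⟩
  intro Q0 hQ0 z hz hQz R L hR hL σ hσ
  set all := (pr 13 (z + 1)).filter (fun p => p % 12 = 1) with hall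
  set P := all \ Q0 with hP
  have hQsub : Q0 ⊆ all := by
    intro p hp
    rw [hall, mem_filter, mem_pr]
    obtain ⟨h1, h2⟩ := hQ0 p hp
    have h3 : p ∣ ∏ p ∈ Q0, p := dvd_prod_of_mem (fun p => p) hp
    have h4 : p ≤ ∏ p ∈ Q0, p := Nat.le_of_dvd (prod_pos (fun q hq => (hQ0 q hq).1.pos)) h3
    have := h1.two_le
    refine ⟨⟨⟨by omega, by omega⟩, h1⟩, h2⟩
  have hPall : ∀ p ∈ P, p.Prime ∧ p % 12 = 1 ∧ 13 ≤ p ∧ p ≤ z ∧ p ∉ Q0 := by
    intro p hp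
    rw [hP, mem_sdiff, hall, mem_filter, mem_pr] at hp
    exact ⟨hp.1.1.2, hp.1.2, hp.1.1.1.1, by omega, hp.2⟩
  set X : ℝ := (box R L).card * ∏ p ∈ Q0, dn p (G2 σ p) with hX
  have hdn0 : ∀ p S, 0 ≤ dn p S := fun p S => div_nonneg (Nat.cast_nonneg _) (Nat.cast_nonneg _)
  have hX0 : 0 ≤ X := mul_nonneg (Nat.cast_nonneg _) (prod_nonneg (fun p _ => hdn0 p _))
  set E : ℝ := Ce * L * ((z : ℝ) * (z : ℝ) ^ s) ^ 6 * (R : ℝ) ^ (2 - 1 / 40 : ℝ) with hE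
  have hE0 : 0 ≤ E := by positivity
  have hmain := hsel ((box R L).filter (fun x => ∀ p ∈ Q0, G2 σ p x.1 x.2.1 x.2.2 (qq x)))
    (fun x => F2 x.1 x.2.1 x.2.2 (qq x)) z P rho X E hz
    (by
      intro p hp
      obtain ⟨h1, h2, h3, h4, h5⟩ := hPall p hp
      rw [mem_pr]
      exact ⟨⟨by omega, by omega⟩, h1⟩)
    (by
      intro p hp
      obtain ⟨h1, h2, h3, h4, h5⟩ := hPall p hp
      exact_mod_cast rho_bd p (by omega)) hX0 hE0
    (by
      intro T hT hTz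
      have hdisj : Disjoint Q0 T := by
        rw [Finset.disjoint_right]
        intro p hp
        exact (hPall p (hT hp)).2.2.2.2
      have h1 := heq R L hR hL (Q0 ∪ T)
        (by
          intro p hp
          rcases mem_union.1 hp with h | h
          · exact (hQ0 p h).1
          · exact (hPall p (hT h)).1)
        (fun p => if p ∈ Q0 then G2 σ p else (fun r s t q => (p : ℤ) ∣ F2 r s t q))
        (by
          intro p hp
          by_cases h : p ∈ Q0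
          · simp only [h, if_true]
            exact Per_G2 σ p
          · simp only [h, if_false]
            exact Per_F2 p)
      have h2 : (((box R L).filter (fun x => ∀ p ∈ Q0, G2 σ p x.1 x.2.1 x.2.2 (qq x))).filter
          (fun a => ∀ p ∈ T, (p : ℤ) ∣ F2 a.1 a.2.1 a.2.2 (qq a))) =
          ((box R L).filter (fun x => ∀ p ∈ Q0 ∪ T, (fun p => if p ∈ Q0 then G2 σ p else
            (fun r s t q => (p : ℤ) ∣ F2 r s t q)) p x.1 x.2.1 x.2.2 (qq x))) := by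
        ext x
        simp only [mem_filter, and_assoc]
        refine and_congr_right (fun hx => ?_)
        constructor
        · rintro ⟨ha, hb⟩ p hp
          by_cases h : p ∈ Q0
          · simp only [h, if_true]
            exact ha p h
          · simp only [h, if_false]
            rcases mem_union.1 hp with h' | h'
            · exact absurd h' h
            · exact hb p h'
        · intro ha
          refine ⟨fun p hp => ?_, fun p hp => ?_⟩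
          · have := ha p (mem_union_left _ hp)
            simp only [hp, if_true] at this
            exact this
          · have := ha p (mem_union_right _ hp)
            have hn : p ∉ Q0 := (hPall p (hT hp)).2.2.2.2
            simp only [hn, if_false] at this
            exact this
      have h3 : ∏ p ∈ Q0 ∪ T, dn p ((fun p => if p ∈ Q0 then G2 σ p else
            (fun r s t q => (p : ℤ) ∣ F2 r s t q)) p) =
          (∏ p ∈ Q0, dn p (G2 σ p)) * ∏ p ∈ T, rho p := by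
        rw [prod_union hdisj]
        congr 1
        · apply prod_congr rfl
          intro p hp
          simp only [hp, if_true]
        · apply prod_congr rfl
          intro p hp
          obtain ⟨h4, h5, h6, h7, h8⟩ := hPall p (hT hp)
          simp only [h8, if_false]
          exact dn_F2 p h4 h5
      rw [h3, ← h2] at h1
      have h4 : (box R L).card * ((∏ p ∈ Q0, dn p (G2 σ p)) * ∏ p ∈ T, rho p) =
          X * ∏ p ∈ T, rho p := by rw [hX]; ring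
      rw [h4] at h1
      have h5 : (((∏ p ∈ Q0 ∪ T, p : ℕ) : ℝ)) ≤ (z : ℝ) * (z : ℝ) ^ s := by
        rw [prod_union hdisj]
        push_cast
        have a1 : (∏ p ∈ Q0, (p : ℝ)) ≤ z := by
          have := (Nat.cast_le (α := ℝ)).2 hQz
          push_cast at this
          exact this
        have a2 : (∏ p ∈ T, (p : ℝ)) ≤ (z : ℝ) ^ s := by
          have := (Nat.cast_le (α := ℝ)).2 hTz
          push_cast at this
          exact this
        apply mul_le_mul a1 a2 (by positivity) (by positivity)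
      have h6 : Ce * L * (((∏ p ∈ Q0 ∪ T, p : ℕ) : ℝ)) ^ 6 * (R : ℝ) ^ (2 - 1 / 40 : ℝ) ≤ E := by
        rw [hE]
        gcongr
      have h7 := h1.trans h6
      convert h7
      rfl)
  have hkey : 2 * X * Real.exp (-∑ p ∈ P, rho p) ≤
      448 * (L * (R : ℝ) ^ 2) * (∏ p ∈ Q0, (1 - 1 / (4 * (p : ℝ)))) * Real.exp Cr *
      Real.exp (-(ll z)) := by
    have hb : ((box R L).card : ℝ) ≤ 224 * (L * (R : ℝ) ^ 2) := by
      have := IB_box R L hR
      have h2 : ((box R L).card : ℝ) ≤ ((224 * L * R ^ 2 : ℕ) : ℝ) := by exact_mod_cast this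
      refine h2.trans (le_of_eq ?_)
      push_cast
      ring
    have hpr : ∏ p ∈ Q0, dn p (G2 σ p) ≤
        Real.exp (-∑ p ∈ Q0, rho p) * ∏ p ∈ Q0, (1 - 1 / (4 * (p : ℝ))) := by
      rw [← sum_neg_distrib, Real.exp_sum, ← prod_mul_distrib]
      apply prod_le_prod (fun p _ => hdn0 p _)
      intro p hp
      obtain ⟨h1, h2⟩ := hQ0 p hp
      refine (dn_G2 p h1 h2 σ hσ).trans ?_
      have h3 : 1 - rho p ≤ Real.exp (-rho p) := by
        have := Real.add_one_le_exp (-rho p)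
        linarith only [this]
      have hp13 : 13 ≤ p := by have := h1.two_le; omega
      have h4 : (0 : ℝ) ≤ 1 - 1 / (4 * (p : ℝ)) := by
        have h5 : (13 : ℝ) ≤ p := by exact_mod_cast hp13
        have : 1 / (4 * (p : ℝ)) ≤ 1 := by
          rw [div_le_one (by positivity)]
          linarith only [h5]
        linarith only [this]
      exact mul_le_mul_of_nonneg_right h3 h4
    have hsum : ∑ p ∈ Q0, rho p + ∑ p ∈ P, rho p = ∑ p ∈ all, rho p := by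
      rw [hP, add_comm]
      exact sum_sdiff hQsub
    have hpi0 : 0 ≤ ∏ p ∈ Q0, (1 - 1 / (4 * (p : ℝ))) := by
      apply prod_nonneg
      intro p hp
      have hp13 : 13 ≤ p := by
        obtain ⟨h1, h2⟩ := hQ0 p hp
        have := h1.two_le
        omega
      have h5 : (13 : ℝ) ≤ p := by exact_mod_cast hp13
      have : 1 / (4 * (p : ℝ)) ≤ 1 := by
        rw [div_le_one (by positivity)]
        linarith only [h5]
      linarith only [this]
    have hr := hrho z hz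
    rw [← hall] at hr
    have he : Real.exp (-∑ p ∈ Q0, rho p) * Real.exp (-∑ p ∈ P, rho p) ≤
        Real.exp Cr * Real.exp (-(ll z)) := by
      rw [← Real.exp_add, ← Real.exp_add]
      apply Real.exp_le_exp.2
      linarith only [hsum, hr]
    calc 2 * X * Real.exp (-∑ p ∈ P, rho p)
        ≤ 2 * ((224 * (L * (R : ℝ) ^ 2)) * (Real.exp (-∑ p ∈ Q0, rho p) *
            ∏ p ∈ Q0, (1 - 1 / (4 * (p : ℝ))))) * Real.exp (-∑ p ∈ P, rho p) := by
          apply mul_le_mul_of_nonneg_right _ (Real.exp_pos _).le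
          apply mul_le_mul_of_nonneg_left _ (by norm_num)
          rw [hX]
          exact mul_le_mul hb hpr (prod_nonneg (fun p _ => hdn0 p _)) (by positivity)
      _ = 448 * (L * (R : ℝ) ^ 2) * (∏ p ∈ Q0, (1 - 1 / (4 * (p : ℝ)))) *
            (Real.exp (-∑ p ∈ Q0, rho p) * Real.exp (-∑ p ∈ P, rho p)) := by ring
      _ ≤ 448 * (L * (R : ℝ) ^ 2) * (∏ p ∈ Q0, (1 - 1 / (4 * (p : ℝ)))) *
            (Real.exp Cr * Real.exp (-(ll z))) := by
          apply mul_le_mul_of_nonneg_left he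
          positivity
      _ = _ := by ring
  have hfin := hmain.trans (add_le_add_left hkey _)
  convert hfin
  rfl


private theorem IB_LR (x U : ℕ) (hU0 : 1 ≤ U) (hx : 1 ≤ x) (hUx : U ≤ 2 * x + 1) :
    ((3 * Nat.sqrt (x / U) + 8 : ℕ) : ℝ) * ((Nat.sqrt (U / 2) : ℕ) : ℝ) ^ 2
      ≤ 11 * Real.sqrt (x * U) := by
  set m := Nat.sqrt (x / U) with hmdef
  set R := Nat.sqrt (U / 2) with hRdef
  have hm : m * m * U ≤ x := by
    have h1 : m * m ≤ x / U := Nat.sqrt_le _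
    exact (Nat.le_div_iff_mul_le hU0).1 h1
  have hR : 2 * (R * R) ≤ U := by
    have h1 : R * R ≤ U / 2 := Nat.sqrt_le _
    omega
  have hm' : (m : ℝ) * m * U ≤ x := by exact_mod_cast hm
  have hR' : 2 * ((R : ℝ) * R) ≤ U := by exact_mod_cast hR
  have hU3 : (U : ℝ) ≤ 3 * x := by
    have : U ≤ 3 * x := by omega
    exact_mod_cast this
  have hU0' : (1 : ℝ) ≤ U := by exact_mod_cast hU0
  have hL : ((3 * (m : ℝ) + 8) ^ 2) * U ≤ 402 * x := by
    have h1 : (3 * (m : ℝ) + 8) ^ 2 ≤ 18 * (m * m) + 128 := by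
      nlinarith only [sq_nonneg (3 * (m : ℝ) - 8)]
    calc ((3 * (m : ℝ) + 8) ^ 2) * U ≤ (18 * (m * m) + 128) * U :=
          mul_le_mul_of_nonneg_right h1 (by linarith only [])
      _ = 18 * (m * m * U) + 128 * U := by ring
      _ ≤ 402 * x := by linarith only [hm', hU3]
  have hsq : (((3 * m + 8 : ℕ) : ℝ) * (R : ℝ) ^ 2) ^ 2 ≤ (11 * Real.sqrt (x * U)) ^ 2 := by
    have e : (11 * Real.sqrt (x * U)) ^ 2 = 121 * ((x : ℝ) * U) := by
      rw [mul_pow, Real.sq_sqrt (by positivity)]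
      norm_num
    rw [e]
    push_cast
    have h2 : (2 * ((R : ℝ) * R)) ^ 2 ≤ (U : ℝ) ^ 2 := pow_le_pow_left₀ (by positivity) hR' 2
    have h3 : 4 * (((3 * (m : ℝ) + 8) * (R : ℝ) ^ 2) ^ 2) ≤ 402 * (x * U) := by
      calc 4 * (((3 * (m : ℝ) + 8) * (R : ℝ) ^ 2) ^ 2)
          = (3 * (m : ℝ) + 8) ^ 2 * (2 * ((R : ℝ) * R)) ^ 2 := by ring
        _ ≤ (3 * (m : ℝ) + 8) ^ 2 * (U : ℝ) ^ 2 := mul_le_mul_of_nonneg_left h2 (by positivity)
        _ = ((3 * (m : ℝ) + 8) ^ 2 * U) * U := by ring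
        _ ≤ (402 * x) * U := mul_le_mul_of_nonneg_right hL (by linarith)
        _ = 402 * (x * U) := by ring
    have h4 : (0 : ℝ) ≤ x * U := by positivity
    linarith
  exact (pow_le_pow_iff_left₀ (by positivity) (by positivity) (by norm_num)).1 hsq

private theorem IB_pi (Q0 : Finset ℕ) (hQ0 : ∀ p ∈ Q0, p.Prime ∧ p % 12 = 1) (z : ℕ)
    (hQz : ∏ p ∈ Q0, p ≤ z) :
    1 / (z : ℝ) ≤ ∏ p ∈ Q0, (1 - 1 / (4 * (p : ℝ))) := by
  have hpos : (0 : ℝ) < ∏ p ∈ Q0, (p : ℝ) :=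
    prod_pos (fun p hp => by exact_mod_cast (hQ0 p hp).1.pos)
  have h1 : 1 / (z : ℝ) ≤ ∏ p ∈ Q0, (1 / (p : ℝ)) := by
    have a1 : (∏ p ∈ Q0, (p : ℝ)) ≤ z := by
      have := (Nat.cast_le (α := ℝ)).2 hQz
      push_cast at this
      exact this
    have e : ∏ p ∈ Q0, (1 / (p : ℝ)) = 1 / ∏ p ∈ Q0, (p : ℝ) := by
      rw [prod_div_distrib, prod_const_one]
    rw [e]
    exact one_div_le_one_div_of_le hpos a1
  refine h1.trans (prod_le_prod (fun p _ => by positivity) ?_)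
  intro p hp
  obtain ⟨h2, h3⟩ := hQ0 p hp
  have hp13 : 13 ≤ p := by have := h2.two_le; omega
  have h5 : (13 : ℝ) ≤ p := by exact_mod_cast hp13
  have h6 : 1 / (p : ℝ) ≤ 1 / 13 := one_div_le_one_div_of_le (by norm_num) h5
  have h7 : 1 / (4 * (p : ℝ)) ≤ 1 / 52 := one_div_le_one_div_of_le (by norm_num) (by linarith only [h5])
  linarith only [h6, h7]

private theorem IB_ll (z : ℕ) (hz : 2 ≤ z) : 1 / (z : ℝ) ≤ Real.exp (-(ll z)) := by
  have hz' : (2 : ℝ) ≤ z := by exact_mod_cast hz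
  have hl : 0 < Real.log z := Real.log_pos (by linarith)
  unfold ll
  rw [Real.exp_neg, Real.exp_log hl, ← one_div]
  apply one_div_le_one_div_of_le hl
  have := Real.log_le_sub_one_of_pos (show (0 : ℝ) < z by linarith)
  linarith

private theorem IB_rp (z R s : ℕ) (hz : 2 ≤ z) (hR : z ^ (40 * (7 * s + 8)) ≤ R) :
    (R : ℝ) ^ (2 - 1 / 40 : ℝ) ≤ (R : ℝ) ^ 2 / (z : ℝ) ^ (7 * s + 8) := by
  have hz' : (2 : ℝ) ≤ z := by exact_mod_cast hz
  have hzp : 0 < z ^ (40 * (7 * s + 8)) := by positivity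
  have hR0 : (0 : ℝ) < R := by
    have : 0 < R := lt_of_lt_of_le hzp hR
    exact_mod_cast this
  rw [Real.rpow_sub hR0]
  have e : (R : ℝ) ^ (2 : ℝ) = (R : ℝ) ^ 2 := by
    exact_mod_cast Real.rpow_natCast (R : ℝ) 2
  rw [e]
  apply div_le_div_of_nonneg_left (by positivity) (by positivity)
  have h1 : ((z : ℝ) ^ (7 * s + 8)) ^ 40 ≤ R := by
    rw [← pow_mul, mul_comm]
    exact_mod_cast hR
  have h2 : (((z : ℝ) ^ (7 * s + 8)) ^ 40) ^ ((1 : ℝ) / 40) ≤ (R : ℝ) ^ ((1 : ℝ) / 40) :=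
    Real.rpow_le_rpow (by positivity) h1 (by norm_num)
  have h3 : (((z : ℝ) ^ (7 * s + 8)) ^ 40) ^ ((1 : ℝ) / 40) = (z : ℝ) ^ (7 * s + 8) := by
    have := Real.pow_rpow_inv_natCast (x := (z : ℝ) ^ (7 * s + 8)) (n := 40) (by positivity)
      (by norm_num)
    rw [one_div]
    exact_mod_cast this
  rwa [h3] at h2

theorem I2U : ∃ T0 : ℕ, 1 ≤ T0 ∧ ∃ C : ℝ, 0 < C ∧ ∀ Q0 : Finset ℕ,
    (∀ p ∈ Q0, p.Prime ∧ p % 12 = 1) → ∃ z0 : ℕ, 2 ≤ z0 ∧
    ∀ x U z : ℕ, z0 ≤ z → z ^ T0 ≤ U → U ≤ 2 * x + 1 →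
    ∀ S : Finset ℕ, (∀ n ∈ S, 1 ≤ n ∧ n ≤ x ∧ ∃ A B : ℤ, A ^ 2 + B ^ 2 = (n : ℤ) ^ 2 + n + 1 ∧
      (2 : ℤ) ∣ B ∧ 0 < A ∧ (U : ℤ) < 2 * n + 1 - 2 * A ∧ 2 * n + 1 - 2 * A ≤ 2 * (U : ℤ) ∧
      (∀ p ∈ pr 13 (z + 1), p % 12 = 1 → ¬ p ∣ n ^ 2 + n + 1) ∧
      (∀ p ∈ Q0, p ∣ n → ∀ ι : ZMod p, ι ^ 2 = -1 →
        IsSquare ((A : ZMod p) + (B : ZMod p) * ι))) →
    (S.card : ℝ) ≤ C * (∏ p ∈ Q0, (1 - 1 / (4 * (p : ℝ)))) * Real.sqrt (x * U) *
      Real.exp (-(ll z)) := by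
  classical
  obtain ⟨s, hs, Ce, Cr, hCe, hCr, hsv⟩ := IB_sieve
  refine ⟨2 * (40 * (7 * s + 8)) + 4, by omega, 22 * (448 * Real.exp Cr + Ce), by positivity, ?_⟩
  intro Q0 hQ0
  refine ⟨2 + ∏ p ∈ Q0, p, by omega, ?_⟩
  intro x U z hz hzU hUx S hS
  have hQz : ∏ p ∈ Q0, p ≤ z := by omega
  have hz2 : 2 ≤ z := by omega
  have hzK : z ^ (40 * (7 * s + 8)) ≤ Nat.sqrt (U / 2) := by
    apply Nat.le_sqrt.2
    have h1 : z ^ (40 * (7 * s + 8)) * z ^ (40 * (7 * s + 8)) * 16 ≤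
        z ^ (2 * (40 * (7 * s + 8)) + 4) := by
      have h16 : 16 ≤ z ^ 4 := by
        have := Nat.pow_le_pow_left hz2 4
        norm_num at this
        exact this
      calc z ^ (40 * (7 * s + 8)) * z ^ (40 * (7 * s + 8)) * 16
          ≤ z ^ (40 * (7 * s + 8)) * z ^ (40 * (7 * s + 8)) * z ^ 4 := Nat.mul_le_mul_left _ h16
        _ = z ^ (2 * (40 * (7 * s + 8)) + 4) := by ring
    generalize z ^ (40 * (7 * s + 8)) * z ^ (40 * (7 * s + 8)) = w at h1 ⊢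
    omega
  have hU128 : 128 ≤ U := by
    have h1 : 2 ^ 7 ≤ 2 ^ (2 * (40 * (7 * s + 8)) + 4) :=
      Nat.pow_le_pow_right (by norm_num) (by omega)
    have h2 : 2 ^ (2 * (40 * (7 * s + 8)) + 4) ≤ z ^ (2 * (40 * (7 * s + 8)) + 4) :=
      Nat.pow_le_pow_left hz2 _
    have h3 := h1.trans (h2.trans hzU)
    norm_num at h3
    exact h3
  have hx : 1 ≤ x := by omega
  have hR1 : 1 ≤ Nat.sqrt (U / 2) := by
    have : 0 < z ^ (40 * (7 * s + 8)) := by positivity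
    omega
  set R := Nat.sqrt (U / 2) with hRdef
  set L := 3 * Nat.sqrt (x / U) + 8 with hLdef
  set BB : ℤ → Finset (ℤ × ℤ × ℤ) := fun σ =>
    ((box R L).filter (fun x => ∀ p ∈ Q0, G2 σ p x.1 x.2.1 x.2.2 (qq x))).filter
      (fun x => ∀ p ∈ ((pr 13 (z + 1)).filter (fun p => p % 12 = 1)) \ Q0,
        ¬ (p : ℤ) ∣ F2 x.1 x.2.1 x.2.2 (qq x)) with hBB
  set g : ℤ → ℤ × ℤ × ℤ → ℕ := fun σ y =>
    ((σ * (y.1 ^ 2 - 3 * y.2.1 ^ 2 + (y.2.2 ^ 2 - 3 * (qq y) ^ 2)) - 2) / 4).toNat with hg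
  have hcov : S ⊆ (BB 1).image (g 1) ∪ (BB (-1)).image (g (-1)) := by
    intro n hn
    obtain ⟨hn1, hnx, A, B, hAB, hB, hA, hu1, hu2, hnd, hsq⟩ := hS n hn
    obtain ⟨σ, hσ, y, hy, e1, e2, e3⟩ := IB_mem x U hU128 n hnx A B hAB hu1 hu2
    have hyB : y ∈ BB σ := by
      rw [hBB]
      simp only [mem_filter]
      refine ⟨⟨hy, ?_⟩, ?_⟩
      · intro p hp
        obtain ⟨hp1, hp2⟩ := hQ0 p hp
        have hp13 : 13 ≤ p := by have := hp1.two_le; omega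
        have hpz : p ≤ z := by
          have h3 : p ∣ ∏ p ∈ Q0, p := dvd_prod_of_mem (fun p => p) hp
          have h4 : p ≤ ∏ p ∈ Q0, p :=
            Nat.le_of_dvd (prod_pos (fun q hq => (hQ0 q hq).1.pos)) h3
          omega
        have hpm : p ∈ pr 13 (z + 1) := mem_pr.2 ⟨⟨hp13, by omega⟩, hp1⟩
        exact IB_G2 p hp1 hp13 σ hσ _ _ _ _ n A B e1 e2 e3 (hnd p hpm hp2) (hsq p hp)
      · intro p hp
        rw [mem_sdiff, mem_filter] at hp
        obtain ⟨⟨hpm, hp2⟩, hpQ⟩ := hp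
        have := mem_pr.1 hpm
        exact IB_nd p this.2 this.1.1 σ hσ _ _ _ _ n e1 (hnd p hpm hp2)
    have hgy : g σ y = n := by
      rw [hg]
      simp only
      rw [e1]
      have : (4 * (n : ℤ) + 2 - 2) / 4 = n := by omega
      rw [this]
      simp
    rw [mem_union]
    rcases hσ with rfl | rfl
    · left
      exact mem_image.2 ⟨y, hyB, hgy⟩
    · right
      exact mem_image.2 ⟨y, hyB, hgy⟩
  have hcard : S.card ≤ (BB 1).card + (BB (-1)).card := by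
    refine (card_le_card hcov).trans ((card_union_le _ _).trans ?_)
    exact Nat.add_le_add card_image_le card_image_le
  have hpi := IB_pi Q0 hQ0 z hQz
  have hll := IB_ll z hz2
  have hz' : (2 : ℝ) ≤ z := by exact_mod_cast hz2
  have hz0 : (0 : ℝ) < z := by linarith only [hz']
  have hLR : (L : ℝ) * (R : ℝ) ^ 2 ≤ 11 * Real.sqrt (x * U) := IB_LR x U (by omega) hx hUx
  set PI0 := ∏ p ∈ Q0, (1 - 1 / (4 * (p : ℝ))) with hPi
  have hPi0 : 0 < PI0 := lt_of_lt_of_le (by positivity) hpi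
  have hbd : ∀ σ : ℤ, σ = 1 ∨ σ = -1 → ((BB σ).card : ℝ) ≤
      (448 * Real.exp Cr + Ce) * ((L : ℝ) * (R : ℝ) ^ 2) * PI0 * Real.exp (-(ll z)) := by
    intro σ hσ
    have h1 := hsv Q0 hQ0 z hz2 hQz R L hR1 (by omega) σ hσ
    have h2 : (z : ℝ) ^ s * (Ce * L * ((z : ℝ) * (z : ℝ) ^ s) ^ 6 *
        (R : ℝ) ^ (2 - 1 / 40 : ℝ)) ≤ Ce * ((L : ℝ) * (R : ℝ) ^ 2) * (PI0 * Real.exp (-(ll z))) := by
      have h3 := IB_rp z R s hz2 hzK
      have h4 : 1 / (z : ℝ) ^ 2 ≤ PI0 * Real.exp (-(ll z)) := by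
        calc 1 / (z : ℝ) ^ 2 = (1 / z) * (1 / z) := by
              rw [one_div_mul_one_div, sq]
          _ ≤ PI0 * Real.exp (-(ll z)) := mul_le_mul hpi hll (by positivity) hPi0.le
      calc (z : ℝ) ^ s * (Ce * L * ((z : ℝ) * (z : ℝ) ^ s) ^ 6 * (R : ℝ) ^ (2 - 1 / 40 : ℝ))
          ≤ (z : ℝ) ^ s * (Ce * L * ((z : ℝ) * (z : ℝ) ^ s) ^ 6 *
            ((R : ℝ) ^ 2 / (z : ℝ) ^ (7 * s + 8))) := by
            apply mul_le_mul_of_nonneg_left _ (by positivity)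
            apply mul_le_mul_of_nonneg_left h3 (by positivity)
        _ = Ce * ((L : ℝ) * (R : ℝ) ^ 2) * (1 / (z : ℝ) ^ 2) := by
            have e : (z : ℝ) ^ (7 * s + 8) = (z : ℝ) ^ s * ((z : ℝ) * (z : ℝ) ^ s) ^ 6 *
                (z : ℝ) ^ 2 := by ring
            rw [e]
            have hne : (z : ℝ) ≠ 0 := hz0.ne'
            have hne2 : (z : ℝ) ^ s ≠ 0 := pow_ne_zero _ hne
            field_simp
        _ ≤ Ce * ((L : ℝ) * (R : ℝ) ^ 2) * (PI0 * Real.exp (-(ll z))) := by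
            apply mul_le_mul_of_nonneg_left h4 (by positivity)
    have h5 : ((BB σ).card : ℝ) ≤ 448 * (L * (R : ℝ) ^ 2) * PI0 * Real.exp Cr *
      Real.exp (-(ll z)) +
      (z : ℝ) ^ s * (Ce * L * ((z : ℝ) * (z : ℝ) ^ s) ^ 6 * (R : ℝ) ^ (2 - 1 / 40 : ℝ)) := by
      rw [hBB]
      convert h1
    calc ((BB σ).card : ℝ) ≤ _ := h5
      _ ≤ 448 * (L * (R : ℝ) ^ 2) * PI0 * Real.exp Cr * Real.exp (-(ll z)) +
          Ce * ((L : ℝ) * (R : ℝ) ^ 2) * (PI0 * Real.exp (-(ll z))) := by linarith only [h2]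
      _ = _ := by ring
  have hb1 := hbd 1 (Or.inl rfl)
  have hb2 := hbd (-1) (Or.inr rfl)
  have hcard' : (S.card : ℝ) ≤ (BB 1).card + (BB (-1)).card := by exact_mod_cast hcard
  calc (S.card : ℝ) ≤ 2 * ((448 * Real.exp Cr + Ce) * ((L : ℝ) * (R : ℝ) ^ 2) * PI0 *
        Real.exp (-(ll z))) := by linarith only [hb1, hb2, hcard']
    _ ≤ 2 * ((448 * Real.exp Cr + Ce) * (11 * Real.sqrt (x * U)) * PI0 *
        Real.exp (-(ll z))) := by
        apply mul_le_mul_of_nonneg_left _ (by norm_num)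
        apply mul_le_mul_of_nonneg_right _ (Real.exp_pos _).le
        apply mul_le_mul_of_nonneg_right _ hPi0.le
        apply mul_le_mul_of_nonneg_left hLR (by positivity)
    _ = _ := by ring

end Pool.Agent.H37.PPE
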