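import Pool.Agent.H37.PPE.KM

/-!
PPE KH: points on the modular hyperbola s t ≡ -1 mod m in a box, with s, t in residue classes mod n, (m,n) = 1.

e(x) = exp(2πi x/m) = stdAddChar.  1[m ∣ s t + 1] = (1/m²) ∑_{a,b mod m} K(a,-b) e(-(a s + b t)) where K(a,b) = ∑_x e(a x + b x⁻¹)
 (orthogonality: for s unit t ≡ -s⁻¹).  So the count is (1/m²) ∑_{a,b} K(a,-b) G_I(a) G_J(b), G_I(a) = ∑_{s∈I, s≡σ(n)} e(-a s).
(a,b) = (0,0): φ(m) #{s} #{t} / m², #{s} = |I|/n + O(1): difference to φ(m)|I||J|/(mn)² at most (1/m)(|I|/n + |J|/n + 1).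
 a ≠ 0 mod m: geometric progression with ratio e(-a n): |G_I(a)| ≤ 1/(2 ‖a n/m‖) = 1/|sin| type bound, ‖·‖ = distance to the nearest integer;
 G_I(0) ≤ |I|/n + 1.
 ∑_{a≠0} gcd(a,m)^{1/4} /(2‖a n/m‖) = ∑_{a'=1}^{m-1} gcd(a',m)^{1/4}/(2‖a'/m‖) (a' = a n mod m, gcd(n,m)=1)
   ≤ ∑_{d|m} d^{1/4} ∑_{1≤j<m/d} (m/d) /(2 min(j, m/d - j)) ≤ τ(m) m (1 + log m).
 KM: |K(a,b)| ≤ 2^ω(m) m^{3/4} gcd(a,b,m)^{1/4}, gcd(a,b,m) ≤ gcd(a,m), 2^ω(m) = τ(m).
 Sum of the error: (1/m²) τ(m) m^{3/4} τ(m) [ m²(1+log m)² + m(1+log m)(|I|/n+1) + m(1+log m)(|J|/n+1) ].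
-/

set_option autoImplicit false

namespace Pool.Agent.H37.PPE

open Finset

private theorem kh_tele (F : ℤ → ℂ) {A B : ℤ} (h : A ≤ B) :
    ∑ k ∈ Ico A B, (F k - F (k + 1)) = F A - F B := by
  induction B, h using Int.leInduction with
  | base => simp
  | succ B hB ih =>
    have h1 : Ico A (B + 1) = insert B (Ico A B) := by
      ext x
      simp only [mem_Ico, mem_insert]
      omega
    rw [h1, sum_insert (by simp), ih]
    ring

private theorem kh_geom {m : ℕ} [NeZero m] (c : ZMod m) (A B : ℤ) :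
    ‖1 - (ZMod.stdAddChar c : ℂ)‖ *
      ‖∑ k ∈ Ico A B, (ZMod.stdAddChar ((k : ZMod m) * c) : ℂ)‖ ≤ 2 := by
  have hn : ∀ y : ZMod m, ‖(ZMod.stdAddChar y : ℂ)‖ = 1 := fun y => AddChar.norm_apply _ y
  rcases le_or_gt A B with h | h
  · rw [← norm_mul, mul_sum]
    have h1 : ∑ k ∈ Ico A B, (1 - (ZMod.stdAddChar c : ℂ)) * ZMod.stdAddChar ((k : ZMod m) * c) =
        ∑ k ∈ Ico A B, ((ZMod.stdAddChar ((k : ZMod m) * c) : ℂ) -
          ZMod.stdAddChar (((k + 1 : ℤ) : ZMod m) * c)) := by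
      refine sum_congr rfl fun k _ => ?_
      have h2 : ((k + 1 : ℤ) : ZMod m) * c = (k : ZMod m) * c + c := by
        push_cast
        ring
      rw [h2, AddChar.map_add_eq_mul]
      ring
    rw [h1, kh_tele (fun k => (ZMod.stdAddChar ((k : ZMod m) * c) : ℂ)) h]
    refine (norm_sub_le _ _).trans ?_
    rw [hn, hn]
    norm_num
  · rw [Ico_eq_empty (by omega), sum_empty, norm_zero, mul_zero]
    norm_num

private theorem kh_one_sub {m : ℕ} [NeZero m] (c : ZMod m) (hc : c ≠ 0) :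
    4 * (min (c.val : ℝ) (m - c.val)) / m ≤ ‖1 - (ZMod.stdAddChar c : ℂ)‖ := by
  have hm : (0 : ℝ) < m := by
    have := NeZero.pos m
    exact_mod_cast this
  have hv0 : (0 : ℝ) < c.val := by
    have : 0 < c.val := ZMod.val_pos.2 hc
    exact_mod_cast this
  have hv1 : (c.val : ℝ) < m := by
    exact_mod_cast ZMod.val_lt c
  have h1 : (ZMod.stdAddChar c : ℂ) =
      Complex.exp (Complex.I * ((2 * Real.pi * (c.val : ℝ) / m : ℝ) : ℂ)) := by
    have h2 : c = ((c.val : ℤ) : ZMod m) := by simp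
    conv_lhs => rw [h2]
    rw [ZMod.stdAddChar_coe]
    congr 1
    push_cast
    ring
  rw [h1, norm_sub_rev, Complex.norm_exp_I_mul_ofReal_sub_one]
  have h3 : 2 * Real.pi * (c.val : ℝ) / m / 2 = Real.pi * (c.val / m) := by ring
  rw [h3]
  set x : ℝ := (c.val : ℝ) / m with hx
  have hx0 : 0 < x := by positivity
  have hx1 : x < 1 := by
    rw [hx, div_lt_one hm]
    exact hv1
  have hmin : min (c.val : ℝ) (m - c.val) = m * min x (1 - x) := by
    rw [mul_min_of_nonneg _ _ hm.le]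
    congr 1
    · rw [hx]
      field_simp
    · rw [hx]
      field_simp
  rw [hmin]
  have h4 : 4 * (m * min x (1 - x)) / m = 4 * min x (1 - x) := by
    field_simp
  rw [h4, Real.norm_eq_abs, abs_mul, abs_of_pos (by norm_num : (0 : ℝ) < 2)]
  have hs : 2 * min x (1 - x) ≤ Real.sin (Real.pi * x) := by
    have hpi := Real.pi_pos
    rcases le_or_gt x (1 / 2) with h | h
    · have h5 := Real.mul_le_sin (x := Real.pi * x) (by positivity) (by nlinarith only [hpi, h])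
      have h6 : 2 / Real.pi * (Real.pi * x) = 2 * x := by
        field_simp
      rw [h6] at h5
      exact (mul_le_mul_of_nonneg_left (min_le_left _ _) (by norm_num)).trans h5
    · have h5 := Real.mul_le_sin (x := Real.pi * (1 - x))
        (mul_nonneg hpi.le (by linarith only [hx1])) (by nlinarith only [hpi, h])
      have h6 : 2 / Real.pi * (Real.pi * (1 - x)) = 2 * (1 - x) := by
        field_simp
      have h7 : Real.sin (Real.pi * (1 - x)) = Real.sin (Real.pi * x) := by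
        rw [mul_sub, mul_one, Real.sin_pi_sub]
      rw [h6, h7] at h5
      exact (mul_le_mul_of_nonneg_left (min_le_right _ _) (by norm_num)).trans h5
  have := le_abs_self (Real.sin (Real.pi * x))
  linarith

/-- the geometric sum over a residue class in an interval -/
private theorem kh_G {m : ℕ} [NeZero m] (c : ZMod m) (hc : c ≠ 0) (A B : ℤ) :
    ‖∑ k ∈ Ico A B, (ZMod.stdAddChar ((k : ZMod m) * c) : ℂ)‖ ≤
      (m : ℝ) / 2 * (1 / (c.val : ℝ) + 1 / ((m : ℝ) - c.val)) := by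
  have hm : (0 : ℝ) < m := by
    have := NeZero.pos m
    exact_mod_cast this
  have hv0 : (0 : ℝ) < c.val := by
    have : 0 < c.val := ZMod.val_pos.2 hc
    exact_mod_cast this
  have hv1 : (0 : ℝ) < (m : ℝ) - c.val := by
    have : (c.val : ℝ) < m := by exact_mod_cast ZMod.val_lt c
    linarith
  have h1 := kh_geom c A B
  have h2 := kh_one_sub c hc
  set g := ‖∑ k ∈ Ico A B, (ZMod.stdAddChar ((k : ZMod m) * c) : ℂ)‖ with hg
  have hg0 : 0 ≤ g := norm_nonneg _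
  set μ := min (c.val : ℝ) ((m : ℝ) - c.val) with hμ
  have hμ0 : 0 < μ := lt_min hv0 hv1
  have h3 : 4 * μ / m * g ≤ 2 := (mul_le_mul_of_nonneg_right h2 hg0).trans h1
  have h4 : g ≤ (m : ℝ) / 2 * (1 / μ) := by
    rw [div_mul_eq_mul_div, div_le_iff₀ hm] at h3
    rw [mul_one_div, le_div_iff₀ hμ0]
    linarith only [h3]
  have h5 : 1 / μ ≤ 1 / (c.val : ℝ) + 1 / ((m : ℝ) - c.val) := by
    have p1 : 0 < 1 / (c.val : ℝ) := by positivity
    have p2 : 0 < 1 / ((m : ℝ) - c.val) := by positivity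
    rcases min_choice (c.val : ℝ) ((m : ℝ) - c.val) with h | h
    · rw [hμ, h]
      linarith only [p2]
    · rw [hμ, h]
      linarith only [p1]
  exact h4.trans (mul_le_mul_of_nonneg_left h5 (by positivity))


/-- the residue class in an interval as an arithmetic progression -/
private theorem kh_ap (n : ℕ) (hn : 1 ≤ n) (I1 I2 σ : ℤ) :
    (Ico I1 I2).filter (fun s => (n : ℤ) ∣ s - σ) =
      (Ico (-((σ - I1) / n)) (-((σ - I2) / n))).image (fun k => σ + n * k) := by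
  have hn' : (0 : ℤ) < n := by exact_mod_cast hn
  have key : ∀ (I k : ℤ), I ≤ σ + n * k ↔ -((σ - I) / n) ≤ k := by
    intro I k
    rw [neg_le, Int.le_ediv_iff_mul_le hn']
    constructor <;> intro h <;> nlinarith only [h]
  ext s
  simp only [mem_filter, mem_Ico, mem_image]
  constructor
  · rintro ⟨⟨h1, h2⟩, k, hk⟩
    have hs : s = σ + n * k := by linarith
    refine ⟨k, ⟨(key I1 k).1 (by rw [← hs]; exact h1), ?_⟩, hs.symm⟩
    by_contra h3
    push Not at h3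
    have := (key I2 k).2 h3
    omega
  · rintro ⟨k, ⟨h1, h2⟩, rfl⟩
    refine ⟨⟨(key I1 k).2 h1, ?_⟩, ⟨k, by ring⟩⟩
    by_contra h3
    push Not at h3
    have := (key I2 k).1 h3
    omega

private theorem kh_inj (n : ℕ) (hn : 1 ≤ n) (σ : ℤ) :
    Function.Injective (fun k : ℤ => σ + n * k) := by
  intro a b h
  have hn' : (n : ℤ) ≠ 0 := by
    have : n ≠ 0 := by omega
    exact_mod_cast this
  have h1 : (n : ℤ) * a = n * b := by
    simpa using h
  exact mul_left_cancel₀ hn' h1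

private theorem kh_card (n : ℕ) (hn : 1 ≤ n) (I1 I2 σ : ℤ) (h : I1 ≤ I2) :
    |(((Ico I1 I2).filter (fun s => (n : ℤ) ∣ s - σ)).card : ℝ) - ((I2 - I1 : ℤ) : ℝ) / n| ≤ 1 := by
  have hn' : (0 : ℤ) < n := by exact_mod_cast hn
  have hnr : (0 : ℝ) < n := by exact_mod_cast hn
  rw [kh_ap n hn, card_image_of_injective _ (kh_inj n hn σ), Int.card_Ico]
  have h1 : (σ - I2) / n ≤ (σ - I1) / n := Int.ediv_le_ediv hn' (by linarith)
  have h2 : ((-((σ - I2) / (n : ℤ)) - -((σ - I1) / (n : ℤ))).toNat : ℝ) =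
      (((σ - I1) / (n : ℤ) : ℤ) : ℝ) - (((σ - I2) / (n : ℤ) : ℤ) : ℝ) := by
    have h3 : (((-((σ - I2) / (n : ℤ)) - -((σ - I1) / (n : ℤ))).toNat : ℤ)) =
        (σ - I1) / n - (σ - I2) / n := by
      rw [Int.toNat_of_nonneg (by omega)]
      ring
    have h4 : ((((-((σ - I2) / (n : ℤ)) - -((σ - I1) / (n : ℤ))).toNat : ℤ)) : ℝ) =
        (((σ - I1) / n - (σ - I2) / n : ℤ) : ℝ) := by rw [h3]
    push_cast at h4
    exact h4
  rw [h2]
  have a1 := Int.ediv_mul_le (σ - I1) hn'.ne'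
  have a2 := Int.lt_ediv_add_one_mul_self (σ - I1) hn'
  have b1 := Int.ediv_mul_le (σ - I2) hn'.ne'
  have b2 := Int.lt_ediv_add_one_mul_self (σ - I2) hn'
  set P := (σ - I1) / (n : ℤ) with hP
  set Q := (σ - I2) / (n : ℤ) with hQ
  have a1' : (P : ℝ) * n ≤ σ - I1 := by exact_mod_cast a1
  have a2' : (σ : ℝ) - I1 < (P + 1) * n := by exact_mod_cast a2
  have b1' : (Q : ℝ) * n ≤ σ - I2 := by exact_mod_cast b1
  have b2' : (σ : ℝ) - I2 < (Q + 1) * n := by exact_mod_cast b2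
  push_cast
  have e : (P : ℝ) - Q - (I2 - I1) / n = ((P - Q) * n - (I2 - I1)) / n := by
    field_simp
  rw [e, abs_div, abs_of_pos hnr, div_le_one hnr, abs_le]
  constructor <;> nlinarith only [a2', b1', a1', b2']

/-- the geometric sums -/
private noncomputable def khS (m n : ℕ) (I1 I2 σ : ℤ) (a : ZMod m) [NeZero m] : ℂ :=
  ∑ s ∈ (Ico I1 I2).filter (fun s => (n : ℤ) ∣ s - σ), ZMod.stdAddChar (a * (s : ZMod m))

private theorem khS_norm {m : ℕ} [NeZero m] (n : ℕ) (hn : 1 ≤ n) (I1 I2 σ : ℤ) (a : ZMod m) :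
    ‖khS m n I1 I2 σ a‖ = ‖∑ k ∈ Ico (-((σ - I1) / n)) (-((σ - I2) / n)),
      (ZMod.stdAddChar ((k : ZMod m) * (a * (n : ZMod m))) : ℂ)‖ := by
  unfold khS
  rw [kh_ap n hn, sum_image fun x _ y _ hxy => kh_inj n hn σ hxy]
  have h1 : ∀ k : ℤ, (ZMod.stdAddChar (a * ((σ + n * k : ℤ) : ZMod m)) : ℂ) =
      ZMod.stdAddChar (a * (σ : ZMod m)) * ZMod.stdAddChar ((k : ZMod m) * (a * (n : ZMod m))) := by
    intro k
    rw [← AddChar.map_add_eq_mul]
    congr 1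
    push_cast
    ring
  rw [sum_congr rfl fun k _ => h1 k, ← mul_sum, norm_mul, AddChar.norm_apply, one_mul]

private theorem khS_zero {m : ℕ} [NeZero m] (n : ℕ) (I1 I2 σ : ℤ) :
    khS m n I1 I2 σ 0 = (((Ico I1 I2).filter (fun s => (n : ℤ) ∣ s - σ)).card : ℂ) := by
  unfold khS
  simp

/-- the expansion of the indicator -/
private theorem kh_ind {m : ℕ} [NeZero m] (s t : ZMod m) :
    ∑ a : ZMod m, ∑ b : ZMod m, (ZMod.stdAddChar (a * s) : ℂ) * ZMod.stdAddChar (b * t) *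
      ∑ x : (ZMod m)ˣ, ZMod.stdAddChar (-a * (x : ZMod m) + b * ((x⁻¹ : (ZMod m)ˣ) : ZMod m)) =
    (m : ℂ) ^ 2 * (if s * t + 1 = 0 then 1 else 0) := by
  classical
  have horth : ∀ y : ZMod m, ∑ a : ZMod m, (ZMod.stdAddChar (a * y) : ℂ) =
      if y = 0 then (m : ℂ) else 0 := by
    intro y
    rw [AddChar.sum_mulShift _ (ZMod.isPrimitive_stdAddChar m), ZMod.card]
    push_cast
    rfl
  have h1 : ∑ a : ZMod m, ∑ b : ZMod m, (ZMod.stdAddChar (a * s) : ℂ) * ZMod.stdAddChar (b * t) *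
      ∑ x : (ZMod m)ˣ, ZMod.stdAddChar (-a * (x : ZMod m) + b * ((x⁻¹ : (ZMod m)ˣ) : ZMod m)) =
      ∑ x : (ZMod m)ˣ, (∑ a : ZMod m, (ZMod.stdAddChar (a * (s - (x : ZMod m))) : ℂ)) *
        (∑ b : ZMod m, (ZMod.stdAddChar (b * (t + ((x⁻¹ : (ZMod m)ˣ) : ZMod m))) : ℂ)) := by
    have h2 : ∀ x : (ZMod m)ˣ, (∑ a : ZMod m, (ZMod.stdAddChar (a * (s - (x : ZMod m))) : ℂ)) *
        (∑ b : ZMod m, (ZMod.stdAddChar (b * (t + ((x⁻¹ : (ZMod m)ˣ) : ZMod m))) : ℂ)) =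
        ∑ a : ZMod m, ∑ b : ZMod m, (ZMod.stdAddChar (a * s) : ℂ) * ZMod.stdAddChar (b * t) *
          ZMod.stdAddChar (-a * (x : ZMod m) + b * ((x⁻¹ : (ZMod m)ˣ) : ZMod m)) := by
      intro x
      rw [sum_mul_sum]
      refine sum_congr rfl fun a _ => sum_congr rfl fun b _ => ?_
      rw [← AddChar.map_add_eq_mul, ← AddChar.map_add_eq_mul, ← AddChar.map_add_eq_mul]
      congr 1
      ring
    rw [sum_congr rfl fun x _ => h2 x]
    symm
    rw [sum_comm]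
    refine sum_congr rfl fun a _ => ?_
    rw [sum_comm]
    refine sum_congr rfl fun b _ => ?_
    rw [mul_sum]
  rw [h1]
  simp_rw [horth]
  by_cases hst : s * t + 1 = 0
  · rw [if_pos hst, mul_one]
    have hu : s * (-t) = 1 := by linear_combination -hst
    set x0 : (ZMod m)ˣ := ⟨s, -t, hu, by rw [mul_comm]; exact hu⟩ with hx0
    rw [sum_eq_single x0]
    · have e1 : s - (x0 : ZMod m) = 0 := by simp [hx0]
      have e2 : t + ((x0⁻¹ : (ZMod m)ˣ) : ZMod m) = 0 := by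
        have : ((x0⁻¹ : (ZMod m)ˣ) : ZMod m) = -t := rfl
        rw [this]
        ring
      rw [if_pos e1, if_pos e2]
      ring
    · intro x _ hx
      rw [if_neg, zero_mul]
      intro h3
      apply hx
      apply Units.ext
      exact (sub_eq_zero.1 h3).symm
    · intro h3
      exact absurd (mem_univ _) h3
  · rw [if_neg hst, mul_zero]
    refine sum_eq_zero fun x _ => ?_
    by_cases e1 : s - (x : ZMod m) = 0
    · by_cases e2 : t + ((x⁻¹ : (ZMod m)ˣ) : ZMod m) = 0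
      · exfalso
        apply hst
        have e3 : s = x := sub_eq_zero.1 e1
        have e4 : t = -((x⁻¹ : (ZMod m)ˣ) : ZMod m) := eq_neg_of_add_eq_zero_left e2
        rw [e3, e4, mul_neg, Units.mul_inv]
        ring
      · rw [if_neg e2, mul_zero]
    · rw [if_neg e1, zero_mul]


private theorem kh_gcd {m : ℕ} [NeZero m] (n : ℕ) (hmn : m.Coprime n) (a : ZMod m) :
    Nat.gcd (a * (n : ZMod m)).val m = Nat.gcd a.val m := by
  have h1 : (a * (n : ZMod m)).val ≡ a.val * n [MOD m] := by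
    rw [← ZMod.natCast_eq_natCast_iff]
    push_cast
    simp
  rw [h1.gcd_eq]
  exact Nat.Coprime.gcd_mul_right_cancel _ hmn.symm

private theorem kh_refl (m : ℕ) (w : ℕ → ℝ) :
    ∑ v ∈ Ico 1 m, w (Nat.gcd v m) * (1 / ((m : ℝ) - v)) =
      ∑ v ∈ Ico 1 m, w (Nat.gcd v m) * (1 / (v : ℝ)) := by
  refine sum_nbij' (fun v => m - v) (fun v => m - v) ?_ ?_ ?_ ?_ ?_
  · intro v hv
    rw [mem_Ico] at hv ⊢
    omega
  · intro v hv
    rw [mem_Ico] at hv ⊢
    omega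
  · intro v hv
    rw [mem_Ico] at hv
    omega
  · intro v hv
    rw [mem_Ico] at hv
    omega
  · intro v hv
    rw [mem_Ico] at hv
    have h1 : Nat.gcd (m - v) m = Nat.gcd v m := by
      rw [Nat.gcd_comm (m - v) m, Nat.gcd_comm v m]
      exact Nat.gcd_self_sub_right hv.2.le
    have h2 : ((m - v : ℕ) : ℝ) = (m : ℝ) - v := Nat.cast_sub hv.2.le
    rw [h1, h2]

private theorem kh_sum {m : ℕ} [NeZero m] (n : ℕ) (hmn : m.Coprime n) (w : ℕ → ℝ)
    (hw : ∀ k, 0 ≤ w k) (G : ZMod m → ℝ)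
    (hG : ∀ a : ZMod m, a * (n : ZMod m) ≠ 0 → G a ≤ (m : ℝ) / 2 *
      (1 / ((a * (n : ZMod m)).val : ℝ) + 1 / ((m : ℝ) - (a * (n : ZMod m)).val))) :
    ∑ a ∈ (univ : Finset (ZMod m)).erase 0, w (Nat.gcd a.val m) * G a ≤
      m * ∑ v ∈ Ico 1 m, w (Nat.gcd v m) * (1 / (v : ℝ)) := by
  have hu : IsUnit (n : ZMod m) := (ZMod.isUnit_iff_coprime n m).2 hmn.symm
  obtain ⟨u, hu'⟩ := hu
  have hne : ∀ a : ZMod m, a ≠ 0 → a * (n : ZMod m) ≠ 0 := by
    intro a ha h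
    apply ha
    rw [← hu'] at h
    exact (Units.mul_left_eq_zero u).1 h
  set f : ℕ → ℝ := fun v => w (Nat.gcd v m) * ((m : ℝ) / 2 * (1 / (v : ℝ) + 1 / ((m : ℝ) - v)))
    with hf
  have h1 : ∑ a ∈ (univ : Finset (ZMod m)).erase 0, w (Nat.gcd a.val m) * G a ≤
      ∑ a ∈ (univ : Finset (ZMod m)).erase 0, f (a * (n : ZMod m)).val := by
    refine sum_le_sum fun a ha => ?_
    rw [mem_erase] at ha
    simp only [hf]
    rw [kh_gcd n hmn a]
    exact mul_le_mul_of_nonneg_left (hG a (hne a ha.1)) (hw _)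
  have h2 : ∑ a ∈ (univ : Finset (ZMod m)).erase 0, f (a * (n : ZMod m)).val =
      ∑ v ∈ Ico 1 m, f v := by
    refine sum_nbij (fun a : ZMod m => (a * (n : ZMod m)).val) ?_ ?_ ?_ ?_
    · intro a ha
      rw [mem_erase] at ha
      rw [mem_Ico]
      exact ⟨ZMod.val_pos.2 (hne a ha.1), ZMod.val_lt _⟩
    · intro a _ b _ hab
      have h3 : a * (n : ZMod m) = b * (n : ZMod m) := ZMod.val_injective m hab
      rw [← hu'] at h3
      exact (Units.mul_left_inj u).1 h3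
    · intro v hv
      have hv' : v ∈ Ico 1 m := by simpa using hv
      rw [mem_Ico] at hv'
      have hv1 : ((v : ZMod m)).val = v := ZMod.val_natCast_of_lt hv'.2
      refine ⟨(v : ZMod m) * ((u⁻¹ : (ZMod m)ˣ) : ZMod m), ?_, ?_⟩
      · rw [mem_coe, mem_erase]
        refine ⟨?_, mem_univ _⟩
        intro h0
        have h4 : (v : ZMod m) = 0 := (Units.mul_left_eq_zero u⁻¹).1 h0
        rw [h4, ZMod.val_zero] at hv1
        omega
      · simp only
        rw [← hu', mul_assoc, Units.inv_mul, mul_one, hv1]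
    · intro a _
      rfl
  have h3 : ∑ v ∈ Ico 1 m, f v = (m : ℝ) / 2 * (∑ v ∈ Ico 1 m, w (Nat.gcd v m) * (1 / (v : ℝ))) +
      (m : ℝ) / 2 * (∑ v ∈ Ico 1 m, w (Nat.gcd v m) * (1 / ((m : ℝ) - v))) := by
    rw [mul_sum, mul_sum, ← sum_add_distrib]
    refine sum_congr rfl fun v _ => ?_
    simp only [hf]
    ring
  rw [h2, h3, kh_refl] at h1
  linarith only [h1]

private theorem kh_harm (N : ℕ) : ∑ v ∈ Icc 1 N, (1 / (v : ℝ)) ≤ 1 + Real.log N := by
  have h1 := harmonic_le_one_add_log N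
  have h2 : ((harmonic N : ℚ) : ℝ) = ∑ v ∈ Icc 1 N, (1 / (v : ℝ)) := by
    rw [harmonic_eq_sum_Icc]
    push_cast
    exact sum_congr rfl fun v _ => (one_div _).symm
  rwa [h2] at h1

private theorem kh_w1 (m : ℕ) : ∑ v ∈ Ico 1 m, (1 / (v : ℝ)) ≤ 1 + Real.log m := by
  refine le_trans (sum_le_sum_of_subset_of_nonneg ?_ fun v _ _ => by positivity) (kh_harm m)
  intro v hv
  rw [mem_Ico] at hv
  rw [mem_Icc]
  omega

private theorem kh_w2 (m : ℕ) (hm : 1 ≤ m) :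
    ∑ v ∈ Ico 1 m, ((Nat.gcd v m : ℕ) : ℝ) ^ (1 / 4 : ℝ) * (1 / (v : ℝ)) ≤
      (m.divisors.card : ℝ) * (1 + Real.log m) := by
  have hlog : 0 ≤ Real.log m := Real.log_nonneg (by exact_mod_cast hm)
  have h1 : ∀ v ∈ Ico 1 m, ((Nat.gcd v m : ℕ) : ℝ) ^ (1 / 4 : ℝ) * (1 / (v : ℝ)) ≤
      ∑ d ∈ m.divisors, if d ∣ v then (d : ℝ) ^ (1 / 4 : ℝ) * (1 / (v : ℝ)) else 0 := by
    intro v hv
    have hd : Nat.gcd v m ∈ m.divisors := Nat.mem_divisors.2 ⟨Nat.gcd_dvd_right v m, by omega⟩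
    have h2 := single_le_sum (f := fun d => if d ∣ v then (d : ℝ) ^ (1 / 4 : ℝ) * (1 / (v : ℝ)) else 0)
      (fun d _ => by
        split_ifs
        · positivity
        · exact le_refl 0) hd
    rwa [if_pos (Nat.gcd_dvd_left v m)] at h2
  refine (sum_le_sum h1).trans ?_
  rw [sum_comm]
  have h3 : ∀ d ∈ m.divisors, ∑ v ∈ Ico 1 m, (if d ∣ v then (d : ℝ) ^ (1 / 4 : ℝ) * (1 / (v : ℝ)) else 0)
      ≤ 1 + Real.log m := by
    intro d hd
    have hd0 : 0 < d := Nat.pos_of_mem_divisors hd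
    have hdr : (1 : ℝ) ≤ d := by exact_mod_cast hd0
    rw [← sum_filter]
    have h4 : (Ico 1 m).filter (fun v => d ∣ v) ⊆ (Icc 1 m).image (fun j => d * j) := by
      intro v hv
      rw [mem_filter, mem_Ico] at hv
      obtain ⟨⟨h5, h6⟩, j, rfl⟩ := hv
      rw [mem_image]
      refine ⟨j, ?_, rfl⟩
      rw [mem_Icc]
      constructor
      · by_contra h7
        have : j = 0 := by omega
        subst this
        simp at h5
      · exact (Nat.le_mul_of_pos_left j hd0).trans h6.le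
    refine (sum_le_sum_of_subset_of_nonneg h4 fun v _ _ => by positivity).trans ?_
    rw [sum_image fun x _ y _ hxy => Nat.eq_of_mul_eq_mul_left hd0 hxy]
    refine le_trans ?_ (kh_harm m)
    refine sum_le_sum fun j hj => ?_
    rw [mem_Icc] at hj
    have hj0 : (0 : ℝ) < j := by exact_mod_cast hj.1
    have h8 : (d : ℝ) ^ (1 / 4 : ℝ) ≤ d := by
      calc (d : ℝ) ^ (1 / 4 : ℝ) ≤ (d : ℝ) ^ (1 : ℝ) :=
            Real.rpow_le_rpow_of_exponent_le hdr (by norm_num)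
        _ = d := Real.rpow_one _
    push_cast
    calc (d : ℝ) ^ (1 / 4 : ℝ) * (1 / ((d : ℝ) * j)) ≤ d * (1 / ((d : ℝ) * j)) :=
          mul_le_mul_of_nonneg_right h8 (by positivity)
      _ = 1 / (j : ℝ) := by
          field_simp
  calc _ ≤ ∑ d ∈ m.divisors, (1 + Real.log m) := sum_le_sum h3
    _ = (m.divisors.card : ℝ) * (1 + Real.log m) := by rw [sum_const, nsmul_eq_mul]

private theorem kh_fin (m U V X Y t P κ φ cnt : ℝ) (hmr : 1 ≤ m) (hU0 : 0 ≤ U) (hV0 : 0 ≤ V)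
    (hX0 : 0 ≤ X) (hY0 : 0 ≤ Y) (ht1 : 1 ≤ t) (hP1 : 1 ≤ P) (hκ : κ = t * m ^ (3 / 4 : ℝ))
    (hφ0 : 0 ≤ φ) (hφ : φ ≤ m) (hXU : |X - U| ≤ 1) (hYV : |Y - V| ≤ 1)
    (hmain : |m ^ 2 * cnt - X * Y * φ| ≤
      κ * (m * (t * P)) * (Y + m * P) + X * (κ * (m * (t * P)))) :
    |cnt - U * V * φ / m ^ 2| ≤ 10 * t ^ 2 * m ^ (3 / 4 : ℝ) * P ^ 2 * (1 + U / m) * (1 + V / m) := by
  have hmp : (0 : ℝ) < m := by linarith
  obtain ⟨hx1, hx2⟩ := abs_le.1 hXU
  obtain ⟨hy1, hy2⟩ := abs_le.1 hYV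
  have hκ0 : 0 ≤ κ := by rw [hκ]; positivity
  set u : ℝ := U / m with hu
  set v : ℝ := V / m with hv
  have hu0 : 0 ≤ u := by positivity
  have hv0 : 0 ≤ v := by positivity
  have hUm : U = m * u := by rw [hu]; field_simp
  have hVm : V = m * v := by rw [hv]; field_simp
  have hm34 : 1 ≤ m ^ (3 / 4 : ℝ) := Real.one_le_rpow hmr (by norm_num)
  have hκt : κ * t = t ^ 2 * m ^ (3 / 4 : ℝ) := by rw [hκ]; ring
  -- first part
  have hf1 : |cnt - X * Y * φ / m ^ 2| ≤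
      4 * (κ * t * P ^ 2 * (1 + u) * (1 + v)) := by
    have e1 : cnt - X * Y * φ / m ^ 2 =
        (m ^ 2 * cnt - X * Y * φ) / m ^ 2 := by
      field_simp
    rw [e1, abs_div, abs_of_pos (by positivity : (0 : ℝ) < m ^ 2), div_le_iff₀ (by positivity)]
    refine hmain.trans ?_
    have e2 : κ * (m * (t * P)) * (Y + m * P) + X * (κ * (m * (t * P))) =
        κ * t * P * (m * (X + Y + m * P)) := by ring
    have e3 : 4 * (κ * t * P ^ 2 * (1 + u) * (1 + v)) * m ^ 2 =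
        κ * t * P * (4 * P * (1 + u) * (1 + v) * m ^ 2) := by ring
    rw [e2, e3]
    refine mul_le_mul_of_nonneg_left ?_ (by positivity)
    have e4 : X + Y + m * P ≤ m * (4 * P * (1 + u) * (1 + v)) := by
      have e5 : X ≤ m * u + 1 := by linarith only [hx2, hUm]
      have e6 : Y ≤ m * v + 1 := by linarith only [hy2, hVm]
      have e7 : X + Y + m * P ≤ m * (u + v + 2 + P) := by nlinarith only [hmr, hx2, hy2, hUm, hVm]
      refine e7.trans (mul_le_mul_of_nonneg_left ?_ hmp.le)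
      nlinarith only [hP1, hu0, hv0, mul_nonneg (mul_nonneg hu0 hv0) (by linarith : (0 : ℝ) ≤ P - 1)]
    calc m * (X + Y + m * P) ≤ m * (m * (4 * P * (1 + u) * (1 + v))) :=
          mul_le_mul_of_nonneg_left e4 hmp.le
      _ = 4 * P * (1 + u) * (1 + v) * m ^ 2 := by ring
  have hf2 : |X * Y * φ / m ^ 2 - U * V * φ / m ^ 2| ≤
      (1 + u) * (1 + v) := by
    have e1 : X * Y * φ / m ^ 2 - U * V * φ / m ^ 2 =
        ((X - U) * Y + U * (Y - V)) * (φ / m ^ 2) := by ring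
    have e2 : |(X - U) * Y + U * (Y - V)| ≤ m * ((1 + u) * (1 + v)) := by
      have e3 : |(X - U) * Y + U * (Y - V)| ≤ 1 * Y + U * 1 := by
        refine (abs_add_le _ _).trans ?_
        rw [abs_mul, abs_mul, abs_of_nonneg hY0, abs_of_nonneg hU0]
        exact add_le_add (mul_le_mul_of_nonneg_right hXU hY0) (mul_le_mul_of_nonneg_left hYV hU0)
      refine e3.trans ?_
      have e4 : Y ≤ m * v + 1 := by linarith
      have e5 : 0 ≤ m * (u * v) := by positivity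
      nlinarith only [hmr, hy2, hUm, hVm, e5]
    have e6 : 0 ≤ φ / m ^ 2 := by positivity
    rw [e1, abs_mul, abs_of_nonneg e6]
    have e7 : φ / m ^ 2 ≤ 1 / m := by
      rw [div_le_div_iff₀ (by positivity) hmp]
      nlinarith only [hmr, hφ]
    calc |(X - U) * Y + U * (Y - V)| * (φ / m ^ 2) ≤
          (m * ((1 + u) * (1 + v))) * (1 / m) := mul_le_mul e2 e7 e6 (by positivity)
      _ = (1 + u) * (1 + v) := by field_simp
  have hf3 : (1 + u) * (1 + v) ≤ κ * t * P ^ 2 * (1 + u) * (1 + v) := by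
    have e1 : 1 ≤ κ * t * P ^ 2 := by
      rw [hκt]
      have e2 : 1 ≤ t ^ 2 := one_le_pow₀ ht1
      have e3 : 1 ≤ P ^ 2 := one_le_pow₀ hP1
      have e4 : 1 ≤ t ^ 2 * m ^ (3 / 4 : ℝ) := one_le_mul_of_one_le_of_one_le e2 hm34
      exact one_le_mul_of_one_le_of_one_le e4 e3
    have e5 : 0 ≤ (1 + u) * (1 + v) := by positivity
    calc (1 + u) * (1 + v) = 1 * ((1 + u) * (1 + v)) := (one_mul _).symm
      _ ≤ κ * t * P ^ 2 * ((1 + u) * (1 + v)) := mul_le_mul_of_nonneg_right e1 e5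
      _ = κ * t * P ^ 2 * (1 + u) * (1 + v) := by ring
  have hf4 : 0 ≤ κ * t * P ^ 2 * (1 + u) * (1 + v) := by positivity
  calc |cnt - U * V * φ / m ^ 2| ≤
        |cnt - X * Y * φ / m ^ 2| +
        |X * Y * φ / m ^ 2 - U * V * φ / m ^ 2| := abs_sub_le _ _ _
    _ ≤ 10 * (κ * t * P ^ 2 * (1 + u) * (1 + v)) := by linarith only [hf1, hf2, hf3, hf4]
    _ = 10 * t ^ 2 * m ^ (3 / 4 : ℝ) * P ^ 2 * (1 + u) * (1 + v) := by
        rw [hκt]
        ring

theorem KH : ∃ C : ℝ, 0 < C ∧ ∀ (m n : ℕ) (I1 I2 J1 J2 σ τ : ℤ), Squarefree m → 1 ≤ n →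
    m.Coprime n → I1 ≤ I2 → J1 ≤ J2 →
    |((((Ico I1 I2) ×ˢ (Ico J1 J2)).filter (fun x => (n : ℤ) ∣ x.1 - σ ∧ (n : ℤ) ∣ x.2 - τ ∧
        (m : ℤ) ∣ x.1 * x.2 + 1)).card : ℝ)
      - ((I2 - I1 : ℤ) : ℝ) * ((J2 - J1 : ℤ) : ℝ) * m.totient / ((m : ℝ) * n) ^ 2|
    ≤ C * (m.divisors.card : ℝ) ^ 2 * (m : ℝ) ^ (3 / 4 : ℝ) * (1 + Real.log m) ^ 2 *
      (1 + ((I2 - I1 : ℤ) : ℝ) / (n * m)) * (1 + ((J2 - J1 : ℤ) : ℝ) / (n * m)) := by
  classical
  refine ⟨10, by norm_num, ?_⟩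
  intro m n I1 I2 J1 J2 σ τ hsq hn hmn hI hJ
  have hm0 : m ≠ 0 := hsq.ne_zero
  have : NeZero m := ⟨hm0⟩
  have hm1 : 1 ≤ m := Nat.one_le_iff_ne_zero.2 hm0
  have hmr : (1 : ℝ) ≤ m := by exact_mod_cast hm1
  have hnr : (1 : ℝ) ≤ n := by exact_mod_cast hn
  have hlog : 0 ≤ Real.log m := Real.log_nonneg hmr
  set SI := (Ico I1 I2).filter (fun s => (n : ℤ) ∣ s - σ) with hSI
  set SJ := (Ico J1 J2).filter (fun s => (n : ℤ) ∣ s - τ) with hSJ
  set GI : ZMod m → ℂ := fun a => khS m n I1 I2 σ a with hGI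
  set GJ : ZMod m → ℂ := fun a => khS m n J1 J2 τ a with hGJ
  set Kl : ZMod m → ZMod m → ℂ := fun a b =>
    ∑ x : (ZMod m)ˣ, ZMod.stdAddChar (-a * (x : ZMod m) + b * ((x⁻¹ : (ZMod m)ˣ) : ZMod m)) with hKl
  set cnt : ℕ := (((Ico I1 I2) ×ˢ (Ico J1 J2)).filter (fun x => (n : ℤ) ∣ x.1 - σ ∧
    (n : ℤ) ∣ x.2 - τ ∧ (m : ℤ) ∣ x.1 * x.2 + 1)).card with hcnt
  -- the expansion
  have hexp : (m : ℂ) ^ 2 * (cnt : ℂ) = ∑ a : ZMod m, ∑ b : ZMod m, GI a * GJ b * Kl a b := by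
    have h1 : (cnt : ℂ) = ∑ s ∈ SI, ∑ t ∈ SJ,
        (if ((s : ZMod m)) * (t : ZMod m) + 1 = 0 then (1 : ℂ) else 0) := by
      have h2 : ((Ico I1 I2) ×ˢ (Ico J1 J2)).filter (fun x => (n : ℤ) ∣ x.1 - σ ∧
          (n : ℤ) ∣ x.2 - τ ∧ (m : ℤ) ∣ x.1 * x.2 + 1) =
          (SI ×ˢ SJ).filter (fun x => (x.1 : ZMod m) * (x.2 : ZMod m) + 1 = 0) := by
        ext x
        have h3 : (m : ℤ) ∣ x.1 * x.2 + 1 ↔ (x.1 : ZMod m) * (x.2 : ZMod m) + 1 = 0 := by
          rw [← ZMod.intCast_zmod_eq_zero_iff_dvd]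
          push_cast
          rfl
        simp only [mem_filter, mem_product, hSI, hSJ, h3]
        tauto
      rw [hcnt, h2, card_filter, sum_product]
      push_cast
      rfl
    rw [h1, mul_sum]
    have h4 : ∀ s t : ℤ, (m : ℂ) ^ 2 * (if ((s : ZMod m)) * (t : ZMod m) + 1 = 0 then (1 : ℂ) else 0) =
        ∑ a : ZMod m, ∑ b : ZMod m, (ZMod.stdAddChar (a * (s : ZMod m)) : ℂ) *
          ZMod.stdAddChar (b * (t : ZMod m)) * Kl a b := fun s t => (kh_ind _ _).symm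
    have h5 : ∀ s ∈ SI, (m : ℂ) ^ 2 * (∑ t ∈ SJ,
        (if ((s : ZMod m)) * (t : ZMod m) + 1 = 0 then (1 : ℂ) else 0)) =
        ∑ a : ZMod m, ∑ b : ZMod m, (ZMod.stdAddChar (a * (s : ZMod m)) : ℂ) * GJ b * Kl a b := by
      intro s _
      rw [mul_sum, sum_congr rfl fun t _ => h4 s t, sum_comm]
      refine sum_congr rfl fun a _ => ?_
      rw [sum_comm]
      refine sum_congr rfl fun b _ => ?_
      have hGJb : GJ b = ∑ t ∈ SJ, (ZMod.stdAddChar (b * (t : ZMod m)) : ℂ) := rfl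
      rw [hGJb]
      generalize Kl a b = zz
      rw [mul_sum, sum_mul]
    rw [sum_congr rfl h5, sum_comm]
    refine sum_congr rfl fun a _ => ?_
    rw [sum_comm]
    refine sum_congr rfl fun b _ => ?_
    have hGIa : GI a = ∑ t ∈ SI, (ZMod.stdAddChar (a * (t : ZMod m)) : ℂ) := rfl
    rw [hGIa]
    generalize Kl a b = zz
    rw [sum_mul, sum_mul]
  -- the Kloosterman bound
  set κ : ℝ := (m.divisors.card : ℝ) * (m : ℝ) ^ (3 / 4 : ℝ) with hκ
  have hκ0 : 0 ≤ κ := by positivity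
  have hτ : (2 : ℝ) ^ m.primeFactors.card = (m.divisors.card : ℝ) := by
    have h1 : m.divisors.card = 2 ^ m.primeFactors.card := by
      rw [Nat.card_divisors hm0]
      have h2 : ∀ p ∈ m.primeFactors, m.factorization p + 1 = 2 := by
        intro p hp
        have h3 := hsq.natFactorization_le_one p
        have h4 : 0 < m.factorization p :=
          (Nat.prime_of_mem_primeFactors hp).factorization_pos_of_dvd hm0
            (Nat.dvd_of_mem_primeFactors hp)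
        omega
      rw [prod_congr rfl h2, prod_const]
    rw [h1]
    push_cast
    rfl
  have hKb : ∀ a b : ZMod m, ‖Kl a b‖ ≤ κ * ((Nat.gcd (Nat.gcd a.val b.val) m : ℕ) : ℝ) ^ (1 / 4 : ℝ) := by
    intro a b
    have h1 := KM m hsq (-(a.val : ℤ)) (b.val : ℤ)
    rw [hτ, ← hκ] at h1
    have h2 : Int.gcd (-(a.val : ℤ)) (b.val : ℤ) = Nat.gcd a.val b.val := by
      rw [Int.neg_gcd, Int.gcd_natCast_natCast]
    rw [h2] at h1
    have h3 : Kl a b = ∑ x : (ZMod m)ˣ, (ZMod.stdAddChar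
        (((-(a.val : ℤ) : ℤ) : ZMod m) * (x : ZMod m) +
          (((b.val : ℤ) : ℤ) : ZMod m) * ((x⁻¹ : (ZMod m)ˣ) : ZMod m)) : ℂ) := by
      simp only [hKl]
      refine sum_congr rfl fun x _ => ?_
      congr 2
      · push_cast
        rw [ZMod.natCast_zmod_val]
      · push_cast
        rw [ZMod.natCast_zmod_val]
    rw [h3]
    exact h1
  have hKa : ∀ a b : ZMod m, a ≠ 0 →
      ‖Kl a b‖ ≤ κ * ((Nat.gcd a.val m : ℕ) : ℝ) ^ (1 / 4 : ℝ) := by
    intro a b ha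
    refine (hKb a b).trans (mul_le_mul_of_nonneg_left ?_ hκ0)
    refine Real.rpow_le_rpow (by positivity) ?_ (by norm_num)
    have h1 : 0 < Nat.gcd a.val m := Nat.gcd_pos_of_pos_right _ (by omega)
    exact_mod_cast Nat.le_of_dvd h1 (Nat.gcd_dvd_gcd_of_dvd_left _ (Nat.gcd_dvd_left _ _))
  have hK0 : ∀ b : ZMod m, ‖Kl 0 b‖ ≤ κ * ((Nat.gcd b.val m : ℕ) : ℝ) ^ (1 / 4 : ℝ) := by
    intro b
    have h1 := hKb 0 b
    rw [ZMod.val_zero, Nat.gcd_zero_left] at h1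
    exact h1
  have hK00 : Kl 0 0 = (m.totient : ℂ) := by
    simp only [hKl]
    simp [ZMod.card_units_eq_totient]
  -- the sums
  set t : ℝ := (m.divisors.card : ℝ) with ht
  set P : ℝ := 1 + Real.log m with hP
  have ht1 : 1 ≤ t := by
    have : 0 < m.divisors.card := Finset.card_pos.2 ⟨1, Nat.one_mem_divisors.2 hm0⟩
    rw [ht]
    exact_mod_cast this
  have hP1 : 1 ≤ P := by linarith only [hlog]
  have hGb : ∀ (K1 K2 ρ : ℤ) (a : ZMod m), a * (n : ZMod m) ≠ 0 →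
      ‖khS m n K1 K2 ρ a‖ ≤ (m : ℝ) / 2 *
      (1 / ((a * (n : ZMod m)).val : ℝ) + 1 / ((m : ℝ) - (a * (n : ZMod m)).val)) := by
    intro K1 K2 ρ a ha
    rw [khS_norm n hn]
    exact kh_G _ ha _ _
  have hA : ∀ K1 K2 ρ : ℤ, ∑ a ∈ (univ : Finset (ZMod m)).erase 0,
      ((Nat.gcd a.val m : ℕ) : ℝ) ^ (1 / 4 : ℝ) * ‖khS m n K1 K2 ρ a‖ ≤ m * (t * P) := by
    intro K1 K2 ρ
    have h1 := kh_sum n hmn (fun k => (k : ℝ) ^ (1 / 4 : ℝ)) (fun k => by positivity)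
      (fun a => ‖khS m n K1 K2 ρ a‖) (hGb K1 K2 ρ)
    exact h1.trans (mul_le_mul_of_nonneg_left (kh_w2 m hm1) (by positivity))
  have hB : ∀ K1 K2 ρ : ℤ, ∑ a ∈ (univ : Finset (ZMod m)).erase 0,
      ‖khS m n K1 K2 ρ a‖ ≤ m * P := by
    intro K1 K2 ρ
    have h1 := kh_sum n hmn (fun _ => (1 : ℝ)) (fun k => by norm_num)
      (fun a => ‖khS m n K1 K2 ρ a‖) (hGb K1 K2 ρ)
    simp only [one_mul] at h1
    exact h1.trans (mul_le_mul_of_nonneg_left (kh_w1 m) (by positivity))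
  have hAI := hA I1 I2 σ
  have hAJ := hA J1 J2 τ
  have hBJ := hB J1 J2 τ
  have hXU := kh_card n hn I1 I2 σ hI
  have hYV := kh_card n hn J1 J2 τ hJ
  rw [← hSI] at hXU
  rw [← hSJ] at hYV
  have hGI0 : GI 0 = (SI.card : ℂ) := khS_zero n I1 I2 σ
  have hGJ0 : GJ 0 = (SJ.card : ℂ) := khS_zero n J1 J2 τ
  set X : ℝ := (SI.card : ℝ) with hX
  set Y : ℝ := (SJ.card : ℝ) with hY
  have hX0 : 0 ≤ X := by positivity
  have hY0 : 0 ≤ Y := by positivity
  have hGJs : ∑ b : ZMod m, ‖GJ b‖ ≤ Y + m * P := by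
    rw [← add_sum_erase univ (fun b => ‖GJ b‖) (mem_univ (0 : ZMod m))]
    rw [hGJ0, Complex.norm_natCast]
    exact add_le_add (le_refl _) hBJ
  -- the main inequality
  have hmain : |(m : ℝ) ^ 2 * cnt - X * Y * m.totient| ≤
      κ * (m * (t * P)) * (Y + m * P) + X * (κ * (m * (t * P))) := by
    have h1 : (((m : ℝ) ^ 2 * cnt - X * Y * m.totient : ℝ) : ℂ) =
        ∑ b ∈ (univ : Finset (ZMod m)).erase 0, GI 0 * GJ b * Kl 0 b +
        ∑ a ∈ (univ : Finset (ZMod m)).erase 0, ∑ b : ZMod m, GI a * GJ b * Kl a b := by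
      rw [← add_sum_erase univ (fun a => ∑ b : ZMod m, GI a * GJ b * Kl a b)
        (mem_univ (0 : ZMod m))] at hexp
      rw [← add_sum_erase univ (fun b => GI 0 * GJ b * Kl 0 b) (mem_univ (0 : ZMod m))] at hexp
      rw [hGJ0, hK00] at hexp
      push_cast
      rw [hexp, hGI0, hX, hY]
      push_cast
      ring
    rw [← Real.norm_eq_abs, ← Complex.norm_real, h1]
    refine (norm_add_le _ _).trans ?_
    have h2 : ‖∑ b ∈ (univ : Finset (ZMod m)).erase 0, GI 0 * GJ b * Kl 0 b‖ ≤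
        X * (κ * (m * (t * P))) := by
      refine (norm_sum_le _ _).trans ?_
      have h3 : ∀ b ∈ (univ : Finset (ZMod m)).erase 0, ‖GI 0 * GJ b * Kl 0 b‖ ≤
          X * κ * (((Nat.gcd b.val m : ℕ) : ℝ) ^ (1 / 4 : ℝ) * ‖khS m n J1 J2 τ b‖) := by
        intro b _
        rw [norm_mul, norm_mul, hGI0, Complex.norm_natCast]
        calc (SI.card : ℝ) * ‖GJ b‖ * ‖Kl 0 b‖ ≤ (SI.card : ℝ) * ‖GJ b‖ *
              (κ * ((Nat.gcd b.val m : ℕ) : ℝ) ^ (1 / 4 : ℝ)) :=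
              mul_le_mul_of_nonneg_left (hK0 b) (by positivity)
          _ = X * κ * (((Nat.gcd b.val m : ℕ) : ℝ) ^ (1 / 4 : ℝ) * ‖khS m n J1 J2 τ b‖) := by
              rw [hX]
              ring
      refine (sum_le_sum h3).trans ?_
      rw [← mul_sum, mul_assoc X κ]
      exact mul_le_mul_of_nonneg_left (mul_le_mul_of_nonneg_left hAJ hκ0) hX0
    have h4 : ‖∑ a ∈ (univ : Finset (ZMod m)).erase 0, ∑ b : ZMod m, GI a * GJ b * Kl a b‖ ≤
        κ * (m * (t * P)) * (Y + m * P) := by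
      refine (norm_sum_le _ _).trans ?_
      have h5 : ∀ a ∈ (univ : Finset (ZMod m)).erase 0, ‖∑ b : ZMod m, GI a * GJ b * Kl a b‖ ≤
          κ * (((Nat.gcd a.val m : ℕ) : ℝ) ^ (1 / 4 : ℝ) * ‖khS m n I1 I2 σ a‖) * (Y + m * P) := by
        intro a ha
        rw [mem_erase] at ha
        refine (norm_sum_le _ _).trans ?_
        have h6 : ∀ b ∈ (univ : Finset (ZMod m)), ‖GI a * GJ b * Kl a b‖ ≤
            κ * (((Nat.gcd a.val m : ℕ) : ℝ) ^ (1 / 4 : ℝ) * ‖khS m n I1 I2 σ a‖) * ‖GJ b‖ := by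
          intro b _
          rw [norm_mul, norm_mul]
          calc ‖GI a‖ * ‖GJ b‖ * ‖Kl a b‖ ≤ ‖GI a‖ * ‖GJ b‖ *
                (κ * ((Nat.gcd a.val m : ℕ) : ℝ) ^ (1 / 4 : ℝ)) :=
                mul_le_mul_of_nonneg_left (hKa a b ha.1) (by positivity)
            _ = _ := by ring
        refine (sum_le_sum h6).trans ?_
        rw [← mul_sum]
        exact mul_le_mul_of_nonneg_left hGJs (by positivity)
      refine (sum_le_sum h5).trans ?_
      rw [← sum_mul, ← mul_sum]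
      refine mul_le_mul_of_nonneg_right (mul_le_mul_of_nonneg_left hAI hκ0) ?_
      have : 0 ≤ (m : ℝ) * P := by positivity
      linarith
    linarith only [h2, h4]
  -- final computation
  set U : ℝ := ((I2 - I1 : ℤ) : ℝ) / n with hU
  set V : ℝ := ((J2 - J1 : ℤ) : ℝ) / n with hV
  have hU0 : 0 ≤ U := by
    have : (0 : ℝ) ≤ ((I2 - I1 : ℤ) : ℝ) := by exact_mod_cast (by linarith only [hI] : (0 : ℤ) ≤ I2 - I1)
    positivity
  have hV0 : 0 ≤ V := by
    have : (0 : ℝ) ≤ ((J2 - J1 : ℤ) : ℝ) := by exact_mod_cast (by linarith : (0 : ℤ) ≤ J2 - J1)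
    positivity
  have hmp : (0 : ℝ) < m := by linarith
  have hnp : (0 : ℝ) < n := by linarith
  have eU : ((I2 - I1 : ℤ) : ℝ) / (n * m) = U / m := by rw [hU, div_div]
  have eV : ((J2 - J1 : ℤ) : ℝ) / (n * m) = V / m := by rw [hV, div_div]
  have eUV : ((I2 - I1 : ℤ) : ℝ) * ((J2 - J1 : ℤ) : ℝ) * m.totient / ((m : ℝ) * n) ^ 2 =
      U * V * m.totient / (m : ℝ) ^ 2 := by
    rw [hU, hV]
    field_simp
  rw [eU, eV, eUV]
  have hφ : (m.totient : ℝ) ≤ m := by exact_mod_cast Nat.totient_le m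
  have hφ0 : (0 : ℝ) ≤ m.totient := by positivity
  exact kh_fin (m : ℝ) U V X Y t P κ m.totient cnt hmr hU0 hV0 hX0 hY0 ht1 hP1 hκ hφ0 hφ hXU hYV
    hmain

end Pool.Agent.H37.PPE
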