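import Pool.Agent.H37.PPE.KP

/-!
PPE KM: the bound for squarefree moduli by multiplicativity.

For m = p m', p ∤ m': with u, v integers, u m' + v p = 1:  1/(p m') = u/p + v/m' mod 1, so stdAddChar_m(x) = stdAddChar_p(u x) stdAddChar_{m'}(v x)
 (x integer) and, by ZMod.chineseRemainder / units, K_m(a,b) = K_p(u a, u b) K_{m'}(v a, v b), with u a unit mod p and v a unit mod m'.
 Induction over the prime factors (Nat.recOnPosPrimePosCoprime or strong induction on m using minFac):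
 |K_m(a,b)| ≤ ∏_{p|m} (2 p^{3/4} gcd(a,b,p)^{1/4}): for p ∤ (a,b) use KP; for p | a and p | b trivially |K_p| ≤ p = p^{3/4} p^{1/4}.
-/

set_option autoImplicit false

namespace Pool.Agent.H37.PPE

open Finset

/-- the Kloosterman sum -/
noncomputable def kmK (m : ℕ) [NeZero m] (a b : ZMod m) : ℂ :=
  ∑ x : (ZMod m)ˣ, (ZMod.stdAddChar (a * (x : ZMod m) + b * ((x⁻¹ : (ZMod m)ˣ) : ZMod m)) : ℂ)

theorem km_char {m n : ℕ} [NeZero m] [NeZero n] {u v : ℤ} (huv : u * n + v * m = 1) (j : ℤ) :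
    (ZMod.stdAddChar ((j : ℤ) : ZMod (m * n)) : ℂ)
      = ZMod.stdAddChar ((u : ZMod m) * (j : ZMod m)) *
        ZMod.stdAddChar ((v : ZMod n) * (j : ZMod n)) := by
  rw [← Int.cast_mul, ← Int.cast_mul, ZMod.stdAddChar_coe, ZMod.stdAddChar_coe,
    ZMod.stdAddChar_coe, ← Complex.exp_add]
  congr 1
  have hm : (m : ℂ) ≠ 0 := by exact_mod_cast NeZero.ne m
  have hn : (n : ℂ) ≠ 0 := by exact_mod_cast NeZero.ne n
  have h : (u : ℂ) * n + v * m = 1 := by exact_mod_cast huv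
  push_cast
  field_simp
  linear_combination (-(j : ℂ)) * h

theorem km_mult {m n : ℕ} [NeZero m] [NeZero n] (hmn : m.Coprime n) {u v : ℤ}
    (huv : u * n + v * m = 1) (a b : ℤ) :
    kmK (m * n) (a : ZMod (m * n)) (b : ZMod (m * n))
      = kmK m ((u * a : ℤ) : ZMod m) ((u * b : ℤ) : ZMod m)
        * kmK n ((v * a : ℤ) : ZMod n) ((v * b : ℤ) : ZMod n) := by
  classical
  set e : ZMod (m * n) ≃+* ZMod m × ZMod n := ZMod.chineseRemainder hmn with he
  have hch : ∀ z : ZMod (m * n), (ZMod.stdAddChar z : ℂ)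
      = ZMod.stdAddChar ((u : ZMod m) * (e z).1) * ZMod.stdAddChar ((v : ZMod n) * (e z).2) := by
    intro z
    obtain ⟨j, rfl⟩ := ZMod.intCast_surjective z
    rw [km_char huv j, map_intCast]
    rfl
  set E : (ZMod (m * n))ˣ ≃ (ZMod m)ˣ × (ZMod n)ˣ :=
    ((Units.mapEquiv e.toMulEquiv).trans MulEquiv.prodUnits).toEquiv with hE
  have hE1 : ∀ x : (ZMod (m * n))ˣ, (((E x).1 : (ZMod m)ˣ) : ZMod m) = (e (x : ZMod (m * n))).1 :=
    fun x => rfl
  have hE2 : ∀ x : (ZMod (m * n))ˣ, (((E x).2 : (ZMod n)ˣ) : ZMod n) = (e (x : ZMod (m * n))).2 :=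
    fun x => rfl
  have hI1 : ∀ x : (ZMod (m * n))ˣ, ((((E x).1)⁻¹ : (ZMod m)ˣ) : ZMod m)
      = (e ((x⁻¹ : (ZMod (m * n))ˣ) : ZMod (m * n))).1 := fun x => rfl
  have hI2 : ∀ x : (ZMod (m * n))ˣ, ((((E x).2)⁻¹ : (ZMod n)ˣ) : ZMod n)
      = (e ((x⁻¹ : (ZMod (m * n))ˣ) : ZMod (m * n))).2 := fun x => rfl
  unfold kmK
  rw [sum_mul_sum, ← sum_product', ← univ_product_univ.symm, ← Equiv.sum_comp E]
  refine sum_congr rfl fun x _ => ?_
  rw [hch, hE1, hE2, hI1, hI2]
  congr 2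
  · rw [map_add, map_mul, map_mul, map_intCast, map_intCast]
    push_cast
    simp only [Prod.fst_add, Prod.fst_mul, Prod.fst_intCast]
    ring
  · rw [map_add, map_mul, map_mul, map_intCast, map_intCast]
    push_cast
    simp only [Prod.snd_add, Prod.snd_mul, Prod.snd_intCast]
    ring

theorem km_prime (p : ℕ) [hp : Fact p.Prime] (a b w : ℤ) (hw : IsCoprime w (p : ℤ)) :
    ‖kmK p ((w * a : ℤ) : ZMod p) ((w * b : ℤ) : ZMod p)‖
      ≤ 2 * (p : ℝ) ^ (3 / 4 : ℝ) * ((Nat.gcd (Int.gcd a b) p : ℕ) : ℝ) ^ (1 / 4 : ℝ) := by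
  have hp0 : (0 : ℝ) < p := by exact_mod_cast hp.out.pos
  have hp3 : (0 : ℝ) ≤ (p : ℝ) ^ (3 / 4 : ℝ) := by positivity
  by_cases h : (p : ℤ) ∣ a ∧ (p : ℤ) ∣ b
  · have hg : Nat.gcd (Int.gcd a b) p = p := by
      refine Nat.gcd_eq_right ?_
      have : (p : ℤ) ∣ (Int.gcd a b : ℤ) := Int.dvd_coe_gcd h.1 h.2
      exact_mod_cast this
    rw [hg]
    have h1 : ‖kmK p ((w * a : ℤ) : ZMod p) ((w * b : ℤ) : ZMod p)‖ ≤ p := by
      unfold kmK
      refine (norm_sum_le _ _).trans ?_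
      have h2 : ∀ x ∈ (univ : Finset (ZMod p)ˣ),
          ‖(ZMod.stdAddChar (((w * a : ℤ) : ZMod p) * (x : ZMod p)
            + ((w * b : ℤ) : ZMod p) * ((x⁻¹ : (ZMod p)ˣ) : ZMod p)) : ℂ)‖ ≤ 1 := by
        intro x _
        rw [ZMod.stdAddChar_apply, Circle.norm_coe]
      refine (sum_le_sum h2).trans ?_
      rw [sum_const, card_univ, ZMod.card_units_eq_totient, nsmul_eq_mul, mul_one]
      exact_mod_cast Nat.totient_le p
    have h3 : (p : ℝ) ^ (3 / 4 : ℝ) * (p : ℝ) ^ (1 / 4 : ℝ) = p := by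
      rw [← Real.rpow_add hp0]; norm_num
    rw [mul_assoc, h3]
    linarith
  · have hne : ((w * a : ℤ) : ZMod p) ≠ 0 ∨ ((w * b : ℤ) : ZMod p) ≠ 0 := by
      by_contra hcon
      rw [not_or, not_not, not_not] at hcon
      refine h ⟨?_, ?_⟩
      · have := (ZMod.intCast_zmod_eq_zero_iff_dvd _ _).mp hcon.1
        exact hw.symm.dvd_of_dvd_mul_left this
      · have := (ZMod.intCast_zmod_eq_zero_iff_dvd _ _).mp hcon.2
        exact hw.symm.dvd_of_dvd_mul_left this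
    have h1 := KP p _ _ hne
    have h2 : (1 : ℝ) ≤ ((Nat.gcd (Int.gcd a b) p : ℕ) : ℝ) ^ (1 / 4 : ℝ) := by
      refine Real.one_le_rpow ?_ (by norm_num)
      have : 0 < Nat.gcd (Int.gcd a b) p := Nat.gcd_pos_of_pos_right _ hp.out.pos
      exact_mod_cast this
    refine h1.trans ?_
    have h3 : 0 ≤ 2 * (p : ℝ) ^ (3 / 4 : ℝ) := by positivity
    nlinarith

theorem km_all (m : ℕ) : ∀ [NeZero m], Squarefree m → ∀ a b w : ℤ, IsCoprime w (m : ℤ) →
    ‖kmK m ((w * a : ℤ) : ZMod m) ((w * b : ℤ) : ZMod m)‖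
      ≤ 2 ^ m.primeFactors.card * (m : ℝ) ^ (3 / 4 : ℝ) *
        ((Nat.gcd (Int.gcd a b) m : ℕ) : ℝ) ^ (1 / 4 : ℝ) := by
  induction m using Nat.strong_induction_on with
  | _ m ih =>
    intro hm0 hsq a b w hw
    by_cases hm1 : m = 1
    · subst hm1
      unfold kmK
      refine (norm_sum_le _ _).trans ?_
      have h2 : ∀ x ∈ (univ : Finset (ZMod 1)ˣ),
          ‖(ZMod.stdAddChar (((w * a : ℤ) : ZMod 1) * (x : ZMod 1)
            + ((w * b : ℤ) : ZMod 1) * ((x⁻¹ : (ZMod 1)ˣ) : ZMod 1)) : ℂ)‖ ≤ 1 := by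
        intro x _
        rw [ZMod.stdAddChar_apply, Circle.norm_coe]
      refine (sum_le_sum h2).trans ?_
      rw [sum_const, card_univ, ZMod.card_units_eq_totient]
      simp
    · have hp : (m.minFac).Prime := Nat.minFac_prime hm1
      obtain ⟨n, hn⟩ := Nat.minFac_dvd m
      set p := m.minFac with hpdef
      clear_value p
      subst hn
      have : Fact p.Prime := ⟨hp⟩
      have hp0 : p ≠ 0 := hp.ne_zero
      have hn0 : n ≠ 0 := by
        rintro rfl
        exact hm0.out (Nat.mul_zero _)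
      have : NeZero n := ⟨hn0⟩
      have hcop : p.Coprime n := Nat.coprime_of_squarefree_mul hsq
      have hsqn : Squarefree n := hsq.squarefree_of_dvd (Dvd.intro_left p rfl)
      have hlt : n < p * n := by
        have := hp.two_le
        have : 0 < n := Nat.pos_of_ne_zero hn0
        nlinarith
      have hcz : IsCoprime (n : ℤ) (p : ℤ) := Nat.isCoprime_iff_coprime.mpr hcop.symm
      obtain ⟨u, v, huv⟩ := hcz
      have hu : IsCoprime u (p : ℤ) := ⟨n, v, by linarith⟩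
      have hv : IsCoprime v (n : ℤ) := ⟨p, u, by linarith⟩
      have hwp : IsCoprime w (p : ℤ) := by
        refine hw.of_isCoprime_of_dvd_right ?_
        push_cast
        exact Dvd.intro _ rfl
      have hwn : IsCoprime w (n : ℤ) := by
        refine hw.of_isCoprime_of_dvd_right ?_
        push_cast
        exact Dvd.intro_left _ rfl
      have hmul := km_mult hcop huv (w * a) (w * b)
      have e1 : ∀ c t : ℤ, t * (w * c) = (t * w) * c := fun c t => by ring
      rw [e1, e1, e1, e1] at hmul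
      rw [hmul, norm_mul]
      have hA := km_prime p a b (u * w) (hu.mul_left hwp)
      have hB := ih n hlt hsqn a b (v * w) (hv.mul_left hwn)
      have hgcd : Nat.gcd (Int.gcd a b) (p * n)
          = Nat.gcd (Int.gcd a b) p * Nat.gcd (Int.gcd a b) n := Nat.Coprime.gcd_mul _ hcop
      have hcard : (p * n).primeFactors.card = 1 + n.primeFactors.card := by
        rw [Nat.Coprime.primeFactors_mul hcop, card_union_of_disjoint
          (Nat.Coprime.disjoint_primeFactors hcop), Nat.Prime.primeFactors hp, card_singleton]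
      have hR : (2 : ℝ) ^ (p * n).primeFactors.card * ((p * n : ℕ) : ℝ) ^ (3 / 4 : ℝ) *
          ((Nat.gcd (Int.gcd a b) (p * n) : ℕ) : ℝ) ^ (1 / 4 : ℝ)
          = (2 * (p : ℝ) ^ (3 / 4 : ℝ) * ((Nat.gcd (Int.gcd a b) p : ℕ) : ℝ) ^ (1 / 4 : ℝ)) *
            (2 ^ n.primeFactors.card * (n : ℝ) ^ (3 / 4 : ℝ) *
              ((Nat.gcd (Int.gcd a b) n : ℕ) : ℝ) ^ (1 / 4 : ℝ)) := by
        rw [hgcd, hcard]
        push_cast
        rw [Real.mul_rpow (by positivity) (by positivity),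
          Real.mul_rpow (by positivity) (by positivity), pow_add, pow_one]
        ring
      rw [hR]
      exact mul_le_mul hA hB (norm_nonneg _) (by positivity)

theorem KM (m : ℕ) [NeZero m] (hm : Squarefree m) (a b : ℤ) :
    ‖∑ x : (ZMod m)ˣ, (ZMod.stdAddChar
        ((a : ZMod m) * (x : ZMod m) + (b : ZMod m) * ((x⁻¹ : (ZMod m)ˣ) : ZMod m)) : ℂ)‖
      ≤ 2 ^ m.primeFactors.card * (m : ℝ) ^ (3 / 4 : ℝ) *
        ((Nat.gcd (Int.gcd a b) m : ℕ) : ℝ) ^ (1 / 4 : ℝ) := by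
  have h := km_all m hm a b 1 isCoprime_one_left
  simpa [kmK, one_mul] using h

end Pool.Agent.H37.PPE
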