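import Pool.Agent.H37.PPE.Defs

/-!
PPE KP: Kloosterman's elementary bound for a prime modulus.

K(a,b) = ∑_{x unit} e_p(a x + b x⁻¹).
If exactly one of a, b is 0: the sum is ∑_{x≠0} e(a x) = -1, norm 1 ≤ 2 p^{3/4}.
If a b ≠ 0: K(a,b) = K(1, a b) (x → x/a).  ∑_{a,b ∈ ZMod p} |K(a,b)|^4 = p² N, N = number of (x1,x2,x3,x4) units with
 x1+x2 = x3+x4, x1⁻¹+x2⁻¹ = x3⁻¹+x4⁻¹ (orthogonality AddChar.sum_mulShift / sum_eq_zero).  If x1+x2 = s ≠ 0 then x1x2 = x3x4, so {x1,x2} = {x3,x4}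
 (≤ 2 (p-1)² quadruples); if s = 0 then x2 = -x1, x4 = -x3: (p-1)².  N ≤ 3(p-1)².  For c ≠ 0 the value K(1,c) is taken at the p-1 pairs
 (a, c/a), so (p-1)|K(1,c)|^4 ≤ 3 p² (p-1)², |K|^4 ≤ 3 p³ ≤ 16 p³.
 (To avoid the 4-dimensional orthogonality: |K(a,b)|² = ∑_{x,y} e(a(x-y) + b(x⁻¹-y⁻¹)) =: ∑_{(u,v)} c(u,v) e(au+bv), Parseval.)
-/

set_option autoImplicit false

namespace Pool.Agent.H37.PPE

open Finset

/-- the additive character -/
private noncomputable def KP_psi (p : ℕ) [Fact p.Prime] : AddChar (ZMod p) ℂ := ZMod.stdAddChar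

private noncomputable def KP_K (p : ℕ) [Fact p.Prime] (a b : ZMod p) : ℂ :=
  ∑ x : (ZMod p)ˣ, KP_psi p (a * (x : ZMod p) + b * ((x⁻¹ : (ZMod p)ˣ) : ZMod p))

private theorem KP_shift (p : ℕ) [Fact p.Prime] (a b : ZMod p) (u : (ZMod p)ˣ) :
    KP_K p ((u : ZMod p) * a) (((u⁻¹ : (ZMod p)ˣ) : ZMod p) * b) = KP_K p a b := by
  unfold KP_K
  apply Fintype.sum_equiv (Equiv.mulLeft u)
  intro x
  rw [Equiv.coe_mulLeft, mul_inv, Units.val_mul, Units.val_mul]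
  congr 1
  ring

/-- the linear forms on pairs -/
private def KP_A (p : ℕ) [Fact p.Prime] (q : (ZMod p)ˣ × (ZMod p)ˣ) : ZMod p :=
  (q.2 : ZMod p) - (q.1 : ZMod p)

private def KP_B (p : ℕ) [Fact p.Prime] (q : (ZMod p)ˣ × (ZMod p)ˣ) : ZMod p :=
  ((q.2⁻¹ : (ZMod p)ˣ) : ZMod p) - ((q.1⁻¹ : (ZMod p)ˣ) : ZMod p)

private theorem KP_sq (p : ℕ) [Fact p.Prime] (a b : ZMod p) :
    (starRingEnd ℂ) (KP_K p a b) * KP_K p a b =
      ∑ q : (ZMod p)ˣ × (ZMod p)ˣ, KP_psi p (a * KP_A p q + b * KP_B p q) := by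
  unfold KP_K
  rw [map_sum, Finset.sum_mul_sum, ← Finset.univ_product_univ, Finset.sum_product]
  apply Finset.sum_congr rfl
  intro x _
  apply Finset.sum_congr rfl
  intro y _
  rw [← AddChar.map_neg_eq_conj, ← AddChar.map_add_eq_mul]
  congr 1
  unfold KP_A KP_B
  ring

private theorem KP_four (p : ℕ) [Fact p.Prime] (a b : ZMod p) :
    ((‖KP_K p a b‖ ^ 4 : ℝ) : ℂ) =
      ∑ z : ((ZMod p)ˣ × (ZMod p)ˣ) × ((ZMod p)ˣ × (ZMod p)ˣ),
        KP_psi p (a * (KP_A p z.1 + KP_A p z.2)) * KP_psi p (b * (KP_B p z.1 + KP_B p z.2)) := by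
  have h1 : ((‖KP_K p a b‖ ^ 4 : ℝ) : ℂ) =
      ((starRingEnd ℂ) (KP_K p a b) * KP_K p a b) * ((starRingEnd ℂ) (KP_K p a b) * KP_K p a b) := by
    rw [Complex.conj_mul']
    push_cast
    ring
  rw [h1, KP_sq, Finset.sum_mul_sum]
  have h2 := Fintype.sum_prod_type (f := fun z : ((ZMod p)ˣ × (ZMod p)ˣ) × ((ZMod p)ˣ × (ZMod p)ˣ) =>
    KP_psi p (a * (KP_A p z.1 + KP_A p z.2)) * KP_psi p (b * (KP_B p z.1 + KP_B p z.2)))
  rw [h2]
  apply Finset.sum_congr rfl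
  intro x _
  apply Finset.sum_congr rfl
  intro y _
  rw [← AddChar.map_add_eq_mul, ← AddChar.map_add_eq_mul]
  congr 1
  ring

open Classical in
private noncomputable def KP_Q (p : ℕ) [Fact p.Prime] :
    Finset (((ZMod p)ˣ × (ZMod p)ˣ) × ((ZMod p)ˣ × (ZMod p)ˣ)) :=
  univ.filter (fun z => KP_A p z.1 + KP_A p z.2 = 0 ∧ KP_B p z.1 + KP_B p z.2 = 0)

private theorem KP_orth (p : ℕ) [Fact p.Prime] (t : ZMod p) :
    ∑ a : ZMod p, KP_psi p (a * t) = if t = 0 then (p : ℂ) else 0 := by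
  classical
  have h := AddChar.sum_mulShift (R := ZMod p) (R' := ℂ) (ψ := KP_psi p) t
    (ZMod.isPrimitive_stdAddChar p)
  rw [h]
  simp [ZMod.card]

private theorem KP_moment (p : ℕ) [Fact p.Prime] :
    ∑ a : ZMod p, ∑ b : ZMod p, ‖KP_K p a b‖ ^ 4 = (p : ℝ) ^ 2 * (KP_Q p).card := by
  classical
  have h : ((∑ a : ZMod p, ∑ b : ZMod p, ‖KP_K p a b‖ ^ 4 : ℝ) : ℂ) =
      (((p : ℝ) ^ 2 * (KP_Q p).card : ℝ) : ℂ) := by
    rw [Complex.ofReal_sum]
    simp only [Complex.ofReal_sum]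
    simp only [KP_four]
    have h1 : ∀ a : ZMod p, ∑ b : ZMod p,
        ∑ z : ((ZMod p)ˣ × (ZMod p)ˣ) × ((ZMod p)ˣ × (ZMod p)ˣ),
        KP_psi p (a * (KP_A p z.1 + KP_A p z.2)) * KP_psi p (b * (KP_B p z.1 + KP_B p z.2)) =
        ∑ z : ((ZMod p)ˣ × (ZMod p)ˣ) × ((ZMod p)ˣ × (ZMod p)ˣ),
        KP_psi p (a * (KP_A p z.1 + KP_A p z.2)) *
          (if KP_B p z.1 + KP_B p z.2 = 0 then (p : ℂ) else 0) := by
      intro a
      rw [Finset.sum_comm]
      apply Finset.sum_congr rfl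
      intro z _
      rw [← Finset.mul_sum, KP_orth]
    rw [Finset.sum_congr rfl fun a _ => h1 a, Finset.sum_comm]
    have h2 : ∀ z : ((ZMod p)ˣ × (ZMod p)ˣ) × ((ZMod p)ˣ × (ZMod p)ˣ),
        ∑ a : ZMod p, KP_psi p (a * (KP_A p z.1 + KP_A p z.2)) *
          (if KP_B p z.1 + KP_B p z.2 = 0 then (p : ℂ) else 0) =
        if KP_A p z.1 + KP_A p z.2 = 0 ∧ KP_B p z.1 + KP_B p z.2 = 0 then (p : ℂ) ^ 2 else 0 := by
      intro z
      rw [← Finset.sum_mul, KP_orth]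
      by_cases e1 : KP_A p z.1 + KP_A p z.2 = 0
      · by_cases e2 : KP_B p z.1 + KP_B p z.2 = 0
        · rw [if_pos e1, if_pos e2, if_pos ⟨e1, e2⟩, pow_two]
        · rw [if_neg e2, mul_zero, if_neg (fun h => e2 h.2)]
      · rw [if_neg e1, zero_mul, if_neg (fun h => e1 h.1)]
    rw [Finset.sum_congr rfl fun z _ => h2 z, ← Finset.sum_filter, Finset.sum_const, nsmul_eq_mul]
    unfold KP_Q
    push_cast
    rw [mul_comm]
  exact_mod_cast h

private theorem KP_card (p : ℕ) [Fact p.Prime] :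
    (KP_Q p).card ≤ 3 * (Fintype.card (ZMod p)ˣ) ^ 2 := by
  classical
  set U := (ZMod p)ˣ with hU
  have hsub : KP_Q p ⊆
      ((univ : Finset (U × U)).image (fun q => ((q.1, q.1), (q.2, q.2)))) ∪
      (((univ : Finset (U × U)).image (fun q => ((q.1, q.2), (q.2, q.1)))) ∪
      ((univ : Finset (U × U)).image (fun q => ((q.1, q.2), (-q.1, -q.2))))) := by
    rintro ⟨⟨x1, x3⟩, ⟨x2, x4⟩⟩ hz
    unfold KP_Q at hz
    rw [Finset.mem_filter] at hz
    obtain ⟨_, hA, hB⟩ := hz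
    unfold KP_A at hA
    unfold KP_B at hB
    simp only at hA hB
    have n1 : (x1 : ZMod p) ≠ 0 := x1.ne_zero
    have n2 : (x2 : ZMod p) ≠ 0 := x2.ne_zero
    have n3 : (x3 : ZMod p) ≠ 0 := x3.ne_zero
    have n4 : (x4 : ZMod p) ≠ 0 := x4.ne_zero
    simp only [Units.val_inv_eq_inv_val] at hB
    have hs : (x3 : ZMod p) + x4 = x1 + x2 := by linear_combination hA
    by_cases h0 : (x1 : ZMod p) + x2 = 0
    · -- third image: x2 = - x1, x4 = - x3
      apply Finset.mem_union_right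
      apply Finset.mem_union_right
      rw [Finset.mem_image]
      refine ⟨(x1, x3), Finset.mem_univ _, ?_⟩
      have e1 : -x1 = x2 := by
        apply Units.ext
        rw [Units.val_neg]
        linear_combination h0 * (-1)
      have e2 : -x3 = x4 := by
        apply Units.ext
        rw [Units.val_neg]
        linear_combination (hs + h0) * (-1)
      rw [e1, e2]
    · have hprod : (x1 : ZMod p) * x2 = x3 * x4 := by
        have h1 : (x3 : ZMod p)⁻¹ + (x4 : ZMod p)⁻¹ = (x1 : ZMod p)⁻¹ + (x2 : ZMod p)⁻¹ := by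
          linear_combination hB
        have h2 : ((x1 : ZMod p) + x2) * (x1 * x2 - x3 * x4) = 0 := by
          field_simp at h1
          linear_combination h1 - (x1 : ZMod p) * x2 * hs
        rcases mul_eq_zero.1 h2 with h3 | h3
        · exact absurd h3 h0
        · exact sub_eq_zero.1 h3
      have hfac : ((x1 : ZMod p) - x3) * ((x1 : ZMod p) - x4) = 0 := by
        linear_combination -(x1 : ZMod p) * hs - hprod
      rcases mul_eq_zero.1 hfac with h3 | h3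
      · have e1 : x1 = x3 := Units.ext (sub_eq_zero.1 h3)
        have e2 : x2 = x4 := by
          apply Units.ext
          have : (x1 : ZMod p) = x3 := sub_eq_zero.1 h3
          linear_combination (-1) * hs - this
        apply Finset.mem_union_left
        rw [Finset.mem_image]
        exact ⟨(x1, x2), Finset.mem_univ _, by rw [← e1, ← e2]⟩
      · have e1 : x1 = x4 := Units.ext (sub_eq_zero.1 h3)
        have e2 : x2 = x3 := by
          apply Units.ext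
          have : (x1 : ZMod p) = x4 := sub_eq_zero.1 h3
          linear_combination (-1) * hs - this
        apply Finset.mem_union_right
        apply Finset.mem_union_left
        rw [Finset.mem_image]
        exact ⟨(x1, x3), Finset.mem_univ _, by rw [← e1, e2]⟩
  refine (Finset.card_le_card hsub).trans ?_
  refine (Finset.card_union_le _ _).trans ?_
  have hc : (univ : Finset (U × U)).card = Fintype.card U ^ 2 := by
    rw [Finset.card_univ, Fintype.card_prod, pow_two]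
  have c1 := Finset.card_image_le (s := (univ : Finset (U × U)))
    (f := fun q => (((q.1, q.1), (q.2, q.2)) : (U × U) × (U × U)))
  have c2 := Finset.card_image_le (s := (univ : Finset (U × U)))
    (f := fun q => (((q.1, q.2), (q.2, q.1)) : (U × U) × (U × U)))
  have c3 := Finset.card_image_le (s := (univ : Finset (U × U)))
    (f := fun q => (((q.1, q.2), (-q.1, -q.2)) : (U × U) × (U × U)))
  have c4 := Finset.card_union_le
    ((univ : Finset (U × U)).image (fun q => (((q.1, q.2), (q.2, q.1)) : (U × U) × (U × U))))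
    ((univ : Finset (U × U)).image (fun q => (((q.1, q.2), (-q.1, -q.2)) : (U × U) × (U × U))))
  rw [hc] at c1 c2 c3
  show _ ≤ 3 * Fintype.card U ^ 2
  omega

private theorem KP_main (p : ℕ) [Fact p.Prime] (a b : ZMod p) (hab : a ≠ 0 ∨ b ≠ 0) :
    ‖KP_K p a b‖ ≤ 2 * (p : ℝ) ^ (3 / 4 : ℝ) := by
  classical
  set n : ℕ := Fintype.card (ZMod p)ˣ with hn
  have hp : 0 < p := (Fact.out : p.Prime).pos
  have hn0 : 0 < n := Fintype.card_pos
  have hnp : n ≤ p := by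
    rw [hn, ZMod.card_units]; omega
  set f : (ZMod p)ˣ → ZMod p × ZMod p := fun u => ((u : ZMod p) * a,
    ((u⁻¹ : (ZMod p)ˣ) : ZMod p) * b) with hf
  have hinj : Function.Injective f := by
    intro u v huv
    simp only [hf, Prod.mk.injEq] at huv
    rcases hab with ha | hb
    · exact Units.ext (mul_right_cancel₀ ha huv.1)
    · have h1 : (u⁻¹ : (ZMod p)ˣ) = v⁻¹ := Units.ext (mul_right_cancel₀ hb huv.2)
      exact inv_injective h1
  have h1 : (n : ℝ) * ‖KP_K p a b‖ ^ 4 = ∑ z ∈ univ.image f, ‖KP_K p z.1 z.2‖ ^ 4 := by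
    rw [Finset.sum_image (fun u _ v _ h => hinj h)]
    simp only [hf, KP_shift]
    rw [Finset.sum_const, nsmul_eq_mul, Finset.card_univ]
  have h2 : ∑ z ∈ univ.image f, ‖KP_K p z.1 z.2‖ ^ 4 ≤
      ∑ z : ZMod p × ZMod p, ‖KP_K p z.1 z.2‖ ^ 4 :=
    Finset.sum_le_univ_sum_of_nonneg (fun z => by positivity)
  have h3 : ∑ z : ZMod p × ZMod p, ‖KP_K p z.1 z.2‖ ^ 4 = (p : ℝ) ^ 2 * (KP_Q p).card := by
    rw [← KP_moment, ← Finset.univ_product_univ, Finset.sum_product]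
  have h4 : ((KP_Q p).card : ℝ) ≤ 3 * (n : ℝ) ^ 2 := by exact_mod_cast KP_card p
  have hn0' : (0 : ℝ) < n := by exact_mod_cast hn0
  have hp' : (0 : ℝ) < p := by exact_mod_cast hp
  have hnp' : (n : ℝ) ≤ p := by exact_mod_cast hnp
  have h5 : (n : ℝ) * ‖KP_K p a b‖ ^ 4 ≤ (n : ℝ) * (3 * (p : ℝ) ^ 2 * n) := by
    calc (n : ℝ) * ‖KP_K p a b‖ ^ 4 ≤ (p : ℝ) ^ 2 * (KP_Q p).card := by rw [h1, ← h3]; exact h2
      _ ≤ (p : ℝ) ^ 2 * (3 * (n : ℝ) ^ 2) := by gcongr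
      _ = (n : ℝ) * (3 * (p : ℝ) ^ 2 * n) := by ring
  have h6 : ‖KP_K p a b‖ ^ 4 ≤ 3 * (p : ℝ) ^ 2 * n := le_of_mul_le_mul_left h5 hn0'
  have h7 : (2 * (p : ℝ) ^ (3 / 4 : ℝ)) ^ 4 = 16 * (p : ℝ) ^ 3 := by
    rw [mul_pow, ← Real.rpow_natCast ((p : ℝ) ^ (3 / 4 : ℝ)) 4, ← Real.rpow_mul hp'.le,
      ← Real.rpow_natCast (p : ℝ) 3]
    norm_num
  have h8 : ‖KP_K p a b‖ ^ 4 ≤ (2 * (p : ℝ) ^ (3 / 4 : ℝ)) ^ 4 := by
    rw [h7]
    calc ‖KP_K p a b‖ ^ 4 ≤ 3 * (p : ℝ) ^ 2 * n := h6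
      _ ≤ 3 * (p : ℝ) ^ 2 * p := by gcongr
      _ ≤ 16 * (p : ℝ) ^ 3 := by
          have : 0 ≤ (p : ℝ) ^ 3 := by positivity
          nlinarith
  exact (pow_le_pow_iff_left₀ (norm_nonneg _) (by positivity) (by norm_num)).1 h8

theorem KP (p : ℕ) [Fact p.Prime] (a b : ZMod p) (hab : a ≠ 0 ∨ b ≠ 0) :
    ‖∑ x : (ZMod p)ˣ, (ZMod.stdAddChar (a * (x : ZMod p) + b * ((x⁻¹ : (ZMod p)ˣ) : ZMod p)) : ℂ)‖
      ≤ 2 * (p : ℝ) ^ (3 / 4 : ℝ) := KP_main p a b hab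

end Pool.Agent.H37.PPE
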