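import Pool.Agent.H37.PPE.Defs

/-!
PPE LA: local counts in SL2(F_p), first part.

Work in ZMod p (slc counts quadruples (r,s,t,q) ∈ (ZMod p)^4 with rq - st = 1 and S).
`slc_top`: p(p-1)(p+1).
`slc_F1` (p ≡ 1 mod 3): x²+xy+y² = (x-ωy)(x-ω²y), ω a primitive cube root of unity in ZMod p, ω ≠ ω².  With X = r-ωs, X' = r-ω²s, Y = t-ωq, Y' = t-ω²q:
 X Y' - X' Y = (ω-ω²)(rq - st)·(unit sign) ≠ 0 is the determinant condition, F1 = X X' Y Y'.  Count (X,X',Y,Y') with XY' - X'Y = c ≠ 0 fixed and XX'YY' = 0: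
 X = 0: X'Y = -c, Y' free: p(p-1), similarly X'=0, Y=0, Y'=0, each p(p-1); pairs: X=0=Y' impossible? X=0 and Y'=0: X'Y=-c: p-1; X'=0=Y: XY'=c: p-1;
 X=X'=0, Y=Y'=0, X=Y=0, X'=Y'=0 impossible.  Total 4p(p-1) - 2(p-1) = 2(p-1)(2p-1).
`Per_F1`, `Per_F2`, `Per_G2`: periodicity.
-/

set_option autoImplicit false

namespace Pool.Agent.H37.PPE

open Finset

theorem LA_dvd (p : ℕ) (z : ℤ) : (p : ℤ) ∣ z ↔ (z : ZMod p) = 0 :=
  (CharP.intCast_eq_zero_iff (ZMod p) p z).symm

open Classical in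
/-- `slc` as a count in `(ZMod p)^4` -/
theorem LA_slc (p : ℕ) [NeZero p] (S : ℤ → ℤ → ℤ → ℤ → Prop)
    (S' : ZMod p → ZMod p → ZMod p → ZMod p → Prop)
    (hS : ∀ r s t q : ℤ, S r s t q ↔ S' r s t q) :
    slc p S = ((univ : Finset (ZMod p × ZMod p × ZMod p × ZMod p)).filter
      (fun x => x.1 * x.2.2.2 - x.2.1 * x.2.2.1 = 1 ∧ S' x.1 x.2.1 x.2.2.1 x.2.2.2)).card := by
  unfold slc
  have key : ∀ r s t q : ℕ, ((p : ℤ) ∣ (r : ℤ) * (q : ℤ) - (s : ℤ) * (t : ℤ) - 1 ↔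
      (r : ZMod p) * (q : ZMod p) - (s : ZMod p) * (t : ZMod p) = 1) := by
    intro r s t q
    rw [LA_dvd, ← sub_eq_zero (a := (r : ZMod p) * (q : ZMod p) - (s : ZMod p) * (t : ZMod p))]
    push_cast
    rfl
  refine Finset.card_bij' (fun x _ => ((x.1 : ZMod p), (x.2.1 : ZMod p), (x.2.2.1 : ZMod p),
    (x.2.2.2 : ZMod p))) (fun y _ => (y.1.val, y.2.1.val, y.2.2.1.val, y.2.2.2.val))
    ?_ ?_ ?_ ?_
  · rintro ⟨r, s, t, q⟩ hx
    rw [mem_filter] at hx
    rw [mem_filter]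
    refine ⟨mem_univ _, (key r s t q).1 hx.2.1, ?_⟩
    have := (hS r s t q).1 hx.2.2
    simpa using this
  · rintro ⟨r, s, t, q⟩ hx
    rw [mem_filter] at hx
    rw [mem_filter]
    refine ⟨?_, ?_, ?_⟩
    · simp only [mem_product, mem_range]
      exact ⟨ZMod.val_lt r, ZMod.val_lt s, ZMod.val_lt t, ZMod.val_lt q⟩
    · refine (key _ _ _ _).2 ?_
      simp only [ZMod.natCast_zmod_val]
      exact hx.2.1
    · refine (hS _ _ _ _).2 ?_
      simp only [Int.cast_natCast, ZMod.natCast_zmod_val]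
      exact hx.2.2
  · rintro ⟨r, s, t, q⟩ hx
    rw [mem_filter] at hx
    simp only [mem_product, mem_range] at hx
    simp only [ZMod.val_natCast, Nat.mod_eq_of_lt hx.1.1, Nat.mod_eq_of_lt hx.1.2.1,
      Nat.mod_eq_of_lt hx.1.2.2.1, Nat.mod_eq_of_lt hx.1.2.2.2]
  · rintro ⟨r, s, t, q⟩ _
    simp only [ZMod.natCast_zmod_val]

section field

variable {F : Type} [Field F] [Fintype F] [DecidableEq F]

theorem LA_one {X X' Y c : F} (hX : X ≠ 0) (P : F → Prop) [DecidablePred P] :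
    ∑ Y' : F, (if X * Y' - X' * Y = c ∧ P Y' then 1 else 0) =
      if P ((c + X' * Y) / X) then 1 else 0 := by
  rw [Finset.sum_eq_single ((c + X' * Y) / X)]
  · have e : X * ((c + X' * Y) / X) - X' * Y = c := by
      field_simp
      ring
    by_cases h : P ((c + X' * Y) / X)
    · rw [if_pos ⟨e, h⟩, if_pos h]
    · rw [if_neg (fun h2 => h h2.2), if_neg h]
  · intro Y' _ hY'
    rw [if_neg]
    rintro ⟨h, _⟩
    apply hY'
    rw [eq_div_iff hX, ← h]
    ring
  · intro h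
    exact absurd (mem_univ _) h

theorem LA_zero {X' c : F} (hX' : X' ≠ 0) :
    ∑ Y : F, ∑ Y' : F, (if (0 : F) * Y' - X' * Y = c then 1 else 0) = Fintype.card F := by
  rw [Finset.sum_eq_single (-c / X')]
  · have e : ∀ Y' : F, (0 : F) * Y' - X' * (-c / X') = c := by
      intro Y'
      field_simp
      ring
    simp only [e, if_true, Finset.sum_const, Finset.card_univ, smul_eq_mul, mul_one]
  · intro Y _ hY
    refine Finset.sum_eq_zero fun Y' _ => ?_
    rw [if_neg]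
    intro h
    apply hY
    rw [eq_div_iff hX', ← h]
    ring
  · intro h
    exact absurd (mem_univ _) h

theorem LA_total (c : F) (hc : c ≠ 0) :
    ((univ : Finset (F × F × F × F)).filter
      (fun x => x.1 * x.2.2.2 - x.2.1 * x.2.2.1 = c)).card =
      Fintype.card F * (Fintype.card F - 1) * (Fintype.card F + 1) := by
  have h1 : ∀ X X' : F, X ≠ 0 → ∑ Y : F, ∑ Y' : F, (if X * Y' - X' * Y = c then 1 else 0) =
      Fintype.card F := by
    intro X X' hX
    have e : ∀ Y : F, ∑ Y' : F, (if X * Y' - X' * Y = c then 1 else 0) = 1 := by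
      intro Y
      have := LA_one (X' := X') (Y := Y) (c := c) hX (fun _ => True)
      simpa using this
    simp only [e, Finset.sum_const, Finset.card_univ, smul_eq_mul, mul_one]
  have h2 : ∑ Y : F, ∑ Y' : F, (if (0 : F) * Y' - 0 * Y = c then 1 else 0) = 0 := by
    refine Finset.sum_eq_zero fun Y _ => Finset.sum_eq_zero fun Y' _ => ?_
    rw [if_neg]
    intro h
    apply hc
    rw [← h]
    ring
  rw [Finset.card_filter]
  simp only [Fintype.sum_prod_type]
  rw [← Finset.add_sum_erase univ _ (mem_univ (0 : F)),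
    ← Finset.add_sum_erase univ _ (mem_univ (0 : F)), h2]
  have e1 : ∑ x ∈ univ.erase (0 : F), ∑ Y : F, ∑ Y' : F,
      (if (0 : F) * Y' - x * Y = c then 1 else 0) = (Fintype.card F - 1) * Fintype.card F := by
    rw [Finset.sum_congr rfl (fun x hx => LA_zero (c := c) (Finset.ne_of_mem_erase hx))]
    rw [Finset.sum_const, Finset.card_erase_of_mem (mem_univ _), Finset.card_univ, smul_eq_mul]
  have e2 : ∑ x ∈ univ.erase (0 : F), ∑ X' : F, ∑ Y : F, ∑ Y' : F,
      (if x * Y' - X' * Y = c then 1 else 0) =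
      (Fintype.card F - 1) * (Fintype.card F * Fintype.card F) := by
    rw [Finset.sum_congr rfl (fun x hx => by
      rw [Finset.sum_congr rfl (fun X' _ => h1 x X' (Finset.ne_of_mem_erase hx))])]
    rw [Finset.sum_const, Finset.card_erase_of_mem (mem_univ _), Finset.card_univ,
      Finset.sum_const, Finset.card_univ, smul_eq_mul, smul_eq_mul]
  rw [e1, e2]
  ring

theorem LA_nonzero (c : F) (hc : c ≠ 0) :
    ((univ : Finset (F × F × F × F)).filter
      (fun x => x.1 * x.2.2.2 - x.2.1 * x.2.2.1 = c ∧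
        ¬ (x.1 * x.2.1 * x.2.2.1 * x.2.2.2 = 0))).card =
      (Fintype.card F - 1) * ((Fintype.card F - 1) * (Fintype.card F - 2)) := by
  have hnz : ∀ X X' Y Y' : F, X * X' * Y * Y' ≠ 0 ↔ X ≠ 0 ∧ X' ≠ 0 ∧ Y ≠ 0 ∧ Y' ≠ 0 := by
    intro X X' Y Y'
    simp only [mul_ne_zero_iff]
    tauto
  rw [Finset.card_filter]
  simp only [Fintype.sum_prod_type]
  rw [← Finset.add_sum_erase univ _ (mem_univ (0 : F))]
  have e0 : ∑ X' : F, ∑ Y : F, ∑ Y' : F, (if (0 : F) * Y' - X' * Y = c ∧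
      ¬ ((0 : F) * X' * Y * Y' = 0) then 1 else 0) = 0 := by
    refine Finset.sum_eq_zero fun X' _ => Finset.sum_eq_zero fun Y _ =>
      Finset.sum_eq_zero fun Y' _ => ?_
    rw [if_neg]
    rintro ⟨_, h⟩
    exact h (by ring)
  rw [e0, zero_add]
  have e1 : ∀ X ∈ univ.erase (0 : F), ∑ X' : F, ∑ Y : F, ∑ Y' : F,
      (if X * Y' - X' * Y = c ∧ ¬ (X * X' * Y * Y' = 0) then 1 else 0) =
      (Fintype.card F - 1) * (Fintype.card F - 2) := by
    intro X hX
    have hX0 := Finset.ne_of_mem_erase hX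
    rw [← Finset.add_sum_erase univ _ (mem_univ (0 : F))]
    have e2 : ∑ Y : F, ∑ Y' : F, (if X * Y' - 0 * Y = c ∧
        ¬ (X * 0 * Y * Y' = 0) then 1 else 0) = 0 := by
      refine Finset.sum_eq_zero fun Y _ => Finset.sum_eq_zero fun Y' _ => ?_
      rw [if_neg]
      rintro ⟨_, h⟩
      exact h (by ring)
    rw [e2, zero_add]
    have e3 : ∀ X' ∈ univ.erase (0 : F), ∑ Y : F, ∑ Y' : F,
        (if X * Y' - X' * Y = c ∧ ¬ (X * X' * Y * Y' = 0) then 1 else 0) =
        Fintype.card F - 2 := by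
      intro X' hX'
      have hX'0 := Finset.ne_of_mem_erase hX'
      have e4 : ∀ Y : F, ∑ Y' : F,
          (if X * Y' - X' * Y = c ∧ ¬ (X * X' * Y * Y' = 0) then 1 else 0) =
          if Y ∈ (univ.erase (0 : F)).erase (-c / X') then 1 else 0 := by
        intro Y
        rw [LA_one (X' := X') (Y := Y) (c := c) hX0 (fun Y' => ¬ (X * X' * Y * Y' = 0))]
        have e5 : (¬ (X * X' * Y * ((c + X' * Y) / X) = 0)) ↔
            Y ∈ (univ.erase (0 : F)).erase (-c / X') := by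
          rw [Finset.mem_erase, Finset.mem_erase]
          have e6 := hnz X X' Y ((c + X' * Y) / X)
          rw [← ne_eq, e6]
          constructor
          · rintro ⟨_, _, h3, h4⟩
            refine ⟨?_, h3, mem_univ _⟩
            rintro rfl
            apply h4
            field_simp
            ring
          · rintro ⟨h3, h4, _⟩
            refine ⟨hX0, hX'0, h4, ?_⟩
            intro h5
            apply h3
            rw [div_eq_zero_iff] at h5
            rcases h5 with h5 | h5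
            · rw [eq_div_iff hX'0]
              linear_combination h5
            · exact absurd h5 hX0
        by_cases h : Y ∈ (univ.erase (0 : F)).erase (-c / X')
        · rw [if_pos h, if_pos (e5.2 h)]
        · rw [if_neg h, if_neg (fun h2 => h (e5.1 h2))]
      simp only [e4]
      rw [← Finset.card_filter, Finset.filter_mem_eq_inter, Finset.univ_inter,
        Finset.card_erase_of_mem, Finset.card_erase_of_mem (mem_univ _), Finset.card_univ]
      · omega
      · rw [Finset.mem_erase]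
        exact ⟨div_ne_zero (neg_ne_zero.2 hc) hX'0, mem_univ _⟩
    rw [Finset.sum_congr rfl e3, Finset.sum_const, Finset.card_erase_of_mem (mem_univ _),
      Finset.card_univ, smul_eq_mul]
  rw [Finset.sum_congr rfl e1, Finset.sum_const, Finset.card_erase_of_mem (mem_univ _),
    Finset.card_univ, smul_eq_mul]

end field

theorem slc_top (p : ℕ) (hp : p.Prime) :
    slc p (fun _ _ _ _ => True) = p * (p - 1) * (p + 1) := by
  have : Fact p.Prime := ⟨hp⟩
  classical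
  rw [LA_slc p _ (fun _ _ _ _ => True) (fun _ _ _ _ => Iff.rfl)]
  have h := LA_total (F := ZMod p) 1 one_ne_zero
  rw [ZMod.card] at h
  rw [← h]
  apply congrArg
  ext x
  simp only [mem_filter, and_true]

/-- a primitive cube root of unity -/
theorem LA_omega (p : ℕ) (hp : p.Prime) (h3 : p % 3 = 1) :
    ∃ ω : ZMod p, ω ^ 2 + ω + 1 = 0 ∧ ω - ω ^ 2 ≠ 0 := by
  have : Fact p.Prime := ⟨hp⟩
  have hcard : Fintype.card (ZMod p)ˣ = p - 1 := ZMod.card_units p
  have hdvd : 3 ∣ Fintype.card (ZMod p)ˣ := by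
    rw [hcard]
    have := hp.two_le
    omega
  have : Fact (Nat.Prime 3) := ⟨Nat.prime_three⟩
  obtain ⟨u, hu⟩ := exists_prime_orderOf_dvd_card 3 hdvd
  have h1 : u ^ 3 = 1 := by rw [← hu, pow_orderOf_eq_one]
  have h2 : u ≠ 1 := by
    intro h
    rw [h, orderOf_one] at hu
    omega
  have h1' : (u : ZMod p) ^ 3 = 1 := by
    rw [← Units.val_pow_eq_pow_val, h1, Units.val_one]
  have h2' : (u : ZMod p) ≠ 1 := fun h => h2 (Units.ext h)
  have h0 : (u : ZMod p) ≠ 0 := u.ne_zero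
  refine ⟨u, ?_, ?_⟩
  · have e : ((u : ZMod p) - 1) * ((u : ZMod p) ^ 2 + u + 1) = 0 := by
      linear_combination h1'
    exact (mul_eq_zero.1 e).resolve_left (sub_ne_zero.2 h2')
  · intro h
    have e : (u : ZMod p) * (1 - u) = 0 := by linear_combination h
    rcases mul_eq_zero.1 e with h3 | h3
    · exact h0 h3
    · exact h2' (sub_eq_zero.1 h3).symm

theorem slc_F1 (p : ℕ) (hp : p.Prime) (h3 : p % 3 = 1) :
    slc p (fun r s t q => (p : ℤ) ∣ F1 r s t q) = 2 * (p - 1) * (2 * p - 1) := by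
  have : Fact p.Prime := ⟨hp⟩
  classical
  obtain ⟨ω, hω, hδ⟩ := LA_omega p hp h3
  have h2 := hp.two_le
  rw [LA_slc p _ (fun r s t q => (r ^ 2 + r * s + s ^ 2) * (t ^ 2 + t * q + q ^ 2) = 0)
    (fun r s t q => by
      rw [LA_dvd]
      unfold F1
      push_cast
      rfl)]
  have hω3 : ω ^ 3 = 1 := by linear_combination (ω - 1) * hω
  have e1 : ((univ : Finset (ZMod p × ZMod p × ZMod p × ZMod p)).filter
      (fun x => x.1 * x.2.2.2 - x.2.1 * x.2.2.1 = 1 ∧
        (x.1 ^ 2 + x.1 * x.2.1 + x.2.1 ^ 2) *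
          (x.2.2.1 ^ 2 + x.2.2.1 * x.2.2.2 + x.2.2.2 ^ 2) = 0)).card =
      ((univ : Finset (ZMod p × ZMod p × ZMod p × ZMod p)).filter
      (fun x => x.1 * x.2.2.2 - x.2.1 * x.2.2.1 = ω - ω ^ 2 ∧
        x.1 * x.2.1 * x.2.2.1 * x.2.2.2 = 0)).card := by
    refine Finset.card_bij'
      (fun x _ => (x.1 - ω * x.2.1, x.1 - ω ^ 2 * x.2.1, x.2.2.1 - ω * x.2.2.2,
        x.2.2.1 - ω ^ 2 * x.2.2.2))
      (fun y _ => (y.1 + ω * ((y.2.1 - y.1) / (ω - ω ^ 2)), (y.2.1 - y.1) / (ω - ω ^ 2),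
        y.2.2.1 + ω * ((y.2.2.2 - y.2.2.1) / (ω - ω ^ 2)),
        (y.2.2.2 - y.2.2.1) / (ω - ω ^ 2))) ?_ ?_ ?_ ?_
    · rintro ⟨r, s, t, q⟩ hx
      rw [mem_filter] at hx
      obtain ⟨_, h4, h5⟩ := hx
      simp only at h4 h5
      rw [mem_filter]
      refine ⟨mem_univ _, ?_, ?_⟩
      · simp only
        linear_combination (ω - ω ^ 2) * h4
      · simp only
        have e : (r - ω * s) * (r - ω ^ 2 * s) * (t - ω * q) * (t - ω ^ 2 * q) =
            (r ^ 2 + r * s + s ^ 2) * (t ^ 2 + t * q + q ^ 2) := by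
          have a1 : (r - ω * s) * (r - ω ^ 2 * s) = r ^ 2 + r * s + s ^ 2 := by
            linear_combination (-(r * s)) * hω + s ^ 2 * hω3
          have a2 : (t - ω * q) * (t - ω ^ 2 * q) = t ^ 2 + t * q + q ^ 2 := by
            linear_combination (-(t * q)) * hω + q ^ 2 * hω3
          rw [mul_assoc ((r - ω * s) * (r - ω ^ 2 * s)), a1, a2]
        rw [e, h5]
    · rintro ⟨X, X', Y, Y'⟩ hx
      rw [mem_filter] at hx
      obtain ⟨_, h4, h5⟩ := hx
      simp only at h4 h5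
      rw [mem_filter]
      obtain ⟨s, hs⟩ : ∃ s, s = (X' - X) / (ω - ω ^ 2) := ⟨_, rfl⟩
      obtain ⟨q, hq⟩ : ∃ q, q = (Y' - Y) / (ω - ω ^ 2) := ⟨_, rfl⟩
      have hs' : X' = X + (ω - ω ^ 2) * s := by
        rw [hs, mul_div_cancel₀ _ hδ]
        ring
      have hq' : Y' = Y + (ω - ω ^ 2) * q := by
        rw [hq, mul_div_cancel₀ _ hδ]
        ring
      simp only
      rw [← hs, ← hq]
      refine ⟨mem_univ _, ?_, ?_⟩
      · have e : (ω - ω ^ 2) * ((X + ω * s) * q - s * (Y + ω * q) - 1) = 0 := by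
          rw [hs', hq'] at h4
          linear_combination h4
        exact sub_eq_zero.1 ((mul_eq_zero.1 e).resolve_left hδ)
      · have a1 : X * X' = (X + ω * s) ^ 2 + (X + ω * s) * s + s ^ 2 := by
          rw [hs']
          linear_combination (-(X * s)) * hω - s ^ 2 * hω
        have a2 : Y * Y' = (Y + ω * q) ^ 2 + (Y + ω * q) * q + q ^ 2 := by
          rw [hq']
          linear_combination (-(Y * q)) * hω - q ^ 2 * hω
        rw [← a1, ← a2, ← mul_assoc]
        exact h5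
    · rintro ⟨r, s, t, q⟩ _
      simp only
      have b1 : (r - ω ^ 2 * s - (r - ω * s)) / (ω - ω ^ 2) = s := by
        rw [div_eq_iff hδ]
        ring
      have b2 : (t - ω ^ 2 * q - (t - ω * q)) / (ω - ω ^ 2) = q := by
        rw [div_eq_iff hδ]
        ring
      rw [b1, b2]
      simp only [sub_add_cancel]
    · rintro ⟨X, X', Y, Y'⟩ _
      simp only
      have b1 : X + ω * ((X' - X) / (ω - ω ^ 2)) - ω ^ 2 * ((X' - X) / (ω - ω ^ 2)) = X' := by
        have : (ω - ω ^ 2) * ((X' - X) / (ω - ω ^ 2)) = X' - X := mul_div_cancel₀ _ hδ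
        linear_combination this
      have b2 : Y + ω * ((Y' - Y) / (ω - ω ^ 2)) - ω ^ 2 * ((Y' - Y) / (ω - ω ^ 2)) = Y' := by
        have : (ω - ω ^ 2) * ((Y' - Y) / (ω - ω ^ 2)) = Y' - Y := mul_div_cancel₀ _ hδ
        linear_combination this
      rw [b1, b2]
      simp only [add_sub_cancel_right]
  have e0 := e1
  refine Eq.trans (congrArg Finset.card ?_) (e0.trans ?_)
  · ext x
    simp only [mem_filter]
  have htot := LA_total (F := ZMod p) (ω - ω ^ 2) hδ
  have hnon := LA_nonzero (F := ZMod p) (ω - ω ^ 2) hδ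
  rw [ZMod.card] at htot hnon
  have hsplit : ((univ : Finset (ZMod p × ZMod p × ZMod p × ZMod p)).filter
      (fun x => x.1 * x.2.2.2 - x.2.1 * x.2.2.1 = ω - ω ^ 2 ∧
        x.1 * x.2.1 * x.2.2.1 * x.2.2.2 = 0)).card +
      ((univ : Finset (ZMod p × ZMod p × ZMod p × ZMod p)).filter
      (fun x => x.1 * x.2.2.2 - x.2.1 * x.2.2.1 = ω - ω ^ 2 ∧
        ¬ (x.1 * x.2.1 * x.2.2.1 * x.2.2.2 = 0))).card =
      ((univ : Finset (ZMod p × ZMod p × ZMod p × ZMod p)).filter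
      (fun x => x.1 * x.2.2.2 - x.2.1 * x.2.2.1 = ω - ω ^ 2)).card := by
    rw [← Finset.card_filter_add_card_filter_not (s := (univ : Finset (ZMod p × ZMod p × ZMod p ×
      ZMod p)).filter (fun x => x.1 * x.2.2.2 - x.2.1 * x.2.2.1 = ω - ω ^ 2))
      (fun x => x.1 * x.2.1 * x.2.2.1 * x.2.2.2 = 0), Finset.filter_filter,
      Finset.filter_filter]
  rw [htot, hnon] at hsplit
  obtain ⟨m, rfl⟩ : ∃ m, p = m + 2 := ⟨p - 2, by omega⟩
  have e2 : m + 2 - 1 = m + 1 := by omega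
  have e3 : m + 2 - 2 = m := by omega
  have e4 : 2 * (m + 2) - 1 = 2 * m + 3 := by omega
  rw [e2, e3] at hsplit
  rw [e2, e4]
  have e5 : (m + 2) * (m + 1) * (m + 2 + 1) = 2 * (m + 1) * (2 * m + 3) +
      (m + 1) * ((m + 1) * m) := by ring
  omega

theorem Per_F1 (p : ℕ) : Per p (fun r s t q => (p : ℤ) ∣ F1 r s t q) := by
  intro r s t q r' s' t' q' hr hs ht hq
  show (p : ℤ) ∣ F1 r s t q ↔ (p : ℤ) ∣ F1 r' s' t' q'
  rw [LA_dvd, Int.cast_sub, sub_eq_zero] at hr hs ht hq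
  rw [LA_dvd, LA_dvd]
  unfold F1
  push_cast
  rw [hr, hs, ht, hq]

theorem Per_F2 (p : ℕ) : Per p (fun r s t q => (p : ℤ) ∣ F2 r s t q) := by
  intro r s t q r' s' t' q' hr hs ht hq
  show (p : ℤ) ∣ F2 r s t q ↔ (p : ℤ) ∣ F2 r' s' t' q'
  rw [LA_dvd, Int.cast_sub, sub_eq_zero] at hr hs ht hq
  rw [LA_dvd, LA_dvd]
  unfold F2
  push_cast
  rw [hr, hs, ht, hq]

theorem Per_G2 (σ : ℤ) (p : ℕ) : Per p (G2 σ p) := by
  intro r s t q r' s' t' q' hr hs ht hq
  have h1 := Per_F2 p r s t q r' s' t' q' hr hs ht hq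
  simp only at h1
  rw [LA_dvd, Int.cast_sub, sub_eq_zero] at hr hs ht hq
  have h2 : (p : ℤ) ∣ (r ^ 2 - 3 * s ^ 2 + (t ^ 2 - 3 * q ^ 2)) - 2 * σ ↔
      (p : ℤ) ∣ (r' ^ 2 - 3 * s' ^ 2 + (t' ^ 2 - 3 * q' ^ 2)) - 2 * σ := by
    rw [LA_dvd, LA_dvd]
    push_cast
    rw [hr, hs, ht, hq]
  have h3 : ((t ^ 2 - 3 * q ^ 2 - (r ^ 2 - 3 * s ^ 2) : ℤ) : ZMod p) =
      ((t' ^ 2 - 3 * q' ^ 2 - (r' ^ 2 - 3 * s' ^ 2) : ℤ) : ZMod p) := by
    push_cast
    rw [hr, hs, ht, hq]
  have h4 : ((r * t - 3 * s * q : ℤ) : ZMod p) = ((r' * t' - 3 * s' * q' : ℤ) : ZMod p) := by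
    push_cast
    rw [hr, hs, ht, hq]
  unfold G2
  rw [h1, h2, h3, h4]

end Pool.Agent.H37.PPE
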