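import Pool.Agent.H37.PPE.KH

/-!
PPE PR: the count for a fixed first entry r.

m = mm M r (squarefree, coprime to k M), k = kk M r, r = m k.  Condition on (s,t): r ∣ 1+st, s ≡ s0, t ≡ t0 mod M, (1+st)/r ≡ q0 mod M
 ⟺ s ≡ s0, t ≡ t0 mod M and st ≡ -1 + r q0 mod r M ⟺ m ∣ st+1 and (s,t) mod kM in the set
 Cl = {(σ,τ) mod kM : σ ≡ s0, τ ≡ t0 mod M, στ ≡ -1 + r q0 mod kM}   (gcd(m, kM) = 1 and m ∣ r q0).
Claim |Cl| = #{i mod k : gcd(s0 + M i, k) = 1}: for σ = s0 + M i, τ = t0 + M j the condition is σ M j ≡ -1 + r q0 - σ t0 mod kM, and the right side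
 is divisible by M (r ≡ r0, σ ≡ s0, r0 q0 - s0 t0 ≡ 1 mod M), so it is σ j ≡ c mod k.  If gcd(σ,k) = 1 there is exactly one j mod k; if a prime p
 divides σ and k there is none: if p ∤ M then p | στ+1 - r q0 would give p | 1; if p ∣ M then p | r, p | s0 contradicts r0 q0 - s0 t0 ≡ 1 mod p (and r ≡ r0 mod p).
 #{i mod k : gcd(s0+Mi,k)=1} = ∑_{d|k,(d,M)=1} μ(d) k/d = phiM M k (for d with a common prime with M: d ∤ s0 + M i, as above),
 φ(m) phiM M k = phiM M r (gcd(m,k)=1, gcd(m,M)=1; multiplicativity).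
For every (σ,τ) ∈ Cl use KH with n = kM, I = [-r,r), J = [-Lr, Lr): main term 4 L r² φ(m)/(m k M)² = 4 L φ(m)/M², error ≤
 C τ(m)² m^{3/4}(1+log m)² (1+2/M)(1+2L/M) ≤ 9 C L τ(r)² r^{3/4} (1+log r)².  |Cl| ≤ k.
-/

set_option autoImplicit false

namespace Pool.Agent.H37.PPE

open Finset

/-! ### Arithmetic of `phiM` -/

private theorem PR_moebius_sum (n : ℕ) :
    ∑ d ∈ n.divisors, (ArithmeticFunction.moebius d : ℝ) = if n = 1 then 1 else 0 := by
  have h := DFunLike.congr_fun ArithmeticFunction.coe_zeta_mul_moebius n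
  rw [ArithmeticFunction.coe_zeta_mul_apply, ArithmeticFunction.one_apply] at h
  have h2 : ((∑ i ∈ n.divisors, ArithmeticFunction.moebius i : ℤ) : ℝ)
      = ((if n = 1 then 1 else 0 : ℤ) : ℝ) := by rw [h]
  push_cast at h2
  exact h2

private theorem PR_count_dvd (d k M : ℕ) (s0 : ℤ) (hd : 0 < d) (hdk : d ∣ k)
    (hdM : d.Coprime M) :
    ((range k).filter (fun i : ℕ => (d : ℤ) ∣ s0 + M * i)).card = k / d := by
  -- choose v with the condition equivalent to i ≡ v mod d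
  obtain ⟨u, w, huw⟩ : ∃ u w : ℤ, u * M + w * d = 1 := by
    have : IsCoprime (M : ℤ) (d : ℤ) := Nat.isCoprime_iff_coprime.mpr hdM.symm
    exact this
  obtain ⟨v, hv⟩ : ∃ v : ℕ, (d : ℤ) ∣ (v : ℤ) + u * s0 := by
    refine ⟨((-(u * s0)) % d).toNat, ?_⟩
    rw [Int.toNat_of_nonneg (Int.emod_nonneg _ (by omega))]
    have := Int.emod_add_mul_ediv (-(u * s0)) d
    refine ⟨-((-(u * s0)) / d), ?_⟩
    linarith only [this]
  have heq : (range k).filter (fun i : ℕ => (d : ℤ) ∣ s0 + M * i)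
      = (range k).filter (fun i : ℕ => i ≡ v [MOD d]) := by
    apply filter_congr
    intro i _
    rw [← Int.natCast_modEq_iff, Int.modEq_iff_dvd]
    constructor
    · intro h
      have h1 : (d : ℤ) ∣ u * (s0 + M * i) := Dvd.dvd.mul_left h u
      have h2 : (v : ℤ) - i = ((v : ℤ) + u * s0) - u * (s0 + M * i) - w * d * i := by
        linear_combination (i : ℤ) * huw
      rw [h2]
      exact ((hv.sub h1)).sub ⟨w * i, by ring⟩
    · intro h
      have h2 : s0 + M * i = M * ((v : ℤ) + u * s0) - M * ((v : ℤ) - i) + w * d * s0 := by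
        linear_combination (-s0) * huw
      rw [h2]
      exact ((Dvd.dvd.mul_left hv _).sub (Dvd.dvd.mul_left h _)).add ⟨w * s0, by ring⟩
  rw [heq, ← Nat.count_eq_card_filter_range, Nat.count_modEq_card k hd v,
    Nat.mod_eq_zero_of_dvd hdk]
  simp

private theorem PR_count_cop (k M : ℕ) (s0 : ℤ) (hk : 1 ≤ k)
    (hp : ∀ p : ℕ, p.Prime → p ∣ k → p ∣ M → ¬ (p : ℤ) ∣ s0) :
    (((range k).filter (fun i : ℕ => IsCoprime (s0 + M * i) (k : ℤ))).card : ℝ) = phiM M k := by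
  have h1 : (((range k).filter (fun i : ℕ => IsCoprime (s0 + M * i) (k : ℤ))).card : ℝ)
      = ∑ i ∈ range k, ∑ d ∈ k.divisors.filter (fun d : ℕ => (d : ℤ) ∣ s0 + M * i),
          (ArithmeticFunction.moebius d : ℝ) := by
    rw [card_filter]
    push_cast
    apply sum_congr rfl
    intro i _
    have h2 : k.divisors.filter (fun d : ℕ => (d : ℤ) ∣ s0 + M * i)
        = (Nat.gcd (s0 + M * i).natAbs k).divisors := by
      ext d
      rw [mem_filter, Nat.mem_divisors, Nat.mem_divisors, Nat.dvd_gcd_iff]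
      constructor
      · rintro ⟨⟨h3, h4⟩, h5⟩
        refine ⟨⟨Int.natCast_dvd.mp h5, h3⟩, ?_⟩
        intro h6
        rw [Nat.gcd_eq_zero_iff] at h6
        exact h4 h6.2
      · rintro ⟨⟨h3, h4⟩, h5⟩
        exact ⟨⟨h4, by omega⟩, Int.natCast_dvd.mpr h3⟩
    rw [h2, PR_moebius_sum _]
    have h8 : IsCoprime (s0 + M * i) (k : ℤ) ↔ Nat.gcd (s0 + M * i).natAbs k = 1 := by
      rw [Int.isCoprime_iff_gcd_eq_one, Int.gcd_def, Int.natAbs_natCast]
    by_cases h9 : Nat.gcd (s0 + M * i).natAbs k = 1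
    · rw [if_pos h9, if_pos (h8.mpr h9)]
    · rw [if_neg h9, if_neg (fun h => h9 (h8.mp h))]
  rw [h1]
  have h2 : ∑ i ∈ range k, ∑ d ∈ k.divisors.filter (fun d : ℕ => (d : ℤ) ∣ s0 + M * i),
          (ArithmeticFunction.moebius d : ℝ)
      = ∑ d ∈ k.divisors, (ArithmeticFunction.moebius d : ℝ) *
          (((range k).filter (fun i : ℕ => (d : ℤ) ∣ s0 + M * i)).card : ℝ) := by
    simp_rw [sum_filter]
    rw [sum_comm]
    apply sum_congr rfl
    intro d _
    rw [card_filter]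
    push_cast
    rw [mul_sum]
    apply sum_congr rfl
    intro i _
    split_ifs <;> simp
  rw [h2]
  unfold phiM
  rw [sum_filter]
  apply sum_congr rfl
  intro d hd
  rw [Nat.mem_divisors] at hd
  have hd0 : 0 < d := Nat.pos_of_dvd_of_pos hd.1 (by omega)
  by_cases hc : d.Coprime M
  · rw [if_pos hc, PR_count_dvd d k M s0 hd0 hd.1 hc, Nat.cast_div hd.1 (by exact_mod_cast hd0.ne')]
  · rw [if_neg hc]
    obtain ⟨p, hpp, hpd, hpM⟩ := Nat.Prime.not_coprime_iff_dvd.mp hc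
    have h3 : ((range k).filter (fun i : ℕ => (d : ℤ) ∣ s0 + M * i)) = ∅ := by
      rw [filter_eq_empty_iff]
      intro i _ h4
      apply hp p hpp (hpd.trans hd.1) hpM
      have h5 : (p : ℤ) ∣ s0 + M * i := (Int.natCast_dvd_natCast.mpr hpd).trans h4
      have h6 : (p : ℤ) ∣ M * i := (Int.natCast_dvd_natCast.mpr hpM).mul_right _
      exact (dvd_add_left h6).mp h5
    rw [h3]
    simp

private theorem PR_totient (m M : ℕ) (hm : 1 ≤ m) (hmM : m.Coprime M) :
    (m.totient : ℝ) = phiM M m := by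
  have h := PR_count_cop m 1 0 hm (by
    intro p hp _ h1
    exact absurd (Nat.dvd_one.mp h1) hp.one_lt.ne')
  have h1 : phiM M m = phiM 1 m := by
    unfold phiM
    apply sum_congr _ (fun _ _ => rfl)
    apply filter_congr
    intro d hd
    rw [Nat.mem_divisors] at hd
    constructor
    · intro _; exact Nat.coprime_one_right d
    · intro _; exact Nat.Coprime.coprime_dvd_left hd.1 hmM
  rw [h1, ← h, Nat.totient_eq_card_coprime]
  congr 1
  apply congrArg
  apply filter_congr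
  intro i _
  rw [Nat.coprime_comm]
  push_cast
  rw [zero_add, one_mul]
  exact Nat.isCoprime_iff_coprime.symm

private theorem PR_mult (M m k : ℕ) (hmk : m.Coprime k) :
    phiM M (m * k) = phiM M m * phiM M k := by
  set g : ArithmeticFunction ℝ :=
    ⟨fun d => if d.Coprime M ∧ d ≠ 0 then (ArithmeticFunction.moebius d : ℝ) else 0, by simp⟩
    with hgdef
  set idR : ArithmeticFunction ℝ := ⟨fun n => (n : ℝ), by simp⟩ with hiddef
  have hg : g.IsMultiplicative := by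
    constructor
    · show (if (1 : ℕ).Coprime M ∧ (1 : ℕ) ≠ 0 then (ArithmeticFunction.moebius 1 : ℝ) else 0) = 1
      simp
    · intro a b hab
      show (if (a * b).Coprime M ∧ a * b ≠ 0 then (ArithmeticFunction.moebius (a * b) : ℝ) else 0)
        = (if a.Coprime M ∧ a ≠ 0 then (ArithmeticFunction.moebius a : ℝ) else 0)
          * (if b.Coprime M ∧ b ≠ 0 then (ArithmeticFunction.moebius b : ℝ) else 0)
      rw [ArithmeticFunction.isMultiplicative_moebius.map_mul_of_coprime hab]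
      by_cases ha : a.Coprime M ∧ a ≠ 0
      · by_cases hb : b.Coprime M ∧ b ≠ 0
        · rw [if_pos ha, if_pos hb, if_pos ⟨Nat.Coprime.mul_left ha.1 hb.1, by
            exact Nat.mul_ne_zero ha.2 hb.2⟩]
          push_cast
          ring
        · rw [if_neg hb, mul_zero, if_neg]
          rintro ⟨h1, h2⟩
          exact hb ⟨Nat.Coprime.coprime_mul_left h1, fun h => h2 (by rw [h, mul_zero])⟩
      · rw [if_neg ha, zero_mul, if_neg]
        rintro ⟨h1, h2⟩
        exact ha ⟨Nat.Coprime.coprime_mul_right h1, fun h => h2 (by rw [h, zero_mul])⟩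
  have hid : idR.IsMultiplicative := by
    constructor
    · show ((1 : ℕ) : ℝ) = 1
      simp
    · intro a b _
      show ((a * b : ℕ) : ℝ) = (a : ℝ) * b
      push_cast
      ring
  have hval : ∀ n : ℕ, phiM M n = (g * idR) n := by
    intro n
    rw [ArithmeticFunction.mul_apply,
      Nat.sum_divisorsAntidiagonal (f := fun a b : ℕ => g a * idR b)]
    unfold phiM
    rw [sum_filter]
    apply sum_congr rfl
    intro d hd
    rw [Nat.mem_divisors] at hd
    have hd0 : d ≠ 0 := by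
      rintro rfl
      exact hd.2 (Nat.eq_zero_of_zero_dvd hd.1)
    have h1 : idR (n / d) = (n : ℝ) / d := by
      show ((n / d : ℕ) : ℝ) = (n : ℝ) / d
      rw [Nat.cast_div hd.1 (by exact_mod_cast hd0)]
    rw [h1]
    show _ = (if d.Coprime M ∧ d ≠ 0 then (ArithmeticFunction.moebius d : ℝ) else 0) * _
    by_cases hc : d.Coprime M
    · rw [if_pos hc, if_pos ⟨hc, hd0⟩]
    · rw [if_neg hc, if_neg (fun h => hc h.1), zero_mul]
  rw [hval, hval, hval]
  exact (hg.mul hid).map_mul_of_coprime hmk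

/-! ### The modulus `mm` -/

private theorem PR_mm_dvd (M r : ℕ) : mm M r ∣ r := by
  unfold mm
  exact (Finset.prod_dvd_prod_of_subset _ _ _ (filter_subset _ _)).trans
    (Nat.prod_primeFactors_dvd r)

private theorem PR_mm_sqf (M r : ℕ) : Squarefree (mm M r) := by
  unfold mm
  refine Finset.squarefree_prod_of_pairwise_isCoprime ?_ ?_
  · intro a ha b hb hab
    rw [mem_coe, mem_filter, Nat.mem_primeFactors] at ha hb
    exact Nat.coprime_iff_isRelPrime.mp ((Nat.coprime_primes ha.1.1 hb.1.1).mpr hab)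
  · intro a ha
    rw [mem_filter, Nat.mem_primeFactors] at ha
    exact (Nat.prime_iff.mp ha.1.1).squarefree

private theorem PR_mm_prime (M r p : ℕ) (hp : p.Prime) (h : p ∣ mm M r) :
    p ∣ r ∧ ¬ p ^ 2 ∣ r ∧ ¬ p ∣ M := by
  unfold mm at h
  rw [Prime.dvd_finsetProd_iff (Nat.prime_iff.mp hp)] at h
  obtain ⟨a, ha, hpa⟩ := h
  rw [mem_filter, Nat.mem_primeFactors] at ha
  have : p = a := (Nat.prime_dvd_prime_iff_eq hp ha.1.1).mp hpa
  rw [this]
  exact ⟨ha.1.2.1, ha.2.1, ha.2.2⟩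

/-! ### The classes -/

private theorem PR_Cl_card (r M k : ℕ) (r0 s0 t0 q0 : ℤ) (hk : 1 ≤ k) (hM : 1 ≤ M) (hkr : k ∣ r)
    (h1 : (M : ℤ) ∣ (r : ℤ) - r0) (h2 : (M : ℤ) ∣ r0 * q0 - s0 * t0 - 1) :
    (((range k) ×ˢ (range k)).filter (fun x : ℕ × ℕ =>
      ((k * M : ℕ) : ℤ) ∣ (s0 + M * x.1) * (t0 + M * x.2) + 1 - r * q0)).card
    = ((range k).filter (fun i : ℕ => IsCoprime (s0 + M * i) (k : ℤ))).card := by
  have hMz : (M : ℤ) ≠ 0 := by exact_mod_cast (by omega : M ≠ 0)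
  have hkz : (k : ℤ) ≠ 0 := by exact_mod_cast (by omega : k ≠ 0)
  refine Finset.card_bij (fun x _ => x.1) ?_ ?_ ?_
  · rintro ⟨i, j⟩ hx
    rw [mem_filter, mem_product] at hx
    obtain ⟨⟨hi, hj⟩, hd⟩ := hx
    simp only at hi hj hd
    rw [mem_filter]
    refine ⟨hi, ?_⟩
    rw [Int.isCoprime_iff_gcd_eq_one]
    by_contra hg
    obtain ⟨p, hp, hpg⟩ := Nat.exists_prime_and_dvd hg
    have hp1 : (p : ℤ) ∣ s0 + M * i := (Int.natCast_dvd_natCast.mpr hpg).trans (Int.gcd_dvd_left _ _)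
    have hp2 : (p : ℤ) ∣ (k : ℤ) := (Int.natCast_dvd_natCast.mpr hpg).trans (Int.gcd_dvd_right _ _)
    have hp3 : (p : ℤ) ∣ (s0 + M * i) * (t0 + M * j) + 1 - r * q0 := by
      refine (hp2.trans ?_).trans hd
      push_cast
      exact Dvd.intro _ rfl
    have hp4 : (p : ℤ) ∣ (r : ℤ) := hp2.trans (by exact_mod_cast hkr)
    have hp5 : (p : ℤ) ∣ 1 := by
      have : (1 : ℤ) = ((s0 + M * i) * (t0 + M * j) + 1 - r * q0) - (s0 + M * i) * (t0 + M * j)
        + r * q0 := by ring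
      rw [this]
      exact (hp3.sub (hp1.mul_right _)).add (hp4.mul_right _)
    have hp6 : p ∣ 1 := by exact_mod_cast hp5
    exact absurd (Nat.dvd_one.mp hp6) hp.one_lt.ne'
  · rintro ⟨i, j⟩ hx ⟨i', j'⟩ hy hxy
    simp only at hxy
    subst hxy
    rw [mem_filter, mem_product] at hx hy
    obtain ⟨⟨hi, hj⟩, hd⟩ := hx
    obtain ⟨⟨_, hj'⟩, hd'⟩ := hy
    simp only [mem_range] at hi hj hd hj' hd'
    have hcop : IsCoprime (s0 + M * i) (k : ℤ) := by
      rw [Int.isCoprime_iff_gcd_eq_one]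
      by_contra hg
      obtain ⟨p, hp, hpg⟩ := Nat.exists_prime_and_dvd hg
      have hp1 : (p : ℤ) ∣ s0 + M * i :=
        (Int.natCast_dvd_natCast.mpr hpg).trans (Int.gcd_dvd_left _ _)
      have hp2 : (p : ℤ) ∣ (k : ℤ) :=
        (Int.natCast_dvd_natCast.mpr hpg).trans (Int.gcd_dvd_right _ _)
      have hp3 : (p : ℤ) ∣ (s0 + M * i) * (t0 + M * j) + 1 - r * q0 := by
        refine (hp2.trans ?_).trans hd
        push_cast
        exact Dvd.intro _ rfl
      have hp4 : (p : ℤ) ∣ (r : ℤ) := hp2.trans (by exact_mod_cast hkr)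
      have hp5 : (p : ℤ) ∣ 1 := by
        have : (1 : ℤ) = ((s0 + M * i) * (t0 + M * j) + 1 - r * q0) - (s0 + M * i) * (t0 + M * j)
          + r * q0 := by ring
        rw [this]
        exact (hp3.sub (hp1.mul_right _)).add (hp4.mul_right _)
      have hp6 : p ∣ 1 := by exact_mod_cast hp5
      exact absurd (Nat.dvd_one.mp hp6) hp.one_lt.ne'
    have h3 : (M : ℤ) * k ∣ M * ((s0 + M * i) * ((j : ℤ) - j')) := by
      have : (M : ℤ) * ((s0 + M * i) * ((j : ℤ) - j'))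
        = ((s0 + M * i) * (t0 + M * j) + 1 - r * q0) - ((s0 + M * i) * (t0 + M * j') + 1 - r * q0) := by
        ring
      rw [this]
      have h4 := hd.sub hd'
      push_cast at h4
      rwa [mul_comm (k : ℤ) (M : ℤ)] at h4
    have h4 : (k : ℤ) ∣ (s0 + M * i) * ((j : ℤ) - j') := (mul_dvd_mul_iff_left hMz).mp h3
    have h5 : (k : ℤ) ∣ (j : ℤ) - j' := hcop.symm.dvd_of_dvd_mul_left h4
    have h6 : (j : ℤ) - j' = 0 := by
      apply Int.eq_zero_of_abs_lt_dvd h5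
      rw [abs_lt]
      constructor <;> omega
    have h7 : j = j' := by omega
    rw [h7]
  · intro i hi
    rw [mem_filter, mem_range] at hi
    obtain ⟨hi, u, w, huw⟩ := hi
    -- M divides the constant term
    have hc : (M : ℤ) ∣ (s0 + M * i) * t0 + 1 - r * q0 := by
      have : (s0 + M * i) * t0 + 1 - r * q0
        = -(r0 * q0 - s0 * t0 - 1) - ((r : ℤ) - r0) * q0 + M * (i * t0) := by ring
      rw [this]
      exact ((dvd_neg.mpr h2).sub (h1.mul_right _)).add (Dvd.intro _ rfl)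
    obtain ⟨c, hc⟩ := hc
    refine ⟨(i, ((-(u * c)) % k).toNat), ?_, rfl⟩
    rw [mem_filter, mem_product, mem_range, mem_range]
    have hnn : 0 ≤ (-(u * c)) % k := Int.emod_nonneg _ hkz
    have hlt : (-(u * c)) % k < k := Int.emod_lt_of_pos _ (by omega)
    refine ⟨⟨hi, by simp only; omega⟩, ?_⟩
    simp only
    rw [Int.toNat_of_nonneg hnn]
    have h3 : (-(u * c)) % (k : ℤ) = -(u * c) - k * ((-(u * c)) / k) := by
      have := Int.emod_add_mul_ediv (-(u * c)) k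
      linarith only [this]
    rw [h3]
    refine ⟨-(s0 + M * i) * ((-(u * c)) / k) + w * c, ?_⟩
    push_cast
    linear_combination hc - (M : ℤ) * c * huw

private theorem PR_res (k M : ℕ) (s s0 : ℤ) (hk : 1 ≤ k) (hM : 1 ≤ M) (h : (M : ℤ) ∣ s - s0) :
    (((s - s0) / M) % k).toNat < k ∧
    ((k * M : ℕ) : ℤ) ∣ s - (s0 + M * ((((s - s0) / M) % k).toNat : ℤ)) := by
  have hkz : (k : ℤ) ≠ 0 := by exact_mod_cast (by omega : k ≠ 0)
  have hMz : (M : ℤ) ≠ 0 := by exact_mod_cast (by omega : M ≠ 0)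
  have hnn : 0 ≤ ((s - s0) / M) % k := Int.emod_nonneg _ hkz
  have hlt : ((s - s0) / M) % k < k := Int.emod_lt_of_pos _ (by omega)
  refine ⟨by omega, ?_⟩
  rw [Int.toNat_of_nonneg hnn]
  obtain ⟨c, hc⟩ := h
  have h1 : (s - s0) / M = c := by
    rw [hc]
    exact Int.mul_ediv_cancel_left _ hMz
  rw [h1]
  have h3 : c % (k : ℤ) = c - k * (c / k) := by
    have := Int.emod_add_mul_ediv c k
    linarith only [this]
  rw [h3]
  refine ⟨c / k, ?_⟩
  push_cast
  linear_combination hc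

private theorem PR_uniq (k M : ℕ) (s s0 : ℤ) (i j : ℕ) (hM : 1 ≤ M) (hi : i < k) (hj : j < k)
    (h1 : ((k * M : ℕ) : ℤ) ∣ s - (s0 + M * i)) (h2 : ((k * M : ℕ) : ℤ) ∣ s - (s0 + M * j)) :
    i = j := by
  have hMz : (M : ℤ) ≠ 0 := by exact_mod_cast (by omega : M ≠ 0)
  have h3 : (M : ℤ) * k ∣ M * ((i : ℤ) - j) := by
    have h4 := h2.sub h1
    have : (M : ℤ) * ((i : ℤ) - j) = s - (s0 + M * j) - (s - (s0 + M * i)) := by ring
    rw [this]
    push_cast at h4
    rwa [mul_comm (k : ℤ) (M : ℤ)] at h4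
  have h5 : (k : ℤ) ∣ (i : ℤ) - j := (mul_dvd_mul_iff_left hMz).mp h3
  have h6 : (i : ℤ) - j = 0 := by
    apply Int.eq_zero_of_abs_lt_dvd h5
    rw [abs_lt]
    constructor <;> omega
  omega

private theorem PR_cond (r M : ℕ) (s t q0 : ℤ) (hr : 1 ≤ r) :
    ((r : ℤ) ∣ 1 + s * t ∧ (M : ℤ) ∣ (1 + s * t) / r - q0) ↔
      ((r * M : ℕ) : ℤ) ∣ s * t + 1 - r * q0 := by
  have hrz : (r : ℤ) ≠ 0 := by exact_mod_cast (by omega : r ≠ 0)
  constructor
  · rintro ⟨⟨u, hu⟩, h2⟩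
    rw [hu, Int.mul_ediv_cancel_left _ hrz] at h2
    obtain ⟨c, hc⟩ := h2
    refine ⟨c, ?_⟩
    push_cast
    linear_combination hu + r * hc
  · rintro ⟨c, hc⟩
    push_cast at hc
    have h1 : 1 + s * t = r * (M * c + q0) := by linear_combination hc
    refine ⟨⟨_, h1⟩, ?_⟩
    rw [h1, Int.mul_ediv_cancel_left _ hrz]
    exact ⟨c, by ring⟩

open Classical in
theorem PR : ∃ C : ℝ, 0 < C ∧ ∀ (r M L : ℕ) (r0 s0 t0 q0 : ℤ), 1 ≤ r → 1 ≤ L → Squarefree M →
    (M : ℤ) ∣ (r : ℤ) - r0 → (M : ℤ) ∣ r0 * q0 - s0 * t0 - 1 →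
    |((((Ico (-(r : ℤ)) r) ×ˢ (Ico (-((L : ℤ) * r)) (L * r))).filter (fun x =>
        (r : ℤ) ∣ 1 + x.1 * x.2 ∧ (M : ℤ) ∣ x.1 - s0 ∧ (M : ℤ) ∣ x.2 - t0 ∧
        (M : ℤ) ∣ (1 + x.1 * x.2) / r - q0)).card : ℝ) - 4 * L / (M : ℝ) ^ 2 * phiM M r|
    ≤ C * kk M r * L * (r.divisors.card : ℝ) ^ 2 * (r : ℝ) ^ (3 / 4 : ℝ) * (1 + Real.log r) ^ 2 := by
  obtain ⟨C0, hC0, hKH⟩ := KH
  refine ⟨9 * C0, by positivity, ?_⟩
  intro r M L r0 s0 t0 q0 hr hL hMs h1 h2
  have hM : 1 ≤ M := Nat.one_le_iff_ne_zero.mpr hMs.ne_zero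
  set m := mm M r with hm
  set k := kk M r with hk
  have hmr : m ∣ r := PR_mm_dvd M r
  have hm1 : 1 ≤ m := Nat.pos_of_dvd_of_pos hmr hr
  have hrmk : r = m * k := by
    rw [hk]
    unfold kk
    rw [← hm, Nat.mul_div_cancel' hmr]
  have hms : Squarefree m := PR_mm_sqf M r
  have hmp : ∀ p : ℕ, p.Prime → p ∣ m → p ∣ r ∧ ¬ p ^ 2 ∣ r ∧ ¬ p ∣ M :=
    fun p hp h => PR_mm_prime M r p hp h
  clear_value m k
  have hk1 : 1 ≤ k := by
    rw [Nat.one_le_iff_ne_zero]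
    intro h0
    rw [h0, mul_zero] at hrmk
    omega
  have hmk : m.Coprime k := by
    rw [Nat.coprime_iff_isRelPrime]
    by_contra hcon
    rw [← Nat.coprime_iff_isRelPrime] at hcon
    obtain ⟨p, hp, hpm, hpk⟩ := Nat.Prime.not_coprime_iff_dvd.mp hcon
    apply (hmp p hp hpm).2.1
    rw [hrmk, pow_two]
    exact mul_dvd_mul hpm hpk
  have hmM : m.Coprime M := by
    by_contra hcon
    obtain ⟨p, hp, hpm, hpM⟩ := Nat.Prime.not_coprime_iff_dvd.mp hcon
    exact (hmp p hp hpm).2.2 hpM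
  have hmkM : m.Coprime (k * M) := Nat.Coprime.mul_right hmk hmM
  have hkr : k ∣ r := ⟨m, by rw [hrmk, mul_comm]⟩
  set Cl := (((range k) ×ˢ (range k)).filter (fun x : ℕ × ℕ =>
      ((k * M : ℕ) : ℤ) ∣ (s0 + M * x.1) * (t0 + M * x.2) + 1 - r * q0)) with hCl
  have hCl1 : Cl.card = ((range k).filter (fun i : ℕ => IsCoprime (s0 + M * i) (k : ℤ))).card :=
    PR_Cl_card r M k r0 s0 t0 q0 hk1 hM hkr h1 h2
  have hCl2 : (Cl.card : ℝ) = phiM M k := by
    rw [hCl1]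
    apply PR_count_cop k M s0 hk1
    intro p hp hpk hpM hps
    have e1 : (p : ℤ) ∣ (r : ℤ) := by exact_mod_cast hpk.trans hkr
    have e2 : (p : ℤ) ∣ (M : ℤ) := by exact_mod_cast hpM
    have e3 : (p : ℤ) ∣ r0 := by
      have := e1.sub (e2.trans h1)
      simpa using this
    have e4 : (p : ℤ) ∣ 1 := by
      have : (1 : ℤ) = r0 * q0 - s0 * t0 - (r0 * q0 - s0 * t0 - 1) := by ring
      rw [this]
      exact ((e3.mul_right _).sub (hps.mul_right _)).sub (e2.trans h2)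
    have hp6 : p ∣ 1 := by exact_mod_cast e4
    exact absurd (Nat.dvd_one.mp hp6) hp.one_lt.ne'
  have hClk : (Cl.card : ℝ) ≤ k := by
    rw [hCl1]
    have : ((range k).filter (fun i : ℕ => IsCoprime (s0 + M * i) (k : ℤ))).card ≤ k := by
      refine (card_filter_le _ _).trans ?_
      rw [card_range]
    exact_mod_cast this
  have hphi : phiM M r = (m.totient : ℝ) * Cl.card := by
    rw [hCl2, PR_totient m M hm1 hmM, ← PR_mult M m k hmk, ← hrmk]
  set S := ((Ico (-(r : ℤ)) r) ×ˢ (Ico (-((L : ℤ) * r)) (L * r))).filter (fun x =>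
        (r : ℤ) ∣ 1 + x.1 * x.2 ∧ (M : ℤ) ∣ x.1 - s0 ∧ (M : ℤ) ∣ x.2 - t0 ∧
        (M : ℤ) ∣ (1 + x.1 * x.2) / r - q0) with hS
  set F : ℤ × ℤ → ℕ × ℕ := fun x =>
    ((((x.1 - s0) / M) % k).toNat, (((x.2 - t0) / M) % k).toNat) with hF
  clear_value S Cl
  have hSmem : ∀ x ∈ S, ((r * M : ℕ) : ℤ) ∣ x.1 * x.2 + 1 - r * q0 ∧ (M : ℤ) ∣ x.1 - s0 ∧
      (M : ℤ) ∣ x.2 - t0 := by
    intro x hx
    rw [hS, mem_filter] at hx
    obtain ⟨_, a1, a2, a3, a4⟩ := hx
    exact ⟨(PR_cond r M x.1 x.2 q0 hr).mp ⟨a1, a4⟩, a2, a3⟩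
  have hkMrM : ((k * M : ℕ) : ℤ) ∣ ((r * M : ℕ) : ℤ) := by
    exact_mod_cast Nat.mul_dvd_mul_right hkr M
  have hmaps : ∀ x ∈ S, F x ∈ Cl := by
    intro x hx
    obtain ⟨a1, a2, a3⟩ := hSmem x hx
    have b1 := PR_res k M x.1 s0 hk1 hM a2
    have b2 := PR_res k M x.2 t0 hk1 hM a3
    rw [hCl, mem_filter, mem_product, mem_range, mem_range]
    refine ⟨⟨b1.1, b2.1⟩, ?_⟩
    simp only [hF]
    set i : ℤ := ((((x.1 - s0) / M) % k).toNat : ℤ)
    set j : ℤ := ((((x.2 - t0) / M) % k).toNat : ℤ)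
    have : (s0 + M * i) * (t0 + M * j) + 1 - r * q0
      = (x.1 * x.2 + 1 - r * q0) - (x.1 - (s0 + M * i)) * x.2
        - (s0 + M * i) * (x.2 - (t0 + M * j)) := by ring
    rw [this]
    exact ((hkMrM.trans a1).sub (b1.2.mul_right _)).sub (b2.2.mul_left _)
  have hfib : ∀ b ∈ Cl, S.filter (fun x => F x = b)
      = ((Ico (-(r : ℤ)) r) ×ˢ (Ico (-((L : ℤ) * r)) (L * r))).filter (fun x =>
        ((k * M : ℕ) : ℤ) ∣ x.1 - (s0 + M * b.1) ∧ ((k * M : ℕ) : ℤ) ∣ x.2 - (t0 + M * b.2) ∧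
        (m : ℤ) ∣ x.1 * x.2 + 1) := by
    rintro ⟨b1, b2⟩ hb
    rw [hCl, mem_filter, mem_product, mem_range, mem_range] at hb
    obtain ⟨⟨hb1, hb2⟩, hb3⟩ := hb
    simp only at hb1 hb2 hb3
    ext x
    rw [mem_filter, mem_filter]
    simp only
    constructor
    · rintro ⟨hx, hFx⟩
      obtain ⟨a1, a2, a3⟩ := hSmem x hx
      have c1 := PR_res k M x.1 s0 hk1 hM a2
      have c2 := PR_res k M x.2 t0 hk1 hM a3
      have hF1 : (((x.1 - s0) / M) % k).toNat = b1 := congrArg Prod.fst hFx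
      have hF2 : (((x.2 - t0) / M) % k).toNat = b2 := congrArg Prod.snd hFx
      rw [hF1] at c1
      rw [hF2] at c2
      rw [hS, mem_filter] at hx
      refine ⟨hx.1, c1.2, c2.2, ?_⟩
      have d1 : (m : ℤ) ∣ (r : ℤ) := by exact_mod_cast hmr
      have d2 := d1.trans hx.2.1
      rwa [add_comm] at d2
    · rintro ⟨hx, a1, a2, a3⟩
      have hMk : (M : ℤ) ∣ ((k * M : ℕ) : ℤ) := by
        push_cast
        exact Dvd.intro_left _ rfl
      have c1 : (M : ℤ) ∣ x.1 - s0 := by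
        have : x.1 - s0 = (x.1 - (s0 + M * b1)) + M * b1 := by ring
        rw [this]
        exact (hMk.trans a1).add (Dvd.intro _ rfl)
      have c2 : (M : ℤ) ∣ x.2 - t0 := by
        have : x.2 - t0 = (x.2 - (t0 + M * b2)) + M * b2 := by ring
        rw [this]
        exact (hMk.trans a2).add (Dvd.intro _ rfl)
      have c3 : ((k * M : ℕ) : ℤ) ∣ x.1 * x.2 + 1 - r * q0 := by
        have : x.1 * x.2 + 1 - r * q0
          = ((s0 + M * b1) * (t0 + M * b2) + 1 - r * q0) + (x.1 - (s0 + M * b1)) * x.2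
            + (s0 + M * b1) * (x.2 - (t0 + M * b2)) := by ring
        rw [this]
        exact (hb3.add (a1.mul_right _)).add (a2.mul_left _)
      have c4 : (m : ℤ) ∣ x.1 * x.2 + 1 - r * q0 := by
        have d1 : (m : ℤ) ∣ (r : ℤ) := by exact_mod_cast hmr
        exact a3.sub (d1.mul_right _)
      have c5 : ((r * M : ℕ) : ℤ) ∣ x.1 * x.2 + 1 - r * q0 := by
        have e1 : IsCoprime (m : ℤ) ((k * M : ℕ) : ℤ) := Nat.isCoprime_iff_coprime.mpr hmkM
        have e2 := e1.mul_dvd c4 c3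
        have e3 : ((r * M : ℕ) : ℤ) = (m : ℤ) * ((k * M : ℕ) : ℤ) := by
          rw [hrmk]
          push_cast
          ring
        rw [e3]
        exact e2
      have c6 := (PR_cond r M x.1 x.2 q0 hr).mpr c5
      refine ⟨?_, ?_⟩
      · rw [hS, mem_filter]
        exact ⟨hx, c6.1, c1, c2, c6.2⟩
      · have f1 := PR_res k M x.1 s0 hk1 hM c1
        have f2 := PR_res k M x.2 t0 hk1 hM c2
        have g1 := PR_uniq k M x.1 s0 _ b1 hM f1.1 hb1 f1.2 a1
        have g2 := PR_uniq k M x.2 t0 _ b2 hM f2.1 hb2 f2.2 a2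
        rw [hF]
        simp only
        rw [g1, g2]
  have hcard : (S.card : ℝ) = ∑ b ∈ Cl, ((S.filter (fun x => F x = b)).card : ℝ) := by
    rw [card_eq_sum_card_fiberwise hmaps]
    push_cast
    rfl
  have hrR : (1 : ℝ) ≤ r := by exact_mod_cast hr
  have hmR : (1 : ℝ) ≤ m := by exact_mod_cast hm1
  have hkR : (1 : ℝ) ≤ k := by exact_mod_cast hk1
  have hMR : (1 : ℝ) ≤ M := by exact_mod_cast hM
  have hLR : (1 : ℝ) ≤ L := by exact_mod_cast hL
  have hrmkR : (r : ℝ) = m * k := by exact_mod_cast hrmk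
  have hmain : 4 * L / (M : ℝ) ^ 2 * phiM M r
      = ∑ b ∈ Cl, (4 * L * (m.totient : ℝ) / (M : ℝ) ^ 2) := by
    rw [sum_const, nsmul_eq_mul, hphi]
    ring
  rw [hcard, hmain, ← sum_sub_distrib]
  have hE : ∀ b ∈ Cl, |((S.filter (fun x => F x = b)).card : ℝ)
      - 4 * L * (m.totient : ℝ) / (M : ℝ) ^ 2|
      ≤ 9 * C0 * L * (r.divisors.card : ℝ) ^ 2 * (r : ℝ) ^ (3 / 4 : ℝ) * (1 + Real.log r) ^ 2 := by
    intro b hb
    rw [hfib b hb]
    have hK := hKH m (k * M) (-(r : ℤ)) r (-((L : ℤ) * r)) (L * r) (s0 + M * b.1) (t0 + M * b.2)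
      hms (Nat.mul_pos hk1 hM) hmkM (by omega) (by
        have : (0 : ℤ) ≤ (L : ℤ) * r := by positivity
        linarith only [this])
    have e1 : (((r : ℤ) - -(r : ℤ) : ℤ) : ℝ) = 2 * r := by push_cast; ring
    have e2 : (((L : ℤ) * r - -((L : ℤ) * r) : ℤ) : ℝ) = 2 * L * r := by push_cast; ring
    rw [e1, e2] at hK
    have hden : ((k * M : ℕ) : ℝ) * m = M * r := by
      push_cast
      rw [hrmkR]
      ring
    have e3 : 2 * (r : ℝ) * (2 * L * r) * (m.totient : ℝ) / ((m : ℝ) * ((k * M : ℕ) : ℝ)) ^ 2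
        = 4 * L * (m.totient : ℝ) / (M : ℝ) ^ 2 := by
      rw [mul_comm (m : ℝ) ((k * M : ℕ) : ℝ), hden]
      field_simp
      ring
    rw [e3, hden] at hK
    refine hK.trans ?_
    have e4 : 2 * (r : ℝ) / (M * r) ≤ 2 := by
      rw [div_le_iff₀ (by positivity)]
      nlinarith only [hMR]
    have e5 : 2 * L * (r : ℝ) / (M * r) ≤ 2 * L := by
      rw [div_le_iff₀ (by positivity)]
      nlinarith only [hMR, mul_pos (by linarith : (0 : ℝ) < L) (by linarith : (0 : ℝ) < r)]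
    have e6 : (m.divisors.card : ℝ) ≤ r.divisors.card := by
      exact_mod_cast card_le_card (Nat.divisors_subset_of_dvd (by omega) hmr)
    have hmr' : (m : ℝ) ≤ r := by exact_mod_cast Nat.le_of_dvd hr hmr
    have e7 : (m : ℝ) ^ (3 / 4 : ℝ) ≤ (r : ℝ) ^ (3 / 4 : ℝ) :=
      Real.rpow_le_rpow (by positivity) hmr' (by norm_num)
    have e8 : Real.log m ≤ Real.log r := Real.log_le_log (by linarith only [hmR]) hmr'
    have e9 : 0 ≤ Real.log m := Real.log_nonneg hmR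
    have e10 : (1 + 2 * (r : ℝ) / (M * r)) * (1 + 2 * L * (r : ℝ) / (M * r)) ≤ 9 * L := by
      have : (1 + 2 * (r : ℝ) / (M * r)) * (1 + 2 * L * (r : ℝ) / (M * r)) ≤ 3 * (3 * L) := by
        apply mul_le_mul
        · linarith only [e4]
        · linarith only [hLR, e5]
        · positivity
        · norm_num
      linarith only [this]
    have hcr0 : (0 : ℝ) ≤ (r.divisors.card : ℝ) := Nat.cast_nonneg _
    have hcm0 : (0 : ℝ) ≤ (m.divisors.card : ℝ) := Nat.cast_nonneg _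
    generalize (m.divisors.card : ℝ) = cm at *
    generalize (r.divisors.card : ℝ) = cr at *
    calc C0 * cm ^ 2 * (m : ℝ) ^ (3 / 4 : ℝ) * (1 + Real.log m) ^ 2 *
          (1 + 2 * (r : ℝ) / (M * r)) * (1 + 2 * L * (r : ℝ) / (M * r))
        = (C0 * cm ^ 2 * (m : ℝ) ^ (3 / 4 : ℝ) * (1 + Real.log m) ^ 2) *
          ((1 + 2 * (r : ℝ) / (M * r)) * (1 + 2 * L * (r : ℝ) / (M * r))) := by ring
      _ ≤ (C0 * cr ^ 2 * (r : ℝ) ^ (3 / 4 : ℝ) * (1 + Real.log r) ^ 2) *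
          (9 * L) := by
          apply mul_le_mul _ e10 (by positivity) (by positivity)
          apply mul_le_mul _ _ (by positivity) (by positivity)
          · apply mul_le_mul _ e7 (by positivity) (by positivity)
            apply mul_le_mul_of_nonneg_left _ hC0.le
            exact pow_le_pow_left₀ (by positivity) e6 2
          · exact pow_le_pow_left₀ (by linarith only [e9]) (by linarith only [e8]) 2
      _ = _ := by ring
  refine (abs_sum_le_sum_abs _ _).trans ((sum_le_sum hE).trans ?_)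
  rw [sum_const, nsmul_eq_mul]
  have hcr0 : (0 : ℝ) ≤ (r.divisors.card : ℝ) := Nat.cast_nonneg _
  generalize (r.divisors.card : ℝ) = cr at *
  have hnn : 0 ≤ 9 * C0 * L * cr ^ 2 * (r : ℝ) ^ (3 / 4 : ℝ)
      * (1 + Real.log r) ^ 2 := by positivity
  calc (Cl.card : ℝ) * (9 * C0 * L * cr ^ 2 * (r : ℝ) ^ (3 / 4 : ℝ)
        * (1 + Real.log r) ^ 2)
      ≤ k * (9 * C0 * L * cr ^ 2 * (r : ℝ) ^ (3 / 4 : ℝ)
        * (1 + Real.log r) ^ 2) := mul_le_mul_of_nonneg_right hClk hnn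
    _ = _ := by ring

end Pool.Agent.H37.PPE
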